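import Pool.Agent.Helper87.RC.M_INT

/-!
# Project RC: module CUT, for abstract families
-/

open MeasureTheory Set Filter Metric

namespace Helper87.RC

open Helper49.LT hiding sg
open Helper49.RC Helper44.RC

theorem kr_symm (z z' : ℂ) : kr z z' = kr z' z := by
  unfold kr
  have h : z * (starRingEnd ℂ) z' = (starRingEnd ℂ) (z' * (starRingEnd ℂ) z) := by
    rw [map_mul, Complex.conj_conj]; ring
  rw [h, Complex.arg_conj, Complex.conj_im, abs_neg]
  split_ifs with h1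
  · rw [h1]
  · rw [abs_neg]

/-- abstract families: `A`, `B` antiperiodic, `v` periodic (period `π`), bounded, measurable -/
structure Fam (A B v : ℝ → ℂ) (C : ℝ) : Prop where
  mA : Measurable A
  mB : Measurable B
  mv : Measurable v
  pA : ∀ t, A (t + Real.pi) = -A t
  pB : ∀ t, B (t + Real.pi) = -B t
  pv : ∀ t, v (t + Real.pi) = v t
  bA : ∀ t, ‖A t‖ ≤ C
  bB : ∀ t, ‖B t‖ ≤ C
  bv : ∀ t, ‖v t‖ ≤ C

/-- the four edges -/
noncomputable def qq (A B v : ℝ → ℂ) (t : ℝ) : Fin 4 → ℂ :=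
  ![A t + v t, B t - v t, -A t + v t, -B t - v t]

/-- the points of the quadrilateral -/
noncomputable def yy (A B v : ℝ → ℂ) (t e1 e2 : ℝ) : ℂ :=
  (1 / 2) * ((e1 : ℂ) * A t + (e2 : ℂ) * B t) - (1 / 2) * ((e1 * e2 : ℝ) : ℂ) * v t

/-- the mean of the points for two cuts -/
noncomputable def Y2 (A B v : ℝ → ℂ) (s1 s2 : ℝ) : ℂ :=
  (∫ t in (s1 - 4 * Real.pi / 3)..(s1 - Real.pi / 3), A t)
    + (∫ t in (s2 - 5 * Real.pi / 3)..(s2 - 2 * Real.pi / 3), B t)
    + 2 * ∫ t in (s2 - 2 * Real.pi / 3)..(s1 - Real.pi / 3), v t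

/-- the quadrilateral inequality -/
def QQ (A B v : ℝ → ℂ) : Prop := ∀ (t s : ℝ) (e1 e2 : Fin 4 → ℝ), (∀ l, |e1 l| ≤ 1) →
  (∀ l, |e2 l| ≤ 1) →
  2 * Real.pi * ∑ l, (qq A B v s l * (starRingEnd ℂ) (yy A B v t (e1 l) (e2 l))).im
    ≤ ∑ k, ∑ l, kr (qq A B v t k) (qq A B v s l)

section

variable {A B v : ℝ → ℂ} {C : ℝ}

theorem Fam.iA (h : Fam A B v C) (a b : ℝ) : IntervalIntegrable A volume a b :=
  intg_of_bddC h.mA h.bA a b

theorem Fam.iB (h : Fam A B v C) (a b : ℝ) : IntervalIntegrable B volume a b :=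
  intg_of_bddC h.mB h.bB a b

theorem Fam.iv (h : Fam A B v C) (a b : ℝ) : IntervalIntegrable v volume a b :=
  intg_of_bddC h.mv h.bv a b

theorem Fam.C0 (h : Fam A B v C) : 0 ≤ C := (norm_nonneg _).trans (h.bA 0)

theorem yy_int (h : Fam A B v C) (s1 s2 : ℝ) (hs1 : -(2 * Real.pi / 3) ≤ s2 - s1)
    (hs2 : s2 - s1 ≤ Real.pi / 3) :
    ∫ t in (0 : ℝ)..(2 * Real.pi), yy A B v t (sgs (s1 - t - Real.pi / 3))
      (sgs (s2 - t - 2 * Real.pi / 3))
    = Y2 A B v s1 s2 - 1 / 2 * ∫ t in (0 : ℝ)..(2 * Real.pi), v t := by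
  have hpi := Real.pi_pos
  set a1 := s1 - Real.pi / 3 with ha1
  set a2 := s2 - 2 * Real.pi / 3 with ha2
  have m1 : Measurable fun t : ℝ => sgs (a1 - t) := sgs_meas.comp (measurable_const.sub measurable_id)
  have m2 : Measurable fun t : ℝ => sgs (a2 - t) := sgs_meas.comp (measurable_const.sub measurable_id)
  have e : ∀ t, yy A B v t (sgs (s1 - t - Real.pi / 3)) (sgs (s2 - t - 2 * Real.pi / 3)) =
      (1 / 2) * (((sgs (a1 - t) : ℝ) : ℂ) * A t) + (1 / 2) * (((sgs (a2 - t) : ℝ) : ℂ) * B t)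
        - (1 / 2) * (((sgs (a1 - t) * sgs (a2 - t) : ℝ) : ℂ) * v t) := by
    intro t
    have e1 : s1 - t - Real.pi / 3 = a1 - t := by rw [ha1]; ring
    have e2 : s2 - t - 2 * Real.pi / 3 = a2 - t := by rw [ha2]; ring
    rw [e1, e2]
    unfold yy
    ring
  simp_rw [e]
  have i1 := (int_sgn_mul m1 (fun t => sgs_abs _) h.iA 0 (2 * Real.pi)).const_mul (1 / 2 : ℂ)
  have i2 := (int_sgn_mul m2 (fun t => sgs_abs _) h.iB 0 (2 * Real.pi)).const_mul (1 / 2 : ℂ)
  have i3 : IntervalIntegrable (fun t : ℝ =>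
      (1 / 2 : ℂ) * (((sgs (a1 - t) * sgs (a2 - t) : ℝ) : ℂ) * v t)) volume 0 (2 * Real.pi) :=
    (int_sgn_mul (σ := fun t => sgs (a1 - t) * sgs (a2 - t)) (m1.mul m2) (fun t => by
    show |sgs (a1 - t) * sgs (a2 - t)| ≤ 1
    rw [abs_mul]; exact mul_le_one₀ (sgs_abs _) (abs_nonneg _) (sgs_abs _))
    h.iv 0 (2 * Real.pi)).const_mul (1 / 2 : ℂ)
  rw [intervalIntegral.integral_sub (i1.add i2) i3, intervalIntegral.integral_add i1 i2,
    intervalIntegral.integral_const_mul, intervalIntegral.integral_const_mul,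
    intervalIntegral.integral_const_mul, int_sign h.pA h.iA a1,
    int_sign h.pB h.iB a2]
  have h3 := int_prod h.pv h.iv a1 a2 (by rw [ha1, ha2]; linarith)
    (by rw [ha1, ha2]; linarith)
  rw [h3]
  unfold Y2
  have e3 : a1 - Real.pi = s1 - 4 * Real.pi / 3 := by rw [ha1]; ring
  have e4 : a2 - Real.pi = s2 - 5 * Real.pi / 3 := by rw [ha2]; ring
  rw [e3, e4]
  ring

theorem two_per {g : ℝ → ℂ} (hg : ∀ t, g (t + Real.pi) = -g t) (t : ℝ) :
    g (t + 2 * Real.pi) = g t := by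
  rw [two_mul, ← add_assoc, hg, hg, neg_neg]

theorem two_per' {g : ℝ → ℂ} (hg : ∀ t, g (t + Real.pi) = g t) (t : ℝ) :
    g (t + 2 * Real.pi) = g t := by
  rw [two_mul, ← add_assoc, hg, hg]

theorem int_add_per {g : ℝ → ℂ} (hg : ∀ t, g (t + 2 * Real.pi) = g t) (a b : ℝ) :
    ∫ t in (a + 2 * Real.pi)..(b + 2 * Real.pi), g t = ∫ t in a..b, g t := by
  rw [← intervalIntegral.integral_comp_add_right (fun t => g t)]
  exact intervalIntegral.integral_congr fun t _ => hg t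

theorem Y2_per (h : Fam A B v C) (s1 s2 : ℝ) :
    Y2 A B v (s1 + 2 * Real.pi) (s2 + 2 * Real.pi) = Y2 A B v s1 s2 := by
  unfold Y2
  have e1 : s1 + 2 * Real.pi - 4 * Real.pi / 3 = (s1 - 4 * Real.pi / 3) + 2 * Real.pi := by ring
  have e2 : s1 + 2 * Real.pi - Real.pi / 3 = (s1 - Real.pi / 3) + 2 * Real.pi := by ring
  have e3 : s2 + 2 * Real.pi - 5 * Real.pi / 3 = (s2 - 5 * Real.pi / 3) + 2 * Real.pi := by ring
  have e4 : s2 + 2 * Real.pi - 2 * Real.pi / 3 = (s2 - 2 * Real.pi / 3) + 2 * Real.pi := by ring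
  rw [e1, e2, e3, e4, int_add_per (two_per h.pA), int_add_per (two_per h.pB),
    int_add_per (two_per' h.pv)]

theorem prim_meas {g : ℝ → ℂ} (hi : ∀ a b : ℝ, IntervalIntegrable g volume a b) {f1 f2 : ℝ → ℝ}
    (h1 : Measurable f1) (h2 : Measurable f2) :
    Measurable (fun θ => ∫ t in (f1 θ)..(f2 θ), g t) := by
  have hc := intervalIntegral.continuous_primitive (μ := volume) (f := g) hi 0
  have e : (fun θ => ∫ t in (f1 θ)..(f2 θ), g t) =
      fun θ => (∫ t in (0 : ℝ)..(f2 θ), g t) - ∫ t in (0 : ℝ)..(f1 θ), g t := by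
    funext θ
    rw [intervalIntegral.integral_interval_sub_left (hi _ _) (hi _ _)]
  rw [e]
  exact (hc.measurable.comp h2).sub (hc.measurable.comp h1)

theorem Y2_meas (h : Fam A B v C) {f1 f2 : ℝ → ℝ} (h1 : Measurable f1) (h2 : Measurable f2) :
    Measurable (fun θ => Y2 A B v (f1 θ) (f2 θ)) := by
  unfold Y2
  refine (Measurable.add ?_ ?_).add (Measurable.const_mul ?_ 2)
  · exact prim_meas h.iA (h1.sub_const _) (h1.sub_const _)
  · exact prim_meas h.iB (h2.sub_const _) (h2.sub_const _)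
  · exact prim_meas h.iv (h2.sub_const _) (h1.sub_const _)

theorem Y2_le (h : Fam A B v C) (s1 s2 : ℝ) (hs : |s1 - s2| ≤ Real.pi) :
    ‖Y2 A B v s1 s2‖ ≤ 6 * Real.pi * C := by
  have hpi := Real.pi_pos
  have hC := h.C0
  have h1 : ‖∫ t in (s1 - 4 * Real.pi / 3)..(s1 - Real.pi / 3), A t‖ ≤ C * Real.pi := by
    have := intervalIntegral.norm_integral_le_of_norm_le_const (a := s1 - 4 * Real.pi / 3)
      (b := s1 - Real.pi / 3) (f := A) (C := C) (fun t _ => h.bA t)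
    have e : s1 - Real.pi / 3 - (s1 - 4 * Real.pi / 3) = Real.pi := by ring
    rw [e, abs_of_pos hpi] at this
    exact this
  have h2 : ‖∫ t in (s2 - 5 * Real.pi / 3)..(s2 - 2 * Real.pi / 3), B t‖ ≤ C * Real.pi := by
    have := intervalIntegral.norm_integral_le_of_norm_le_const (a := s2 - 5 * Real.pi / 3)
      (b := s2 - 2 * Real.pi / 3) (f := B) (C := C) (fun t _ => h.bB t)
    have e : s2 - 2 * Real.pi / 3 - (s2 - 5 * Real.pi / 3) = Real.pi := by ring
    rw [e, abs_of_pos hpi] at this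
    exact this
  have h3 : ‖∫ t in (s2 - 2 * Real.pi / 3)..(s1 - Real.pi / 3), v t‖ ≤ C * (2 * Real.pi) := by
    refine (intervalIntegral.norm_integral_le_of_norm_le_const (fun t _ => h.bv t)).trans ?_
    refine mul_le_mul_of_nonneg_left ?_ hC
    rw [abs_le] at hs ⊢
    constructor <;> linarith [hs.1, hs.2]
  unfold Y2
  refine (norm_add_le _ _).trans ?_
  have h4 := norm_add_le (∫ t in (s1 - 4 * Real.pi / 3)..(s1 - Real.pi / 3), A t)
    (∫ t in (s2 - 5 * Real.pi / 3)..(s2 - 2 * Real.pi / 3), B t)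
  rw [norm_mul, Complex.norm_ofNat]
  nlinarith

theorem im_conj_le {x y : ℂ} {a b : ℝ} (hx : ‖x‖ ≤ a) (hy : ‖y‖ ≤ b) :
    |(x * (starRingEnd ℂ) y).im| ≤ a * b := by
  refine (Complex.abs_im_le_norm _).trans ?_
  rw [norm_mul, Complex.norm_conj]
  exact mul_le_mul hx hy (norm_nonneg _) ((norm_nonneg _).trans hx)

theorem im_conj_meas {x y : ℝ → ℂ} (hx : Measurable x) (hy : Measurable y) :
    Measurable (fun t => (x t * (starRingEnd ℂ) (y t)).im) :=
  Complex.measurable_im.comp (hx.mul (Complex.continuous_conj.measurable.comp hy))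

theorem int_im (c : ℂ) {f : ℝ → ℂ} (hf : IntervalIntegrable f volume 0 (2 * Real.pi)) :
    ∫ s in (0 : ℝ)..(2 * Real.pi), (c * (starRingEnd ℂ) (f s)).im =
      (c * (starRingEnd ℂ) (∫ s in (0 : ℝ)..(2 * Real.pi), f s)).im := by
  have h1 : ∀ z : ℂ, (c * (starRingEnd ℂ) z).im = ((starRingEnd ℂ) (-(Complex.I * c)) * z).re := by
    intro z
    simp [Complex.mul_re, Complex.mul_im]
    ring
  simp_rw [h1]
  exact int_cm _ hf

theorem int_per_shift {g : ℝ → ℝ} (hg : Function.Periodic g (2 * Real.pi)) (c : ℝ) :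
    ∫ t in (0 : ℝ)..(2 * Real.pi), g (t + c) = ∫ t in (0 : ℝ)..(2 * Real.pi), g t := by
  rw [intervalIntegral.integral_comp_add_right (fun t => g t)]
  have := hg.intervalIntegral_add_eq c 0
  rw [zero_add] at this
  rw [zero_add, add_comm (2 * Real.pi), this]

theorem qq_meas (h : Fam A B v C) (k : Fin 4) : Measurable (fun t => qq A B v t k) := by
  fin_cases k
  · exact h.mA.add h.mv
  · exact h.mB.sub h.mv
  · exact h.mA.neg.add h.mv
  · exact h.mB.neg.sub h.mv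

theorem qq_le (h : Fam A B v C) (t : ℝ) (k : Fin 4) : ‖qq A B v t k‖ ≤ 2 * C := by
  have a := h.bA t
  have b := h.bB t
  have c := h.bv t
  fin_cases k
  · exact (norm_add_le _ _).trans (by linarith)
  · exact (norm_sub_le _ _).trans (by linarith)
  · exact (norm_add_le _ _).trans (by rw [norm_neg]; linarith)
  · exact (norm_sub_le _ _).trans (by rw [norm_neg]; linarith)

theorem qq_sum (t : ℝ) : ∑ l, qq A B v t l = 0 := by
  rw [Fin.sum_univ_four]
  show A t + v t + (B t - v t) + (-A t + v t) + (-B t - v t) = 0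
  ring

theorem yy_meas (h : Fam A B v C) {σ τ : ℝ → ℝ} (h1 : Measurable σ) (h2 : Measurable τ) :
    Measurable (fun t => yy A B v t (σ t) (τ t)) := by
  unfold yy
  have hs : Measurable (fun t => ((σ t : ℝ) : ℂ)) := Complex.measurable_ofReal.comp h1
  have ht : Measurable (fun t => ((τ t : ℝ) : ℂ)) := Complex.measurable_ofReal.comp h2
  have hst : Measurable (fun t => ((σ t * τ t : ℝ) : ℂ)) := Complex.measurable_ofReal.comp (h1.mul h2)
  exact (((hs.mul h.mA).add (ht.mul h.mB)).const_mul _).sub ((hst.const_mul _).mul h.mv)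

theorem yy_le (h : Fam A B v C) (t : ℝ) {e1 e2 : ℝ} (h1 : |e1| ≤ 1) (h2 : |e2| ≤ 1) :
    ‖yy A B v t e1 e2‖ ≤ 2 * C := by
  have a := h.bA t
  have b := h.bB t
  have c := h.bv t
  have hC := h.C0
  unfold yy
  refine (norm_sub_le _ _).trans ?_
  have n1 : ‖(e1 : ℂ) * A t‖ ≤ C := by
    rw [norm_mul, Complex.norm_real, Real.norm_eq_abs]
    nlinarith [abs_nonneg e1, norm_nonneg (A t)]
  have n2 : ‖(e2 : ℂ) * B t‖ ≤ C := by
    rw [norm_mul, Complex.norm_real, Real.norm_eq_abs]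
    nlinarith [abs_nonneg e2, norm_nonneg (B t)]
  have n3 : ‖((e1 * e2 : ℝ) : ℂ) * v t‖ ≤ C := by
    rw [norm_mul, Complex.norm_real, Real.norm_eq_abs, abs_mul]
    have : |e1| * |e2| ≤ 1 := mul_le_one₀ h1 (abs_nonneg _) h2
    nlinarith [mul_nonneg (abs_nonneg e1) (abs_nonneg e2), norm_nonneg (v t)]
  have n12 := norm_add_le ((e1 : ℂ) * A t) ((e2 : ℂ) * B t)
  rw [mul_assoc, norm_mul, norm_mul]
  have e : ‖(1 / 2 : ℂ)‖ = 1 / 2 := by norm_num
  rw [e]
  linarith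

/-- the two integrands of the arrangement bound -/
noncomputable def H1 (A B v : ℝ → ℂ) (ψ : ℝ → ℝ) (θ : ℝ) : ℝ :=
  ((A (θ - Real.pi / 3) + v (θ - Real.pi / 3)) * (starRingEnd ℂ) (Y2 A B v θ (θ - ψ θ))).im

noncomputable def H2 (A B v : ℝ → ℂ) (ψ : ℝ → ℝ) (θ : ℝ) : ℝ :=
  ((B (θ - 2 * Real.pi / 3) - v (θ - 2 * Real.pi / 3)) *
    (starRingEnd ℂ) (Y2 A B v (θ + ψ θ) θ)).im

theorem H1_per (h : Fam A B v C) {ψ : ℝ → ℝ} (hp : ∀ θ, ψ (θ + 2 * Real.pi) = ψ θ) :
    Function.Periodic (H1 A B v ψ) (2 * Real.pi) := by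
  intro θ
  unfold H1
  have e1 : θ + 2 * Real.pi - Real.pi / 3 = (θ - Real.pi / 3) + 2 * Real.pi := by ring
  have e2 : θ + 2 * Real.pi - ψ θ = (θ - ψ θ) + 2 * Real.pi := by ring
  rw [hp, e1, e2, Y2_per h, two_per h.pA, two_per' h.pv]

theorem H2_per (h : Fam A B v C) {ψ : ℝ → ℝ} (hp : ∀ θ, ψ (θ + 2 * Real.pi) = ψ θ) :
    Function.Periodic (H2 A B v ψ) (2 * Real.pi) := by
  intro θ
  unfold H2
  have e1 : θ + 2 * Real.pi - 2 * Real.pi / 3 = (θ - 2 * Real.pi / 3) + 2 * Real.pi := by ring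
  have e2 : θ + 2 * Real.pi + ψ θ = (θ + ψ θ) + 2 * Real.pi := by ring
  rw [hp, e1, e2, Y2_per h, two_per h.pB, two_per' h.pv]

theorem H1_meas (h : Fam A B v C) {ψ : ℝ → ℝ} (hm : Measurable ψ) : Measurable (H1 A B v ψ) := by
  unfold H1
  refine im_conj_meas ?_ ?_
  · exact (h.mA.comp (measurable_id.sub_const _)).add (h.mv.comp (measurable_id.sub_const _))
  · exact Y2_meas h measurable_id (measurable_id.sub hm)

theorem H2_meas (h : Fam A B v C) {ψ : ℝ → ℝ} (hm : Measurable ψ) : Measurable (H2 A B v ψ) := by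
  unfold H2
  refine im_conj_meas ?_ ?_
  · exact (h.mB.comp (measurable_id.sub_const _)).sub (h.mv.comp (measurable_id.sub_const _))
  · exact Y2_meas h (measurable_id.add hm) measurable_id

theorem H1_le (h : Fam A B v C) {ψ : ℝ → ℝ} (hb : ∀ θ, |ψ θ| ≤ Real.pi / 3) (θ : ℝ) :
    |H1 A B v ψ θ| ≤ (2 * C) * (6 * Real.pi * C) := by
  unfold H1
  refine im_conj_le ?_ (Y2_le h _ _ ?_)
  · exact (norm_add_le _ _).trans (by have := h.bA (θ - Real.pi / 3)
                                      have := h.bv (θ - Real.pi / 3)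
                                      linarith)
  · have e : θ - (θ - ψ θ) = ψ θ := by ring
    rw [e]
    exact (hb θ).trans (by linarith [Real.pi_pos])

theorem H2_le (h : Fam A B v C) {ψ : ℝ → ℝ} (hb : ∀ θ, |ψ θ| ≤ Real.pi / 3) (θ : ℝ) :
    |H2 A B v ψ θ| ≤ (2 * C) * (6 * Real.pi * C) := by
  unfold H2
  refine im_conj_le ?_ (Y2_le h _ _ ?_)
  · exact (norm_sub_le _ _).trans (by have := h.bB (θ - 2 * Real.pi / 3)
                                      have := h.bv (θ - 2 * Real.pi / 3)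
                                      linarith)
  · have e : θ + ψ θ - θ = ψ θ := by ring
    rw [e]
    exact (hb θ).trans (by linarith [Real.pi_pos])

/-- the cuts for the edge `l` of the quadrilateral of the direction `a` -/
noncomputable def c1 (ψ : ℝ → ℝ) (a : ℝ) : Fin 4 → ℝ :=
  ![a + Real.pi / 3, a + 2 * Real.pi / 3 + ψ (a + 2 * Real.pi / 3), a + 4 * Real.pi / 3,
    a + 5 * Real.pi / 3 + ψ (a + 5 * Real.pi / 3)]

noncomputable def c2 (ψ : ℝ → ℝ) (a : ℝ) : Fin 4 → ℝ :=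
  ![a + Real.pi / 3 - ψ (a + Real.pi / 3), a + 2 * Real.pi / 3,
    a + 4 * Real.pi / 3 - ψ (a + 4 * Real.pi / 3), a + 5 * Real.pi / 3]

theorem c_diff {ψ : ℝ → ℝ} (hb : ∀ θ, |ψ θ| ≤ Real.pi / 3) (a : ℝ) (l : Fin 4) :
    |c2 ψ a l - c1 ψ a l| ≤ Real.pi / 3 := by
  fin_cases l
  · show |a + Real.pi / 3 - ψ (a + Real.pi / 3) - (a + Real.pi / 3)| ≤ _
    have e : a + Real.pi / 3 - ψ (a + Real.pi / 3) - (a + Real.pi / 3) = -ψ (a + Real.pi / 3) := by
      ring
    rw [e, abs_neg]; exact hb _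
  · show |a + 2 * Real.pi / 3 - (a + 2 * Real.pi / 3 + ψ (a + 2 * Real.pi / 3))| ≤ _
    have e : a + 2 * Real.pi / 3 - (a + 2 * Real.pi / 3 + ψ (a + 2 * Real.pi / 3)) =
      -ψ (a + 2 * Real.pi / 3) := by ring
    rw [e, abs_neg]; exact hb _
  · show |a + 4 * Real.pi / 3 - ψ (a + 4 * Real.pi / 3) - (a + 4 * Real.pi / 3)| ≤ _
    have e : a + 4 * Real.pi / 3 - ψ (a + 4 * Real.pi / 3) - (a + 4 * Real.pi / 3) =
      -ψ (a + 4 * Real.pi / 3) := by ring
    rw [e, abs_neg]; exact hb _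
  · show |a + 5 * Real.pi / 3 - (a + 5 * Real.pi / 3 + ψ (a + 5 * Real.pi / 3))| ≤ _
    have e : a + 5 * Real.pi / 3 - (a + 5 * Real.pi / 3 + ψ (a + 5 * Real.pi / 3)) =
      -ψ (a + 5 * Real.pi / 3) := by ring
    rw [e, abs_neg]; exact hb _

/-- the inner integral -/
theorem inner (h : Fam A B v C) (hq : QQ A B v) {ψ : ℝ → ℝ} (hb : ∀ θ, |ψ θ| ≤ Real.pi / 3)
    (a : ℝ) : 2 * Real.pi * ∑ l, (qq A B v a l * (starRingEnd ℂ) (Y2 A B v (c1 ψ a l) (c2 ψ a l))).im ≤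
      ∫ b in (0 : ℝ)..(2 * Real.pi), ∑ k, ∑ l, kr (qq A B v a k) (qq A B v b l) := by
  have hpi := Real.pi_pos
  have hG : ∀ b, ∑ k, ∑ l, kr (qq A B v a k) (qq A B v b l) =
      ∑ k, ∑ l, kr (qq A B v b k) (qq A B v a l) := by
    intro b
    rw [Finset.sum_comm]
    exact Finset.sum_congr rfl fun k _ => Finset.sum_congr rfl fun l _ => kr_symm _ _
  have hms : ∀ (c d : ℝ), Measurable (fun b : ℝ => sgs (c - b - d)) := fun c d =>
    sgs_meas.comp ((measurable_const.sub measurable_id).sub_const _)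
  have key : ∀ b, 2 * Real.pi * ∑ l, (qq A B v a l * (starRingEnd ℂ) (yy A B v b
      (sgs (c1 ψ a l - b - Real.pi / 3)) (sgs (c2 ψ a l - b - 2 * Real.pi / 3)))).im ≤
      ∑ k, ∑ l, kr (qq A B v a k) (qq A B v b l) := by
    intro b
    rw [hG b]
    exact hq b a (fun l => sgs (c1 ψ a l - b - Real.pi / 3))
      (fun l => sgs (c2 ψ a l - b - 2 * Real.pi / 3)) (fun l => sgs_abs _) (fun l => sgs_abs _)
  have hyi : ∀ l : Fin 4, IntervalIntegrable (fun b => yy A B v b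
      (sgs (c1 ψ a l - b - Real.pi / 3)) (sgs (c2 ψ a l - b - 2 * Real.pi / 3))) volume 0
        (2 * Real.pi) := fun l =>
    intg_of_bddC (yy_meas h (hms _ _) (hms _ _)) (fun b => yy_le h b (sgs_abs _) (sgs_abs _)) _ _
  have hli : ∀ l : Fin 4, IntervalIntegrable (fun b => (qq A B v a l * (starRingEnd ℂ) (yy A B v b
      (sgs (c1 ψ a l - b - Real.pi / 3)) (sgs (c2 ψ a l - b - 2 * Real.pi / 3)))).im) volume 0
        (2 * Real.pi) := fun l =>
    intg_of_bdd (im_conj_meas measurable_const (yy_meas h (hms _ _) (hms _ _)))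
      (fun b => im_conj_le (qq_le h a l) (yy_le h b (sgs_abs _) (sgs_abs _))) _ _
  have hri : IntervalIntegrable (fun b => ∑ k, ∑ l, kr (qq A B v a k) (qq A B v b l)) volume 0
      (2 * Real.pi) :=
    intg_of_bdd ((KK_meas (e := qq A B v) (qq_meas h)).comp (measurable_const.prodMk measurable_id))
      (KK_le (e := qq A B v) (qq_le h) a) _ _
  have hsi : IntervalIntegrable (fun b => ∑ l, (qq A B v a l * (starRingEnd ℂ) (yy A B v b
      (sgs (c1 ψ a l - b - Real.pi / 3)) (sgs (c2 ψ a l - b - 2 * Real.pi / 3)))).im) volume 0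
        (2 * Real.pi) := by
    simp_rw [Fin.sum_univ_four]
    exact (((hli 0).add (hli 1)).add (hli 2)).add (hli 3)
  have hmono := intervalIntegral.integral_mono_on (by positivity : (0 : ℝ) ≤ 2 * Real.pi)
    (hsi.const_mul (2 * Real.pi)) hri (fun b _ => key b)
  refine le_trans (le_of_eq ?_) hmono
  rw [intervalIntegral.integral_const_mul, intervalIntegral.integral_finsetSum (fun l _ => hli l)]
  congr 1
  have hl : ∀ l : Fin 4, ∫ b in (0 : ℝ)..(2 * Real.pi), (qq A B v a l * (starRingEnd ℂ) (yy A B v b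
      (sgs (c1 ψ a l - b - Real.pi / 3)) (sgs (c2 ψ a l - b - 2 * Real.pi / 3)))).im =
      (qq A B v a l * (starRingEnd ℂ) (Y2 A B v (c1 ψ a l) (c2 ψ a l))).im -
      (qq A B v a l * (starRingEnd ℂ) (1 / 2 * ∫ t in (0 : ℝ)..(2 * Real.pi), v t)).im := by
    intro l
    have hd := c_diff hb a l
    rw [abs_le] at hd
    rw [int_im _ (hyi l), yy_int h _ _ (by linarith [hd.1]) hd.2, map_sub, mul_sub, Complex.sub_im]
  simp_rw [hl]
  rw [Finset.sum_sub_distrib]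
  have h0 : ∑ l, (qq A B v a l * (starRingEnd ℂ) (1 / 2 * ∫ t in (0 : ℝ)..(2 * Real.pi), v t)).im = 0 := by
    rw [← Complex.im_sum, ← Finset.sum_mul, qq_sum, zero_mul, Complex.zero_im]
  rw [h0, sub_zero]

theorem sum_H (h : Fam A B v C) (ψ : ℝ → ℝ) (a : ℝ) :
    ∑ l, (qq A B v a l * (starRingEnd ℂ) (Y2 A B v (c1 ψ a l) (c2 ψ a l))).im =
      H1 A B v ψ (a + Real.pi / 3) + H2 A B v ψ (a + 2 * Real.pi / 3) +
      (H1 A B v ψ (a + 4 * Real.pi / 3) + H2 A B v ψ (a + 5 * Real.pi / 3)) := by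
  rw [Fin.sum_univ_four]
  unfold H1 H2
  have e1 : a + Real.pi / 3 - Real.pi / 3 = a := by ring
  have e2 : a + 2 * Real.pi / 3 - 2 * Real.pi / 3 = a := by ring
  have e3 : a + 4 * Real.pi / 3 - Real.pi / 3 = a + Real.pi := by ring
  have e4 : a + 5 * Real.pi / 3 - 2 * Real.pi / 3 = a + Real.pi := by ring
  rw [e1, e2, e3, e4, h.pA, h.pB, h.pv]
  show ((A a + v a) * (starRingEnd ℂ) (Y2 A B v (a + Real.pi / 3)
      (a + Real.pi / 3 - ψ (a + Real.pi / 3)))).im +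
    ((B a - v a) * (starRingEnd ℂ) (Y2 A B v (a + 2 * Real.pi / 3 + ψ (a + 2 * Real.pi / 3))
      (a + 2 * Real.pi / 3))).im +
    ((-A a + v a) * (starRingEnd ℂ) (Y2 A B v (a + 4 * Real.pi / 3)
      (a + 4 * Real.pi / 3 - ψ (a + 4 * Real.pi / 3)))).im +
    ((-B a - v a) * (starRingEnd ℂ) (Y2 A B v (a + 5 * Real.pi / 3 + ψ (a + 5 * Real.pi / 3))
      (a + 5 * Real.pi / 3))).im = _
  ring

/-- The arrangement bound for abstract families. -/
theorem cut_gen (h : Fam A B v C) (hq : QQ A B v) {ψ : ℝ → ℝ} (hm : Measurable ψ)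
    (hp : ∀ θ, ψ (θ + 2 * Real.pi) = ψ θ) (hb : ∀ θ, |ψ θ| ≤ Real.pi / 3) :
    4 * Real.pi * ∫ θ in (0 : ℝ)..(2 * Real.pi), (H1 A B v ψ θ + H2 A B v ψ θ) ≤
      ∫ a in (0 : ℝ)..(2 * Real.pi), ∫ b in (0 : ℝ)..(2 * Real.pi),
        ∑ k, ∑ l, kr (qq A B v a k) (qq A B v b l) := by
  have hpi := Real.pi_pos
  have i1 : ∀ c : ℝ, IntervalIntegrable (fun a => H1 A B v ψ (a + c)) volume 0 (2 * Real.pi) := fun c =>
    intg_of_bdd ((H1_meas h hm).comp (measurable_id.add_const _)) (fun a => H1_le h hb _) _ _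
  have i2 : ∀ c : ℝ, IntervalIntegrable (fun a => H2 A B v ψ (a + c)) volume 0 (2 * Real.pi) := fun c =>
    intg_of_bdd ((H2_meas h hm).comp (measurable_id.add_const _)) (fun a => H2_le h hb _) _ _
  have j1 : IntervalIntegrable (H1 A B v ψ) volume 0 (2 * Real.pi) :=
    intg_of_bdd (H1_meas h hm) (fun a => H1_le h hb _) _ _
  have j2 : IntervalIntegrable (H2 A B v ψ) volume 0 (2 * Real.pi) :=
    intg_of_bdd (H2_meas h hm) (fun a => H2_le h hb _) _ _
  have hL := (((i1 (Real.pi / 3)).add (i2 (2 * Real.pi / 3))).add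
    ((i1 (4 * Real.pi / 3)).add (i2 (5 * Real.pi / 3)))).const_mul (2 * Real.pi)
  have hKm : Measurable (fun a => ∫ b in (0 : ℝ)..(2 * Real.pi),
      ∑ k, ∑ l, kr (qq A B v a k) (qq A B v b l)) := by
    have h1 : StronglyMeasurable (fun q : ℝ × ℝ => KK (qq A B v) q.1 q.2) :=
      (KK_meas (qq_meas h)).stronglyMeasurable
    have h2 := h1.integral_prod_right' (ν := volume.restrict (Ioc 0 (2 * Real.pi)))
    have h3 : (fun a => ∫ b in (0 : ℝ)..(2 * Real.pi),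
        ∑ k, ∑ l, kr (qq A B v a k) (qq A B v b l)) =
        fun a => ∫ b, KK (qq A B v) a b ∂(volume.restrict (Ioc 0 (2 * Real.pi))) := by
      funext t
      rw [intervalIntegral.integral_of_le (by positivity)]
      rfl
    rw [h3]
    exact h2.measurable
  have hR : IntervalIntegrable (fun a => ∫ b in (0 : ℝ)..(2 * Real.pi),
      ∑ k, ∑ l, kr (qq A B v a k) (qq A B v b l)) volume 0 (2 * Real.pi) := by
    refine intg_of_bdd hKm (C := (4 : ℕ) * ((4 : ℕ) * (Real.pi * ((2 * C) * (2 * C)))) *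
      |2 * Real.pi - 0|) ?_ _ _
    intro a
    rw [← Real.norm_eq_abs]
    exact intervalIntegral.norm_integral_le_of_norm_le_const fun b _ => by
      rw [Real.norm_eq_abs]; exact KK_le (qq_le h) a b
  have hmono := intervalIntegral.integral_mono_on (by positivity : (0 : ℝ) ≤ 2 * Real.pi)
    hL hR (fun a _ => by
      have := inner h hq hb a
      rw [sum_H h] at this
      exact this)
  refine le_trans (le_of_eq ?_) hmono
  rw [intervalIntegral.integral_const_mul, intervalIntegral.integral_add ((i1 _).add (i2 _))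
    ((i1 _).add (i2 _)), intervalIntegral.integral_add (i1 _) (i2 _),
    intervalIntegral.integral_add (i1 _) (i2 _), int_per_shift (H1_per h hp),
    int_per_shift (H1_per h hp), int_per_shift (H2_per h hp), int_per_shift (H2_per h hp),
    intervalIntegral.integral_add j1 j2]
  ring

end

section

variable {β P : ℝ → ℂ}

theorem fam (h : Adm β P) : Fam (E1 β) (E2 β) (vv P) 6 where
  mA := E1_meas h
  mB := E2_meas h
  mv := vv_meas h
  pA := E1_per h
  pB := E2_per h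
  pv := vv_per h
  bA := E1_le h
  bB := E2_le h
  bv := fun t => (vv_le h t).trans (by norm_num)

theorem qq_eq (β P : ℝ → ℂ) (t : ℝ) : qq (E1 β) (E2 β) (vv P) t = q4 t (β t) (P t) := by
  unfold qq q4 E1 E2 vv f1 f2
  funext l
  fin_cases l
  · show ee t * (om + (starRingEnd ℂ) om * β t + 0) + ee t * P t =
      ee t * (om + (starRingEnd ℂ) om * β t + P t)
    ring
  · show ee t * (om ^ 2 + (starRingEnd ℂ) om ^ 2 * β t - 0) - ee t * P t =
      ee t * (om ^ 2 + (starRingEnd ℂ) om ^ 2 * β t - P t)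
    ring
  · show -(ee t * (om + (starRingEnd ℂ) om * β t + 0)) + ee t * P t =
      -(ee t * (om + (starRingEnd ℂ) om * β t + -P t))
    ring
  · show -(ee t * (om ^ 2 + (starRingEnd ℂ) om ^ 2 * β t - 0)) - ee t * P t =
      -(ee t * (om ^ 2 + (starRingEnd ℂ) om ^ 2 * β t - -P t))
    ring

theorem yy_eq (β P : ℝ → ℂ) (t e1 e2 : ℝ) :
    yy (E1 β) (E2 β) (vv P) t e1 e2 = yv (β t) (P t) t e1 e2 := by
  unfold yy yv E1 E2 vv
  ring

/-- Module CUT. -/
theorem hCUT (hQ : StQQ) : StCut := by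
  intro β P h hb1 ψ hm hp hb
  have hq : QQ (E1 β) (E2 β) (vv P) := by
    intro t s e1 e2 h1 h2
    rw [qq_eq, qq_eq]
    simp_rw [yy_eq]
    exact hQ (β t) (P t) (β s) (P s) t s (hb1 t) (h.reg t) e1 e2 h1 h2
  have hc := cut_gen (fam h) hq hm hp hb
  have hpi := Real.pi_pos
  unfold AQQ
  simp_rw [← qq_eq]
  have e : (fun θ => ((F1 β P θ * (starRingEnd ℂ) (YY β P θ (θ - ψ θ))).im
      + (F2 β P θ * (starRingEnd ℂ) (YY β P (θ + ψ θ) θ)).im)) =
      fun θ => (H1 (E1 β) (E2 β) (vv P) ψ θ + H2 (E1 β) (E2 β) (vv P) ψ θ) := rfl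
  rw [e]
  set X := ∫ θ in (0 : ℝ)..(2 * Real.pi), (H1 (E1 β) (E2 β) (vv P) ψ θ + H2 (E1 β) (E2 β) (vv P) ψ θ)
  set Z := ∫ a in (0 : ℝ)..(2 * Real.pi), ∫ b in (0 : ℝ)..(2 * Real.pi),
    ∑ k, ∑ l, kr (qq (E1 β) (E2 β) (vv P) a k) (qq (E1 β) (E2 β) (vv P) b l)
  have e2 : 1 / 4 * (1 / (2 * Real.pi)) ^ 2 * Z = 1 / (16 * Real.pi ^ 2) * Z := by
    field_simp
    ring
  have e3 : 1 / (4 * Real.pi) * X = 1 / (16 * Real.pi ^ 2) * (4 * Real.pi * X) := by
    field_simp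
    ring
  rw [e2, e3]
  exact mul_le_mul_of_nonneg_left hc (by positivity)

end

end Helper87.RC
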