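import Pool.Agent.Helper56.RC.St
import Pool.Agent.Helper87.RC.M_CUT

/-!
# Project RC: bilinear Parseval formula with a convolution kernel
-/

open MeasureTheory Set Filter Metric

namespace Helper87.RC

open Helper49.LT hiding sg
open Helper56.RC (fc)

/-- bounded measurable functions -/
structure BM (f : ℝ → ℂ) (C : ℝ) : Prop where
  m : Measurable f
  b : ∀ t, ‖f t‖ ≤ C

section

variable {f g k : ℝ → ℂ} {C D E : ℝ}

theorem BM.i (h : BM f C) (a b : ℝ) : IntervalIntegrable f volume a b := intg_of_bddC h.m h.b a b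

theorem BM.C0 (h : BM f C) : 0 ≤ C := (norm_nonneg _).trans (h.b 0)

theorem BM.add (h : BM f C) (h' : BM g D) : BM (fun t => f t + g t) (C + D) :=
  ⟨h.m.add h'.m, fun t => (norm_add_le _ _).trans (add_le_add (h.b t) (h'.b t))⟩

theorem BM.sub (h : BM f C) (h' : BM g D) : BM (fun t => f t - g t) (C + D) :=
  ⟨h.m.sub h'.m, fun t => (norm_sub_le _ _).trans (add_le_add (h.b t) (h'.b t))⟩

theorem BM.cmul (h : BM f C) (c : ℂ) : BM (fun t => c * f t) (‖c‖ * C) :=
  ⟨h.m.const_mul c, fun t => by rw [norm_mul]; exact mul_le_mul_of_nonneg_left (h.b t) (norm_nonneg _)⟩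

theorem BM.mul (h : BM f C) (h' : BM g D) : BM (fun t => f t * g t) (C * D) :=
  ⟨h.m.mul h'.m, fun t => by
    rw [norm_mul]; exact mul_le_mul (h.b t) (h'.b t) (norm_nonneg _) h.C0⟩

theorem BM.conj (h : BM f C) : BM (fun t => (starRingEnd ℂ) (f t)) C :=
  ⟨Complex.continuous_conj.measurable.comp h.m, fun t => by rw [Complex.norm_conj]; exact h.b t⟩

theorem BM.eec (c : ℝ) : BM (fun t => ee (c * t)) 1 :=
  ⟨(continuous_ee.comp (continuous_const.mul continuous_id)).measurable, fun t => by rw [norm_ee]⟩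

theorem fc_eq (f : ℝ → ℂ) (n : ℤ) : fc f n = (1 / (2 * Real.pi) : ℂ) *
    ∫ t in (0 : ℝ)..(2 * Real.pi), f t * ee (-(n : ℝ) * t) := by
  unfold fc
  simp_rw [neg_mul]

theorem two_pi_pos : (0 : ℝ) < 2 * Real.pi := by positivity

theorem fourier_fc (f : ℝ → ℂ) (n : ℤ) : fourierCoeffOn two_pi_pos f n = fc f n := by
  rw [fourierCoeffOn_eq_integral, fc_eq, Complex.real_smul]
  have e : ∀ x : ℝ, fourier (-n) (x : AddCircle (2 * Real.pi - 0)) • f x = f x * ee (-(n : ℝ) * x) := by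
    intro x
    rw [fourier_coe_apply]
    have h1 : Complex.exp (2 * Real.pi * Complex.I * ((-n : ℤ) : ℂ) * x / ((2 * Real.pi - 0 : ℝ) : ℂ)) =
        ee (-(n : ℝ) * x) := by
      unfold ee
      congr 1
      have : (Real.pi : ℂ) ≠ 0 := by exact_mod_cast Real.pi_ne_zero
      push_cast
      field_simp
      ring
    rw [h1, smul_eq_mul, mul_comm]
  simp_rw [e]
  congr 1
  push_cast
  ring

theorem pars (h : BM f C) : HasSum (fun n : ℤ => ‖fc f n‖ ^ 2)
    ((1 / (2 * Real.pi)) * ∫ t in (0 : ℝ)..(2 * Real.pi), ‖f t‖ ^ 2) := by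
  have hL : MemLp f 2 (volume.restrict (Ioc 0 (2 * Real.pi))) :=
    MemLp.of_bound h.m.aestronglyMeasurable C (Filter.Eventually.of_forall h.b)
  have h1 := hasSum_sq_fourierCoeffOn two_pi_pos hL
  simp_rw [fourier_fc] at h1
  rw [sub_zero, smul_eq_mul, ← one_div] at h1
  exact h1

theorem fc_add (h : BM f C) (h' : BM g D) (n : ℤ) : fc (fun t => f t + g t) n = fc f n + fc g n := by
  rw [fc_eq, fc_eq, fc_eq, ← mul_add]
  congr 1
  have e : ∀ t, (f t + g t) * ee (-(n : ℝ) * t) =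
    f t * ee (-(n : ℝ) * t) + g t * ee (-(n : ℝ) * t) := fun t => by ring
  simp_rw [e]
  exact intervalIntegral.integral_add ((h.mul (BM.eec _)).i _ _) ((h'.mul (BM.eec _)).i _ _)

theorem fc_cmul (f : ℝ → ℂ) (c : ℂ) (n : ℤ) : fc (fun t => c * f t) n = c * fc f n := by
  rw [fc_eq, fc_eq]
  have e : ∀ t, (c * f t) * ee (-(n : ℝ) * t) = c * (f t * ee (-(n : ℝ) * t)) := fun t => by ring
  simp_rw [e]
  rw [intervalIntegral.integral_const_mul]
  ring

theorem fc_sub (h : BM f C) (h' : BM g D) (n : ℤ) : fc (fun t => f t - g t) n = fc f n - fc g n := by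
  have e : (fun t => f t - g t) = fun t => f t + (-1) * g t := by funext t; ring
  rw [e, fc_add h (h'.cmul _), fc_cmul]
  ring

theorem sqn (z w : ℂ) : z * (starRingEnd ℂ) w = (1 / 4) * ((‖z + w‖ ^ 2 : ℝ) : ℂ) -
    (1 / 4) * ((‖z - w‖ ^ 2 : ℝ) : ℂ) + (Complex.I / 4) * ((‖z + Complex.I * w‖ ^ 2 : ℝ) : ℂ)
    - (Complex.I / 4) * ((‖z - Complex.I * w‖ ^ 2 : ℝ) : ℂ) := by
  have h : ∀ u : ℂ, ((‖u‖ ^ 2 : ℝ) : ℂ) = u * (starRingEnd ℂ) u := by
    intro u
    rw [Complex.mul_conj, Complex.normSq_eq_norm_sq]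
  rw [h, h, h, h]
  simp only [map_add, map_sub, map_mul, Complex.conj_I]
  ring_nf
  rw [Complex.I_sq]
  ring

theorem pars2 (h : BM f C) (h' : BM g D) :
    HasSum (fun n : ℤ => fc f n * (starRingEnd ℂ) (fc g n))
      ((1 / (2 * Real.pi) : ℂ) * ∫ t in (0 : ℝ)..(2 * Real.pi), f t * (starRingEnd ℂ) (g t)) := by
  have hI := h'.cmul Complex.I
  have p1 := Complex.hasSum_ofReal.2 (pars (h.add h'))
  have p2 := Complex.hasSum_ofReal.2 (pars (h.sub h'))
  have p3 := Complex.hasSum_ofReal.2 (pars (h.add hI))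
  have p4 := Complex.hasSum_ofReal.2 (pars (h.sub hI))
  have hs := (((p1.mul_left (1 / 4 : ℂ)).sub (p2.mul_left (1 / 4 : ℂ))).add
    (p3.mul_left (Complex.I / 4))).sub (p4.mul_left (Complex.I / 4))
  have e1 : (fun n : ℤ => 1 / 4 * ((‖fc (fun t => f t + g t) n‖ ^ 2 : ℝ) : ℂ) -
      1 / 4 * ((‖fc (fun t => f t - g t) n‖ ^ 2 : ℝ) : ℂ) +
      Complex.I / 4 * ((‖fc (fun t => f t + Complex.I * g t) n‖ ^ 2 : ℝ) : ℂ) -
      Complex.I / 4 * ((‖fc (fun t => f t - Complex.I * g t) n‖ ^ 2 : ℝ) : ℂ)) =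
      fun n : ℤ => fc f n * (starRingEnd ℂ) (fc g n) := by
    funext n
    rw [fc_add h h', fc_sub h h', fc_add h hI, fc_sub h hI, fc_cmul, sqn]
  rw [e1] at hs
  have hn : ∀ {u : ℝ → ℂ} {K : ℝ}, BM u K →
      IntervalIntegrable (fun t => ((‖u t‖ ^ 2 : ℝ) : ℂ)) volume 0 (2 * Real.pi) := by
    intro u K hu
    refine intg_of_bddC (C := K ^ 2) (Complex.measurable_ofReal.comp (hu.m.norm.pow_const 2)) ?_ _ _
    intro t
    show ‖((‖u t‖ ^ 2 : ℝ) : ℂ)‖ ≤ K ^ 2
    rw [Complex.norm_real, Real.norm_eq_abs, abs_of_nonneg (by positivity)]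
    exact pow_le_pow_left₀ (norm_nonneg _) (hu.b t) 2
  have ho : ∀ {u : ℝ → ℂ} {K : ℝ}, BM u K →
      (((1 / (2 * Real.pi)) * ∫ t in (0 : ℝ)..(2 * Real.pi), ‖u t‖ ^ 2 : ℝ) : ℂ) =
        (1 / (2 * Real.pi) : ℂ) * ∫ t in (0 : ℝ)..(2 * Real.pi), ((‖u t‖ ^ 2 : ℝ) : ℂ) := by
    intro u K hu
    rw [intervalIntegral.integral_ofReal]
    push_cast
    ring
  rw [ho (h.add h'), ho (h.sub h'), ho (h.add hI), ho (h.sub hI)] at hs
  have e2 : (1 / (2 * Real.pi) : ℂ) * ∫ t in (0 : ℝ)..(2 * Real.pi), f t * (starRingEnd ℂ) (g t) =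
      1 / 4 * ((1 / (2 * Real.pi) : ℂ) * ∫ t in (0 : ℝ)..(2 * Real.pi), ((‖f t + g t‖ ^ 2 : ℝ) : ℂ)) -
      1 / 4 * ((1 / (2 * Real.pi) : ℂ) * ∫ t in (0 : ℝ)..(2 * Real.pi), ((‖f t - g t‖ ^ 2 : ℝ) : ℂ)) +
      Complex.I / 4 * ((1 / (2 * Real.pi) : ℂ) *
        ∫ t in (0 : ℝ)..(2 * Real.pi), ((‖f t + Complex.I * g t‖ ^ 2 : ℝ) : ℂ)) -
      Complex.I / 4 * ((1 / (2 * Real.pi) : ℂ) *
        ∫ t in (0 : ℝ)..(2 * Real.pi), ((‖f t - Complex.I * g t‖ ^ 2 : ℝ) : ℂ)) := by
    simp_rw [sqn]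
    rw [intervalIntegral.integral_sub ((((hn (h.add h')).const_mul _).sub
        ((hn (h.sub h')).const_mul _)).add ((hn (h.add hI)).const_mul _)) ((hn (h.sub hI)).const_mul _),
      intervalIntegral.integral_add (((hn (h.add h')).const_mul _).sub
        ((hn (h.sub h')).const_mul _)) ((hn (h.add hI)).const_mul _),
      intervalIntegral.integral_sub ((hn (h.add h')).const_mul _) ((hn (h.sub h')).const_mul _),
      intervalIntegral.integral_const_mul, intervalIntegral.integral_const_mul,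
      intervalIntegral.integral_const_mul, intervalIntegral.integral_const_mul]
    ring
  rw [e2]
  exact hs

theorem fc_conj (f : ℝ → ℂ) (n : ℤ) :
    fc (fun t => (starRingEnd ℂ) (f t)) n = (starRingEnd ℂ) (fc f (-n)) := by
  rw [fc_eq, fc_eq, map_mul, ← intervalIntegral.intervalIntegral_conj]
  have e : (starRingEnd ℂ) (1 / (2 * Real.pi) : ℂ) = (1 / (2 * Real.pi) : ℂ) := by
    have : (1 / (2 * Real.pi) : ℂ) = ((1 / (2 * Real.pi) : ℝ) : ℂ) := by push_cast; rfl
    rw [this, Complex.conj_ofReal]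
  rw [e]
  congr 1
  refine intervalIntegral.integral_congr fun t _ => ?_
  show (starRingEnd ℂ) (f t) * ee (-(n : ℝ) * t) = (starRingEnd ℂ) (f t * ee (-((-n : ℤ) : ℝ) * t))
  rw [map_mul, ← ee_neg]
  congr 2
  push_cast
  ring

/-- shift of the period for complex functions -/
theorem shiftC2 {g : ℝ → ℂ} (hg : ∀ t, g (t + 2 * Real.pi) = g t) (a : ℝ) :
    ∫ t in a..(a + 2 * Real.pi), g t = ∫ t in (0 : ℝ)..(2 * Real.pi), g t := by
  have hp : Function.Periodic g (2 * Real.pi) := hg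
  have := hp.intervalIntegral_add_eq a 0
  rw [zero_add] at this
  exact this

/-- Fourier coefficient of a convolution -/
theorem fc_conv (hk : BM k E) (hp : ∀ x, k (x + 2 * Real.pi) = k x) (hg : BM g D) (n : ℤ) :
    fc (fun s => (1 / (2 * Real.pi) : ℂ) * ∫ t in (0 : ℝ)..(2 * Real.pi), k (s - t) * g t) n =
      fc k n * fc g n := by
  have hpi := Real.pi_pos
  rw [fc_cmul, fc_eq, fc_eq, fc_eq]
  have e1 : ∀ s : ℝ, (∫ t in (0 : ℝ)..(2 * Real.pi), k (s - t) * g t) * ee (-(n : ℝ) * s) =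
      ∫ t in (0 : ℝ)..(2 * Real.pi), k (s - t) * g t * ee (-(n : ℝ) * s) := fun s => by
    rw [intervalIntegral.integral_mul_const]
  simp_rw [e1]
  rw [intervalIntegral_intervalIntegral_swap]
  · have e2 : ∀ t : ℝ, ∫ s in (0 : ℝ)..(2 * Real.pi), k (s - t) * g t * ee (-(n : ℝ) * s) =
        (g t * ee (-(n : ℝ) * t)) * ∫ x in (0 : ℝ)..(2 * Real.pi), k x * ee (-(n : ℝ) * x) := by
      intro t
      have e3 : ∀ s : ℝ, k (s - t) * g t * ee (-(n : ℝ) * s) =
          (g t * ee (-(n : ℝ) * t)) * (k (s - t) * ee (-(n : ℝ) * (s - t))) := by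
        intro s
        have : ee (-(n : ℝ) * s) = ee (-(n : ℝ) * t) * ee (-(n : ℝ) * (s - t)) := by
          rw [← ee_add]; congr 1; ring
        rw [this]; ring
      simp_rw [e3]
      rw [intervalIntegral.integral_const_mul,
        intervalIntegral.integral_comp_sub_right (fun x => k x * ee (-(n : ℝ) * x))]
      congr 1
      have hper : ∀ x, (fun x => k x * ee (-(n : ℝ) * x)) (x + 2 * Real.pi) =
          (fun x => k x * ee (-(n : ℝ) * x)) x := by
        intro x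
        show k (x + 2 * Real.pi) * ee (-(n : ℝ) * (x + 2 * Real.pi)) = _
        have := ee_int (-n) x
        push_cast at this
        rw [hp, this]
      have := shiftC2 (g := fun x => k x * ee (-(n : ℝ) * x)) hper (0 - t)
      have e4 : 0 - t + 2 * Real.pi = 2 * Real.pi - t := by ring
      rw [e4] at this
      exact this
    simp_rw [e2]
    rw [intervalIntegral.integral_mul_const]
    ring
  · have hm : Measurable (Function.uncurry fun s t : ℝ => k (s - t) * g t * ee (-(n : ℝ) * s)) := by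
      refine ((hk.m.comp (measurable_fst.sub measurable_snd)).mul (hg.m.comp measurable_snd)).mul ?_
      exact continuous_ee.measurable.comp (measurable_fst.const_mul _)
    refine IntegrableOn.of_bound ?_ hm.aestronglyMeasurable (E * D * 1) ?_
    · rw [Measure.volume_eq_prod, Measure.prod_prod]
      refine ENNReal.mul_lt_top ?_ ?_ <;>
      · rw [uIoc_of_le (by positivity), Real.volume_Ioc]; exact ENNReal.ofReal_lt_top
    · refine Filter.Eventually.of_forall fun x => ?_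
      show ‖k (x.1 - x.2) * g x.2 * ee (-(n : ℝ) * x.1)‖ ≤ _
      rw [norm_mul, norm_mul, norm_ee]
      have := mul_le_mul (hk.b (x.1 - x.2)) (hg.b x.2) (norm_nonneg _) hk.C0
      linarith

theorem conv_BM (hk : BM k E) (hg : BM g D) :
    BM (fun s => (1 / (2 * Real.pi) : ℂ) * ∫ t in (0 : ℝ)..(2 * Real.pi), k (s - t) * g t)
      (E * D) := by
  have hpi := Real.pi_pos
  constructor
  · refine Measurable.const_mul ?_ _
    have h1 : StronglyMeasurable (fun q : ℝ × ℝ => k (q.1 - q.2) * g q.2) :=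
      ((hk.m.comp (measurable_fst.sub measurable_snd)).mul (hg.m.comp measurable_snd)).stronglyMeasurable
    have h2 := h1.integral_prod_right' (ν := volume.restrict (Ioc 0 (2 * Real.pi)))
    have h3 : (fun s => ∫ t in (0 : ℝ)..(2 * Real.pi), k (s - t) * g t) =
        fun s => ∫ t, k (s - t) * g t ∂(volume.restrict (Ioc 0 (2 * Real.pi))) := by
      funext s
      rw [intervalIntegral.integral_of_le (by positivity)]
    rw [h3]
    exact h2.measurable
  · intro s
    have h1 : ‖∫ t in (0 : ℝ)..(2 * Real.pi), k (s - t) * g t‖ ≤ (E * D) * |2 * Real.pi - 0| :=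
      intervalIntegral.norm_integral_le_of_norm_le_const fun t _ => by
        rw [norm_mul]
        exact mul_le_mul (hk.b _) (hg.b _) (norm_nonneg _) hk.C0
    have e : ‖(1 / (2 * Real.pi) : ℂ)‖ = 1 / (2 * Real.pi) := by
      rw [norm_div, norm_one, norm_mul, Complex.norm_real, Real.norm_of_nonneg hpi.le]
      norm_num
    rw [norm_mul, e]
    rw [sub_zero, abs_of_pos (by positivity)] at h1
    calc 1 / (2 * Real.pi) * ‖∫ t in (0 : ℝ)..(2 * Real.pi), k (s - t) * g t‖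
        ≤ 1 / (2 * Real.pi) * ((E * D) * (2 * Real.pi)) := mul_le_mul_of_nonneg_left h1 (by positivity)
      _ = E * D := by field_simp

/-- the double mean -/
noncomputable def dm (F : ℝ → ℝ → ℂ) : ℂ := (1 / (2 * Real.pi) : ℂ) ^ 2 *
  ∫ s in (0 : ℝ)..(2 * Real.pi), ∫ t in (0 : ℝ)..(2 * Real.pi), F s t

/-- Bilinear Parseval formula. -/
theorem bil (hk : BM k E) (hp : ∀ x, k (x + 2 * Real.pi) = k x) (hf : BM f C) (hg : BM g D) :
    HasSum (fun n : ℤ => fc k (-n) * (fc f n * (starRingEnd ℂ) (fc g n)))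
      (dm fun s t => k (s - t) * (f s * (starRingEnd ℂ) (g t))) := by
  have hG := conv_BM hk.conj hg
  have h := pars2 hf hG
  have hp' : ∀ x, (starRingEnd ℂ) (k (x + 2 * Real.pi)) = (starRingEnd ℂ) (k x) := fun x => by rw [hp]
  have e1 : (fun n : ℤ => fc f n * (starRingEnd ℂ) (fc (fun s => (1 / (2 * Real.pi) : ℂ) *
      ∫ t in (0 : ℝ)..(2 * Real.pi), (starRingEnd ℂ) (k (s - t)) * g t) n)) =
      fun n : ℤ => fc k (-n) * (fc f n * (starRingEnd ℂ) (fc g n)) := by
    funext n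
    rw [fc_conv (k := fun x => (starRingEnd ℂ) (k x)) hk.conj hp' hg, fc_conj, map_mul, Complex.conj_conj]
    ring
  rw [e1] at h
  have e2 : (1 / (2 * Real.pi) : ℂ) * ∫ s in (0 : ℝ)..(2 * Real.pi), f s * (starRingEnd ℂ)
      ((1 / (2 * Real.pi) : ℂ) * ∫ t in (0 : ℝ)..(2 * Real.pi), (starRingEnd ℂ) (k (s - t)) * g t) =
      dm fun s t => k (s - t) * (f s * (starRingEnd ℂ) (g t)) := by
    unfold dm
    rw [sq, mul_assoc]
    congr 1
    rw [← intervalIntegral.integral_const_mul]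
    refine intervalIntegral.integral_congr fun s _ => ?_
    show f s * (starRingEnd ℂ) ((1 / (2 * Real.pi) : ℂ) *
      ∫ t in (0 : ℝ)..(2 * Real.pi), (starRingEnd ℂ) (k (s - t)) * g t) =
      (1 / (2 * Real.pi) : ℂ) * ∫ t in (0 : ℝ)..(2 * Real.pi), k (s - t) * (f s * (starRingEnd ℂ) (g t))
    have e : (starRingEnd ℂ) (1 / (2 * Real.pi) : ℂ) = (1 / (2 * Real.pi) : ℂ) := by
      have : (1 / (2 * Real.pi) : ℂ) = ((1 / (2 * Real.pi) : ℝ) : ℂ) := by push_cast; rfl
      rw [this, Complex.conj_ofReal]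
    rw [map_mul, e, ← intervalIntegral.intervalIntegral_conj]
    have e5 : ∀ t : ℝ, k (s - t) * (f s * (starRingEnd ℂ) (g t)) =
        f s * (k (s - t) * (starRingEnd ℂ) (g t)) := fun t => by ring
    simp_rw [e5]
    rw [intervalIntegral.integral_const_mul]
    simp_rw [map_mul, Complex.conj_conj]
    ring
  rw [e2] at h
  exact h

end

end Helper87.RC
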