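import Pool.Agent.Helper87.RC.StK

/-!
# Project RC: module SAW
-/

open MeasureTheory Set Filter Metric

namespace Helper87.RC

open Helper49.LT Helper49.RC

local instance fact2pi : Fact (0 < 2 * Real.pi) := ⟨by positivity⟩

/-- `∫_0^{2π} (π - x) e^{imx} dx = 2πi/m` (and `0` for `m = 0`) -/
theorem intA (m : ℤ) : ∫ x in (0 : ℝ)..(2 * Real.pi), ((Real.pi - x : ℝ) : ℂ) * ee (m * x) =
    2 * Real.pi * Complex.I / m := by
  have hpi := Real.pi_pos
  by_cases hm : m = 0
  · subst hm
    simp only [Int.cast_zero, zero_mul, ee_zero, mul_one, div_zero]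
    rw [intervalIntegral.integral_ofReal]
    have : ∫ x in (0 : ℝ)..(2 * Real.pi), (Real.pi - x) = 0 := by
      rw [intervalIntegral.integral_sub (by simp) (by simp)]
      simp
      ring
    rw [this]; simp
  have hmc : (m : ℂ) ≠ 0 := by exact_mod_cast hm
  have hI := Complex.I_ne_zero
  have hd : ∀ x : ℝ, HasDerivAt (fun x : ℝ => ((Real.pi - x : ℝ) : ℂ) * ee (m * x) / (m * Complex.I)
      - ee (m * x) / m ^ 2) (((Real.pi - x : ℝ) : ℂ) * ee (m * x)) x := by
    intro x
    have h1 : HasDerivAt (fun x : ℝ => ((Real.pi - x : ℝ) : ℂ)) (-1) x := by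
      have : HasDerivAt (fun x : ℝ => (Real.pi - x)) (-1) x := by
        simpa using (hasDerivAt_id x).const_sub Real.pi
      simpa using this.ofReal_comp
    have h2 := hasDerivAt_ee (m : ℝ) x
    have h3 := ((h1.mul h2).div_const ((m : ℂ) * Complex.I)).sub (h2.div_const ((m : ℂ) ^ 2))
    have e : ((Real.pi - x : ℝ) : ℂ) * ee (m * x) =
        ((-1) * ee (m * x) + ((Real.pi - x : ℝ) : ℂ) * ((((m : ℝ) : ℂ)) * Complex.I * ee (m * x))) /
          ((m : ℂ) * Complex.I) - (((m : ℝ) : ℂ)) * Complex.I * ee (m * x) / (m : ℂ) ^ 2 := by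
      have hm' : (((m : ℝ) : ℂ)) = (m : ℂ) := by push_cast; rfl
      rw [hm']
      generalize ee (m * x) = E
      generalize ((Real.pi - x : ℝ) : ℂ) = y
      have e1 : (-1 * E + y * ((m : ℂ) * Complex.I * E)) / ((m : ℂ) * Complex.I) =
          y * E + Complex.I * E / m := by
        rw [div_eq_iff (mul_ne_zero hmc hI)]
        have : (y * E + Complex.I * E / m) * ((m : ℂ) * Complex.I) =
          y * E * (m * Complex.I) + Complex.I ^ 2 * E * (m / m) := by ring
        rw [this, Complex.I_sq, div_self hmc]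
        ring
      have e2 : (m : ℂ) * Complex.I * E / (m : ℂ) ^ 2 = Complex.I * E / m := by
        rw [div_eq_div_iff (pow_ne_zero 2 hmc) hmc]
        ring
      rw [e1, e2]
      ring
    rw [e]
    exact h3
  rw [intervalIntegral.integral_eq_sub_of_hasDerivAt (fun x _ => hd x)]
  · have e1 : ee (m * (2 * Real.pi)) = 1 := by
      have := ee_int m 0
      simp only [zero_add, mul_zero, ee_zero] at this
      exact this
    rw [e1]
    simp only [mul_zero, ee_zero]
    push_cast
    field_simp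
    ring_nf
    rw [Complex.I_sq]
    ring
  · apply Continuous.intervalIntegrable
    have := continuous_ee
    fun_prop

/-- the kernel as a function on the circle -/
noncomputable def kf (x : ℝ) : ℂ := (((Real.pi - x) * Real.sin x : ℝ) : ℂ)

theorem kf_coef (n : ℤ) :
    fourierCoeffOn (show (0 : ℝ) < 2 * Real.pi by positivity) kf n =
      (1 / 2) * (1 / ((1 - n : ℤ) : ℂ) + 1 / ((1 + n : ℤ) : ℂ)) := by
  rw [fourierCoeffOn_eq_integral]
  have e : ∀ x : ℝ, fourier (-n) (x : AddCircle (2 * Real.pi - 0)) • kf x =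
      (1 / (2 * Complex.I)) * (((Real.pi - x : ℝ) : ℂ) * ee (((1 - n : ℤ) : ℝ) * x)) -
      (1 / (2 * Complex.I)) * (((Real.pi - x : ℝ) : ℂ) * ee (((-(1 + n) : ℤ) : ℝ) * x)) := by
    intro x
    rw [fourier_coe_apply]
    have h1 : Complex.exp (2 * Real.pi * Complex.I * ((-n : ℤ) : ℂ) * x / ((2 * Real.pi - 0 : ℝ) : ℂ)) =
        ee (-(n : ℝ) * x) := by
      unfold ee
      congr 1
      have : (Real.pi : ℂ) ≠ 0 := by exact_mod_cast Real.pi_ne_zero
      push_cast
      field_simp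
      ring
    rw [h1]
    have h2 : ee (((1 - n : ℤ) : ℝ) * x) = ee (-(n : ℝ) * x) * ee x := by
      rw [← ee_add]; congr 1; push_cast; ring
    have h3 : ee (((-(1 + n) : ℤ) : ℝ) * x) = ee (-(n : ℝ) * x) * ee (-x) := by
      rw [← ee_add]; congr 1; push_cast; ring
    have h4 : ((Real.sin x : ℝ) : ℂ) = (1 / (2 * Complex.I)) * (ee x - ee (-x)) := by
      rw [ee_eq x, ee_eq (-x), Real.cos_neg, Real.sin_neg]
      push_cast
      field_simp
      ring
    unfold kf
    rw [smul_eq_mul, h2, h3]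
    rw [Complex.ofReal_mul, h4]
    ring
  simp_rw [e]
  rw [intervalIntegral.integral_sub, intervalIntegral.integral_const_mul,
    intervalIntegral.integral_const_mul, intA, intA]
  · have hp : (Real.pi : ℂ) ≠ 0 := by exact_mod_cast Real.pi_ne_zero
    have hI := Complex.I_ne_zero
    rw [Complex.real_smul]
    push_cast
    have e1 : (-((1 : ℂ) + n)) = -(1 + n) := rfl
    by_cases h1 : (1 - (n : ℂ)) = 0 <;> by_cases h2 : (1 + (n : ℂ)) = 0
    · exfalso
      have : (2 : ℂ) = 0 := by linear_combination h1 + h2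
      norm_num at this
    · rw [h1]; field_simp; ring
    · rw [h2]; simp; field_simp; rw [Complex.I_sq]; ring
    · have h3 : (-(1 + (n : ℂ))) ≠ 0 := by
        intro h; apply h2; linear_combination -h
      field_simp
      ring
  · apply Continuous.intervalIntegrable
    have := continuous_ee
    fun_prop
  · apply Continuous.intervalIntegrable
    have := continuous_ee
    fun_prop

theorem kf_cont : Continuous kf := by
  unfold kf; fun_prop

/-- the coefficients -/
noncomputable def cc (n : ℤ) : ℂ := (1 / 2) * (1 / ((1 - n : ℤ) : ℂ) + 1 / ((1 + n : ℤ) : ℂ))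

theorem cc_neg (n : ℤ) : cc (-n) = cc n := by
  unfold cc
  rw [sub_neg_eq_add, ← sub_eq_add_neg, add_comm (1 / ((1 + n : ℤ) : ℂ))]

theorem cc_two (n : ℕ) : cc ((n + 2 : ℕ) : ℤ) = -(1 / ((((n : ℝ) + 2) ^ 2 - 1 : ℝ) : ℂ)) := by
  unfold cc
  push_cast
  have h1 : (1 - ((n : ℂ) + 2)) ≠ 0 := by
    have : ((-((n : ℝ) + 1) : ℝ) : ℂ) ≠ 0 := by
      exact_mod_cast (by have : (0:ℝ) ≤ n := n.cast_nonneg
                         linarith : -((n : ℝ) + 1) < 0).ne
    intro h
    apply this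
    push_cast
    linear_combination h
  have h2 : (1 + ((n : ℂ) + 2)) ≠ 0 := by
    have : ((((n : ℝ) + 3) : ℝ) : ℂ) ≠ 0 := by
      exact_mod_cast (by positivity : ((n : ℝ) + 3) ≠ 0)
    intro h
    apply this
    push_cast
    linear_combination h
  have h3 : (((n : ℂ) + 2) ^ 2 - 1) ≠ 0 := by
    have e : (((n : ℂ) + 2) ^ 2 - 1) = -((1 - ((n : ℂ) + 2)) * (1 + ((n : ℂ) + 2))) := by ring
    rw [e]
    exact neg_ne_zero.2 (mul_ne_zero h1 h2)
  field_simp
  ring

theorem cc_summable : Summable cc := by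
  rw [summable_int_iff_summable_nat_and_neg]
  have h : Summable (fun n : ℕ => cc n) := by
    rw [← summable_nat_add_iff 2]
    refine Summable.of_norm_bounded (g := fun n : ℕ => 1 / ((n : ℝ) + 1) ^ 2) ?_ ?_
    · have h0 : Summable (fun n : ℕ => 1 / ((n : ℝ)) ^ 2) := by
        exact_mod_cast Real.summable_one_div_nat_pow.2 (by norm_num : 1 < 2)
      have := (summable_nat_add_iff 1).2 h0
      refine this.congr fun n => ?_
      push_cast
      rfl
    · intro n
      rw [cc_two, norm_neg, norm_div, norm_one, Complex.norm_real]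
      have hn : (0 : ℝ) ≤ n := n.cast_nonneg
      have h1 : ((n : ℝ) + 1) ^ 2 ≤ ((n : ℝ) + 2) ^ 2 - 1 := by nlinarith
      have h2 : 0 < ((n : ℝ) + 1) ^ 2 := by positivity
      rw [Real.norm_of_nonneg (by linarith)]
      exact one_div_le_one_div_of_le h2 h1
  exact ⟨h, by simpa [cc_neg] using h⟩

theorem saw_aux (x : ℝ) (hx0 : 0 ≤ x) (hx1 : x < 2 * Real.pi) :
    HasSum (fun n : ℤ => cc n * ee (n * x)) (kf x) := by
  have hc : Continuous (AddCircle.liftIco (2 * Real.pi) 0 kf) := by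
    refine AddCircle.liftIco_zero_continuous ?_ kf_cont.continuousOn
    unfold kf
    simp
  let f : C(AddCircle (2 * Real.pi), ℂ) := ⟨_, hc⟩
  have hcoef : ∀ n : ℤ, fourierCoeff f n = cc n := by
    intro n
    have h1 : fourierCoeff (AddCircle.liftIco (2 * Real.pi) 0 kf) n = _ :=
      fourierCoeff_liftIco_eq kf n
    have h2 := kf_coef n
    have h3 : fourierCoeff f n = fourierCoeff (AddCircle.liftIco (2 * Real.pi) 0 kf) n := rfl
    rw [h3, h1]
    unfold cc
    rw [← h2]
    congr 1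
    ring
  have hs : Summable (fourierCoeff f) := by
    have : fourierCoeff f = cc := funext hcoef
    rw [this]; exact cc_summable
  have h := has_pointwise_sum_fourier_series_of_summable hs (x : AddCircle (2 * Real.pi))
  have hv : f (x : AddCircle (2 * Real.pi)) = kf x :=
    AddCircle.liftIco_coe_apply (p := 2 * Real.pi) (a := 0) (f := kf) (x := x)
      (show x ∈ Ico 0 (0 + 2 * Real.pi) from ⟨hx0, by linarith⟩)
  rw [hv] at h
  have e : (fun n : ℤ => fourierCoeff f n • fourier n (x : AddCircle (2 * Real.pi))) =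
      fun n : ℤ => cc n * ee (n * x) := by
    funext n
    rw [hcoef, smul_eq_mul, fourier_coe_apply]
    congr 1
    unfold ee
    congr 1
    have : (Real.pi : ℂ) ≠ 0 := by exact_mod_cast Real.pi_ne_zero
    push_cast
    field_simp
  rw [e] at h
  exact h

theorem saw_pos (x : ℝ) (hx0 : 0 ≤ x) (hx1 : x < 2 * Real.pi) :
    HasSum (fun n : ℕ => 2 * Real.cos (((n : ℝ) + 2) * x) / (((n : ℝ) + 2) ^ 2 - 1))
      (1 + Real.cos x / 2 - (Real.pi - x) * Real.sin x) := by
  have h := (saw_aux x hx0 hx1).nat_add_neg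
  have h2 := (hasSum_nat_add_iff' 2).2 h
  have h3 := h2.neg
  have hr : ∀ n : ℤ, cc n * ee (n * x) + cc (-n) * ee ((-n : ℤ) * x) =
      cc n * ((2 * Real.cos (n * x) : ℝ) : ℂ) := by
    intro n
    have e1 : (((-n : ℤ) : ℝ) * x) = -((n : ℝ) * x) := by push_cast; ring
    rw [cc_neg, e1, ee_eq, ee_eq, Real.cos_neg, Real.sin_neg]
    push_cast
    ring
  have h4 : HasSum (fun n : ℕ => ((2 * Real.cos (((n : ℝ) + 2) * x) / (((n : ℝ) + 2) ^ 2 - 1) : ℝ) : ℂ))
      (((1 + Real.cos x / 2 - (Real.pi - x) * Real.sin x : ℝ)) : ℂ) := by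
    have eA : (fun n : ℕ => ((2 * Real.cos (((n : ℝ) + 2) * x) / (((n : ℝ) + 2) ^ 2 - 1) : ℝ) : ℂ)) =
        fun n : ℕ => -(cc ((n + 2 : ℕ) : ℤ) * ee ((((n + 2 : ℕ) : ℤ) : ℝ) * x) +
          cc (-((n + 2 : ℕ) : ℤ)) * ee (((-((n + 2 : ℕ) : ℤ) : ℤ) : ℝ) * x)) := by
      funext n
      have := hr ((n + 2 : ℕ) : ℤ)
      rw [this, cc_two]
      push_cast
      ring
    have eB : ((1 + Real.cos x / 2 - (Real.pi - x) * Real.sin x : ℝ) : ℂ) =
        -(kf x + cc 0 * ee (((0 : ℤ) : ℝ) * x) - ∑ i ∈ Finset.range 2, (cc (i : ℤ) * ee (((i : ℤ) : ℝ) * x) +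
          cc (-(i : ℤ)) * ee (((-(i : ℤ) : ℤ) : ℝ) * x))) := by
      rw [Finset.sum_range_succ, Finset.sum_range_succ, Finset.sum_range_zero]
      have g0 := hr ((0 : ℕ) : ℤ)
      have g1 := hr ((1 : ℕ) : ℤ)
      rw [g0, g1]
      unfold kf cc
      simp [ee_zero]
      ring
    rw [eA, eB]
    exact h3
  exact_mod_cast h4

/-- Module SAW. -/
theorem hSAW : StSaw := by
  intro x hx
  have hpi := Real.pi_pos
  have h := saw_pos |x| (abs_nonneg x) (by linarith)
  have hc : Real.cos |x| = Real.cos x := Real.cos_abs x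
  rw [hc] at h
  have e : (fun n : ℕ => 2 * Real.cos (((n : ℝ) + 2) * |x|) / (((n : ℝ) + 2) ^ 2 - 1)) =
      fun n : ℕ => 2 * Real.cos (((n : ℝ) + 2) * x) / (((n : ℝ) + 2) ^ 2 - 1) := by
    funext n
    have : Real.cos (((n : ℝ) + 2) * |x|) = Real.cos (((n : ℝ) + 2) * x) := by
      rw [← Real.cos_abs (((n : ℝ) + 2) * x), abs_mul,
        abs_of_pos (by positivity : (0:ℝ) < (n : ℝ) + 2)]
    rw [this]
  rw [e] at h
  exact h

end Helper87.RC

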