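import Pool.Agent.Helper87.RC.M_SL3

/-!
# Project RC: evaluation of the window selection in Fourier modes, abstract families
-/

open MeasureTheory Set Filter Metric

namespace Helper87.RC

open Helper49.LT hiding sg
open Helper56.RC (fc RR)

/-- shift of the frequency -/
theorem fc_ee (f : ℝ → ℂ) (q n : ℤ) : fc (fun t => ee ((q : ℝ) * t) * f t) n = fc f (n - q) := by
  rw [fc_eq, fc_eq]
  congr 1
  refine intervalIntegral.integral_congr fun t _ => ?_
  show ee ((q : ℝ) * t) * f t * ee (-(n : ℝ) * t) = f t * ee (-((n - q : ℤ) : ℝ) * t)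
  have : ee (-((n - q : ℤ) : ℝ) * t) = ee ((q : ℝ) * t) * ee (-(n : ℝ) * t) := by
    rw [← ee_add]; congr 1; push_cast; ring
  rw [this]; ring

theorem fc_shift {k : ℝ → ℂ} (hp : ∀ x, k (x + 2 * Real.pi) = k x) (c : ℝ) (n : ℤ) :
    fc (fun x => k (x - c)) n = ee (-(n : ℝ) * c) * fc k n := by
  rw [fc_eq, fc_eq]
  have e : ∀ x : ℝ, k (x - c) * ee (-(n : ℝ) * x) =
      ee (-(n : ℝ) * c) * ((fun y => k y * ee (-(n : ℝ) * y)) (x - c)) := by
    intro x
    show _ = ee (-(n : ℝ) * c) * (k (x - c) * ee (-(n : ℝ) * (x - c)))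
    have : ee (-(n : ℝ) * x) = ee (-(n : ℝ) * c) * ee (-(n : ℝ) * (x - c)) := by
      rw [← ee_add]; congr 1; ring
    rw [this]; ring
  simp_rw [e]
  rw [intervalIntegral.integral_const_mul,
    intervalIntegral.integral_comp_sub_right (fun y => k y * ee (-(n : ℝ) * y))]
  have hper : ∀ x, (fun y => k y * ee (-(n : ℝ) * y)) (x + 2 * Real.pi) =
      (fun y => k y * ee (-(n : ℝ) * y)) x := by
    intro x
    show k (x + 2 * Real.pi) * ee (-(n : ℝ) * (x + 2 * Real.pi)) = _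
    have := ee_int (-n) x
    push_cast at this
    rw [hp, this]
  have h1 := shiftC2 (g := fun y => k y * ee (-(n : ℝ) * y)) hper (0 - c)
  have e4 : 0 - c + 2 * Real.pi = 2 * Real.pi - c := by ring
  rw [e4] at h1
  rw [h1]
  ring

theorem fc_refl {k : ℝ → ℂ} (hp : ∀ x, k (x + 2 * Real.pi) = k x) (n : ℤ) :
    fc (fun x => k (-x)) n = fc k (-n) := by
  rw [fc_eq, fc_eq]
  congr 1
  have e : ∀ x : ℝ, k (-x) * ee (-(n : ℝ) * x) =
      (fun y => k y * ee (-((-n : ℤ) : ℝ) * y)) (-x) := by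
    intro x
    show _ = k (-x) * ee (-((-n : ℤ) : ℝ) * (-x))
    congr 2
    push_cast
    ring
  simp_rw [e]
  rw [intervalIntegral.integral_comp_neg (fun y => k y * ee (-((-n : ℤ) : ℝ) * y))]
  have hper : ∀ x, (fun y => k y * ee (-((-n : ℤ) : ℝ) * y)) (x + 2 * Real.pi) =
      (fun y => k y * ee (-((-n : ℤ) : ℝ) * y)) x := by
    intro x
    show k (x + 2 * Real.pi) * ee (-((-n : ℤ) : ℝ) * (x + 2 * Real.pi)) = _
    have := ee_int n x
    push_cast
    rw [hp, neg_neg, this]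
  have h1 := shiftC2 (g := fun y => k y * ee (-((-n : ℤ) : ℝ) * y)) hper (-(2 * Real.pi))
  have e4 : -(2 * Real.pi) + 2 * Real.pi = -0 := by ring
  rw [e4] at h1
  exact h1

/-- reflection and shift -/
theorem fc_rs {k : ℝ → ℂ} (hp : ∀ x, k (x + 2 * Real.pi) = k x) (c : ℝ) (n : ℤ) :
    fc (fun x => k (-x - c)) n = ee ((n : ℝ) * c) * fc k (-n) := by
  have hp2 : ∀ x, (fun y => k (y - c)) (x + 2 * Real.pi) = (fun y => k (y - c)) x := by
    intro x
    show k (x + 2 * Real.pi - c) = k (x - c)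
    have : x + 2 * Real.pi - c = (x - c) + 2 * Real.pi := by ring
    rw [this, hp]
  have h1 := fc_refl (k := fun y => k (y - c)) hp2 n
  rw [h1, fc_shift hp]
  push_cast
  rw [neg_neg]

section

variable {f g k w : ℝ → ℂ} {C D E : ℝ}

/-- the elementary double means -/
noncomputable def DT (w f g : ℝ → ℂ) (q : ℤ) : ℂ :=
  dm fun s t => w (s - t) * (f s * (starRingEnd ℂ) (ee (((-q : ℤ) : ℝ) * t) * g t))

noncomputable def DS (w f g : ℝ → ℂ) (q : ℤ) : ℂ :=
  dm fun s t => w (s - t) * ((ee ((q : ℝ) * s) * f s) * (starRingEnd ℂ) (g t))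

theorem BM.em (h : BM g D) (q : ℤ) : BM (fun t => ee ((q : ℝ) * t) * g t) D := by
  have := (BM.eec (q : ℝ)).mul h
  rw [one_mul] at this
  exact this

theorem DT_sum (hw : BM w E) (hp : ∀ x, w (x + 2 * Real.pi) = w x) (hf : BM f C) (hg : BM g D)
    (q : ℤ) : HasSum (fun n : ℤ => fc w (-n) * (fc f n * (starRingEnd ℂ) (fc g (n + q))))
      (DT w f g q) := by
  have h := bil hw hp hf (hg.em (-q))
  have e : ∀ n : ℤ, fc (fun t => ee (((-q : ℤ) : ℝ) * t) * g t) n = fc g (n + q) := fun n => by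
    rw [fc_ee, sub_neg_eq_add]
  simp_rw [e] at h
  exact h

theorem DS_sum (hw : BM w E) (hp : ∀ x, w (x + 2 * Real.pi) = w x) (hf : BM f C) (hg : BM g D)
    (q : ℤ) : HasSum (fun n : ℤ => fc w (-n) * (fc f (n - q) * (starRingEnd ℂ) (fc g n)))
      (DS w f g q) := by
  have h := bil hw hp (hf.em q) hg
  simp_rw [fc_ee] at h
  exact h

theorem re_half (z : ℂ) : ((z.re : ℝ) : ℂ) = (1 / 2) * z + (1 / 2) * (starRingEnd ℂ) z := by
  apply Complex.ext <;> simp <;> ring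

theorem DT_jm (hw : BM w E) (hf : BM f C) (hg : BM g D) (q : ℤ) :
    JM (fun s t => w (s - t) * (f s * (starRingEnd ℂ) (ee (((-q : ℤ) : ℝ) * t) * g t)))
      (E * (C * D)) := hw.d.mul (hf.l.mul ((hg.em (-q)).conj.r))

theorem DS_jm (hw : BM w E) (hf : BM f C) (hg : BM g D) (q : ℤ) :
    JM (fun s t => w (s - t) * ((ee ((q : ℝ) * s) * f s) * (starRingEnd ℂ) (g t)))
      (E * (C * D)) := hw.d.mul ((hf.em q).l.mul hg.conj.r)

theorem rzt (hw : BM w E) (hf : BM f C) (hg : BM g D) (c : ℂ) (q : ℤ) :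
    dm (fun s t => (((c * ee ((q : ℝ) * t) * w (s - t)).re : ℝ) : ℂ) * (f s * (starRingEnd ℂ) (g t))) =
      (c / 2) * DT w f g q +
        ((starRingEnd ℂ) c / 2) * DT (fun x => (starRingEnd ℂ) (w x)) f g (-q) := by
  unfold DT
  rw [← dm_cmul, ← dm_cmul, ← dm_add ((DT_jm hw hf hg q).cmul _) ((DT_jm hw.conj hf hg (-q)).cmul _)]
  congr 1
  funext s t
  rw [re_half, map_mul, map_mul, map_mul, map_mul]
  have e1 : (starRingEnd ℂ) (ee (((-q : ℤ) : ℝ) * t)) = ee ((q : ℝ) * t) := by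
    rw [← ee_neg]; congr 1; push_cast; ring
  have e2 : (starRingEnd ℂ) (ee (((-(-q) : ℤ) : ℝ) * t)) = (starRingEnd ℂ) (ee ((q : ℝ) * t)) := by
    rw [neg_neg]
  rw [e1, e2]
  ring

theorem rzs (hw : BM w E) (hf : BM f C) (hg : BM g D) (c : ℂ) (q : ℤ) :
    dm (fun s t => (((c * ee ((q : ℝ) * s) * w (s - t)).re : ℝ) : ℂ) * (f s * (starRingEnd ℂ) (g t))) =
      (c / 2) * DS w f g q +
        ((starRingEnd ℂ) c / 2) * DS (fun x => (starRingEnd ℂ) (w x)) f g (-q) := by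
  unfold DS
  rw [← dm_cmul, ← dm_cmul, ← dm_add ((DS_jm hw hf hg q).cmul _) ((DS_jm hw.conj hf hg (-q)).cmul _)]
  congr 1
  funext s t
  rw [re_half, map_mul, map_mul]
  have e2 : ee (((-q : ℤ) : ℝ) * s) = (starRingEnd ℂ) (ee ((q : ℝ) * s)) := by
    rw [← ee_neg]; congr 1; push_cast; ring
  rw [e2]
  ring

/-- joint measurability of the real part kernels -/
theorem rzt_jm (hw : BM w E) (hf : BM f C) (hg : BM g D) (c : ℂ) (q : ℤ) :
    JM (fun s t => (((c * ee ((q : ℝ) * t) * w (s - t)).re : ℝ) : ℂ) * (f s * (starRingEnd ℂ) (g t)))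
      (‖c‖ * E * (C * D)) := by
  refine JM.mul ?_ (hf.l.mul hg.conj.r)
  constructor
  · refine Complex.measurable_ofReal.comp (Complex.measurable_re.comp ?_)
    exact ((continuous_ee.measurable.comp (measurable_snd.const_mul _)).const_mul c).mul
      (hw.m.comp (measurable_fst.sub measurable_snd))
  · intro s t
    rw [Complex.norm_real, Real.norm_eq_abs]
    refine (Complex.abs_re_le_norm _).trans ?_
    rw [norm_mul, norm_mul, norm_ee, mul_one]
    exact mul_le_mul_of_nonneg_left (hw.b _) (norm_nonneg _)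

theorem rzs_jm (hw : BM w E) (hf : BM f C) (hg : BM g D) (c : ℂ) (q : ℤ) :
    JM (fun s t => (((c * ee ((q : ℝ) * s) * w (s - t)).re : ℝ) : ℂ) * (f s * (starRingEnd ℂ) (g t)))
      (‖c‖ * E * (C * D)) := by
  refine JM.mul ?_ (hf.l.mul hg.conj.r)
  constructor
  · refine Complex.measurable_ofReal.comp (Complex.measurable_re.comp ?_)
    exact ((continuous_ee.measurable.comp (measurable_fst.const_mul _)).const_mul c).mul
      (hw.m.comp (measurable_fst.sub measurable_snd))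
  · intro s t
    rw [Complex.norm_real, Real.norm_eq_abs]
    refine (Complex.abs_re_le_norm _).trans ?_
    rw [norm_mul, norm_mul, norm_ee, mul_one]
    exact mul_le_mul_of_nonneg_left (hw.b _) (norm_nonneg _)

/-- evaluation for a kernel with a part of the frequencies `3`, `9` in the second variable -/
theorem evt {k : ℝ → ℝ} {w3 w9 : ℝ → ℂ} (hk : BM (fun x => ((k x : ℝ) : ℂ)) 1) (h3 : BM w3 1)
    (h9 : BM w9 1) (hf : BM f C) (hg : BM g D) (c3 c9 : ℂ) :
    dm (fun s t => ((k (s - t) + (c3 * ee (3 * t) * w3 (s - t)).re + (c9 * ee (9 * t) * w9 (s - t)).re :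
      ℝ) : ℂ) * (f s * (starRingEnd ℂ) (g t))) =
    dm (fun s t => ((k (s - t) : ℝ) : ℂ) * (f s * (starRingEnd ℂ) (g t)))
      + ((c3 / 2) * DT w3 f g 3 +
        ((starRingEnd ℂ) c3 / 2) * DT (fun x => (starRingEnd ℂ) (w3 x)) f g (-3))
      + ((c9 / 2) * DT w9 f g 9 +
        ((starRingEnd ℂ) c9 / 2) * DT (fun x => (starRingEnd ℂ) (w9 x)) f g (-9)) := by
  rw [← rzt h3 hf hg c3 3, ← rzt h9 hf hg c9 9, ← dm_add (hk.d.mul (hf.l.mul hg.conj.r))
    (rzt_jm h3 hf hg c3 3), ← dm_add ((hk.d.mul (hf.l.mul hg.conj.r)).add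
    (rzt_jm h3 hf hg c3 3)) (rzt_jm h9 hf hg c9 9)]
  congr 1
  funext s t
  push_cast
  ring

theorem evs {k : ℝ → ℝ} {w3 w9 : ℝ → ℂ} (hk : BM (fun x => ((k x : ℝ) : ℂ)) 1) (h3 : BM w3 1)
    (h9 : BM w9 1) (hf : BM f C) (hg : BM g D) (c3 c9 : ℂ) :
    dm (fun s t => ((k (s - t) + (c3 * ee (3 * s) * w3 (s - t)).re + (c9 * ee (9 * s) * w9 (s - t)).re :
      ℝ) : ℂ) * (f s * (starRingEnd ℂ) (g t))) =
    dm (fun s t => ((k (s - t) : ℝ) : ℂ) * (f s * (starRingEnd ℂ) (g t)))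
      + ((c3 / 2) * DS w3 f g 3 +
        ((starRingEnd ℂ) c3 / 2) * DS (fun x => (starRingEnd ℂ) (w3 x)) f g (-3))
      + ((c9 / 2) * DS w9 f g 9 +
        ((starRingEnd ℂ) c9 / 2) * DS (fun x => (starRingEnd ℂ) (w9 x)) f g (-9)) := by
  rw [← rzs h3 hf hg c3 3, ← rzs h9 hf hg c9 9, ← dm_add (hk.d.mul (hf.l.mul hg.conj.r))
    (rzs_jm h3 hf hg c3 3), ← dm_add ((hk.d.mul (hf.l.mul hg.conj.r)).add
    (rzs_jm h3 hf hg c3 3)) (rzs_jm h9 hf hg c9 9)]
  congr 1
  funext s t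
  push_cast
  ring

end

/-- the two selection functions -/
noncomputable def Et (c ρ : ℝ) (c3 c9 : ℂ) (s t : ℝ) : ℝ :=
  Sw ρ (s - t - c) + (c3 * ee (3 * t) * wp ρ 3 (s - t - c)).re
    + (c9 * ee (9 * t) * wp ρ 9 (s - t - c)).re

noncomputable def Es (c ρ : ℝ) (c3 c9 : ℂ) (s t : ℝ) : ℝ :=
  Sw ρ (-(s - t) - c) + (c3 * ee (3 * s) * wm ρ 3 (-(s - t) - c)).re
    + (c9 * ee (9 * s) * wm ρ 9 (-(s - t) - c)).re

/-- the conditions on the window -/
structure WC (c ρ : ℝ) : Prop where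
  h0 : 0 ≤ ρ
  h1 : ρ ≤ Real.pi / 3
  h2 : -Real.pi + ρ ≤ c
  h3 : c + ρ ≤ 0

theorem WC.cos0 {c ρ : ℝ} (h : WC c ρ) : 0 ≤ Real.cos ρ :=
  Real.cos_nonneg_of_mem_Icc ⟨by linarith [h.h0, Real.pi_pos], by linarith [h.h1, Real.pi_pos]⟩

/-- in the window the sign is known -/
theorem win_sn {c ρ : ℝ} (h : WC c ρ) {x : ℝ} (hx : Real.cos ρ < Real.cos (x - c)) : sn x = -1 := by
  have hpi := Real.pi_pos
  obtain ⟨m, hm⟩ : ∃ m : ℤ, |x - c - m * (2 * Real.pi)| ≤ Real.pi := by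
    refine ⟨round ((x - c) / (2 * Real.pi)), ?_⟩
    have h1 := abs_sub_round ((x - c) / (2 * Real.pi))
    have h2 : x - c - (round ((x - c) / (2 * Real.pi)) : ℝ) * (2 * Real.pi) =
        ((x - c) / (2 * Real.pi) - round ((x - c) / (2 * Real.pi))) * (2 * Real.pi) := by
      field_simp
    rw [h2, abs_mul, abs_of_pos (by positivity : 0 < 2 * Real.pi)]
    nlinarith
  set y := x - c - m * (2 * Real.pi) with hy
  have hc : Real.cos (x - c) = Real.cos y := by
    rw [hy, Real.cos_sub_int_mul_two_pi]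
  rw [hc] at hx
  have hyr : |y| < ρ := by
    by_contra hcon
    push Not at hcon
    have : Real.cos |y| ≤ Real.cos ρ := Real.cos_le_cos_of_nonneg_of_le_pi h.h0 hm hcon
    rw [Real.cos_abs] at this
    linarith
  rw [abs_lt] at hyr
  have hs : Real.sin x = Real.sin (y + c) := by
    have : y + c = x - m * (2 * Real.pi) := by rw [hy]; ring
    rw [this, Real.sin_sub_int_mul_two_pi]
  have h3 : sn x = sn (y + c) := by unfold sn; rw [hs]
  rw [h3]
  exact sn_neg' (by linarith [h.h2]) (by linarith [h.h3])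

theorem win_sn2 {c ρ : ℝ} (h : WC c ρ) {x : ℝ} (hx : Real.cos (x - c) < -Real.cos ρ) : sn x = 1 := by
  have h1 : Real.cos ρ < Real.cos ((x + Real.pi) - c) := by
    have : x + Real.pi - c = (x - c) + Real.pi := by ring
    rw [this, Real.cos_add_pi]
    linarith
  have h2 := win_sn h h1
  rw [sn_pi] at h2
  linarith

theorem sn_wp {c ρ : ℝ} (h : WC c ρ) (q : ℕ) (x : ℝ) :
    ((sn x : ℝ) : ℂ) * wp ρ q (x - c) = -wm ρ q (x - c) := by
  unfold wp wm
  by_cases h1 : Real.cos ρ < Real.cos (x - c)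
  · rw [if_pos h1, if_pos h1, win_sn h h1]; push_cast; ring
  · by_cases h2 : Real.cos (x - c) < -Real.cos ρ
    · rw [if_neg h1, if_pos h2, if_neg h1, if_pos h2, win_sn2 h h2]; push_cast; ring
    · rw [if_neg h1, if_neg h2, if_neg h1, if_neg h2]; simp

theorem sn_wm {c ρ : ℝ} (h : WC c ρ) (q : ℕ) (x : ℝ) :
    ((sn x : ℝ) : ℂ) * wm ρ q (-x - c) = wp ρ q (-x - c) := by
  have e : sn x = -sn (-x) := by rw [sn_neg, neg_neg]
  unfold wp wm
  by_cases h1 : Real.cos ρ < Real.cos (-x - c)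
  · rw [if_pos h1, if_pos h1, e, win_sn h h1]; push_cast; ring
  · by_cases h2 : Real.cos (-x - c) < -Real.cos ρ
    · rw [if_neg h1, if_pos h2, if_neg h1, if_pos h2, e, win_sn2 h h2]; push_cast; ring
    · rw [if_neg h1, if_neg h2, if_neg h1, if_neg h2]; simp

end Helper87.RC
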