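import Pool.Agent.Helper87.RC.M_N0
import Pool.Agent.Helper95.RC.StF

/-!
# Project RC: module NZ
-/

namespace Helper87.RC

theorem hNZ : Helper95.RC.StNZ := fun _ _ _ _ h => N0_four h

end Helper87.RC
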