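import Pool.Agent.Helper87.RC.StK

/-!
# Project RC: module KER
-/

open MeasureTheory Set Filter Metric

namespace Helper87.RC

open Helper49.LT Helper49.RC

/-- the correlation of the moments of order `n` -/
noncomputable def cor (n : ℕ) (z z' : ℂ) : ℝ := ((starRingEnd ℂ) (nn n z) * nn n z').re

theorem nn_zero (z : ℂ) : nn 0 z = (‖z‖ : ℂ) := by simp [nn]

theorem nn_of_zero (n : ℕ) : nn n 0 = 0 := by simp [nn]

theorem nn_one (z : ℂ) : nn 1 z = (starRingEnd ℂ) z := by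
  by_cases hz : z = 0
  · subst hz; simp [nn]
  have : (‖z‖ : ℂ) ≠ 0 := by exact_mod_cast norm_ne_zero_iff.2 hz
  unfold nn
  rw [pow_one]
  field_simp

theorem norm_nn_le (n : ℕ) (z : ℂ) : ‖nn n z‖ ≤ ‖z‖ := by
  by_cases hz : z = 0
  · subst hz; simp [nn]
  have h0 : ‖z‖ ≠ 0 := norm_ne_zero_iff.2 hz
  unfold nn
  rw [norm_mul, norm_pow, norm_div, Complex.norm_conj, Complex.norm_real, Real.norm_eq_abs,
    abs_of_nonneg (norm_nonneg z), div_self h0, one_pow, mul_one]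

theorem cor_eq {z z' : ℂ} (hz : z ≠ 0) (hz' : z' ≠ 0) (n : ℕ) :
    cor n z z' = ‖z‖ * ‖z'‖ * Real.cos (n * (z' * (starRingEnd ℂ) z).arg) := by
  have h1 : (‖z‖ : ℂ) ≠ 0 := by exact_mod_cast norm_ne_zero_iff.2 hz
  have h2 : (‖z'‖ : ℂ) ≠ 0 := by exact_mod_cast norm_ne_zero_iff.2 hz'
  set w := z' * (starRingEnd ℂ) z with hw
  have hwn : ‖w‖ = ‖z‖ * ‖z'‖ := by rw [hw, norm_mul, Complex.norm_conj, mul_comm]
  have hw0 : (‖w‖ : ℂ) ≠ 0 := by rw [hwn]; push_cast; exact mul_ne_zero h1 h2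
  have e1 : (starRingEnd ℂ) (nn n z) * nn n z' =
      ((‖z‖ * ‖z'‖ : ℝ) : ℂ) * ((starRingEnd ℂ) w / (‖w‖ : ℂ)) ^ n := by
    unfold nn
    rw [map_mul, map_pow, map_div₀, Complex.conj_conj, Complex.conj_ofReal, hwn, hw, map_mul,
      Complex.conj_conj]
    push_cast
    rw [div_pow, div_pow, div_pow, mul_pow, mul_pow]
    field_simp
  have e2 : (starRingEnd ℂ) w / (‖w‖ : ℂ) = ee (-w.arg) := by
    rw [div_eq_iff hw0]
    have : (starRingEnd ℂ) w = (starRingEnd ℂ) ((‖w‖ : ℂ) * ee w.arg) := by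
      congr 1
      exact (Complex.norm_mul_exp_arg_mul_I w).symm
    rw [this, map_mul, Complex.conj_ofReal, ee_neg]
    ring
  have e3 : ee (-w.arg) ^ n = ee (-((n : ℝ) * w.arg)) := by
    have := ee_int_mul (n : ℤ) (-w.arg)
    rw [zpow_natCast] at this
    rw [← this]
    congr 1
    push_cast
    ring
  unfold cor
  rw [e1, e2, e3, Complex.re_ofReal_mul, ee_re, Real.cos_neg]

theorem kr_of_zero (z z' : ℂ) (h : z = 0 ∨ z' = 0) : kr z z' = 0 := by
  unfold kr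
  rcases h with h | h <;> subst h <;> simp

theorem cor_of_zero (n : ℕ) (z z' : ℂ) (h : z = 0 ∨ z' = 0) : cor n z z' = 0 := by
  unfold cor
  rcases h with h | h <;> subst h <;> simp [nn_of_zero]

theorem ker_pt (hS : StSaw) (z z' : ℂ) :
    HasSum (fun n : ℕ => 2 * cor (n + 2) z z' / (((n : ℝ) + 2) ^ 2 - 1))
      (cor 0 z z' + cor 1 z z' / 2 - kr z z') := by
  by_cases hz : z = 0
  · simp_rw [cor_of_zero _ z z' (Or.inl hz), kr_of_zero z z' (Or.inl hz)]
    simp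
  by_cases hz' : z' = 0
  · simp_rw [cor_of_zero _ z z' (Or.inr hz'), kr_of_zero z z' (Or.inr hz')]
    simp
  simp_rw [cor_eq hz hz']
  set x := (z' * (starRingEnd ℂ) z).arg with hx
  have h := (hS x (Complex.abs_arg_le_pi _)).mul_left (‖z‖ * ‖z'‖)
  have hk : kr z z' = ‖z‖ * ‖z'‖ * ((Real.pi - |x|) * Real.sin |x|) := by
    unfold kr
    have h1 : (z' * (starRingEnd ℂ) z).im = ‖z‖ * ‖z'‖ * Real.sin x := by
      have : z' * (starRingEnd ℂ) z = ((‖z‖ * ‖z'‖ : ℝ) : ℂ) * ee x := by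
        have h2 := (Complex.norm_mul_exp_arg_mul_I (z' * (starRingEnd ℂ) z)).symm
        rw [norm_mul, Complex.norm_conj, mul_comm ‖z'‖] at h2
        exact h2
      rw [this, Complex.im_ofReal_mul, ee_im]
    have h2 : |Real.sin x| = Real.sin |x| := by
      rcases le_or_gt 0 x with h0 | h0
      · rw [abs_of_nonneg h0, abs_of_nonneg (Real.sin_nonneg_of_nonneg_of_le_pi h0 (Complex.arg_le_pi _))]
      · rw [abs_of_neg h0, abs_of_nonpos (Real.sin_nonpos_of_nonpos_of_neg_pi_le h0.le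
          (Complex.neg_pi_lt_arg _).le), Real.sin_neg]
    rw [h1, abs_mul, abs_of_nonneg (by positivity : 0 ≤ ‖z‖ * ‖z'‖), h2]
    ring
  have e1 : (fun n : ℕ => 2 * (‖z‖ * ‖z'‖ * Real.cos (((n + 2 : ℕ) : ℝ) * x)) / (((n : ℝ) + 2) ^ 2 - 1)) =
      fun n : ℕ => ‖z‖ * ‖z'‖ * (2 * Real.cos (((n : ℝ) + 2) * x) / (((n : ℝ) + 2) ^ 2 - 1)) := by
    funext n
    push_cast
    ring
  have e2 : ‖z‖ * ‖z'‖ * Real.cos (((0 : ℕ) : ℝ) * x) + ‖z‖ * ‖z'‖ * Real.cos (((1 : ℕ) : ℝ) * x) / 2 -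
      kr z z' = ‖z‖ * ‖z'‖ * (1 + Real.cos x / 2 - (Real.pi - |x|) * Real.sin |x|) := by
    rw [hk]
    simp only [Nat.cast_zero, Nat.cast_one, zero_mul, one_mul, Real.cos_zero]
    ring
  rw [e1, e2]
  exact h

theorem measurable_nn (n : ℕ) : Measurable (nn n) := by
  have h1 : Measurable (fun z : ℂ => (‖z‖ : ℂ)) := Complex.measurable_ofReal.comp measurable_norm
  have h2 : Measurable (fun z : ℂ => (starRingEnd ℂ) z) := Complex.continuous_conj.measurable
  exact h1.mul ((h2.div h1).pow_const n)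

theorem measurable_kr : Measurable (fun q : ℂ × ℂ => kr q.1 q.2) := by
  have h2 : Measurable (fun q : ℂ × ℂ => q.2 * (starRingEnd ℂ) q.1) := by
    have : Continuous (fun q : ℂ × ℂ => q.2 * (starRingEnd ℂ) q.1) := by fun_prop
    exact this.measurable
  have h3 : Measurable (fun q : ℂ × ℂ => (q.2 * (starRingEnd ℂ) q.1).arg) :=
    Complex.measurable_arg.comp h2
  have h4 : Measurable (fun q : ℂ × ℂ => (q.2 * (starRingEnd ℂ) q.1).im) :=
    Complex.measurable_im.comp h2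
  have h5 : Measurable (fun q : ℂ × ℂ => |(q.2 * (starRingEnd ℂ) q.1).arg|) := h3.abs
  exact (measurable_const.sub h5).mul h4.abs

theorem abs_kr_le (z z' : ℂ) : |kr z z'| ≤ Real.pi * (‖z‖ * ‖z'‖) := by
  unfold kr
  have h1 := Complex.abs_arg_le_pi (z' * (starRingEnd ℂ) z)
  have h2 := abs_nonneg (z' * (starRingEnd ℂ) z).arg
  have h3 : |(z' * (starRingEnd ℂ) z).im| ≤ ‖z‖ * ‖z'‖ := by
    refine (Complex.abs_im_le_norm _).trans ?_
    rw [norm_mul, Complex.norm_conj, mul_comm]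
  rw [abs_mul, abs_abs, abs_of_nonneg (by linarith)]
  exact mul_le_mul (by linarith) h3 (abs_nonneg _) Real.pi_pos.le

section

variable {m : ℕ}

/-- sum of the moments -/
noncomputable def EE (e : ℝ → Fin m → ℂ) (n : ℕ) (t : ℝ) : ℂ := ∑ k, nn n (e t k)

/-- the kernel sum -/
noncomputable def KK (e : ℝ → Fin m → ℂ) (t s : ℝ) : ℝ := ∑ k, ∑ l, kr (e t k) (e s l)

theorem cor_sum (e : ℝ → Fin m → ℂ) (n : ℕ) (t s : ℝ) :
    ∑ k, ∑ l, cor n (e t k) (e s l) = ((starRingEnd ℂ) (EE e n t) * EE e n s).re := by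
  unfold cor EE
  rw [map_sum, Finset.sum_mul_sum, Complex.re_sum]
  refine Finset.sum_congr rfl fun k _ => ?_
  rw [Complex.re_sum]

theorem step1 (hS : StSaw) (e : ℝ → Fin m → ℂ) (t s : ℝ) :
    HasSum (fun n : ℕ => 2 * ((starRingEnd ℂ) (EE e (n + 2) t) * EE e (n + 2) s).re /
        (((n : ℝ) + 2) ^ 2 - 1))
      (((starRingEnd ℂ) (EE e 0 t) * EE e 0 s).re + ((starRingEnd ℂ) (EE e 1 t) * EE e 1 s).re / 2
        - KK e t s) := by
  have h : HasSum (fun n : ℕ => ∑ k, ∑ l, 2 * cor (n + 2) (e t k) (e s l) / (((n : ℝ) + 2) ^ 2 - 1))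
      (∑ k, ∑ l, (cor 0 (e t k) (e s l) + cor 1 (e t k) (e s l) / 2 - kr (e t k) (e s l))) := by
    refine hasSum_sum fun k _ => hasSum_sum fun l _ => ?_
    exact ker_pt hS _ _
  have e1 : (fun n : ℕ => ∑ k, ∑ l, 2 * cor (n + 2) (e t k) (e s l) / (((n : ℝ) + 2) ^ 2 - 1)) =
      fun n : ℕ => 2 * ((starRingEnd ℂ) (EE e (n + 2) t) * EE e (n + 2) s).re /
        (((n : ℝ) + 2) ^ 2 - 1) := by
    funext n
    rw [← cor_sum]
    simp_rw [← Finset.sum_div, ← Finset.mul_sum]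
  have e2 : ∑ k, ∑ l, (cor 0 (e t k) (e s l) + cor 1 (e t k) (e s l) / 2 - kr (e t k) (e s l)) =
      ((starRingEnd ℂ) (EE e 0 t) * EE e 0 s).re + ((starRingEnd ℂ) (EE e 1 t) * EE e 1 s).re / 2
        - KK e t s := by
    rw [← cor_sum, ← cor_sum]
    unfold KK
    simp_rw [Finset.sum_sub_distrib, Finset.sum_add_distrib, ← Finset.sum_div]
  rw [e1, e2] at h
  exact h

theorem EE_le {e : ℝ → Fin m → ℂ} {C : ℝ} (hC : ∀ t k, ‖e t k‖ ≤ C) (n : ℕ) (t : ℝ) :
    ‖EE e n t‖ ≤ m * C := by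
  unfold EE
  refine (norm_sum_le _ _).trans ?_
  have : ∑ k : Fin m, ‖nn n (e t k)‖ ≤ ∑ k : Fin m, C :=
    Finset.sum_le_sum fun k _ => (norm_nn_le n _).trans (hC t k)
  refine this.trans (le_of_eq ?_)
  simp

theorem EE_meas {e : ℝ → Fin m → ℂ} (he : ∀ k, Measurable fun t => e t k) (n : ℕ) :
    Measurable (EE e n) := by
  unfold EE
  exact Finset.measurable_sum _ fun k _ => (measurable_nn n).comp (he k)

theorem KK_le {e : ℝ → Fin m → ℂ} {C : ℝ} (hC : ∀ t k, ‖e t k‖ ≤ C) (t s : ℝ) :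
    |KK e t s| ≤ m * (m * (Real.pi * (C * C))) := by
  unfold KK
  refine (Finset.abs_sum_le_sum_abs _ _).trans ?_
  have h1 : ∀ k : Fin m, |∑ l, kr (e t k) (e s l)| ≤ m * (Real.pi * (C * C)) := by
    intro k
    refine (Finset.abs_sum_le_sum_abs _ _).trans ?_
    have : ∑ l : Fin m, |kr (e t k) (e s l)| ≤ ∑ l : Fin m, Real.pi * (C * C) := by
      refine Finset.sum_le_sum fun l _ => (abs_kr_le _ _).trans ?_
      refine mul_le_mul_of_nonneg_left ?_ Real.pi_pos.le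
      exact mul_le_mul (hC t k) (hC s l) (norm_nonneg _) ((norm_nonneg _).trans (hC t k))
    refine this.trans (le_of_eq ?_)
    simp
  refine (Finset.sum_le_sum fun k _ => h1 k).trans (le_of_eq ?_)
  simp

theorem KK_meas {e : ℝ → Fin m → ℂ} (he : ∀ k, Measurable fun t => e t k) :
    Measurable (fun q : ℝ × ℝ => KK e q.1 q.2) := by
  unfold KK
  refine Finset.measurable_sum _ fun k _ => Finset.measurable_sum _ fun l _ => ?_
  exact measurable_kr.comp (((he k).comp measurable_fst).prodMk ((he l).comp measurable_snd))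

theorem intg_of_bdd {f : ℝ → ℝ} (hf : Measurable f) {C : ℝ} (hC : ∀ t, |f t| ≤ C) (a b : ℝ) :
    IntervalIntegrable f volume a b := by
  refine (intervalIntegrable_const (c := C)).mono_fun hf.aestronglyMeasurable ?_
  refine Filter.Eventually.of_forall fun t => ?_
  show ‖f t‖ ≤ ‖C‖
  rw [Real.norm_eq_abs, Real.norm_eq_abs]
  exact (hC t).trans (le_abs_self C)

theorem intg_of_bddC {f : ℝ → ℂ} (hf : Measurable f) {C : ℝ} (hC : ∀ t, ‖f t‖ ≤ C) (a b : ℝ) :
    IntervalIntegrable f volume a b := by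
  refine (intervalIntegrable_const (c := C)).mono_fun hf.aestronglyMeasurable ?_
  refine Filter.Eventually.of_forall fun t => ?_
  show ‖f t‖ ≤ ‖C‖
  rw [Real.norm_eq_abs]
  exact (hC t).trans (le_abs_self C)

/-- the common bound -/
noncomputable def bd (D : ℝ) (n : ℕ) : ℝ := 2 * (D * D) / (((n : ℝ) + 2) ^ 2 - 1)

theorem den_pos (n : ℕ) : 0 < ((n : ℝ) + 2) ^ 2 - 1 := by
  have : (0 : ℝ) ≤ n := n.cast_nonneg
  nlinarith

theorem bd_summable (D : ℝ) : Summable (bd D) := by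
  have h0 : Summable (fun n : ℕ => 1 / ((n : ℝ)) ^ 2) := by
    exact_mod_cast Real.summable_one_div_nat_pow.2 (by norm_num : 1 < 2)
  have h1 := ((summable_nat_add_iff 1).2 h0).mul_left (2 * (D * D))
  refine Summable.of_nonneg_of_le (fun n => ?_) (fun n => ?_) h1
  · unfold bd
    exact div_nonneg (mul_nonneg (by norm_num) (mul_self_nonneg D)) (den_pos n).le
  · unfold bd
    have hn : (0 : ℝ) ≤ n := n.cast_nonneg
    have h3 : ((n : ℝ) + 1) ^ 2 ≤ ((n : ℝ) + 2) ^ 2 - 1 := by nlinarith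
    rw [div_eq_mul_one_div]
    push_cast
    exact mul_le_mul_of_nonneg_left (one_div_le_one_div_of_le (by positivity) h3)
      (mul_nonneg (by norm_num) (mul_self_nonneg D))

theorem cm_re_le {a b : ℂ} {D D' : ℝ} (ha : ‖a‖ ≤ D) (hb : ‖b‖ ≤ D') :
    |((starRingEnd ℂ) a * b).re| ≤ D * D' := by
  refine (Complex.abs_re_le_norm _).trans ?_
  rw [norm_mul, Complex.norm_conj]
  exact mul_le_mul ha hb (norm_nonneg _) ((norm_nonneg _).trans ha)

theorem int_cm (c : ℂ) {f : ℝ → ℂ} (hf : IntervalIntegrable f volume 0 (2 * Real.pi)) :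
    ∫ s in (0 : ℝ)..(2 * Real.pi), ((starRingEnd ℂ) c * f s).re =
      ((starRingEnd ℂ) c * ∫ s in (0 : ℝ)..(2 * Real.pi), f s).re := by
  rw [← intervalIntegral.integral_const_mul]
  have h := ContinuousLinearMap.intervalIntegral_comp_comm Complex.reCLM (hf.const_mul ((starRingEnd ℂ) c))
  simpa using h

theorem term_le {a b : ℂ} {D D' : ℝ} (ha : ‖a‖ ≤ D) (hb : ‖b‖ ≤ D') (n : ℕ) :
    ‖2 * ((starRingEnd ℂ) a * b).re / (((n : ℝ) + 2) ^ 2 - 1)‖ ≤
      2 * (D * D') / (((n : ℝ) + 2) ^ 2 - 1) := by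
  rw [Real.norm_eq_abs, abs_div, abs_of_pos (den_pos n), abs_mul, abs_of_pos (by norm_num : (0:ℝ) < 2)]
  exact div_le_div_of_nonneg_right (mul_le_mul_of_nonneg_left (cm_re_le ha hb) (by norm_num))
    (den_pos n).le

theorem bd2_summable (D D' : ℝ) :
    Summable (fun n : ℕ => 2 * (D * D') / (((n : ℝ) + 2) ^ 2 - 1)) := by
  have h := (bd_summable 1).mul_left (D * D')
  refine h.congr fun n => ?_
  unfold bd
  ring

theorem step2 (hS : StSaw) {e : ℝ → Fin m → ℂ} (he : ∀ k, Measurable fun t => e t k) {C : ℝ}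
    (hC : ∀ t k, ‖e t k‖ ≤ C) (t : ℝ) :
    HasSum (fun n : ℕ => 2 * ((starRingEnd ℂ) (EE e (n + 2) t) *
        ∫ s in (0 : ℝ)..(2 * Real.pi), EE e (n + 2) s).re / (((n : ℝ) + 2) ^ 2 - 1))
      (((starRingEnd ℂ) (EE e 0 t) * ∫ s in (0 : ℝ)..(2 * Real.pi), EE e 0 s).re +
        ((starRingEnd ℂ) (EE e 1 t) * ∫ s in (0 : ℝ)..(2 * Real.pi), EE e 1 s).re / 2
        - ∫ s in (0 : ℝ)..(2 * Real.pi), KK e t s) := by
  have hE : ∀ n, IntervalIntegrable (EE e n) volume 0 (2 * Real.pi) := fun n =>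
    intg_of_bddC (EE_meas he n) (EE_le hC n) _ _
  have hre : ∀ (c : ℂ) (n : ℕ), IntervalIntegrable (fun s => ((starRingEnd ℂ) c * EE e n s).re)
      volume 0 (2 * Real.pi) := by
    intro c n
    refine intg_of_bdd (C := ‖c‖ * (m * C)) ?_ (fun s => cm_re_le le_rfl (EE_le hC n s)) _ _
    exact Complex.measurable_re.comp ((EE_meas he n).const_mul _)
  have hK : IntervalIntegrable (fun s => KK e t s) volume 0 (2 * Real.pi) :=
    intg_of_bdd ((KK_meas he).comp (measurable_const.prodMk measurable_id)) (KK_le hC t) _ _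
  have h := intervalIntegral.hasSum_integral_of_dominated_convergence (μ := volume)
    (a := 0) (b := 2 * Real.pi)
    (F := fun (n : ℕ) s => 2 * ((starRingEnd ℂ) (EE e (n + 2) t) * EE e (n + 2) s).re /
        (((n : ℝ) + 2) ^ 2 - 1))
    (f := fun s => ((starRingEnd ℂ) (EE e 0 t) * EE e 0 s).re +
      ((starRingEnd ℂ) (EE e 1 t) * EE e 1 s).re / 2 - KK e t s)
    (fun n _ => 2 * ((m * C) * (m * C)) / (((n : ℝ) + 2) ^ 2 - 1))
    (fun n => (intervalIntegrable_iff.1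
      (((hre (EE e (n + 2) t) (n + 2)).const_mul 2).div_const (((n : ℝ) + 2) ^ 2 - 1))).aestronglyMeasurable)
    (fun n => Filter.Eventually.of_forall fun s _ => term_le (EE_le hC _ t) (EE_le hC _ s) n)
    (Filter.Eventually.of_forall fun s _ => bd2_summable _ _)
    intervalIntegrable_const
    (Filter.Eventually.of_forall fun s _ => step1 hS e t s)
  have e1 : (fun n : ℕ => ∫ s in (0 : ℝ)..(2 * Real.pi),
        2 * ((starRingEnd ℂ) (EE e (n + 2) t) * EE e (n + 2) s).re / (((n : ℝ) + 2) ^ 2 - 1)) =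
      fun n : ℕ => 2 * ((starRingEnd ℂ) (EE e (n + 2) t) *
        ∫ s in (0 : ℝ)..(2 * Real.pi), EE e (n + 2) s).re / (((n : ℝ) + 2) ^ 2 - 1) := by
    funext n
    rw [intervalIntegral.integral_div, intervalIntegral.integral_const_mul, int_cm _ (hE _)]
  rw [e1, intervalIntegral.integral_sub ((hre _ 0).add ((hre _ 1).div_const 2)) hK,
    intervalIntegral.integral_add (hre _ 0) ((hre _ 1).div_const 2), intervalIntegral.integral_div,
    int_cm _ (hE _), int_cm _ (hE _)] at h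
  exact h

theorem int_mc (c : ℂ) {f : ℝ → ℂ} (hf : IntervalIntegrable f volume 0 (2 * Real.pi)) :
    ∫ s in (0 : ℝ)..(2 * Real.pi), ((starRingEnd ℂ) (f s) * c).re =
      ((starRingEnd ℂ) (∫ s in (0 : ℝ)..(2 * Real.pi), f s) * c).re := by
  have h1 : ∀ a b : ℂ, ((starRingEnd ℂ) a * b).re = ((starRingEnd ℂ) b * a).re := by
    intro a b
    simp [Complex.mul_re]
    ring
  simp_rw [h1 _ c]
  exact int_cm c hf

theorem step3 (hS : StSaw) {e : ℝ → Fin m → ℂ} (he : ∀ k, Measurable fun t => e t k) {C : ℝ}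
    (hC : ∀ t k, ‖e t k‖ ≤ C) :
    HasSum (fun n : ℕ => 2 * ‖∫ s in (0 : ℝ)..(2 * Real.pi), EE e (n + 2) s‖ ^ 2 /
        (((n : ℝ) + 2) ^ 2 - 1))
      (‖∫ s in (0 : ℝ)..(2 * Real.pi), EE e 0 s‖ ^ 2 +
        ‖∫ s in (0 : ℝ)..(2 * Real.pi), EE e 1 s‖ ^ 2 / 2
        - ∫ t in (0 : ℝ)..(2 * Real.pi), ∫ s in (0 : ℝ)..(2 * Real.pi), KK e t s) := by
  have hpi := Real.pi_pos
  have hE : ∀ n, IntervalIntegrable (EE e n) volume 0 (2 * Real.pi) := fun n =>
    intg_of_bddC (EE_meas he n) (EE_le hC n) _ _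
  have hSn : ∀ n, ‖∫ s in (0 : ℝ)..(2 * Real.pi), EE e n s‖ ≤ m * C * |2 * Real.pi - 0| := fun n =>
    intervalIntegral.norm_integral_le_of_norm_le_const fun s _ => EE_le hC n s
  have hre : ∀ (n : ℕ), IntervalIntegrable (fun t => ((starRingEnd ℂ) (EE e n t) *
      ∫ s in (0 : ℝ)..(2 * Real.pi), EE e n s).re) volume 0 (2 * Real.pi) := by
    intro n
    refine intg_of_bdd (C := (m * C) * (m * C * |2 * Real.pi - 0|)) ?_
      (fun s => cm_re_le (EE_le hC n s) (hSn n)) _ _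
    exact Complex.measurable_re.comp
      ((Complex.continuous_conj.measurable.comp (EE_meas he n)).mul_const _)
  have hKm : Measurable (fun t => ∫ s in (0 : ℝ)..(2 * Real.pi), KK e t s) := by
    have h1 : StronglyMeasurable (fun q : ℝ × ℝ => KK e q.1 q.2) := (KK_meas he).stronglyMeasurable
    have h2 := h1.integral_prod_right' (ν := volume.restrict (Ioc 0 (2 * Real.pi)))
    have h3 : (fun t => ∫ s in (0 : ℝ)..(2 * Real.pi), KK e t s) =
        fun t => ∫ s, KK e t s ∂(volume.restrict (Ioc 0 (2 * Real.pi))) := by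
      funext t
      rw [intervalIntegral.integral_of_le (by positivity)]
    rw [h3]
    exact h2.measurable
  have hK : IntervalIntegrable (fun t => ∫ s in (0 : ℝ)..(2 * Real.pi), KK e t s)
      volume 0 (2 * Real.pi) := by
    refine intg_of_bdd hKm (C := m * (m * (Real.pi * (C * C))) * |2 * Real.pi - 0|) ?_ _ _
    intro t
    rw [← Real.norm_eq_abs]
    exact intervalIntegral.norm_integral_le_of_norm_le_const fun s _ => by
      rw [Real.norm_eq_abs]; exact KK_le hC t s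
  have h := intervalIntegral.hasSum_integral_of_dominated_convergence (μ := volume)
    (a := 0) (b := 2 * Real.pi)
    (F := fun (n : ℕ) t => 2 * ((starRingEnd ℂ) (EE e (n + 2) t) *
        ∫ s in (0 : ℝ)..(2 * Real.pi), EE e (n + 2) s).re / (((n : ℝ) + 2) ^ 2 - 1))
    (f := fun t => (((starRingEnd ℂ) (EE e 0 t) * ∫ s in (0 : ℝ)..(2 * Real.pi), EE e 0 s).re +
        ((starRingEnd ℂ) (EE e 1 t) * ∫ s in (0 : ℝ)..(2 * Real.pi), EE e 1 s).re / 2
        - ∫ s in (0 : ℝ)..(2 * Real.pi), KK e t s))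
    (fun n _ => 2 * ((m * C) * (m * C * |2 * Real.pi - 0|)) / (((n : ℝ) + 2) ^ 2 - 1))
    (fun n => (intervalIntegrable_iff.1
      (((hre (n + 2)).const_mul 2).div_const (((n : ℝ) + 2) ^ 2 - 1))).aestronglyMeasurable)
    (fun n => Filter.Eventually.of_forall fun s _ => term_le (EE_le hC _ s) (hSn _) n)
    (Filter.Eventually.of_forall fun s _ => bd2_summable _ _)
    intervalIntegrable_const
    (Filter.Eventually.of_forall fun t _ => step2 hS he hC t)
  have hnn : ∀ z : ℂ, ((starRingEnd ℂ) z * z).re = ‖z‖ ^ 2 := by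
    intro z
    rw [mul_comm, Complex.mul_conj, Complex.ofReal_re, Complex.normSq_eq_norm_sq]
  have e1 : (fun n : ℕ => ∫ t in (0 : ℝ)..(2 * Real.pi), 2 * ((starRingEnd ℂ) (EE e (n + 2) t) *
        ∫ s in (0 : ℝ)..(2 * Real.pi), EE e (n + 2) s).re / (((n : ℝ) + 2) ^ 2 - 1)) =
      fun n : ℕ => 2 * ‖∫ s in (0 : ℝ)..(2 * Real.pi), EE e (n + 2) s‖ ^ 2 /
        (((n : ℝ) + 2) ^ 2 - 1) := by
    funext n
    rw [intervalIntegral.integral_div, intervalIntegral.integral_const_mul, int_mc _ (hE _), hnn]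
  rw [e1, intervalIntegral.integral_sub ((hre 0).add ((hre 1).div_const 2)) hK,
    intervalIntegral.integral_add (hre 0) ((hre 1).div_const 2), intervalIntegral.integral_div,
    int_mc _ (hE _), int_mc _ (hE _), hnn, hnn] at h
  exact h

end

end Helper87.RC
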