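import Pool.Agent.Helper87.RC.M_BIL

/-!
# Project RC: the kernels of the interleaving bound and their Fourier coefficients
-/

open MeasureTheory Set Filter Metric

namespace Helper87.RC

open Helper49.LT hiding sg
open Helper56.RC (fc RR)

/-- `sign (sin x)` -/
noncomputable def sn (x : ℝ) : ℝ := Real.sign (Real.sin x)

/-- the sign with windows of half width `ρ` at `0` and `π` -/
noncomputable def Sw (ρ y : ℝ) : ℝ := if |Real.cos y| < Real.cos ρ then sn y else 0

/-- `e^{iy/2}` for `|y| < π`, extended with the period `2π` -/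
noncomputable def hv (y : ℝ) : ℂ := (1 + ee y) / (‖1 + ee y‖ : ℂ)

/-- the window kernels -/
noncomputable def wp (ρ : ℝ) (q : ℕ) (y : ℝ) : ℂ :=
  if Real.cos ρ < Real.cos y then hv y ^ q
    else if Real.cos y < -Real.cos ρ then hv (y + Real.pi) ^ q else 0

noncomputable def wm (ρ : ℝ) (q : ℕ) (y : ℝ) : ℂ :=
  if Real.cos ρ < Real.cos y then hv y ^ q
    else if Real.cos y < -Real.cos ρ then -hv (y + Real.pi) ^ q else 0

theorem ee_add_pi' (t : ℝ) : ee (t + Real.pi) = -ee t := by rw [ee_add, ee_pi]; ring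

theorem sn_neg (x : ℝ) : sn (-x) = -sn x := by
  unfold sn; rw [Real.sin_neg, Real.sign_neg]

theorem sn_pi (x : ℝ) : sn (x + Real.pi) = -sn x := by
  unfold sn; rw [Real.sin_add_pi, Real.sign_neg]

theorem sn_per (x : ℝ) : sn (x + 2 * Real.pi) = sn x := by
  unfold sn; rw [Real.sin_add_two_pi]

theorem sn_abs (x : ℝ) : |sn x| ≤ 1 := by
  unfold sn
  rcases Real.sign_apply_eq (Real.sin x) with h | h | h <;> rw [h] <;> simp

theorem sn_pos {x : ℝ} (h1 : 0 < x) (h2 : x < Real.pi) : sn x = 1 := by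
  unfold sn; exact Real.sign_of_pos (Real.sin_pos_of_pos_of_lt_pi h1 h2)

theorem sn_neg' {x : ℝ} (h1 : -Real.pi < x) (h2 : x < 0) : sn x = -1 := by
  unfold sn; exact Real.sign_of_neg (Real.sin_neg_of_neg_of_neg_pi_lt h2 h1)

theorem sn_neg2 {x : ℝ} (h1 : Real.pi < x) (h2 : x < 2 * Real.pi) : sn x = -1 := by
  have := sn_neg' (x := x - 2 * Real.pi) (by linarith) (by linarith)
  rw [← sn_per, sub_add_cancel] at this
  exact this

theorem sn_meas : Measurable sn := by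
  have h : Measurable Real.sign := by
    unfold Real.sign
    exact Measurable.ite measurableSet_Iio measurable_const
      (Measurable.ite measurableSet_Ioi measurable_const measurable_const)
  exact h.comp Real.measurable_sin

theorem Sw_neg (ρ y : ℝ) : Sw ρ (-y) = -Sw ρ y := by
  unfold Sw
  rw [Real.cos_neg, sn_neg]
  split_ifs <;> simp

theorem Sw_pi (ρ y : ℝ) : Sw ρ (y + Real.pi) = -Sw ρ y := by
  unfold Sw
  rw [Real.cos_add_pi, abs_neg, sn_pi]
  split_ifs <;> simp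

theorem Sw_per (ρ y : ℝ) : Sw ρ (y + 2 * Real.pi) = Sw ρ y := by
  unfold Sw; rw [Real.cos_add_two_pi, sn_per]

theorem Sw_abs (ρ y : ℝ) : |Sw ρ y| ≤ 1 := by
  unfold Sw
  split_ifs
  · exact sn_abs y
  · simp

theorem Sw_meas (ρ : ℝ) : Measurable (Sw ρ) := by
  unfold Sw
  refine Measurable.ite ?_ sn_meas measurable_const
  exact measurableSet_lt (Real.measurable_cos.abs) measurable_const

theorem hv_per (y : ℝ) : hv (y + 2 * Real.pi) = hv y := by
  unfold hv; rw [ee_per]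

theorem hv_le (y : ℝ) : ‖hv y‖ ≤ 1 := by
  unfold hv
  rw [norm_div, Complex.norm_real, norm_norm]
  exact div_self_le_one _

theorem hv_meas : Measurable hv := by
  unfold hv
  have h : Measurable fun y : ℝ => 1 + ee y := measurable_const.add continuous_ee.measurable
  exact h.div (Complex.measurable_ofReal.comp h.norm)

theorem hv_eq {y : ℝ} (h1 : -Real.pi < y) (h2 : y < Real.pi) : hv y = ee (y / 2) := by
  have hc : 0 < Real.cos (y / 2) := Real.cos_pos_of_mem_Ioo ⟨by linarith, by linarith⟩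
  have e : 1 + ee y = ((2 * Real.cos (y / 2) : ℝ) : ℂ) * ee (y / 2) := by
    have h3 : ee y = ee (y / 2) * ee (y / 2) := by rw [← ee_add]; congr 1; ring
    have h4 : (1 : ℂ) = ee (y / 2) * (starRingEnd ℂ) (ee (y / 2)) := (ee_mul_conj _).symm
    rw [h3]
    conv_lhs => rw [h4]
    rw [ee_eq (y / 2)]
    simp only [map_add, map_mul, Complex.conj_ofReal, Complex.conj_I]
    push_cast
    ring
  unfold hv
  rw [e, norm_mul, norm_ee, mul_one, Complex.norm_real, Real.norm_of_nonneg (by linarith)]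
  have : ((2 * Real.cos (y / 2) : ℝ) : ℂ) ≠ 0 := by exact_mod_cast (by linarith : (0:ℝ) < 2 * Real.cos (y / 2)).ne'
  field_simp

theorem wp_per (ρ : ℝ) (q : ℕ) (y : ℝ) : wp ρ q (y + 2 * Real.pi) = wp ρ q y := by
  unfold wp
  have e : y + 2 * Real.pi + Real.pi = (y + Real.pi) + 2 * Real.pi := by ring
  rw [Real.cos_add_two_pi, hv_per, e, hv_per]

theorem wm_per (ρ : ℝ) (q : ℕ) (y : ℝ) : wm ρ q (y + 2 * Real.pi) = wm ρ q y := by
  unfold wm
  have e : y + 2 * Real.pi + Real.pi = (y + Real.pi) + 2 * Real.pi := by ring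
  rw [Real.cos_add_two_pi, hv_per, e, hv_per]

theorem wp_le (ρ : ℝ) (q : ℕ) (y : ℝ) : ‖wp ρ q y‖ ≤ 1 := by
  unfold wp
  split_ifs
  · rw [norm_pow]; exact pow_le_one₀ (norm_nonneg _) (hv_le _)
  · rw [norm_pow]; exact pow_le_one₀ (norm_nonneg _) (hv_le _)
  · simp

theorem wm_le (ρ : ℝ) (q : ℕ) (y : ℝ) : ‖wm ρ q y‖ ≤ 1 := by
  unfold wm
  split_ifs
  · rw [norm_pow]; exact pow_le_one₀ (norm_nonneg _) (hv_le _)
  · rw [norm_neg, norm_pow]; exact pow_le_one₀ (norm_nonneg _) (hv_le _)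
  · simp

theorem wp_meas (ρ : ℝ) (q : ℕ) : Measurable (wp ρ q) := by
  unfold wp
  refine Measurable.ite (measurableSet_lt measurable_const Real.measurable_cos)
    (hv_meas.pow_const q) (Measurable.ite (measurableSet_lt Real.measurable_cos measurable_const)
      ((hv_meas.comp (measurable_id.add_const _)).pow_const q) measurable_const)

theorem wm_meas (ρ : ℝ) (q : ℕ) : Measurable (wm ρ q) := by
  unfold wm
  refine Measurable.ite (measurableSet_lt measurable_const Real.measurable_cos)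
    (hv_meas.pow_const q) (Measurable.ite (measurableSet_lt Real.measurable_cos measurable_const)
      ((hv_meas.comp (measurable_id.add_const _)).pow_const q).neg measurable_const)

theorem sn_BM : BM (fun x => ((sn x : ℝ) : ℂ)) 1 :=
  ⟨Complex.measurable_ofReal.comp sn_meas, fun x => by
    rw [Complex.norm_real, Real.norm_eq_abs]; exact sn_abs x⟩

theorem Sw_BM (ρ : ℝ) : BM (fun x => ((Sw ρ x : ℝ) : ℂ)) 1 :=
  ⟨Complex.measurable_ofReal.comp (Sw_meas ρ), fun x => by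
    rw [Complex.norm_real, Real.norm_eq_abs]; exact Sw_abs ρ x⟩

theorem wp_BM (ρ : ℝ) (q : ℕ) : BM (wp ρ q) 1 := ⟨wp_meas ρ q, wp_le ρ q⟩

theorem wm_BM (ρ : ℝ) (q : ℕ) : BM (wm ρ q) 1 := ⟨wm_meas ρ q, wm_le ρ q⟩

/-- `∫_a^b e^{-icx} dx` -/
theorem int_ee {c : ℝ} (hc : c ≠ 0) (a b : ℝ) : ∫ x in a..b, ee (-c * x) =
    (ee (-c * a) - ee (-c * b)) / (Complex.I * c) := by
  have hcc : (c : ℂ) ≠ 0 := by exact_mod_cast hc
  have hI := Complex.I_ne_zero
  have hd : ∀ x : ℝ, HasDerivAt (fun x : ℝ => -ee (-c * x) / (Complex.I * c)) (ee (-c * x)) x := by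
    intro x
    have h := (hasDerivAt_ee (-c) x).neg.div_const (Complex.I * c)
    have e : ee (-c * x) = -(((-c : ℝ) : ℂ) * Complex.I * ee (-c * x)) / (Complex.I * c) := by
      push_cast
      field_simp
    rw [e]
    exact h
  rw [intervalIntegral.integral_eq_sub_of_hasDerivAt (fun x _ => hd x)]
  · ring
  · apply Continuous.intervalIntegrable
    exact continuous_ee.comp (continuous_const.mul continuous_id)

theorem ee_int_pi {n : ℤ} (hn : Odd n) : ee ((n : ℝ) * Real.pi) = -1 := by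
  have := ee_int_mul n Real.pi
  rw [this, ee_pi, hn.neg_one_zpow]

theorem ee_int_pi' {n : ℤ} (hn : Even n) : ee ((n : ℝ) * Real.pi) = 1 := by
  have := ee_int_mul n Real.pi
  rw [this, ee_pi, hn.neg_one_zpow]

/-- antiperiodic functions have only odd frequencies -/
theorem fc_anti {f : ℝ → ℂ} {C : ℝ} (h : BM f C) (hf : ∀ t, f (t + Real.pi) = -f t) {n : ℤ}
    (hn : Even n) : fc f n = 0 := by
  rw [fc_eq, int_anti, mul_zero]
  · intro t
    have : ee (-(n : ℝ) * (t + Real.pi)) = ee (-(n : ℝ) * t) := by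
      have h1 := ee_int_pi' (hn.neg)
      push_cast at h1
      rw [mul_add, ee_add, h1, mul_one]
    rw [hf, this]; ring
  · exact fun a b => (h.mul (BM.eec _)).i a b

/-- functions with the period `π` have only even frequencies -/
theorem fc_perpi {f : ℝ → ℂ} {C : ℝ} (h : BM f C) (hf : ∀ t, f (t + Real.pi) = f t) {n : ℤ}
    (hn : Odd n) : fc f n = 0 := by
  rw [fc_eq, int_anti, mul_zero]
  · intro t
    have : ee (-(n : ℝ) * (t + Real.pi)) = -ee (-(n : ℝ) * t) := by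
      have h1 := ee_int_pi (hn.neg)
      push_cast at h1
      rw [mul_add, ee_add, h1, mul_neg_one]
    rw [hf, this]; ring
  · exact fun a b => (h.mul (BM.eec _)).i a b

/-- for a product with an antiperiodic kernel the coefficient is twice the half integral -/
theorem half_int {g : ℝ → ℂ} {C : ℝ} (h : BM g C) (hg : ∀ t, g (t + Real.pi) = g t) (a : ℝ) :
    ∫ t in (0 : ℝ)..(2 * Real.pi), g t = 2 * ∫ t in a..(a + Real.pi), g t := by
  have h2 : ∀ t, g (t + 2 * Real.pi) = g t := fun t => by rw [two_mul, ← add_assoc, hg, hg]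
  rw [← shiftC2 h2 a]
  have e : a + 2 * Real.pi = a + Real.pi + Real.pi := by ring
  rw [e, ← intervalIntegral.integral_add_adjacent_intervals (h.i a (a + Real.pi))
    (h.i (a + Real.pi) (a + Real.pi + Real.pi))]
  have h3 : ∫ t in (a + Real.pi)..(a + Real.pi + Real.pi), g t = ∫ t in a..(a + Real.pi), g t := by
    rw [← intervalIntegral.integral_comp_add_right (fun t => g t)]
    exact intervalIntegral.integral_congr fun t _ => hg t
  rw [h3]; ring

/-- K1: the coefficients of the sign, odd frequencies -/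
theorem fc_sn {n : ℤ} (hn : Odd n) : fc (fun x => ((sn x : ℝ) : ℂ)) n =
    -(2 * Complex.I) / (Real.pi * n) := by
  have hpi := Real.pi_pos
  have hn0 : n ≠ 0 := by rintro rfl; exact absurd hn (by decide)
  have hnr : (n : ℝ) ≠ 0 := by exact_mod_cast hn0
  have hnc : (n : ℂ) ≠ 0 := by exact_mod_cast hn0
  have hpc : (Real.pi : ℂ) ≠ 0 := by exact_mod_cast hpi.ne'
  rw [fc_eq, half_int (sn_BM.mul (BM.eec (-(n : ℝ)))) (fun t => by
    have : ee (-(n : ℝ) * (t + Real.pi)) = -ee (-(n : ℝ) * t) := by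
      have h1 := ee_int_pi (hn.neg)
      push_cast at h1
      rw [mul_add, ee_add, h1, mul_neg_one]
    rw [sn_pi, this]; push_cast; ring) 0, zero_add]
  have e : ∫ t in (0 : ℝ)..Real.pi, ((sn t : ℝ) : ℂ) * ee (-(n : ℝ) * t) =
      ∫ t in (0 : ℝ)..Real.pi, ee (-(n : ℝ) * t) :=
    intervalIntegral.integral_congr_Ioo_of_le hpi.le fun t ht => by
      rw [sn_pos ht.1 ht.2]; simp
  have h2 : ee (-(n : ℝ) * Real.pi) = -1 := by
    have h1 := ee_int_pi (hn.neg)
    push_cast at h1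
    exact h1
  rw [e, int_ee hnr, h2, mul_zero, ee_zero]
  have hI := Complex.I_ne_zero
  push_cast
  field_simp
  rw [Complex.I_sq]
  ring

theorem cos_near {ρ y : ℝ} (h1 : ρ ≤ Real.pi / 2) (hy : |y| < ρ) :
    Real.cos ρ < Real.cos y := by
  rw [← Real.cos_abs y]
  exact Real.cos_lt_cos_of_nonneg_of_le_pi (abs_nonneg _) (by linarith [Real.pi_pos]) hy

theorem cos_far {ρ y : ℝ} (h0 : 0 ≤ ρ) (h1 : ρ < y) (h2 : y < Real.pi - ρ) :
    |Real.cos y| < Real.cos ρ := by
  rw [abs_lt]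
  constructor
  · have : Real.cos (Real.pi - ρ) < Real.cos y :=
      Real.cos_lt_cos_of_nonneg_of_le_pi (by linarith) (by linarith) h2
    rw [Real.cos_pi_sub] at this
    exact this
  · exact Real.cos_lt_cos_of_nonneg_of_le_pi h0 (by linarith) h1

theorem Sw_near {ρ y : ℝ} (h1 : ρ ≤ Real.pi / 2) (hy : |y| < ρ) : Sw ρ y = 0 := by
  unfold Sw
  have h := cos_near h1 hy
  have h2 : 0 ≤ Real.cos ρ := Real.cos_nonneg_of_mem_Icc ⟨by linarith [abs_nonneg y, Real.pi_pos], h1⟩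
  rw [if_neg]
  rw [abs_of_nonneg (by linarith)]
  exact not_lt.2 h.le

theorem Sw_far {ρ y : ℝ} (h0 : 0 ≤ ρ) (h1 : ρ < y) (h2 : y < Real.pi - ρ) : Sw ρ y = 1 := by
  unfold Sw
  rw [if_pos (cos_far h0 h1 h2), sn_pos (by linarith) (by linarith)]

theorem ee_sub_ee (x : ℝ) : ee (-x) - ee x = -(2 * Complex.I * Real.sin x) := by
  rw [ee_eq, ee_eq, Real.cos_neg, Real.sin_neg]
  push_cast
  ring

/-- K2: the coefficients of `Sw`, odd frequencies -/
theorem fc_Sw {ρ : ℝ} (h0 : 0 ≤ ρ) (h1 : ρ ≤ Real.pi / 3) {n : ℤ} (hn : Odd n) :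
    fc (fun x => ((Sw ρ x : ℝ) : ℂ)) n = -(2 * Complex.I * Real.cos (n * ρ)) / (Real.pi * n) := by
  have hpi := Real.pi_pos
  have hn0 : n ≠ 0 := by rintro rfl; exact absurd hn (by decide)
  have hnr : (n : ℝ) ≠ 0 := by exact_mod_cast hn0
  have hnc : (n : ℂ) ≠ 0 := by exact_mod_cast hn0
  have hpc : (Real.pi : ℂ) ≠ 0 := by exact_mod_cast hpi.ne'
  have hB := (Sw_BM ρ).mul (BM.eec (-(n : ℝ)))
  rw [fc_eq, half_int hB (fun t => by
    have : ee (-(n : ℝ) * (t + Real.pi)) = -ee (-(n : ℝ) * t) := by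
      have h1 := ee_int_pi (hn.neg)
      push_cast at h1
      rw [mul_add, ee_add, h1, mul_neg_one]
    rw [Sw_pi, this]; push_cast; ring) (-ρ)]
  have e0 : -ρ + Real.pi = Real.pi - ρ := by ring
  rw [e0, ← intervalIntegral.integral_add_adjacent_intervals (hB.i (-ρ) ρ) (hB.i ρ (Real.pi - ρ))]
  have e1 : ∫ t in (-ρ)..ρ, ((Sw ρ t : ℝ) : ℂ) * ee (-(n : ℝ) * t) = 0 := by
    have : ∫ t in (-ρ)..ρ, ((Sw ρ t : ℝ) : ℂ) * ee (-(n : ℝ) * t) = ∫ t in (-ρ)..ρ, (0 : ℂ) :=
      intervalIntegral.integral_congr_Ioo_of_le (by linarith) fun t ht => by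
        rw [Sw_near (by linarith) (abs_lt.2 ⟨ht.1, ht.2⟩)]; simp
    rw [this]; simp
  have e2 : ∫ t in ρ..(Real.pi - ρ), ((Sw ρ t : ℝ) : ℂ) * ee (-(n : ℝ) * t) =
      ∫ t in ρ..(Real.pi - ρ), ee (-(n : ℝ) * t) :=
    intervalIntegral.integral_congr_Ioo_of_le (by linarith) fun t ht => by
      rw [Sw_far h0 ht.1 ht.2]; simp
  have h2 : ee (-(n : ℝ) * (Real.pi - ρ)) = -ee (n * ρ) := by
    have h1 := ee_int_pi (hn.neg)
    push_cast at h1
    have : -(n : ℝ) * (Real.pi - ρ) = -(n : ℝ) * Real.pi + n * ρ := by ring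
    rw [this, ee_add, h1]; ring
  rw [e1, e2, int_ee hnr, h2, zero_add]
  have h3 : ee (-(n : ℝ) * ρ) - -ee (n * ρ) = 2 * (Real.cos (n * ρ) : ℂ) := by
    have : -(n : ℝ) * ρ = -(n * ρ) := by ring
    rw [this, ee_eq, ee_eq, Real.cos_neg, Real.sin_neg]
    push_cast
    ring
  rw [h3]
  have hI := Complex.I_ne_zero
  push_cast
  field_simp
  rw [Complex.I_sq]
  ring

theorem wp_pi {ρ : ℝ} (h1 : 0 ≤ Real.cos ρ) (q : ℕ) (y : ℝ) : wp ρ q (y + Real.pi) = wp ρ q y := by
  unfold wp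
  rw [Real.cos_add_pi]
  have e : hv (y + Real.pi + Real.pi) = hv y := by
    rw [add_assoc, ← two_mul, hv_per]
  rw [e]
  by_cases h2 : Real.cos ρ < Real.cos y
  · rw [if_neg (by linarith), if_pos (by linarith), if_pos h2]
  · by_cases h3 : Real.cos y < -Real.cos ρ
    · rw [if_pos (by linarith), if_neg h2, if_pos h3]
    · rw [if_neg (by linarith), if_neg (by linarith), if_neg h2, if_neg h3]

theorem wm_pi {ρ : ℝ} (h1 : 0 ≤ Real.cos ρ) (q : ℕ) (y : ℝ) : wm ρ q (y + Real.pi) = -wm ρ q y := by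
  unfold wm
  rw [Real.cos_add_pi]
  have e : hv (y + Real.pi + Real.pi) = hv y := by
    rw [add_assoc, ← two_mul, hv_per]
  rw [e]
  by_cases h2 : Real.cos ρ < Real.cos y
  · rw [if_neg (by linarith), if_pos (by linarith), if_pos h2]
  · by_cases h3 : Real.cos y < -Real.cos ρ
    · rw [if_pos (by linarith), if_neg h2, if_pos h3, neg_neg]
    · rw [if_neg (by linarith), if_neg (by linarith), if_neg h2, if_neg h3, neg_zero]

/-- the integral of a window -/
theorem int_win {ρ : ℝ} (h0 : 0 ≤ ρ) (h1 : ρ ≤ Real.pi / 3) {q : ℕ} (hq : Odd q) (n : ℤ)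
    {w : ℝ → ℂ} (hB : BM w 1) (hw1 : ∀ y, |y| < ρ → w y = hv y ^ q)
    (hw2 : ∀ y, ρ < y → y < Real.pi - ρ → w y = 0) :
    ∫ t in (-ρ)..(-ρ + Real.pi), w t * ee (-(n : ℝ) * t) = (RR ρ ((q : ℤ) - 2 * n) : ℂ) := by
  have hpi := Real.pi_pos
  have hB' := hB.mul (BM.eec (-(n : ℝ)))
  have e0 : -ρ + Real.pi = Real.pi - ρ := by ring
  rw [e0, ← intervalIntegral.integral_add_adjacent_intervals (hB'.i (-ρ) ρ) (hB'.i ρ (Real.pi - ρ))]
  have e2 : ∫ t in ρ..(Real.pi - ρ), w t * ee (-(n : ℝ) * t) = 0 := by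
    have : ∫ t in ρ..(Real.pi - ρ), w t * ee (-(n : ℝ) * t) = ∫ t in ρ..(Real.pi - ρ), (0 : ℂ) :=
      intervalIntegral.integral_congr_Ioo_of_le (by linarith) fun t ht => by
        rw [hw2 t ht.1 ht.2]; simp
    rw [this]; simp
  set c : ℝ := n - q / 2 with hc
  have hj : ((q : ℤ) - 2 * n : ℤ) ≠ 0 := by
    intro h
    have h1 : (q : ℤ) = 2 * n := by linarith
    have h2 : Odd (q : ℤ) := by exact_mod_cast hq
    rw [h1] at h2
    exact (Int.not_odd_iff_even.2 (even_two_mul n)) h2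
  have hjr : (((q : ℤ) - 2 * n : ℤ) : ℝ) = -2 * c := by push_cast; rw [hc]; ring
  have hc0 : c ≠ 0 := by
    intro h
    apply hj
    have : (((q : ℤ) - 2 * n : ℤ) : ℝ) = 0 := by rw [hjr, h]; ring
    exact_mod_cast this
  have e1 : ∫ t in (-ρ)..ρ, w t * ee (-(n : ℝ) * t) = ∫ t in (-ρ)..ρ, ee (-c * t) :=
    intervalIntegral.integral_congr_Ioo_of_le (by linarith) fun t ht => by
      rw [hw1 t (abs_lt.2 ⟨ht.1, ht.2⟩), hv_eq (by linarith [ht.1]) (by linarith [ht.2])]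
      have : ee (t / 2) ^ q = ee ((q : ℝ) * (t / 2)) := by
        have := ee_int_mul (q : ℤ) (t / 2)
        rw [zpow_natCast] at this
        rw [← this]
        push_cast
        rfl
      rw [this, ← ee_add]
      congr 1
      rw [hc]; ring
  rw [e1, e2, int_ee hc0, add_zero]
  have hcc : (c : ℂ) ≠ 0 := by exact_mod_cast hc0
  have hI := Complex.I_ne_zero
  have h3 : ee (-c * -ρ) - ee (-c * ρ) = 2 * Complex.I * Real.sin (c * ρ) := by
    have a1 : -c * -ρ = c * ρ := by ring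
    have a2 : -c * ρ = -(c * ρ) := by ring
    rw [a1, a2, ee_eq, ee_eq, Real.cos_neg, Real.sin_neg]
    push_cast
    ring
  rw [h3]
  unfold RR
  rw [hjr]
  have a3 : -2 * c * ρ / 2 = -(c * ρ) := by ring
  rw [a3, Real.sin_neg]
  push_cast
  field_simp
  ring

theorem fc_wp {ρ : ℝ} (h0 : 0 ≤ ρ) (h1 : ρ ≤ Real.pi / 3) {q : ℕ} (hq : Odd q) {n : ℤ}
    (hn : Even n) : fc (wp ρ q) n = (RR ρ ((q : ℤ) - 2 * n) : ℂ) / Real.pi := by
  have hpi := Real.pi_pos
  have hpc : (Real.pi : ℂ) ≠ 0 := by exact_mod_cast hpi.ne'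
  have hc : 0 ≤ Real.cos ρ := Real.cos_nonneg_of_mem_Icc ⟨by linarith, by linarith⟩
  rw [fc_eq, half_int ((wp_BM ρ q).mul (BM.eec (-(n : ℝ)))) (fun t => by
    have : ee (-(n : ℝ) * (t + Real.pi)) = ee (-(n : ℝ) * t) := by
      have h1 := ee_int_pi' (hn.neg)
      push_cast at h1
      rw [mul_add, ee_add, h1, mul_one]
    rw [wp_pi hc, this]) (-ρ), int_win h0 h1 hq n (wp_BM ρ q)]
  · field_simp
  · intro y hy
    unfold wp
    rw [if_pos (cos_near (by linarith) hy)]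
  · intro y hy1 hy2
    have := abs_lt.1 (cos_far h0 hy1 hy2)
    unfold wp
    rw [if_neg (not_lt.2 this.2.le), if_neg (not_lt.2 this.1.le)]

theorem fc_wm {ρ : ℝ} (h0 : 0 ≤ ρ) (h1 : ρ ≤ Real.pi / 3) {q : ℕ} (hq : Odd q) {n : ℤ}
    (hn : Odd n) : fc (wm ρ q) n = (RR ρ ((q : ℤ) - 2 * n) : ℂ) / Real.pi := by
  have hpi := Real.pi_pos
  have hpc : (Real.pi : ℂ) ≠ 0 := by exact_mod_cast hpi.ne'
  have hc : 0 ≤ Real.cos ρ := Real.cos_nonneg_of_mem_Icc ⟨by linarith, by linarith⟩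
  rw [fc_eq, half_int ((wm_BM ρ q).mul (BM.eec (-(n : ℝ)))) (fun t => by
    have : ee (-(n : ℝ) * (t + Real.pi)) = -ee (-(n : ℝ) * t) := by
      have h1 := ee_int_pi (hn.neg)
      push_cast at h1
      rw [mul_add, ee_add, h1, mul_neg_one]
    rw [wm_pi hc, this]; ring) (-ρ), int_win h0 h1 hq n (wm_BM ρ q)]
  · field_simp
  · intro y hy
    unfold wm
    rw [if_pos (cos_near (by linarith) hy)]
  · intro y hy1 hy2
    have := abs_lt.1 (cos_far h0 hy1 hy2)
    unfold wm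
    rw [if_neg (not_lt.2 this.2.le), if_neg (not_lt.2 this.1.le)]

end Helper87.RC
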