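import Pool.Agent.Helper87.RC.M_KER

/-!
# Project RC: module KER, second part
-/

open MeasureTheory Set Filter Metric

namespace Helper87.RC

open Helper49.LT hiding sg
open Helper49.RC

theorem norm_om : ‖om‖ = 1 := norm_ee _

theorem om_re : om.re = 1 / 2 := by
  unfold om; rw [ee_re, Real.cos_pi_div_three]

theorem om_im : om.im = Real.sqrt 3 / 2 := by
  unfold om; rw [ee_im, Real.sin_pi_div_three]

theorem om_sq : om ^ 2 = om - 1 := by
  have h3 : Real.sqrt 3 * Real.sqrt 3 = 3 := Real.mul_self_sqrt (by norm_num)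
  rw [sq]
  apply Complex.ext
  · rw [Complex.mul_re, om_re, om_im, Complex.sub_re, om_re, Complex.one_re]
    linear_combination (-1/4) * h3
  · rw [Complex.mul_im, om_re, om_im, Complex.sub_im, om_im, Complex.one_im]
    ring

theorem om_conj : (starRingEnd ℂ) om = 1 - om := by
  apply Complex.ext
  · rw [Complex.conj_re, om_re, Complex.sub_re, om_re, Complex.one_re]; norm_num
  · rw [Complex.conj_im, om_im, Complex.sub_im, om_im, Complex.one_im]; ring

variable {β P : ℝ → ℂ}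

theorem beta_le (h : Adm β P) (t : ℝ) : ‖β t‖ ≤ 2 := by
  have h1 := h.bdb t
  nlinarith [norm_nonneg (β t)]

theorem P_le (h : Adm β P) (t : ℝ) : ‖P t‖ ≤ 3 := by
  obtain ⟨x, y, hxy, hp⟩ := h.reg t
  have hb := beta_le h t
  have ho := norm_om
  have h1 : ‖f1 (β t) 0‖ ≤ 3 := by
    unfold f1
    rw [add_zero]
    refine (norm_add_le _ _).trans ?_
    rw [norm_mul, Complex.norm_conj, ho]
    linarith
  have h2 : ‖f2 (β t) 0‖ ≤ 3 := by
    unfold f2
    rw [sub_zero]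
    refine (norm_add_le _ _).trans ?_
    rw [norm_mul, norm_pow, norm_pow, Complex.norm_conj, ho]
    linarith
  rw [hp]
  refine (norm_add_le _ _).trans ?_
  rw [norm_mul, norm_mul, Complex.norm_real, Complex.norm_real, Real.norm_eq_abs, Real.norm_eq_abs]
  nlinarith [abs_nonneg x, abs_nonneg y]

theorem f0_le (h : Adm β P) (t : ℝ) : ‖ee t * f0 (β t)‖ ≤ 6 := by
  rw [norm_mul, norm_ee, one_mul]
  unfold f0
  refine (norm_add_le _ _).trans ?_
  rw [norm_one]
  linarith [beta_le h t]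

theorem f1_le {b p : ℂ} (hb : ‖b‖ ≤ 2) (hp : ‖p‖ ≤ 3) (t : ℝ) : ‖ee t * f1 b p‖ ≤ 6 := by
  rw [norm_mul, norm_ee, one_mul]
  unfold f1
  refine (norm_add_le _ _).trans ?_
  have : ‖om + (starRingEnd ℂ) om * b‖ ≤ 3 := by
    refine (norm_add_le _ _).trans ?_
    rw [norm_mul, Complex.norm_conj, norm_om]
    linarith
  linarith

theorem f2_le {b p : ℂ} (hb : ‖b‖ ≤ 2) (hp : ‖p‖ ≤ 3) (t : ℝ) : ‖ee t * f2 b p‖ ≤ 6 := by
  rw [norm_mul, norm_ee, one_mul]
  unfold f2
  refine (norm_sub_le _ _).trans ?_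
  have : ‖om ^ 2 + (starRingEnd ℂ) om ^ 2 * b‖ ≤ 3 := by
    refine (norm_add_le _ _).trans ?_
    rw [norm_mul, norm_pow, norm_pow, Complex.norm_conj, norm_om]
    linarith
  linarith

theorem e3_le (h : Adm β P) (t : ℝ) (k : Fin 3) : ‖e3 β P t k‖ ≤ 6 := by
  have hb := beta_le h t
  have hp := P_le h t
  fin_cases k
  · exact f0_le h t
  · exact f1_le hb hp t
  · exact f2_le hb hp t

theorem e6_le (h : Adm β P) (t : ℝ) (k : Fin 6) : ‖e6 β P t k‖ ≤ 6 := by
  have hb := beta_le h t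
  have hp := P_le h t
  have hp' : ‖-P t‖ ≤ 3 := by rw [norm_neg]; exact hp
  fin_cases k
  · exact f0_le h t
  · exact f1_le hb hp t
  · exact f2_le hb hp t
  · show ‖-(ee t * f0 (β t))‖ ≤ 6
    rw [norm_neg]; exact f0_le h t
  · show ‖-(ee t * f1 (β t) (-P t))‖ ≤ 6
    rw [norm_neg]; exact f1_le hb hp' t
  · show ‖-(ee t * f2 (β t) (-P t))‖ ≤ 6
    rw [norm_neg]; exact f2_le hb hp' t

theorem m0 (h : Adm β P) : Measurable (fun t => ee t * f0 (β t)) :=
  continuous_ee.measurable.mul (measurable_const.add h.mb)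

theorem m1 {Q : ℝ → ℂ} (hb : Measurable β) (hQ : Measurable Q) :
    Measurable (fun t => ee t * f1 (β t) (Q t)) :=
  continuous_ee.measurable.mul ((measurable_const.add (hb.const_mul _)).add hQ)

theorem m2 {Q : ℝ → ℂ} (hb : Measurable β) (hQ : Measurable Q) :
    Measurable (fun t => ee t * f2 (β t) (Q t)) :=
  continuous_ee.measurable.mul ((measurable_const.add (hb.const_mul _)).sub hQ)

theorem e3_meas (h : Adm β P) (k : Fin 3) : Measurable (fun t => e3 β P t k) := by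
  fin_cases k
  · exact m0 h
  · exact m1 h.mb h.mp
  · exact m2 h.mb h.mp

theorem e6_meas (h : Adm β P) (k : Fin 6) : Measurable (fun t => e6 β P t k) := by
  fin_cases k
  · exact m0 h
  · exact m1 h.mb h.mp
  · exact m2 h.mb h.mp
  · exact (m0 h).neg
  · exact (m1 h.mb h.mp.neg).neg
  · exact (m2 h.mb h.mp.neg).neg

theorem EE_e3 (n : ℕ) (t : ℝ) : EE (e3 β P) n t =
    nn n (ee t * f0 (β t)) + nn n (ee t * f1 (β t) (P t)) + nn n (ee t * f2 (β t) (P t)) := by
  unfold EE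
  rw [Fin.sum_univ_three]
  rfl

theorem sg_EE (n : ℕ) : sg β P n = (1 / (2 * Real.pi) : ℂ) *
    ∫ t in (0 : ℝ)..(2 * Real.pi), EE (e3 β P) n t := by
  unfold sg
  simp_rw [EE_e3]

/-- the integral over the period of an antiperiodic function vanishes -/
theorem int_anti {g : ℝ → ℂ} (hg : ∀ t, g (t + Real.pi) = -g t)
    (hi : ∀ a b : ℝ, IntervalIntegrable g volume a b) :
    ∫ t in (0 : ℝ)..(2 * Real.pi), g t = 0 := by
  rw [← intervalIntegral.integral_add_adjacent_intervals (hi 0 Real.pi) (hi Real.pi (2 * Real.pi))]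
  have h2 : ∫ t in Real.pi..(2 * Real.pi), g t = ∫ t in (0 : ℝ)..Real.pi, g (t + Real.pi) := by
    rw [intervalIntegral.integral_comp_add_right (fun t => g t)]
    congr 1 <;> ring
  rw [h2]
  simp_rw [hg]
  rw [intervalIntegral.integral_neg]
  ring

theorem sg_one (h : Adm β P) : sg β P 1 = 0 := by
  rw [sg_EE]
  have hE : ∀ a b : ℝ, IntervalIntegrable (EE (e3 β P) 1) volume a b := fun a b =>
    intg_of_bddC (EE_meas (e3_meas h) 1) (EE_le (e3_le h) 1) _ _
  have h1 : ∀ t, EE (e3 β P) 1 t =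
      (starRingEnd ℂ) (ee t * ((1 + om + om ^ 2) + (1 + (starRingEnd ℂ) om + (starRingEnd ℂ) om ^ 2) * β t)) := by
    intro t
    rw [EE_e3, nn_one, nn_one, nn_one, ← map_add, ← map_add]
    congr 1
    unfold f0 f1 f2
    ring
  have h2 : ∀ t, EE (e3 β P) 1 (t + Real.pi) = -EE (e3 β P) 1 t := by
    intro t
    rw [h1, h1, h.perb, ee_add, ee_pi, ← map_neg]
    congr 1
    ring
  rw [int_anti h2 hE, mul_zero]

/-- Module KER. -/
theorem hKER (hS : StSaw) : StKer := by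
  intro β P h
  have hK := KK_le (e3_le h)
  refine ⟨sg_one h, KK_meas (e3_meas h), ⟨_, hK⟩, ?_⟩
  have hpi := Real.pi_pos
  have hst := step3 hS (e3_meas h) (e3_le h)
  have hn : ∀ n, ‖∫ s in (0 : ℝ)..(2 * Real.pi), EE (e3 β P) n s‖ = 2 * Real.pi * ‖sg β P n‖ := by
    intro n
    rw [sg_EE, norm_mul]
    have : ‖(1 / (2 * Real.pi) : ℂ)‖ = 1 / (2 * Real.pi) := by
      rw [norm_div, norm_one, norm_mul, Complex.norm_real, Real.norm_of_nonneg hpi.le]
      norm_num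
    rw [this]
    field_simp
  simp_rw [hn, sg_one h] at hst
  have h2 := (hasSum_nat_add_iff' 1).2 hst
  rw [Finset.sum_range_one] at h2
  have e1 : (fun n : ℕ => 2 * (2 * Real.pi * ‖sg β P (n + 1 + 2)‖) ^ 2 /
      ((((n + 1 : ℕ) : ℝ) + 2) ^ 2 - 1)) =
      fun n : ℕ => (2 * (2 * Real.pi) ^ 2) * (‖sg β P (n + 3)‖ ^ 2 / (((n : ℝ) + 3) ^ 2 - 1)) := by
    funext n
    have e2 : n + 1 + 2 = n + 3 := rfl
    rw [e2]
    push_cast
    rw [show (n : ℝ) + 1 + 2 = n + 3 by ring]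
    ring
  rw [e1] at h2
  have h3 := h2.tsum_eq
  rw [tsum_mul_left] at h3
  unfold FM
  have h4 : ∀ t s, ∑ k, ∑ l, kr (e3 β P t k) (e3 β P s l) = KK (e3 β P) t s := fun _ _ => rfl
  simp_rw [h4]
  set T := ∑' n : ℕ, ‖sg β P (n + 3)‖ ^ 2 / (((n : ℝ) + 3) ^ 2 - 1) with hT
  set J := ∫ t in (0 : ℝ)..(2 * Real.pi), ∫ s in (0 : ℝ)..(2 * Real.pi), KK (e3 β P) t s with hJ
  have h5 : T = ((2 * Real.pi * ‖sg β P 0‖) ^ 2 - J -
      2 * (2 * Real.pi * ‖sg β P 2‖) ^ 2 / 3) / (2 * (2 * Real.pi) ^ 2) := by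
    rw [eq_div_iff (by positivity), mul_comm, h3]
    norm_num
  rw [h5]
  field_simp
  ring

end Helper87.RC
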