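import Pool.Agent.Helper87.RC.M_KERb

/-!
# Project RC: module KR6
-/

open MeasureTheory Set Filter Metric

namespace Helper87.RC

open Helper49.LT hiding sg
open Helper49.RC

variable {β P : ℝ → ℂ}

theorem ee_add_pi (t : ℝ) : ee (t + Real.pi) = -ee t := by
  rw [ee_add, ee_pi, mul_neg_one]

theorem e3_pi0 (h : Adm β P) (t : ℝ) : e3 β P (t + Real.pi) 0 = -(ee t * f0 (β t)) := by
  show ee (t + Real.pi) * f0 (β (t + Real.pi)) = _
  rw [h.perb, ee_add_pi, neg_mul]

theorem e3_pi1 (h : Adm β P) (t : ℝ) : e3 β P (t + Real.pi) 1 = -(ee t * f1 (β t) (-P t)) := by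
  show ee (t + Real.pi) * f1 (β (t + Real.pi)) (P (t + Real.pi)) = _
  rw [h.perb, h.perp, ee_add_pi, neg_mul]

theorem e3_pi2 (h : Adm β P) (t : ℝ) : e3 β P (t + Real.pi) 2 = -(ee t * f2 (β t) (-P t)) := by
  show ee (t + Real.pi) * f2 (β (t + Real.pi)) (P (t + Real.pi)) = _
  rw [h.perb, h.perp, ee_add_pi, neg_mul]

/-- sums over the six edges -/
theorem sum6 (h : Adm β P) (t : ℝ) (F : ℂ → ℝ) :
    ∑ k, F (e6 β P t k) = ∑ k, F (e3 β P t k) + ∑ k, F (e3 β P (t + Real.pi) k) := by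
  rw [Fin.sum_univ_three, Fin.sum_univ_three, Fin.sum_univ_six, e3_pi0 h, e3_pi1 h, e3_pi2 h]
  simp only [e6, e3, Matrix.cons_val]
  ring

theorem KK6 (h : Adm β P) (t s : ℝ) : KK (e6 β P) t s =
    KK (e3 β P) t s + KK (e3 β P) t (s + Real.pi) +
      (KK (e3 β P) (t + Real.pi) s + KK (e3 β P) (t + Real.pi) (s + Real.pi)) := by
  unfold KK
  rw [sum6 h t (fun z => ∑ l, kr z (e6 β P s l))]
  simp_rw [fun z => sum6 h s (fun z' => kr z z')]
  rw [Finset.sum_add_distrib, Finset.sum_add_distrib]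

theorem e3_per (h : Adm β P) (t : ℝ) : e3 β P (t + 2 * Real.pi) = e3 β P t := by
  have hb : β (t + 2 * Real.pi) = β t := by
    rw [two_mul, ← add_assoc, h.perb, h.perb]
  have hp : P (t + 2 * Real.pi) = P t := by
    rw [two_mul, ← add_assoc, h.perp, h.perp, neg_neg]
  unfold e3
  rw [hb, hp, ee_per]

theorem KK_per_s (h : Adm β P) (t : ℝ) : Function.Periodic (fun s => KK (e3 β P) t s) (2 * Real.pi) := by
  intro s
  show KK (e3 β P) t (s + 2 * Real.pi) = KK (e3 β P) t s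
  unfold KK
  rw [e3_per h]

theorem KK_per_t (h : Adm β P) (t s : ℝ) : KK (e3 β P) (t + 2 * Real.pi) s = KK (e3 β P) t s := by
  unfold KK
  rw [e3_per h]

theorem int_shift {g : ℝ → ℝ} (hg : Function.Periodic g (2 * Real.pi)) :
    ∫ t in (0 : ℝ)..(2 * Real.pi), g (t + Real.pi) = ∫ t in (0 : ℝ)..(2 * Real.pi), g t := by
  rw [intervalIntegral.integral_comp_add_right (fun t => g t)]
  have := hg.intervalIntegral_add_eq Real.pi 0
  rw [zero_add] at this
  rw [zero_add, add_comm (2 * Real.pi), this]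

theorem KK_meas_t (h : Adm β P) : Measurable (fun t => ∫ s in (0 : ℝ)..(2 * Real.pi), KK (e3 β P) t s) := by
  have h1 : StronglyMeasurable (fun q : ℝ × ℝ => KK (e3 β P) q.1 q.2) :=
    (KK_meas (e3_meas h)).stronglyMeasurable
  have h2 := h1.integral_prod_right' (ν := volume.restrict (Ioc 0 (2 * Real.pi)))
  have h3 : (fun t => ∫ s in (0 : ℝ)..(2 * Real.pi), KK (e3 β P) t s) =
      fun t => ∫ s, KK (e3 β P) t s ∂(volume.restrict (Ioc 0 (2 * Real.pi))) := by
    funext t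
    rw [intervalIntegral.integral_of_le (by positivity)]
  rw [h3]
  exact h2.measurable

/-- Module KR6. -/
theorem hKR6 (hK : StKer) : StKr6 := by
  intro β P h
  obtain ⟨-, -, -, hF⟩ := hK β P h
  refine ⟨KK_meas (e6_meas h), ⟨_, KK_le (e6_le h)⟩, ?_⟩
  rw [hF]
  have hm := KK_meas (e3_meas h)
  have hb := KK_le (e3_le h)
  have i1 : ∀ t, IntervalIntegrable (fun s => KK (e3 β P) t s) volume 0 (2 * Real.pi) := fun t =>
    intg_of_bdd (hm.comp (measurable_const.prodMk measurable_id)) (hb t) _ _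
  have i2 : ∀ t, IntervalIntegrable (fun s => KK (e3 β P) t (s + Real.pi)) volume 0 (2 * Real.pi) :=
    fun t => intg_of_bdd (hm.comp (measurable_const.prodMk (measurable_id.add_const _)))
      (fun s => hb t _) _ _
  have e1 : ∀ t, ∫ s in (0 : ℝ)..(2 * Real.pi), ∑ k, ∑ l, kr (e6 β P t k) (e6 β P s l) =
      2 * (∫ s in (0 : ℝ)..(2 * Real.pi), KK (e3 β P) t s) +
      2 * (∫ s in (0 : ℝ)..(2 * Real.pi), KK (e3 β P) (t + Real.pi) s) := by
    intro t
    have e2 : (fun s => ∑ k, ∑ l, kr (e6 β P t k) (e6 β P s l)) =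
        fun s => KK (e3 β P) t s + KK (e3 β P) t (s + Real.pi) +
      (KK (e3 β P) (t + Real.pi) s + KK (e3 β P) (t + Real.pi) (s + Real.pi)) := by
      funext s
      exact KK6 h t s
    rw [e2, intervalIntegral.integral_add ((i1 t).add (i2 t)) ((i1 _).add (i2 _)),
      intervalIntegral.integral_add (i1 t) (i2 t), intervalIntegral.integral_add (i1 _) (i2 _),
      int_shift (KK_per_s h t), int_shift (KK_per_s h (t + Real.pi))]
    ring
  simp_rw [e1]
  set G : ℝ → ℝ := fun t => ∫ s in (0 : ℝ)..(2 * Real.pi), KK (e3 β P) t s with hG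
  have hGm : Measurable G := KK_meas_t h
  have hGb : ∀ t, |G t| ≤ (3 : ℕ) * ((3 : ℕ) * (Real.pi * (6 * 6))) * |2 * Real.pi - 0| := by
    intro t
    rw [← Real.norm_eq_abs]
    exact intervalIntegral.norm_integral_le_of_norm_le_const fun s _ => by
      rw [Real.norm_eq_abs]; exact hb t s
  have hGp : Function.Periodic G (2 * Real.pi) := by
    intro t
    show (∫ s in (0 : ℝ)..(2 * Real.pi), KK (e3 β P) (t + 2 * Real.pi) s) = _
    simp_rw [KK_per_t h]
    rfl
  have j1 : IntervalIntegrable G volume 0 (2 * Real.pi) := intg_of_bdd hGm hGb _ _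
  have j2 : IntervalIntegrable (fun t => G (t + Real.pi)) volume 0 (2 * Real.pi) :=
    intg_of_bdd (hGm.comp (measurable_id.add_const _)) (fun t => hGb _) _ _
  have e3 : ∫ t in (0 : ℝ)..(2 * Real.pi), (2 * G t + 2 * G (t + Real.pi)) =
      4 * ∫ t in (0 : ℝ)..(2 * Real.pi), G t := by
    rw [intervalIntegral.integral_add (j1.const_mul 2) (j2.const_mul 2),
      intervalIntegral.integral_const_mul, intervalIntegral.integral_const_mul, int_shift hGp]
    ring
  show 2 / 3 * ‖Helper49.RC.sg β P 2‖ ^ 2 + (1 / (2 * Real.pi)) ^ 2 *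
    ∫ t in (0 : ℝ)..(2 * Real.pi), G t = 2 / 3 * ‖Helper49.RC.sg β P 2‖ ^ 2 +
      1 / 4 * (1 / (2 * Real.pi)) ^ 2 * ∫ t in (0 : ℝ)..(2 * Real.pi), (2 * G t + 2 * G (t + Real.pi))
  rw [e3]
  ring

end Helper87.RC
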