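import Pool.Agent.Helper71.RC.M_KSD

/-!
# Project RC: the duality with `‖b‖ < 1`
-/

open MeasureTheory Set Filter Metric

namespace Helper87.RC

open Helper97.CB Helper49.LT Helper49.RC Pool.Agent.Helper71.RC

/-- duality with the parameter `b` in the open unit disc -/
def StKsd1 : Prop := ∀ (K : Set ℂ) (M : ℝ), IsBody K → 0 < M →
  (∀ x : Fin 6 → ℂ, (∀ k, x k ∈ K) → x 1 - x 2 + x 4 - x 5 = 0 →
    ar6 x ≤ 3 * Real.sqrt 3 * M) →
  ∀ t ε : ℝ, 0 < ε → ∃ b p : ℂ, ‖b‖ < 1 ∧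
    Psi K t b p - ‖b‖ ^ 2 ≤ 2 * Real.sqrt M * Real.sqrt (1 - ‖b‖ ^ 2) + ε

noncomputable section

/-- the functional -/
def FL (M er ei : ℝ) (x : Fin 6 → ℂ) : ℝ :=
  2 * (er * Xr x + ei * Xi x) - 2 * Real.sqrt (M + (Vr x ^ 2 + Vi x ^ 2))

theorem continuous_FL (M er ei : ℝ) : Continuous (FL M er ei) := by
  unfold FL Xr Xi Vr Vi
  have hre : ∀ k : Fin 6, Continuous fun x : Fin 6 → ℂ => (x k).re := fun k =>
    Complex.continuous_re.comp (continuous_apply k)
  have him : ∀ k : Fin 6, Continuous fun x : Fin 6 → ℂ => (x k).im := fun k =>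
    Complex.continuous_im.comp (continuous_apply k)
  fun_prop

/-- second order bound for the square root along a segment -/
theorem sqrt_line {S q y : ℝ} (hS : 0 < S) (hy : S ^ 2 + q = y ^ 2) : y ≤ S + q / (2 * S) := by
  have h1 : 2 * S * y ≤ S ^ 2 + y ^ 2 := by nlinarith [sq_nonneg (S - y)]
  have h2 : 2 * S * (S + q / (2 * S)) = 2 * S ^ 2 + q := by field_simp
  have h3 : 2 * S * y ≤ 2 * S * (S + q / (2 * S)) := by rw [h2]; linarith
  exact le_of_mul_le_mul_left h3 (by positivity)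

theorem hKSD1 : StKsd1 := by
  intro K M hK hM0 hM t ε hε
  obtain ⟨hconv, hcomp, hint⟩ := hK
  obtain ⟨x0, hx0⟩ := hint
  have hx0K : x0 ∈ K := interior_subset hx0
  have hne : K.Nonempty := ⟨x0, hx0K⟩
  set e : ℂ := ee t with he
  have hee : e * (starRingEnd ℂ) e = 1 := ee_mul_conj t
  have hen : e.re ^ 2 + e.im ^ 2 = 1 := by
    rw [he, ee_re, ee_im]; exact Real.cos_sq_add_sin_sq t
  -- the compact sets
  set Kp : Set (Fin 6 → ℂ) := Set.pi Set.univ (fun _ => K) with hKp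
  have hKpc : IsCompact Kp := isCompact_univ_pi fun _ => hcomp
  have hKpv : Convex ℝ Kp := convex_pi fun _ _ => hconv
  have hclosed : IsClosed {x : Fin 6 → ℂ | x 1 - x 2 + x 4 - x 5 = 0} :=
    isClosed_eq (by fun_prop) continuous_const
  have hCc : IsCompact (Kp ∩ {x : Fin 6 → ℂ | x 1 - x 2 + x 4 - x 5 = 0}) :=
    hKpc.inter_right hclosed
  have hcst : (fun _ : Fin 6 => x0) ∈ Kp ∩ {x : Fin 6 → ℂ | x 1 - x 2 + x 4 - x 5 = 0} :=
    ⟨fun _ _ => hx0K, by simp⟩
  obtain ⟨xs, hxs, hmax⟩ := hCc.exists_isMaxOn ⟨_, hcst⟩ (continuous_FL M e.re e.im).continuousOn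
  set n2 : ℝ := Vr xs ^ 2 + Vi xs ^ 2 with hn2
  have hn20 : 0 ≤ n2 := by rw [hn2]; positivity
  set S : ℝ := Real.sqrt (M + n2) with hS
  have hS2 : S ^ 2 = M + n2 := Real.sq_sqrt (by linarith)
  have hS0 : 0 < S := Real.sqrt_pos.2 (by linarith)
  set V : ℂ := ⟨Vr xs / S, Vi xs / S⟩ with hV
  -- the value of the maximum
  have hF : FL M e.re e.im xs ≤ 0 := by
    have h1 := hM xs (fun k => hxs.1 k (Set.mem_univ _)) hxs.2
    rw [ar6_eq xs hxs.2] at h1
    have h3 : 0 < 3 * Real.sqrt 3 := by positivity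
    have h2 : Xr xs ^ 2 + Xi xs ^ 2 - (Vr xs ^ 2 + Vi xs ^ 2) ≤ M := le_of_mul_le_mul_left h1 h3
    unfold FL
    rw [← hn2, ← hS]
    have h4 : Xr xs ^ 2 + Xi xs ^ 2 ≤ S ^ 2 := by rw [hS2]; linarith
    have h5 : (e.re * Xr xs + e.im * Xi xs) ^ 2 ≤ S ^ 2 := by
      have : (e.re * Xr xs + e.im * Xi xs) ^ 2 + (e.re * Xi xs - e.im * Xr xs) ^ 2 =
          (e.re ^ 2 + e.im ^ 2) * (Xr xs ^ 2 + Xi xs ^ 2) := by ring
      rw [hen, one_mul] at this
      nlinarith [sq_nonneg (e.re * Xi xs - e.im * Xr xs)]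
    have h6 := abs_le_of_sq_le_sq' h5 hS0.le
    linarith [h6.2]
  -- the first order condition
  have hfo : ∀ x ∈ Kp, x 1 - x 2 + x 4 - x 5 = 0 →
      2 * (e.re * Xr x + e.im * Xi x) - 2 * (Vr xs * Vr x + Vi xs * Vi x) / S
        ≤ 2 * M / S := by
    intro x hx hxl
    have key : (2 * (e.re * Xr x + e.im * Xi x) - 2 * (e.re * Xr xs + e.im * Xi xs))
        - (2 * (Vr xs * (Vr x - Vr xs) + Vi xs * (Vi x - Vi xs))) / S ≤ 0 := by
      refine lim_aux (B := ((Vr x - Vr xs) ^ 2 + (Vi x - Vi xs) ^ 2) / S) (by positivity) ?_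
      intro τ h0 h1
      have hmem : (fun k => xs k + τ • (x k - xs k)) ∈
          Kp ∩ {x : Fin 6 → ℂ | x 1 - x 2 + x 4 - x 5 = 0} := by
        refine ⟨fun k _ => hconv.add_smul_sub_mem (hxs.1 k (Set.mem_univ _))
          (hx k (Set.mem_univ _)) ⟨h0.le, h1⟩, ?_⟩
        have e1 : xs 1 - xs 2 + xs 4 - xs 5 = 0 := hxs.2
        simp only [mem_ofPred_eq, Complex.real_smul]
        linear_combination (1 - (τ : ℂ)) * e1 + (τ : ℂ) * hxl
      have h2 := hmax hmem
      simp only [mem_ofPred_eq] at h2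
      have e1 : Xr (fun k => xs k + τ • (x k - xs k)) = Xr xs + τ * (Xr x - Xr xs) := by
        unfold Xr
        simp only [Complex.add_re, Complex.add_im, Complex.real_smul, Complex.re_ofReal_mul,
          Complex.im_ofReal_mul, Complex.sub_re, Complex.sub_im]
        ring
      have e2 : Xi (fun k => xs k + τ • (x k - xs k)) = Xi xs + τ * (Xi x - Xi xs) := by
        unfold Xi
        simp only [Complex.add_re, Complex.add_im, Complex.real_smul, Complex.re_ofReal_mul,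
          Complex.im_ofReal_mul, Complex.sub_re, Complex.sub_im]
        ring
      have e3 : Vr (fun k => xs k + τ • (x k - xs k)) = Vr xs + τ * (Vr x - Vr xs) := by
        unfold Vr
        simp only [Complex.add_re, Complex.add_im, Complex.real_smul, Complex.re_ofReal_mul,
          Complex.im_ofReal_mul, Complex.sub_re, Complex.sub_im]
        ring
      have e4 : Vi (fun k => xs k + τ • (x k - xs k)) = Vi xs + τ * (Vi x - Vi xs) := by
        unfold Vi
        simp only [Complex.add_re, Complex.add_im, Complex.real_smul, Complex.re_ofReal_mul,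
          Complex.im_ofReal_mul, Complex.sub_re, Complex.sub_im]
        ring
      unfold FL at h2
      rw [e1, e2, e3, e4, ← hn2, ← hS] at h2
      set q : ℝ := 2 * τ * (Vr xs * (Vr x - Vr xs) + Vi xs * (Vi x - Vi xs)) +
        τ ^ 2 * ((Vr x - Vr xs) ^ 2 + (Vi x - Vi xs) ^ 2) with hq
      have hq2 : M + ((Vr xs + τ * (Vr x - Vr xs)) ^ 2 + (Vi xs + τ * (Vi x - Vi xs)) ^ 2) =
          S ^ 2 + q := by rw [hS2, hq, hn2]; ring
      rw [hq2] at h2
      have hq0 : 0 ≤ S ^ 2 + q := by rw [← hq2]; positivity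
      have h3 := sqrt_line hS0 (Real.sq_sqrt hq0).symm
      have h4 : τ * ((2 * (e.re * Xr x + e.im * Xi x) - 2 * (e.re * Xr xs + e.im * Xi xs))
        - (2 * (Vr xs * (Vr x - Vr xs) + Vi xs * (Vi x - Vi xs))) / S) ≤
          τ * (τ * (((Vr x - Vr xs) ^ 2 + (Vi x - Vi xs) ^ 2) / S)) := by
        have h5 : 2 * (q / (2 * S)) = τ * (2 * (Vr xs * (Vr x - Vr xs) + Vi xs * (Vi x - Vi xs))) / S +
            τ * (τ * (((Vr x - Vr xs) ^ 2 + (Vi x - Vi xs) ^ 2) / S)) := by
          rw [hq]; field_simp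
        have h6 : τ * ((2 * (Vr xs * (Vr x - Vr xs) + Vi xs * (Vi x - Vi xs))) / S) =
          τ * (2 * (Vr xs * (Vr x - Vr xs) + Vi xs * (Vi x - Vi xs))) / S := by ring
        nlinarith [h2, h3, h5, h6]
      exact le_of_mul_le_mul_left h4 h0
    have h7 : FL M e.re e.im xs = 2 * (e.re * Xr xs + e.im * Xi xs) - 2 * S := by
      unfold FL; rw [← hn2, ← hS]
    have h8 : 2 * (Vr xs * Vr x + Vi xs * Vi x) / S =
        (2 * (Vr xs * (Vr x - Vr xs) + Vi xs * (Vi x - Vi xs))) / S + 2 * n2 / S := by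
      rw [hn2]; ring
    have h9 : 2 * S - 2 * n2 / S = 2 * M / S := by
      field_simp
      linarith
    linarith
  set G : ℝ := 3 * (2 * M / S) with hG
  have hSG : ∀ x ∈ Kp, x 1 - x 2 + x 4 - x 5 = 0 → SS e V x ≤ G := by
    intro x hx hxl
    rw [SS_eq]
    have h1 := hfo x hx hxl
    have h2 : V.re * Vr x + V.im * Vi x = (Vr xs * Vr x + Vi xs * Vi x) / S := by
      simp only [hV]; ring
    rw [h2, hG]
    have h3 : 2 * (Vr xs * Vr x + Vi xs * Vi x) / S = 2 * ((Vr xs * Vr x + Vi xs * Vi x) / S) := by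
      ring
    linarith
  have hS0' : SS e V (fun _ => x0) = 0 := by
    unfold SS; ring
  have hG0 : 0 ≤ G := by rw [hG]; positivity
  -- separation
  set φ : (Fin 6 → ℂ) → ℂ × ℝ := fun x => (x 1 - x 2 + x 4 - x 5, SS e V x) with hφ
  have hSlin : IsLinearMap ℝ φ := by
    constructor
    · intro x y
      simp only [hφ, Prod.mk_add_mk, Prod.mk.injEq, Pi.add_apply]
      refine ⟨by ring, ?_⟩
      unfold SS dt
      simp only [Pi.add_apply, Complex.add_re, Complex.add_im]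
      ring
    · intro c x
      simp only [hφ, Prod.smul_mk, Prod.mk.injEq, Pi.smul_apply]
      refine ⟨?_, ?_⟩
      · simp only [Complex.real_smul]; ring
      · unfold SS dt
        simp only [Pi.smul_apply, Complex.real_smul, Complex.re_ofReal_mul,
          Complex.im_ofReal_mul, smul_eq_mul]
        ring
  have hφc : Continuous φ := by
    have hre : ∀ k : Fin 6, Continuous fun x : Fin 6 → ℂ => (x k).re := fun k =>
      Complex.continuous_re.comp (continuous_apply k)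
    have him : ∀ k : Fin 6, Continuous fun x : Fin 6 → ℂ => (x k).im := fun k =>
      Complex.continuous_im.comp (continuous_apply k)
    simp only [hφ]
    unfold SS dt
    fun_prop
  have hCconv : Convex ℝ (φ '' Kp) := hKpv.is_linear_image hSlin
  have hCcl : IsClosed (φ '' Kp) := (hKpc.image hφc).isClosed
  have hnot : ((0 : ℂ), G + ε) ∉ φ '' Kp := by
    rintro ⟨x, hx, hxe⟩
    simp only [hφ, Prod.mk.injEq] at hxe
    have := hSG x hx hxe.1
    linarith [hxe.2]
  obtain ⟨f, u, hfu, hux⟩ := geometric_hahn_banach_closed_point hCconv hCcl hnot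
  set l : ℝ := f ((0 : ℂ), (1 : ℝ)) with hl
  set v' : ℂ := ⟨f ((1 : ℂ), (0 : ℝ)), f (Complex.I, (0 : ℝ))⟩ with hv'
  have hf : ∀ (z : ℂ) (r : ℝ), f (z, r) = dt v' z + l * r := by
    intro z r
    have e1 : ((z, r) : ℂ × ℝ) = z.re • ((1 : ℂ), (0 : ℝ)) + z.im • (Complex.I, (0 : ℝ))
        + r • ((0 : ℂ), (1 : ℝ)) := by
      refine Prod.ext ?_ ?_
      · apply Complex.ext <;> simp
      · simp
    rw [e1, map_add, map_add, map_smul, map_smul, map_smul]
    simp only [smul_eq_mul, dt, hv', hl]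
    ring
  have hu0 : 0 < u := by
    have h1 := hfu _ ⟨_, hcst.1, rfl⟩
    simp only [hφ] at h1
    rw [hf, hS0'] at h1
    simp [dt] at h1
    exact h1
  have hlG : u < l * (G + ε) := by
    rw [hf] at hux
    simp [dt] at hux
    exact hux
  have hGε : 0 < G + ε := by linarith
  have hl0 : 0 < l := by
    by_contra h
    push Not at h
    have := mul_nonpos_of_nonpos_of_nonneg h hGε.le
    linarith
  set v : ℂ := (l⁻¹ : ℝ) • v' with hv
  have hmain : ∀ x ∈ Kp, SS e V x + dt v (x 1 - x 2 + x 4 - x 5) ≤ G + ε := by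
    intro x hx
    have h1 := (hfu _ ⟨x, hx, rfl⟩).trans hlG
    simp only [hφ] at h1
    rw [hf] at h1
    have e1 : dt v (x 1 - x 2 + x 4 - x 5) = l⁻¹ * dt v' (x 1 - x 2 + x 4 - x 5) := by
      simp only [hv, dt, Complex.real_smul, Complex.re_ofReal_mul, Complex.im_ofReal_mul]
      ring
    rw [e1]
    have h2 : l * (SS e V x + l⁻¹ * dt v' (x 1 - x 2 + x 4 - x 5)) ≤ l * (G + ε) := by
      have e2 : l * (SS e V x + l⁻¹ * dt v' (x 1 - x 2 + x 4 - x 5))
          = dt v' (x 1 - x 2 + x 4 - x 5) + l * SS e V x := by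
        field_simp
        ring
      rw [e2]; exact h1.le
    exact le_of_mul_le_mul_left h2 hl0
  -- the supremum
  obtain ⟨y0, hy0, s0⟩ := sp_attain hcomp hne (Q0 e V)
  obtain ⟨y1, hy1, s1⟩ := sp_attain hcomp hne (Q1 e V + v)
  obtain ⟨y2, hy2, s2⟩ := sp_attain hcomp hne (Q2 e V - v)
  obtain ⟨y3, hy3, s3⟩ := sp_attain hcomp hne (-(Q0 e V))
  obtain ⟨y4, hy4, s4⟩ := sp_attain hcomp hne (-(Q1 e V) + v)
  obtain ⟨y5, hy5, s5⟩ := sp_attain hcomp hne (-(Q2 e V) - v)
  have hsum : sp K (Q0 e V) + sp K (Q1 e V + v) + sp K (Q2 e V - v) + sp K (-(Q0 e V))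
      + sp K (-(Q1 e V) + v) + sp K (-(Q2 e V) - v) ≤ G + ε := by
    have h1 := hmain ![y0, y1, y2, y3, y4, y5] (by
      intro k _
      fin_cases k <;> simp [hy0, hy1, hy2, hy3, hy4, hy5])
    rw [s0, s1, s2, s3, s4, s5]
    refine le_trans (le_of_eq ?_) h1
    unfold SS dt
    simp
    ring
  have c0 : e * f0 (-(starRingEnd ℂ) e * V) = Q0 e V := by
    unfold f0 Q0; linear_combination (-V) * hee
  have c1 : e * f1 (-(starRingEnd ℂ) e * V) ((starRingEnd ℂ) e * v) = Q1 e V + v := by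
    unfold f1 Q1; linear_combination (v - (starRingEnd ℂ) om * V) * hee
  have c2 : e * f2 (-(starRingEnd ℂ) e * V) ((starRingEnd ℂ) e * v) = Q2 e V - v := by
    unfold f2 Q2; linear_combination (-v - (starRingEnd ℂ) om ^ 2 * V) * hee
  have c4 : -(e * f1 (-(starRingEnd ℂ) e * V) (-((starRingEnd ℂ) e * v))) = -(Q1 e V) + v := by
    unfold f1 Q1; linear_combination (v + (starRingEnd ℂ) om * V) * hee
  have c5 : -(e * f2 (-(starRingEnd ℂ) e * V) (-((starRingEnd ℂ) e * v))) = -(Q2 e V) - v := by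
    unfold f2 Q2; linear_combination (-v + (starRingEnd ℂ) om ^ 2 * V) * hee
  have cn : ‖-(starRingEnd ℂ) e * V‖ ^ 2 = n2 / S ^ 2 := by
    rw [norm_mul, norm_neg, RCLike.norm_conj, he, norm_ee, one_mul, ← Complex.normSq_eq_norm_sq,
      Complex.normSq_apply]
    simp only [hV, hn2]
    field_simp
  refine ⟨-(starRingEnd ℂ) e * V, (starRingEnd ℂ) e * v, ?_, ?_⟩
  · have h1 : ‖-(starRingEnd ℂ) e * V‖ ^ 2 < 1 := by
      rw [cn, div_lt_one (by positivity), hS2]
      linarith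
    nlinarith [norm_nonneg (-(starRingEnd ℂ) e * V)]
  · have hsq : Real.sqrt (1 - n2 / S ^ 2) = Real.sqrt M / S := by
      have h1 : 1 - n2 / S ^ 2 = M / S ^ 2 := by
        rw [eq_div_iff (by positivity)]
        have : (1 - n2 / S ^ 2) * S ^ 2 = S ^ 2 - n2 := by field_simp
        rw [this, hS2]; ring
      rw [h1, Real.sqrt_div hM0.le, Real.sqrt_sq hS0.le]
    have hMM : 2 * Real.sqrt M * (Real.sqrt M / S) = 2 * M / S := by
      have : Real.sqrt M * Real.sqrt M = M := Real.mul_self_sqrt hM0.le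
      rw [← mul_div_assoc, mul_assoc, this]
    unfold Psi
    rw [← he, c0, c1, c2, c4, c5, cn, hsq, hMM]
    linarith [hsum, hG]

end

end Helper87.RC
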