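import Pool.Agent.Helper87.RC.StK

/-!
# Project RC: modules CLS and BAS
-/

open MeasureTheory Set Filter Metric

namespace Helper87.RC

open Helper49.LT Helper49.RC

theorem ee_arg (z : ℂ) : z = (‖z‖ : ℂ) * ee (an z) := by
  have h : ee (an z) = ee z.arg := by
    unfold an
    split_ifs with h
    · rfl
    · rw [ee_per]
  rw [h]
  unfold ee
  exact (Complex.norm_mul_exp_arg_mul_I z).symm

theorem an_nonneg (z : ℂ) : 0 ≤ an z := by
  unfold an
  split_ifs with h
  · exact h
  · have := Complex.neg_pi_lt_arg z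
    linarith [Real.pi_pos]

theorem an_lt (z : ℂ) : an z < 2 * Real.pi := by
  unfold an
  split_ifs with h
  · have := Complex.arg_le_pi z
    linarith [Real.pi_pos]
  · push Not at h
    linarith

theorem w_eq (z z' : ℂ) :
    z' * (starRingEnd ℂ) z = ((‖z‖ * ‖z'‖ : ℝ) : ℂ) * ee (an z' - an z) := by
  have h1 : (starRingEnd ℂ) z = (‖z‖ : ℂ) * ee (-an z) := by
    conv_lhs => rw [ee_arg z]
    rw [map_mul, Complex.conj_ofReal, ee_neg]
  rw [h1]
  conv_lhs => rw [ee_arg z']
  rw [sub_eq_add_neg, ee_add]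
  push_cast
  ring

theorem arg_ee {r x : ℝ} (hr : 0 < r) (h1 : -Real.pi < x) (h2 : x ≤ Real.pi) :
    ((r : ℂ) * ee x).arg = x := by
  rw [ee_eq, Complex.ofReal_cos, Complex.ofReal_sin]
  exact Complex.arg_mul_cos_add_sin_mul_I hr ⟨h1, h2⟩

theorem im_ee (r x : ℝ) : ((r : ℂ) * ee x).im = r * Real.sin x := by
  rw [Complex.im_ofReal_mul, ee_im]

theorem kr_an (z z' : ℂ) : kr z z' =
    (Real.pi - (an z' - an z) - (if an z' < an z then 2 * Real.pi else 0)) *
      (z' * (starRingEnd ℂ) z).im := by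
  unfold kr
  rw [w_eq z z']
  by_cases hz : ‖z‖ * ‖z'‖ = 0
  · rw [hz]; simp
  have hr : 0 < ‖z‖ * ‖z'‖ := lt_of_le_of_ne (by positivity) (Ne.symm hz)
  set r := ‖z‖ * ‖z'‖ with hrd
  set x := an z' - an z with hx
  have hlo : -(2 * Real.pi) < x := by
    have := an_nonneg z'; have := an_lt z; linarith
  have hhi : x < 2 * Real.pi := by
    have := an_nonneg z; have := an_lt z'; linarith
  have hiff : an z' < an z ↔ x < 0 := by rw [hx]; exact sub_neg.symm
  have hpi := Real.pi_pos
  have hper : ee (x + 2 * Real.pi) = ee x := ee_per x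
  have hper' : ee (x - 2 * Real.pi) = ee x := by
    have := ee_per (x - 2 * Real.pi)
    rw [sub_add_cancel] at this
    exact this.symm
  rw [im_ee, abs_mul, abs_of_pos hr]
  rcases lt_or_ge x 0 with h0 | h0
  · rw [if_pos (hiff.2 h0)]
    rcases lt_or_ge (-Real.pi) x with h1 | h1
    · rw [arg_ee hr h1 (by linarith), abs_of_neg h0]
      have hs : Real.sin x ≤ 0 := Real.sin_nonpos_of_nonpos_of_neg_pi_le h0.le h1.le
      rw [abs_of_nonpos hs]
      ring
    · have h2 : ((r : ℂ) * ee x).arg = x + 2 * Real.pi := by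
        rw [← hper]
        exact arg_ee hr (by linarith) (by linarith)
      rw [h2, abs_of_nonneg (by linarith)]
      have hs : 0 ≤ Real.sin x := by
        rw [← Real.sin_add_two_pi]
        exact Real.sin_nonneg_of_nonneg_of_le_pi (by linarith) (by linarith)
      rw [abs_of_nonneg hs]
      ring
  · rw [if_neg (fun h => absurd (hiff.1 h) (not_lt.2 h0))]
    rcases le_or_gt x Real.pi with h1 | h1
    · rw [arg_ee hr (by linarith) h1, abs_of_nonneg h0]
      have hs : 0 ≤ Real.sin x := Real.sin_nonneg_of_nonneg_of_le_pi h0 h1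
      rw [abs_of_nonneg hs]
      ring
    · have h2 : ((r : ℂ) * ee x).arg = x - 2 * Real.pi := by
        rw [← hper']
        exact arg_ee hr (by linarith) (by linarith)
      rw [h2, abs_of_nonpos (by linarith)]
      have hs : Real.sin x ≤ 0 := by
        rw [← Real.sin_sub_two_pi]
        exact Real.sin_nonpos_of_nonpos_of_neg_pi_le (by linarith) (by linarith)
      rw [abs_of_nonpos hs]
      ring

theorem sum_im_zero {n : ℕ} {p : Fin n → ℂ} (h : ∑ k, p k = 0) (z : ℂ) :
    ∑ k, (z * (starRingEnd ℂ) (p k)).im = 0 := by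
  have : ∑ k, (z * (starRingEnd ℂ) (p k)).im = (z * (starRingEnd ℂ) (∑ k, p k)).im := by
    rw [map_sum, Finset.mul_sum, Complex.im_sum]
  rw [this, h]; simp

theorem sum_im_zero' {n : ℕ} {p : Fin n → ℂ} (h : ∑ k, p k = 0) (z : ℂ) :
    ∑ k, (p k * (starRingEnd ℂ) z).im = 0 := by
  have : ∑ k, (p k * (starRingEnd ℂ) z).im = ((∑ k, p k) * (starRingEnd ℂ) z).im := by
    rw [Finset.sum_mul, Complex.im_sum]
  rw [this, h]; simp

/-- Module CLS. -/
theorem hCLS : StCls := by
  intro n m p p' hp hp'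
  have key : ∀ k l, kr (p k) (p' l) =
      (-Real.pi - an (p' l)) * (p' l * (starRingEnd ℂ) (p k)).im
      + an (p k) * (p' l * (starRingEnd ℂ) (p k)).im
      + 2 * Real.pi * (if an (p k) ≤ an (p' l) then (p' l * (starRingEnd ℂ) (p k)).im else 0) := by
    intro k l
    rw [kr_an]
    by_cases h : an (p k) ≤ an (p' l)
    · rw [if_neg (not_lt.2 h), if_pos h]; ring
    · rw [if_pos (not_le.1 h), if_neg h]; ring
  simp_rw [key, Finset.sum_add_distrib]
  have h1 : ∑ k, ∑ l, (-Real.pi - an (p' l)) * (p' l * (starRingEnd ℂ) (p k)).im = 0 := by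
    rw [Finset.sum_comm]
    refine Finset.sum_eq_zero fun l _ => ?_
    rw [← Finset.mul_sum, sum_im_zero hp, mul_zero]
  have h2 : ∑ k, ∑ l, an (p k) * (p' l * (starRingEnd ℂ) (p k)).im = 0 := by
    refine Finset.sum_eq_zero fun k _ => ?_
    rw [← Finset.mul_sum, sum_im_zero' hp', mul_zero]
  rw [h1, h2, zero_add, zero_add, Finset.sum_comm, Finset.mul_sum]
  simp_rw [Finset.mul_sum]

theorem kr_rot (z z' : ℂ) (a : ℝ) : kr (z * ee a) (z' * ee a) = kr z z' := by
  have h : z' * ee a * (starRingEnd ℂ) (z * ee a) = z' * (starRingEnd ℂ) z := by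
    rw [map_mul]
    calc z' * ee a * ((starRingEnd ℂ) z * (starRingEnd ℂ) (ee a))
        = z' * (starRingEnd ℂ) z * (ee a * (starRingEnd ℂ) (ee a)) := by ring
      _ = _ := by rw [ee_mul_conj, mul_one]
  unfold kr
  rw [h]

/-- Module BAS. -/
theorem hBAS : StBas := by
  intro n m p p' a hp hp'
  have h := hCLS n m (fun k => p k * ee (-a)) (fun l => p' l * ee (-a))
    (by rw [← Finset.sum_mul, hp, zero_mul]) (by rw [← Finset.sum_mul, hp', zero_mul])
  simp_rw [kr_rot] at h
  rw [h]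
  have e : ∀ z z' : ℂ, z' * ee (-a) * (starRingEnd ℂ) (z * ee (-a)) = z' * (starRingEnd ℂ) z := by
    intro z z'
    rw [map_mul]
    calc z' * ee (-a) * ((starRingEnd ℂ) z * (starRingEnd ℂ) (ee (-a)))
        = z' * (starRingEnd ℂ) z * (ee (-a) * (starRingEnd ℂ) (ee (-a))) := by ring
      _ = _ := by rw [ee_mul_conj, mul_one]
  simp_rw [e]

end Helper87.RC
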