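import Pool.Agent.Helper61.RC.M_SEL

/-!
# Project RC: step functions with `‖β‖ < 1`
-/

open MeasureTheory Set Filter Metric

namespace Helper87.RC

open Helper97.CB Helper49.LT Helper49.RC Pool.Agent.Helper61.RC

/-- selection with `‖β‖ < 1` and the bound `g √(1 - ‖β‖²)` -/
def StSel1 : Prop := ∀ (K : Set ℂ) (g : ℝ), IsBody K → (0 : ℂ) ∈ K →
  (∀ t ε : ℝ, 0 < ε → ∃ b p : ℂ, ‖b‖ < 1 ∧
    Psi K t b p - ‖b‖ ^ 2 ≤ g * Real.sqrt (1 - ‖b‖ ^ 2) + ε) → ∀ ε : ℝ, 0 < ε →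
  ∃ β P : ℝ → ℂ, Adm β P ∧ (∀ t, ‖β t‖ < 1) ∧
    ∀ t, Psi K t (β t) (P t) - ‖β t‖ ^ 2 ≤ g * Real.sqrt (1 - ‖β t‖ ^ 2) + ε

theorem hSEL1 (h : StRgn) : StSel1 := by
  intro K g hB h0 hPsi ε hε
  have hK := hB.2.1
  obtain ⟨R₀, hR₀⟩ := hK.isBounded.exists_norm_le
  set R : ℝ := max R₀ 0 with hRdef
  have hR0 : 0 ≤ R := le_max_right _ _
  have hR : ∀ z ∈ K, ‖z‖ ≤ R := fun z hz => (hR₀ z hz).trans (le_max_left _ _)
  have hc : ∀ t : ℝ, ∃ q : ℂ × ℂ, Reg q.1 q.2 ∧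
      Psi K t q.1 q.2 - ‖q.1‖ ^ 2 ≤ g * Real.sqrt (1 - ‖q.1‖ ^ 2) + ε / 2 ∧ ‖q.1‖ < 1 := by
    intro t
    obtain ⟨b, p, hb, hbp⟩ := hPsi t (ε / 2) (by linarith)
    obtain ⟨p', hp', hp2⟩ := h K t b p hB hb.ne
    refine ⟨(b, p'), hp', ?_, hb⟩
    show Psi K t b p' - ‖b‖ ^ 2 ≤ g * Real.sqrt (1 - ‖b‖ ^ 2) + ε / 2
    linarith
  choose c hc1 hc2 hc3 using hc
  obtain ⟨N, hN⟩ := exists_nat_gt (24 * R * Real.pi / ε)
  have hpi := Real.pi_pos
  have hN0 : 0 < (N : ℝ) := by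
    refine lt_of_le_of_lt ?_ hN
    positivity
  have hNpos : (0 : ℤ) < (N : ℤ) := by exact_mod_cast hN0
  have hNε : 12 * R * (Real.pi / N) ≤ ε / 2 := by
    rw [div_lt_iff₀ hε] at hN
    rw [mul_div_assoc', div_le_iff₀ hN0]
    nlinarith
  let fl : ℝ → ℤ := fun t => ⌊(N : ℝ) * t / Real.pi⌋
  have hfl : Measurable fl := Int.measurable_floor.comp (by fun_prop)
  let gb : ℤ → ℂ := fun j => (c (((j % (N : ℤ) : ℤ) : ℝ) * Real.pi / N)).1
  let gp : ℤ → ℂ := fun j => (-1) ^ (j / (N : ℤ)) * (c (((j % (N : ℤ) : ℤ) : ℝ) * Real.pi / N)).2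
  have hper : ∀ t, fl (t + Real.pi) = fl t + (N : ℤ) := by
    intro t
    show ⌊(N : ℝ) * (t + Real.pi) / Real.pi⌋ = ⌊(N : ℝ) * t / Real.pi⌋ + (N : ℤ)
    have : (N : ℝ) * (t + Real.pi) / Real.pi = (N : ℝ) * t / Real.pi + ((N : ℤ) : ℝ) := by
      push_cast; field_simp
    rw [this, Int.floor_add_intCast]
  have hmod : ∀ j : ℤ, (j + (N : ℤ)) % (N : ℤ) = j % (N : ℤ) := fun j => by
    rw [Int.add_emod_right]
  have hdiv : ∀ j : ℤ, (j + (N : ℤ)) / (N : ℤ) = j / (N : ℤ) + 1 := fun j => by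
    have := Int.add_mul_ediv_right j 1 hNpos.ne'
    rwa [one_mul] at this
  refine ⟨fun t => gb (fl t), fun t => gp (fl t), ⟨?_, ?_, ?_, ?_, ?_, ?_⟩, ?_, ?_⟩
  · exact (measurable_from_top (f := gb)).comp hfl
  · exact (measurable_from_top (f := gp)).comp hfl
  · intro t
    show gb (fl (t + Real.pi)) = gb (fl t)
    rw [hper]
    simp only [gb]
    rw [hmod]
  · intro t
    show gp (fl (t + Real.pi)) = -gp (fl t)
    rw [hper]
    simp only [gp]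
    rw [hmod, hdiv, zpow_add₀ (by norm_num : (-1 : ℂ) ≠ 0)]
    ring
  · intro t
    show ‖(c _).1‖ ^ 2 ≤ 2
    have := hc3 (((fl t % (N : ℤ) : ℤ) : ℝ) * Real.pi / N)
    nlinarith [norm_nonneg (c (((fl t % (N : ℤ) : ℤ) : ℝ) * Real.pi / N)).1]
  · intro t
    exact Reg_int _ _ _ (hc1 _)
  · intro t
    exact hc3 _
  · intro t
    set j : ℤ := fl t with hj
    set i : ℤ := j % (N : ℤ) with hi
    set m : ℤ := j / (N : ℤ) with hm
    have hij : i + (N : ℤ) * m = j := Int.emod_add_mul_ediv j N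
    set ti : ℝ := (i : ℝ) * Real.pi / N with hti
    show Psi K t (c ti).1 ((-1) ^ m * (c ti).2) - ‖(c ti).1‖ ^ 2 ≤
      g * Real.sqrt (1 - ‖(c ti).1‖ ^ 2) + ε
    set s : ℝ := t - (m : ℝ) * Real.pi with hs
    have e1 : t = s + (m : ℝ) * Real.pi := by rw [hs]; ring
    rw [e1, Psi_int]
    have hjr : (i : ℝ) + (N : ℝ) * m = j := by exact_mod_cast hij
    have hf1 : (j : ℝ) ≤ (N : ℝ) * t / Real.pi := Int.floor_le _
    have hf2 : (N : ℝ) * t / Real.pi < (j : ℝ) + 1 := Int.lt_floor_add_one _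
    have hst : s - ti = ((N : ℝ) * t / Real.pi - j) * (Real.pi / N) := by
      rw [hs, hti, ← hjr]
      field_simp
      ring
    have hst1 : |s - ti| ≤ Real.pi / N := by
      have h3 : 0 < Real.pi / N := by positivity
      rw [hst, abs_of_nonneg (mul_nonneg (by linarith) h3.le)]
      nlinarith
    have hb := hc3 ti
    have hp := Reg_norm _ _ (hc1 ti)
    have h4 := Psi_t K hK h0 R hR hR0 ti s (c ti).1 (c ti).2 6 (by linarith)
    have h5 := hc2 ti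
    have h6 : 2 * R * 6 * |s - ti| ≤ 12 * R * (Real.pi / N) := by
      have : 2 * R * 6 * |s - ti| = 12 * R * |s - ti| := by ring
      rw [this]
      exact mul_le_mul_of_nonneg_left hst1 (by positivity)
    linarith

end Helper87.RC
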