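import Pool.Agent.Helper49.RC.St2
import Pool.Agent.Helper87.RC.M_KSD1
import Pool.Agent.Helper87.RC.M_SEL1

/-!
# Project RC: modules KSD2 and SEL2
-/

namespace Helper87.RC

open Helper97.CB Helper49.LT Helper49.RC

theorem Phi_eq (K : Set ℂ) (t : ℝ) (b p : ℂ) : Psi K t b p - ‖b‖ ^ 2 = Phi K t b p := by
  rw [Psi_eq_Phi]; ring

/-- Module KSD2. -/
theorem hKSD2 : StKsd2 := by
  intro K M hK hM hx t ε hε
  have h := hKSD1 K M hK hM hx t ε hε
  simp_rw [Phi_eq] at h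
  exact h

/-- Module SEL2. -/
theorem hSEL2 (h : StRgn) : StSel2 := by
  intro K c hK h0 hP ε hε
  have h1 := hSEL1 h K c hK h0
  simp_rw [Phi_eq] at h1
  exact h1 hP ε hε

end Helper87.RC
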