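import Pool.Agent.Helper87.RC.M_INT3
import Pool.Agent.Helper44.RC.M_QUAD2

/-!
# Project RC: the interleaving bound for `κ = 99/100`, unconditional
-/

namespace Helper87.RC

theorem tINT3 : Helper56.RC.StInt3 := hINT3 Helper44.RC.tQQ

end Helper87.RC
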