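import Pool.Agent.Helper87.RC.M_WN1
import Pool.Agent.Helper44.RC.M_MID

/-!
# Project RC: the natural part of the interleaving bound in Fourier modes
-/

open MeasureTheory Set Filter Metric

namespace Helper87.RC

open Helper49.LT hiding sg
open Helper56.RC (fc)
open Helper44.RCG (G1 G2 N0 G1_meas G2_meas G1_le G2_le G1_per G2_per)

/-- Fourier coefficients of a moving average -/
theorem fc_prim {f : ℝ → ℂ} {C : ℝ} (h : BM f C) (hp : ∀ x, f (x + 2 * Real.pi) = f x) {n : ℤ}
    (hn : n ≠ 0) (a b : ℝ) : fc (fun θ => ∫ x in a..b, f (θ + x)) n =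
    fc f n * ((ee (n * b) - ee (n * a)) / (Complex.I * n)) := by
  have hpi := Real.pi_pos
  have hnr : (-(n : ℝ)) ≠ 0 := by
    rw [neg_ne_zero]
    exact_mod_cast hn
  rw [fc_eq, fc_eq]
  have e1 : ∀ θ : ℝ, (∫ x in a..b, f (θ + x)) * ee (-(n : ℝ) * θ) =
      ∫ x in a..b, f (θ + x) * ee (-(n : ℝ) * θ) := fun θ => by
    rw [intervalIntegral.integral_mul_const]
  simp_rw [e1]
  rw [intervalIntegral_intervalIntegral_swap]
  · have e2 : ∀ x : ℝ, ∫ θ in (0 : ℝ)..(2 * Real.pi), f (θ + x) * ee (-(n : ℝ) * θ) =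
        ee ((n : ℝ) * x) * ∫ θ in (0 : ℝ)..(2 * Real.pi), f θ * ee (-(n : ℝ) * θ) := by
      intro x
      have e3 : ∀ θ : ℝ, f (θ + x) * ee (-(n : ℝ) * θ) =
          ee ((n : ℝ) * x) * (f (θ + x) * ee (-(n : ℝ) * (θ + x))) := by
        intro θ
        have : ee (-(n : ℝ) * θ) = ee ((n : ℝ) * x) * ee (-(n : ℝ) * (θ + x)) := by
          rw [← ee_add]; congr 1; ring
        rw [this]; ring
      simp_rw [e3]
      rw [intervalIntegral.integral_const_mul,
        intervalIntegral.integral_comp_add_right (fun y => f y * ee (-(n : ℝ) * y))]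
      congr 1
      have hper : ∀ y, (fun y => f y * ee (-(n : ℝ) * y)) (y + 2 * Real.pi) =
          (fun y => f y * ee (-(n : ℝ) * y)) y := by
        intro y
        show f (y + 2 * Real.pi) * ee (-(n : ℝ) * (y + 2 * Real.pi)) = _
        have := ee_int (-n) y
        push_cast at this
        rw [hp, this]
      have := shiftC2 (g := fun y => f y * ee (-(n : ℝ) * y)) hper x
      rw [zero_add, add_comm (2 * Real.pi) x]
      exact this
    simp_rw [e2]
    rw [intervalIntegral.integral_mul_const]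
    have h4 := int_ee hnr a b
    rw [neg_neg] at h4
    rw [h4]
    have hI := Complex.I_ne_zero
    have hnc : (n : ℂ) ≠ 0 := by exact_mod_cast hn
    push_cast
    rw [mul_neg, div_neg, ← neg_div, neg_sub]
    ring
  · have hm : Measurable (Function.uncurry fun θ x : ℝ => f (θ + x) * ee (-(n : ℝ) * θ)) := by
      refine (h.m.comp (measurable_fst.add measurable_snd)).mul ?_
      exact continuous_ee.measurable.comp (measurable_fst.const_mul _)
    refine IntegrableOn.of_bound ?_ hm.aestronglyMeasurable (C * 1) ?_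
    · rw [Measure.volume_eq_prod, Measure.prod_prod]
      refine ENNReal.mul_lt_top ?_ ?_
      · rw [uIoc_of_le (by positivity), Real.volume_Ioc]; exact ENNReal.ofReal_lt_top
      · unfold uIoc
        rw [Real.volume_Ioc]; exact ENNReal.ofReal_lt_top
    · refine Filter.Eventually.of_forall fun x => ?_
      show ‖f (x.1 + x.2) * ee (-(n : ℝ) * x.1)‖ ≤ _
      rw [norm_mul, norm_ee]
      exact mul_le_mul_of_nonneg_right (h.b _) zero_le_one

variable {A B v : ℝ → ℂ} {C : ℝ}

theorem Fam.C2 (h : Fam A B v C) : 0 ≤ 2 * C := by linarith [h.C0]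

theorem G1_BM (h : Fam A B v C) : BM (G1 A v) (2 * C) := ⟨G1_meas h, G1_le h⟩
theorem G2_BM (h : Fam A B v C) : BM (G2 B v) (2 * C) := ⟨G2_meas h, G2_le h⟩

theorem fc_G1 (h : Fam A B v C) (n : ℤ) :
    fc (G1 A v) n = ee (-(n : ℝ) * (Real.pi / 3)) * (fc A n + fc v n) := by
  have hp : ∀ x, (fun t => A t + v t) (x + 2 * Real.pi) = (fun t => A t + v t) x := fun x => by
    show A (x + 2 * Real.pi) + v (x + 2 * Real.pi) = A x + v x
    rw [two_per h.pA, two_per' h.pv]
  have h1 := fc_shift (k := fun t => A t + v t) hp (Real.pi / 3) n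
  rw [h.fU] at h1
  exact h1

theorem fc_G2 (h : Fam A B v C) (n : ℤ) :
    fc (G2 B v) n = ee (-(n : ℝ) * (2 * Real.pi / 3)) * (fc B n - fc v n) := by
  have hp : ∀ x, (fun t => B t - v t) (x + 2 * Real.pi) = (fun t => B t - v t) x := fun x => by
    show B (x + 2 * Real.pi) - v (x + 2 * Real.pi) = B x - v x
    rw [two_per h.pB, two_per' h.pv]
  have h1 := fc_shift (k := fun t => B t - v t) hp (2 * Real.pi / 3) n
  rw [fc_sub h.BB h.Bv] at h1
  exact h1

/-- the function `Y2 θ θ` as a sum of moving averages -/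
theorem Y2_mov (θ : ℝ) : Y2 A B v θ θ =
    (∫ x in (-(4 * Real.pi / 3))..(-(Real.pi / 3)), A (θ + x)) +
    (∫ x in (-(5 * Real.pi / 3))..(-(2 * Real.pi / 3)), B (θ + x)) +
    2 * ∫ x in (-(2 * Real.pi / 3))..(-(Real.pi / 3)), v (θ + x) := by
  unfold Y2
  rw [intervalIntegral.integral_comp_add_left (fun t => A t), intervalIntegral.integral_comp_add_left
    (fun t => B t), intervalIntegral.integral_comp_add_left (fun t => v t)]
  congr 3

theorem mov_BM {f : ℝ → ℂ} {C : ℝ} (h : BM f C) (a b : ℝ) :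
    BM (fun θ => ∫ x in a..b, f (θ + x)) (C * |b - a|) := by
  constructor
  · have e : (fun θ => ∫ x in a..b, f (θ + x)) = fun θ => ∫ t in (θ + a)..(θ + b), f t := by
      funext θ
      rw [intervalIntegral.integral_comp_add_left (fun t => f t)]
    rw [e]
    exact prim_meas h.i (measurable_id.add_const _) (measurable_id.add_const _)
  · intro θ
    exact intervalIntegral.norm_integral_le_of_norm_le_const fun t _ => h.b _

theorem fc_Y2 (h : Fam A B v C) {n : ℤ} (hn : n ≠ 0) : fc (fun θ => Y2 A B v θ θ) n =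
    2 / (Complex.I * n) * (fc (G1 A v) n + fc (G2 B v) n) := by
  have hI := Complex.I_ne_zero
  have hnc : (n : ℂ) ≠ 0 := by exact_mod_cast hn
  have e : (fun θ => Y2 A B v θ θ) = fun θ =>
    ((∫ x in (-(4 * Real.pi / 3))..(-(Real.pi / 3)), A (θ + x)) +
    (∫ x in (-(5 * Real.pi / 3))..(-(2 * Real.pi / 3)), B (θ + x))) +
    2 * ∫ x in (-(2 * Real.pi / 3))..(-(Real.pi / 3)), v (θ + x) := funext Y2_mov
  rw [e, fc_add ((mov_BM h.BA _ _).add (mov_BM h.BB _ _)) ((mov_BM h.Bv _ _).cmul 2),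
    fc_add (mov_BM h.BA _ _) (mov_BM h.BB _ _), fc_cmul, fc_prim h.BA (two_per h.pA) hn,
    fc_prim h.BB (two_per h.pB) hn, fc_prim h.Bv (two_per' h.pv) hn, fc_G1 h, fc_G2 h]
  have a1 : ee ((n : ℝ) * -(Real.pi / 3)) = ee (-(n : ℝ) * (Real.pi / 3)) := by congr 1; ring
  have a2 : ee ((n : ℝ) * -(2 * Real.pi / 3)) = ee (-(n : ℝ) * (2 * Real.pi / 3)) := by congr 1; ring
  have a3 : ee ((n : ℝ) * -(4 * Real.pi / 3)) =
      ee (-(n : ℝ) * (Real.pi / 3)) * ee (-(n : ℝ) * Real.pi) := by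
    rw [← ee_add]; congr 1; ring
  have a4 : ee ((n : ℝ) * -(5 * Real.pi / 3)) =
      ee (-(n : ℝ) * (2 * Real.pi / 3)) * ee (-(n : ℝ) * Real.pi) := by
    rw [← ee_add]; congr 1; ring
  rw [a1, a2, a3, a4]
  rcases Int.even_or_odd n with hn' | hn'
  · rw [h.a0 hn', h.b0 hn']
    ring
  · have h1 := ee_int_pi (hn'.neg)
    push_cast at h1
    rw [h.v0 hn', h1]
    ring

theorem hsR_cong0 {f g : ℤ → ℝ} {a : ℝ} (h : HasSum f a) (e : ∀ n, g n = f n) : HasSum g a := by
  rw [show g = f from funext e]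
  exact h

/-- The natural part in Fourier modes. -/
theorem N0_four (h : Fam A B v C) :
    HasSum (fun n : ℤ => ‖fc (G1 A v) n + fc (G2 B v) n‖ ^ 2 / (n : ℝ)) (N0 A B v) := by
  have hpi := Real.pi_pos
  have hH := (G1_BM h).add (G2_BM h)
  have hY : BM (fun θ => Y2 A B v θ θ) (6 * Real.pi * C) :=
    ⟨Y2_meas h measurable_id measurable_id, fun θ => Y2_le h θ θ (by rw [sub_self, abs_zero]; exact hpi.le)⟩
  have h1 := Complex.hasSum_im ((pars2 hH hY).mul_left (1 / 2 : ℂ))
  have e1 : ((1 / 2 : ℂ) * ((1 / (2 * Real.pi) : ℂ) * ∫ t in (0 : ℝ)..(2 * Real.pi),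
      (G1 A v t + G2 B v t) * (starRingEnd ℂ) (Y2 A B v t t))).im = N0 A B v := by
    have e2 : (1 / 2 : ℂ) * ((1 / (2 * Real.pi) : ℂ) * ∫ t in (0 : ℝ)..(2 * Real.pi),
      (G1 A v t + G2 B v t) * (starRingEnd ℂ) (Y2 A B v t t)) =
      ((1 / (4 * Real.pi) : ℝ) : ℂ) * ∫ t in (0 : ℝ)..(2 * Real.pi),
      (G1 A v t + G2 B v t) * (starRingEnd ℂ) (Y2 A B v t t) := by
      push_cast
      ring
    rw [e2, Complex.im_ofReal_mul]
    unfold N0
    congr 1
    have h2 := ContinuousLinearMap.intervalIntegral_comp_comm Complex.imCLM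
      ((hH.mul hY.conj).i 0 (2 * Real.pi))
    simp only [Complex.imCLM_apply] at h2
    rw [← h2]
    refine intervalIntegral.integral_congr fun t _ => ?_
    show ((G1 A v t + G2 B v t) * (starRingEnd ℂ) (Y2 A B v t t)).im = _
    rw [add_mul, Complex.add_im]
  rw [← e1]
  refine hsR_cong0 h1 fun n => ?_
  by_cases hn : n = 0
  · subst hn
    have h3 : fc (fun t => G1 A v t + G2 B v t) 0 = 0 := by
      rw [fc_add (G1_BM h) (G2_BM h), fc_G1 h, fc_G2 h, h.a0 (by decide), h.b0 (by decide)]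
      simp
    rw [h3]
    simp
  · have hnc : (n : ℂ) ≠ 0 := by exact_mod_cast hn
    rw [fc_Y2 h hn, fc_add (G1_BM h) (G2_BM h)]
    set z := fc (G1 A v) n + fc (G2 B v) n
    have e3 : (1 / 2 : ℂ) * (z * (starRingEnd ℂ) (2 / (Complex.I * n) * z)) =
        ((‖z‖ ^ 2 / (n : ℝ) : ℝ) : ℂ) * Complex.I := by
      rw [map_mul, map_div₀, map_mul, Complex.conj_I, map_ofNat]
      have : (starRingEnd ℂ) (n : ℂ) = (n : ℂ) := by
        have := Complex.conj_ofReal (n : ℝ)
        push_cast at this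
        exact this
      rw [this]
      push_cast
      rw [← Complex.ofReal_pow, ← Complex.normSq_eq_norm_sq, ← Complex.mul_conj]
      have hI := Complex.I_ne_zero
      field_simp
      rw [Complex.I_sq]
      ring
    rw [e3, Complex.im_ofReal_mul, Complex.I_im, mul_one]

end Helper87.RC
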