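import Pool.Agent.Helper87.RC.M_EV

/-!
# Project RC: the product kernel and the bounds of the selection functions
-/

open MeasureTheory Set Filter Metric

namespace Helper87.RC

open Helper49.LT hiding sg
open Helper56.RC (fc RR)

/-- the product kernel -/
noncomputable def Dk (c ρ x : ℝ) : ℝ := sn x * Sw ρ (x - c)

/-- the reflected product kernel -/
noncomputable def Dl (c ρ x : ℝ) : ℝ := sn x * Sw ρ (-x - c)

theorem Dk_pi (c ρ x : ℝ) : Dk c ρ (x + Real.pi) = Dk c ρ x := by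
  unfold Dk
  have : x + Real.pi - c = (x - c) + Real.pi := by ring
  rw [this, sn_pi, Sw_pi]; ring

theorem Dk_per (c ρ x : ℝ) : Dk c ρ (x + 2 * Real.pi) = Dk c ρ x := by
  rw [two_mul, ← add_assoc, Dk_pi, Dk_pi]

theorem Dk_abs (c ρ x : ℝ) : |Dk c ρ x| ≤ 1 := by
  unfold Dk
  rw [abs_mul]
  exact mul_le_one₀ (sn_abs _) (abs_nonneg _) (Sw_abs _ _)

theorem Dk_BM (c ρ : ℝ) : BM (fun x => ((Dk c ρ x : ℝ) : ℂ)) 1 := by
  constructor
  · exact Complex.measurable_ofReal.comp (sn_meas.mul ((Sw_meas ρ).comp (measurable_id.sub_const _)))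
  · intro x
    rw [Complex.norm_real, Real.norm_eq_abs]
    exact Dk_abs _ _ _

theorem Dl_eq (c ρ x : ℝ) : Dl c ρ x = -Dk c ρ (-x) := by
  unfold Dl Dk
  rw [sn_neg]; ring

theorem Dl_per (c ρ x : ℝ) : Dl c ρ (x + 2 * Real.pi) = Dl c ρ x := by
  rw [Dl_eq, Dl_eq]
  have : -x = -(x + 2 * Real.pi) + 2 * Real.pi := by ring
  rw [this, Dk_per]

theorem Dl_BM (c ρ : ℝ) : BM (fun x => ((Dl c ρ x : ℝ) : ℂ)) 1 := by
  constructor
  · exact Complex.measurable_ofReal.comp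
      (sn_meas.mul ((Sw_meas ρ).comp (measurable_neg.sub_const _)))
  · intro x
    rw [Complex.norm_real, Real.norm_eq_abs, Dl_eq, abs_neg]
    exact Dk_abs _ _ _

theorem fc_Dl (c ρ : ℝ) (n : ℤ) :
    fc (fun x => ((Dl c ρ x : ℝ) : ℂ)) n = -fc (fun x => ((Dk c ρ x : ℝ) : ℂ)) (-n) := by
  have e : (fun x : ℝ => ((Dl c ρ x : ℝ) : ℂ)) =
      fun x : ℝ => (-1 : ℂ) * (fun y : ℝ => ((Dk c ρ y : ℝ) : ℂ)) (-x) := by
    funext x
    rw [Dl_eq]; push_cast; ring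
  have hp : ∀ x, (fun y : ℝ => ((Dk c ρ y : ℝ) : ℂ)) (x + 2 * Real.pi) =
      (fun y : ℝ => ((Dk c ρ y : ℝ) : ℂ)) x := fun x => by
    show ((Dk c ρ (x + 2 * Real.pi) : ℝ) : ℂ) = ((Dk c ρ x : ℝ) : ℂ)
    rw [Dk_per]
  have h := fc_refl (k := fun y : ℝ => ((Dk c ρ y : ℝ) : ℂ)) hp n
  rw [e, fc_cmul, h]
  ring

/-- the coefficients of the product kernel, even frequencies -/
theorem fc_Dk {c ρ : ℝ} (h : WC c ρ) {n : ℤ} (hn : Even n) (h0 : n ≠ 0) :
    fc (fun x => ((Dk c ρ x : ℝ) : ℂ)) n =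
      -(2 * Complex.I / (Real.pi * n)) * (1 - ee (-(n : ℝ) * c) * Real.cos (n * ρ)) := by
  have hpi := Real.pi_pos
  have q0 := h.h0
  have q1 := h.h1
  have q2 := h.h2
  have q3 := h.h3
  have hnr : (n : ℝ) ≠ 0 := by exact_mod_cast h0
  have hnc : (n : ℂ) ≠ 0 := by exact_mod_cast h0
  have hpc : (Real.pi : ℂ) ≠ 0 := by exact_mod_cast hpi.ne'
  have hB := (Dk_BM c ρ).mul (BM.eec (-(n : ℝ)))
  rw [fc_eq, half_int hB (fun t => by
    have : ee (-(n : ℝ) * (t + Real.pi)) = ee (-(n : ℝ) * t) := by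
      have h1 := ee_int_pi' (hn.neg)
      push_cast at h1
      rw [mul_add, ee_add, h1, mul_one]
    rw [Dk_pi, this]) (c + ρ)]
  rw [← intervalIntegral.integral_add_adjacent_intervals (hB.i (c + ρ) 0) (hB.i 0 (c + ρ + Real.pi)),
    ← intervalIntegral.integral_add_adjacent_intervals (hB.i 0 (c + Real.pi - ρ))
      (hB.i (c + Real.pi - ρ) (c + ρ + Real.pi))]
  have e1 : ∫ t in (c + ρ)..0, ((Dk c ρ t : ℝ) : ℂ) * ee (-(n : ℝ) * t) =
      -∫ t in (c + ρ)..0, ee (-(n : ℝ) * t) := by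
    rw [← intervalIntegral.integral_neg]
    refine intervalIntegral.integral_congr_Ioo_of_le (by linarith) fun t ht => ?_
    have h1 : Dk c ρ t = -1 := by
      unfold Dk
      rw [sn_neg' (by linarith [ht.1]) ht.2, Sw_far q0 (by linarith [ht.1]) (by linarith [ht.2])]
      ring
    rw [h1]; push_cast; ring
  have e2 : ∫ t in (0 : ℝ)..(c + Real.pi - ρ), ((Dk c ρ t : ℝ) : ℂ) * ee (-(n : ℝ) * t) =
      ∫ t in (0 : ℝ)..(c + Real.pi - ρ), ee (-(n : ℝ) * t) := by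
    refine intervalIntegral.integral_congr_Ioo_of_le (by linarith) fun t ht => ?_
    have h1 : Dk c ρ t = 1 := by
      unfold Dk
      rw [sn_pos ht.1 (by linarith [ht.2]), Sw_far q0 (by linarith [ht.1]) (by linarith [ht.2])]
      ring
    rw [h1]; push_cast; ring
  have e3 : ∫ t in (c + Real.pi - ρ)..(c + ρ + Real.pi), ((Dk c ρ t : ℝ) : ℂ) * ee (-(n : ℝ) * t) = 0 := by
    have : ∫ t in (c + Real.pi - ρ)..(c + ρ + Real.pi), ((Dk c ρ t : ℝ) : ℂ) * ee (-(n : ℝ) * t) =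
        ∫ t in (c + Real.pi - ρ)..(c + ρ + Real.pi), (0 : ℂ) := by
      refine intervalIntegral.integral_congr_Ioo_of_le (by linarith) fun t ht => ?_
      have h1 : Dk c ρ t = 0 := by
        unfold Dk
        have h2 : t - c = (t - c - Real.pi) + Real.pi := by ring
        rw [h2, Sw_pi, Sw_near (by linarith) (abs_lt.2 ⟨by linarith [ht.1], by linarith [ht.2]⟩)]
        ring
      rw [h1]; push_cast; ring
    rw [this]; simp
  have h2 : ee (-(n : ℝ) * (c + Real.pi - ρ)) = ee (-(n : ℝ) * c) * ee (n * ρ) := by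
    have h1 := ee_int_pi' (hn.neg)
    push_cast at h1
    have : -(n : ℝ) * (c + Real.pi - ρ) = -(n : ℝ) * Real.pi + (-(n : ℝ) * c + n * ρ) := by ring
    rw [this, ee_add, h1, ee_add]; ring
  have h3 : ee (-(n : ℝ) * (c + ρ)) = ee (-(n : ℝ) * c) * ee (-(n * ρ)) := by
    rw [← ee_add]; congr 1; ring
  have h4 : (2 : ℂ) * (Real.cos (n * ρ) : ℂ) = ee (n * ρ) + ee (-(n * ρ)) := by
    rw [ee_eq, ee_eq, Real.cos_neg, Real.sin_neg]
    push_cast
    ring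
  have hI := Complex.I_ne_zero
  rw [e1, e2, e3, int_ee hnr, int_ee hnr, h2, h3, mul_zero, ee_zero]
  have h5 : (Real.cos (n * ρ) : ℂ) = (ee (n * ρ) + ee (-(n * ρ))) / 2 := by rw [← h4]; ring
  rw [h5]
  push_cast
  field_simp
  rw [Complex.I_sq]
  ring

/-! ### bounds of the selection functions -/

theorem trig_bd {x : ℂ} (h : ‖x‖ ≤ 1) : |11 / 10 * x.re - 1 / 10 * (x ^ 3).re| ≤ 1 := by
  have h1 : (x ^ 3).re = x.re ^ 3 - 3 * x.re * x.im ^ 2 := by
    have : x ^ 3 = x * x * x := by ring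
    rw [this]
    simp only [Complex.mul_re, Complex.mul_im]
    ring
  have h2 : x.re ^ 2 + x.im ^ 2 ≤ 1 := by
    have h3 := Complex.sq_norm x
    rw [Complex.normSq_apply] at h3
    have h4 : ‖x‖ ^ 2 ≤ 1 := pow_le_one₀ (norm_nonneg _) h
    nlinarith
  rw [h1]
  have hx : |x.re| ≤ 1 := (Complex.abs_re_le_norm x).trans h
  rw [abs_le] at hx ⊢
  set a := x.re
  set b := x.im
  have ha2 : a ^ 2 ≤ 1 := by nlinarith [sq_nonneg b]
  have hb2 : b ^ 2 ≤ 1 - a ^ 2 := by linarith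
  constructor
  · rcases le_total 0 a with h0 | h0
    · nlinarith [mul_nonneg h0 (sq_nonneg b), mul_nonneg h0 (sub_nonneg.2 ha2)]
    · nlinarith [mul_nonneg (neg_nonneg.2 h0) (sub_nonneg.2 hb2), mul_nonneg (neg_nonneg.2 h0) (sub_nonneg.2 ha2),
        mul_nonneg (by linarith [hx.1] : 0 ≤ 1 + a) (by nlinarith : 0 ≤ 1 + 4 / 10 * a - 4 / 10 * a ^ 2)]
  · rcases le_total 0 a with h0 | h0
    · nlinarith [mul_nonneg h0 (sub_nonneg.2 hb2), mul_nonneg h0 (sub_nonneg.2 ha2),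
        mul_nonneg (by linarith [hx.2] : 0 ≤ 1 - a) (by nlinarith : 0 ≤ 1 - 4 / 10 * a - 4 / 10 * a ^ 2)]
    · nlinarith [mul_nonneg (neg_nonneg.2 h0) (sq_nonneg b), mul_nonneg (neg_nonneg.2 h0) (sub_nonneg.2 ha2)]

/-- the window sum for `wp` -/
theorem wp_bd {ρ : ℝ} (hc : 0 ≤ Real.cos ρ) {u : ℂ} (hu : ‖u‖ ≤ 1) (y : ℝ) :
    |Sw ρ y + (11 / 10 * u * wp ρ 3 y).re + (-(1 / 10) * u ^ 3 * wp ρ 9 y).re| ≤ 1 := by
  have key : ∀ g : ℂ, ‖g‖ ≤ 1 →
      |(0 : ℝ) + (11 / 10 * u * g ^ 3).re + (-(1 / 10) * u ^ 3 * g ^ 9).re| ≤ 1 := by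
    intro g hg
    have hx : ‖u * g ^ 3‖ ≤ 1 := by
      rw [norm_mul, norm_pow]
      exact mul_le_one₀ hu (by positivity) (pow_le_one₀ (norm_nonneg _) hg)
    have := trig_bd hx
    have e1 : (11 / 10 * u * g ^ 3).re = 11 / 10 * (u * g ^ 3).re := by
      have : (11 / 10 : ℂ) * u * g ^ 3 = ((11 / 10 : ℝ) : ℂ) * (u * g ^ 3) := by push_cast; ring
      rw [this, Complex.re_ofReal_mul]
    have e2 : (-(1 / 10) * u ^ 3 * g ^ 9).re = -(1 / 10) * ((u * g ^ 3) ^ 3).re := by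
      have : (-(1 / 10) : ℂ) * u ^ 3 * g ^ 9 = ((-(1 / 10) : ℝ) : ℂ) * (u * g ^ 3) ^ 3 := by
        push_cast; ring
      rw [this, Complex.re_ofReal_mul]
    rw [e1, e2, zero_add]
    have e3 : 11 / 10 * (u * g ^ 3).re + -(1 / 10) * ((u * g ^ 3) ^ 3).re =
      11 / 10 * (u * g ^ 3).re - 1 / 10 * ((u * g ^ 3) ^ 3).re := by ring
    rw [e3]
    exact this
  unfold wp
  by_cases h1 : Real.cos ρ < Real.cos y
  · have hs : Sw ρ y = 0 := by
      unfold Sw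
      rw [if_neg]
      rw [abs_of_nonneg (by linarith)]
      exact not_lt.2 h1.le
    rw [if_pos h1, if_pos h1, hs]
    exact key _ (hv_le y)
  · by_cases h2 : Real.cos y < -Real.cos ρ
    · have hs : Sw ρ y = 0 := by
        unfold Sw
        rw [if_neg]
        rw [abs_of_nonpos (by linarith)]
        exact not_lt.2 (by linarith)
      rw [if_neg h1, if_pos h2, if_neg h1, if_pos h2, hs]
      exact key _ (hv_le _)
    · rw [if_neg h1, if_neg h2, if_neg h1, if_neg h2, mul_zero, mul_zero, Complex.zero_re, add_zero,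
        add_zero]
      exact Sw_abs _ _

/-- the window sum for `wm` -/
theorem wm_bd {ρ : ℝ} (hc : 0 ≤ Real.cos ρ) {u : ℂ} (hu : ‖u‖ ≤ 1) (y : ℝ) :
    |Sw ρ y + (11 / 10 * u * wm ρ 3 y).re + (-(1 / 10) * u ^ 3 * wm ρ 9 y).re| ≤ 1 := by
  by_cases h2 : Real.cos y < -Real.cos ρ
  · have h1 : ¬ Real.cos ρ < Real.cos y := by linarith
    have h := wp_bd hc (u := -u) (by rw [norm_neg]; exact hu) y
    unfold wp at h
    unfold wm
    rw [if_neg h1, if_pos h2, if_neg h1, if_pos h2] at h ⊢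
    have e1 : (11 / 10 : ℂ) * u * -hv (y + Real.pi) ^ 3 = 11 / 10 * -u * hv (y + Real.pi) ^ 3 := by ring
    have e2 : (-(1 / 10) : ℂ) * u ^ 3 * -hv (y + Real.pi) ^ 9 =
      -(1 / 10) * (-u) ^ 3 * hv (y + Real.pi) ^ 9 := by ring
    rw [e1, e2]
    exact h
  · have h := wp_bd hc hu y
    unfold wp at h
    unfold wm
    rw [if_neg h2, if_neg h2] at h ⊢
    exact h

/-- the coefficients of the window -/
noncomputable def C3 (c : ℝ) (z : ℂ) : ℂ := 11 / 10 * (z * ee (3 / 2 * c))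
noncomputable def C9 (c : ℝ) (z : ℂ) : ℂ := -(1 / 10) * (z * ee (3 / 2 * c)) ^ 3

theorem ee_pow3 (x : ℝ) : ee (3 * x) = ee x ^ 3 := by
  have := ee_int_mul 3 x
  push_cast at this
  rw [this]
  norm_cast

theorem Et_bd {c ρ : ℝ} (hc : 0 ≤ Real.cos ρ) {z : ℂ} (hz : ‖z‖ ≤ 1) (s t : ℝ) :
    |Et c ρ (C3 c z) (C9 c z) s t| ≤ 1 := by
  have hu : ‖z * ee (3 / 2 * c) * ee (3 * t)‖ ≤ 1 := by
    rw [norm_mul, norm_mul, norm_ee, norm_ee]; simpa using hz
  have h := wp_bd hc hu (s - t - c)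
  unfold Et C3 C9
  have e9 : ee (9 * t) = ee (3 * t) ^ 3 := by rw [← ee_pow3]; congr 1; ring
  have e1 : 11 / 10 * (z * ee (3 / 2 * c)) * ee (3 * t) * wp ρ 3 (s - t - c) =
    11 / 10 * (z * ee (3 / 2 * c) * ee (3 * t)) * wp ρ 3 (s - t - c) := by ring
  have e2 : -(1 / 10) * (z * ee (3 / 2 * c)) ^ 3 * ee (9 * t) * wp ρ 9 (s - t - c) =
    -(1 / 10) * (z * ee (3 / 2 * c) * ee (3 * t)) ^ 3 * wp ρ 9 (s - t - c) := by rw [e9]; ring
  rw [e1, e2]
  exact h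

theorem Es_bd {c ρ : ℝ} (hc : 0 ≤ Real.cos ρ) {z : ℂ} (hz : ‖z‖ ≤ 1) (s t : ℝ) :
    |Es c ρ (C3 c z) (C9 c z) s t| ≤ 1 := by
  have hu : ‖z * ee (3 / 2 * c) * ee (3 * s)‖ ≤ 1 := by
    rw [norm_mul, norm_mul, norm_ee, norm_ee]; simpa using hz
  have h := wm_bd hc hu (-(s - t) - c)
  unfold Es C3 C9
  have e9 : ee (9 * s) = ee (3 * s) ^ 3 := by rw [← ee_pow3]; congr 1; ring
  have e1 : 11 / 10 * (z * ee (3 / 2 * c)) * ee (3 * s) * wm ρ 3 (-(s - t) - c) =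
    11 / 10 * (z * ee (3 / 2 * c) * ee (3 * s)) * wm ρ 3 (-(s - t) - c) := by ring
  have e2 : -(1 / 10) * (z * ee (3 / 2 * c)) ^ 3 * ee (9 * s) * wm ρ 9 (-(s - t) - c) =
    -(1 / 10) * (z * ee (3 / 2 * c) * ee (3 * s)) ^ 3 * wm ρ 9 (-(s - t) - c) := by rw [e9]; ring
  rw [e1, e2]
  exact h

theorem Et_meas (c ρ : ℝ) (c3 c9 : ℂ) : Measurable (Function.uncurry (Et c ρ c3 c9)) := by
  have hx : Measurable fun x : ℝ × ℝ => x.1 - x.2 - c := (measurable_fst.sub measurable_snd).sub_const _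
  have h3 : Measurable fun x : ℝ × ℝ => ee (3 * x.2) :=
    continuous_ee.measurable.comp (measurable_snd.const_mul _)
  have h9 : Measurable fun x : ℝ × ℝ => ee (9 * x.2) :=
    continuous_ee.measurable.comp (measurable_snd.const_mul _)
  exact (((Sw_meas ρ).comp hx).add (Complex.measurable_re.comp ((h3.const_mul c3).mul
    ((wp_meas ρ 3).comp hx)))).add (Complex.measurable_re.comp ((h9.const_mul c9).mul
    ((wp_meas ρ 9).comp hx)))

theorem Es_meas (c ρ : ℝ) (c3 c9 : ℂ) : Measurable (Function.uncurry (Es c ρ c3 c9)) := by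
  have hx : Measurable fun x : ℝ × ℝ => -(x.1 - x.2) - c :=
    (measurable_fst.sub measurable_snd).neg.sub_const _
  have h3 : Measurable fun x : ℝ × ℝ => ee (3 * x.1) :=
    continuous_ee.measurable.comp (measurable_fst.const_mul _)
  have h9 : Measurable fun x : ℝ × ℝ => ee (9 * x.1) :=
    continuous_ee.measurable.comp (measurable_fst.const_mul _)
  exact (((Sw_meas ρ).comp hx).add (Complex.measurable_re.comp ((h3.const_mul c3).mul
    ((wm_meas ρ 3).comp hx)))).add (Complex.measurable_re.comp ((h9.const_mul c9).mul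
    ((wm_meas ρ 9).comp hx)))

theorem Et_per (c ρ : ℝ) (c3 c9 : ℂ) (s t : ℝ) :
    Et c ρ c3 c9 (s + 2 * Real.pi) t = Et c ρ c3 c9 s t := by
  unfold Et
  have e : s + 2 * Real.pi - t - c = (s - t - c) + 2 * Real.pi := by ring
  rw [e, Sw_per, wp_per, wp_per]

theorem Es_per (c ρ : ℝ) (c3 c9 : ℂ) (s t : ℝ) :
    Es c ρ c3 c9 (s + 2 * Real.pi) t = Es c ρ c3 c9 s t := by
  unfold Es
  have e : -(s + 2 * Real.pi - t) - c = (-(s - t) - c) - 2 * Real.pi := by ring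
  have p1 : ∀ y, Sw ρ (y - 2 * Real.pi) = Sw ρ y := fun y => by
    rw [← Sw_per ρ (y - 2 * Real.pi), sub_add_cancel]
  have p2 : ∀ q y, wm ρ q (y - 2 * Real.pi) = wm ρ q y := fun q y => by
    rw [← wm_per ρ q (y - 2 * Real.pi), sub_add_cancel]
  have p3 : ee (3 * (s + 2 * Real.pi)) = ee (3 * s) := by
    have := ee_int 3 s
    push_cast at this
    exact this
  have p4 : ee (9 * (s + 2 * Real.pi)) = ee (9 * s) := by
    have := ee_int 9 s
    push_cast at this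
    exact this
  rw [e, p1, p2, p2, p3, p4]

end Helper87.RC
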