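import Pool.Agent.Helper87.RC.M_KERb
import Pool.Agent.Helper44.RC.StCut

/-!
# Project RC: module INT
-/

open MeasureTheory Set Filter Metric

namespace Helper87.RC

open Helper49.LT hiding sg
open Helper49.RC Helper44.RC

theorem sgs_pos {x : ℝ} (h : 0 ≤ Real.sin x) : sgs x = 1 := by
  unfold sgs; rw [if_pos h]

theorem sgs_neg {x : ℝ} (h : Real.sin x < 0) : sgs x = -1 := by
  unfold sgs; rw [if_neg (not_le.2 h)]

theorem sgs_abs (x : ℝ) : |sgs x| ≤ 1 := by
  unfold sgs; split_ifs <;> simp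

theorem sgs_meas : Measurable sgs := by
  unfold sgs
  refine Measurable.ite ?_ measurable_const measurable_const
  exact measurableSet_le measurable_const Real.measurable_sin

theorem sgs_per (x : ℝ) : sgs (x + 2 * Real.pi) = sgs x := by
  unfold sgs; rw [Real.sin_add_two_pi]

theorem sgs_per' (x : ℝ) : sgs (x - 2 * Real.pi) = sgs x := by
  unfold sgs; rw [Real.sin_sub_two_pi]

/-- `sgs (a - t) = 1` for `a - π < t < a` -/
theorem sgs_on {a t : ℝ} (h1 : a - Real.pi < t) (h2 : t < a) : sgs (a - t) = 1 :=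
  sgs_pos (Real.sin_nonneg_of_nonneg_of_le_pi (by linarith) (by linarith))

theorem sgs_off {a t : ℝ} (h1 : a < t) (h2 : t < a + Real.pi) : sgs (a - t) = -1 := by
  apply sgs_neg
  have h : Real.sin (t - a) > 0 := Real.sin_pos_of_pos_of_lt_pi (by linarith) (by linarith)
  have e : a - t = -(t - a) := by ring
  rw [e, Real.sin_neg]
  linarith

theorem sgs_on2 {a t : ℝ} (h1 : a + Real.pi < t) (h2 : t < a + 2 * Real.pi) : sgs (a - t) = 1 := by
  rw [← sgs_per]
  exact sgs_pos (Real.sin_nonneg_of_nonneg_of_le_pi (by linarith) (by linarith))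

theorem shiftC {g : ℝ → ℂ} (hg : Function.Periodic g (2 * Real.pi)) (a : ℝ) :
    ∫ t in (0 : ℝ)..(2 * Real.pi), g t = ∫ t in a..(a + 2 * Real.pi), g t := by
  have := hg.intervalIntegral_add_eq 0 a
  rw [zero_add] at this
  exact this

/-- part 1: the sign of one family -/
theorem int_sign {g : ℝ → ℂ} (hg : ∀ t, g (t + Real.pi) = -g t)
    (hi : ∀ a b : ℝ, IntervalIntegrable g volume a b)
    (a : ℝ) : ∫ t in (0 : ℝ)..(2 * Real.pi), ((sgs (a - t) : ℝ) : ℂ) * g t =
      2 * ∫ t in (a - Real.pi)..a, g t := by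
  have hpi := Real.pi_pos
  have hper : Function.Periodic (fun t => ((sgs (a - t) : ℝ) : ℂ) * g t) (2 * Real.pi) := by
    intro t
    show ((sgs (a - (t + 2 * Real.pi)) : ℝ) : ℂ) * g (t + 2 * Real.pi) = _
    have e1 : a - (t + 2 * Real.pi) = (a - t) - 2 * Real.pi := by ring
    have e2 : g (t + 2 * Real.pi) = g t := by
      rw [two_mul, ← add_assoc, hg, hg, neg_neg]
    rw [e1, sgs_per', e2]
  have hm : ∀ x y : ℝ, IntervalIntegrable (fun t => ((sgs (a - t) : ℝ) : ℂ) * g t) volume x y := by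
    intro x y
    have h1 := hi x y
    rw [intervalIntegrable_iff] at h1 ⊢
    refine Integrable.bdd_mul (c := 1) h1 ?_ ?_
    · exact (Complex.measurable_ofReal.comp
        (sgs_meas.comp (measurable_const.sub measurable_id))).aestronglyMeasurable
    · refine Filter.Eventually.of_forall fun t => ?_
      rw [Complex.norm_real, Real.norm_eq_abs]
      exact sgs_abs _
  rw [shiftC hper (a - Real.pi)]
  have e : a - Real.pi + 2 * Real.pi = a + Real.pi := by ring
  rw [e, ← intervalIntegral.integral_add_adjacent_intervals (hm (a - Real.pi) a) (hm a (a + Real.pi))]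
  have h1 : ∫ t in (a - Real.pi)..a, ((sgs (a - t) : ℝ) : ℂ) * g t = ∫ t in (a - Real.pi)..a, g t := by
    refine intervalIntegral.integral_congr_Ioo_of_le (by linarith) fun t ht => ?_
    rw [sgs_on ht.1 ht.2]; simp
  have h2 : ∫ t in a..(a + Real.pi), ((sgs (a - t) : ℝ) : ℂ) * g t = ∫ t in (a - Real.pi)..a, g t := by
    have h3 : ∫ t in a..(a + Real.pi), ((sgs (a - t) : ℝ) : ℂ) * g t =
        ∫ t in a..(a + Real.pi), -g t := by
      refine intervalIntegral.integral_congr_Ioo_of_le (by linarith) fun t ht => ?_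
      rw [sgs_off ht.1 ht.2]; simp
    rw [h3]
    have h4 : ∫ t in (a - Real.pi)..a, g t = ∫ t in (a - Real.pi)..a, -g (t + Real.pi) := by
      refine intervalIntegral.integral_congr fun t _ => ?_
      show g t = -g (t + Real.pi)
      rw [hg, neg_neg]
    rw [h4, intervalIntegral.integral_comp_add_right (fun t => -g t)]
    congr 1
    ring
  rw [h1, h2]
  ring

/-- part 3: the product of the two signs -/
theorem int_prod {g : ℝ → ℂ} (hg : ∀ t, g (t + Real.pi) = g t)
    (hi : ∀ a b : ℝ, IntervalIntegrable g volume a b)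
    (a1 a2 : ℝ) (h1 : a2 ≤ a1) (h2 : a1 ≤ a2 + Real.pi) :
    ∫ t in (0 : ℝ)..(2 * Real.pi), ((sgs (a1 - t) * sgs (a2 - t) : ℝ) : ℂ) * g t =
      (∫ t in (0 : ℝ)..(2 * Real.pi), g t) - 4 * ∫ t in a2..a1, g t := by
  have hpi := Real.pi_pos
  have hg2 : Function.Periodic g (2 * Real.pi) := by
    intro t
    rw [two_mul, ← add_assoc, hg, hg]
  have hper : Function.Periodic (fun t => ((sgs (a1 - t) * sgs (a2 - t) : ℝ) : ℂ) * g t)
      (2 * Real.pi) := by
    intro t
    show ((sgs (a1 - (t + 2 * Real.pi)) * sgs (a2 - (t + 2 * Real.pi)) : ℝ) : ℂ) *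
      g (t + 2 * Real.pi) = _
    have e1 : ∀ a : ℝ, a - (t + 2 * Real.pi) = (a - t) - 2 * Real.pi := fun a => by ring
    rw [e1, e1, sgs_per', sgs_per', hg2]
  have hm : ∀ x y : ℝ, IntervalIntegrable
      (fun t => ((sgs (a1 - t) * sgs (a2 - t) : ℝ) : ℂ) * g t) volume x y := by
    intro x y
    have h1 := hi x y
    rw [intervalIntegrable_iff] at h1 ⊢
    refine Integrable.bdd_mul (c := 1) h1 ?_ ?_
    · exact (Complex.measurable_ofReal.comp
        ((sgs_meas.comp (measurable_const.sub measurable_id)).mul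
          (sgs_meas.comp (measurable_const.sub measurable_id)))).aestronglyMeasurable
    · refine Filter.Eventually.of_forall fun t => ?_
      rw [Complex.norm_real, Real.norm_eq_abs, abs_mul]
      exact mul_le_one₀ (sgs_abs _) (abs_nonneg _) (sgs_abs _)
  rw [shiftC hper a2, shiftC hg2 a2]
  have c1 : ∫ t in a2..a1, ((sgs (a1 - t) * sgs (a2 - t) : ℝ) : ℂ) * g t =
      -∫ t in a2..a1, g t := by
    rw [← intervalIntegral.integral_neg]
    refine intervalIntegral.integral_congr_Ioo_of_le h1 fun t ht => ?_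
    rw [sgs_on (by linarith [ht.1]) ht.2, sgs_off ht.1 (by linarith [ht.2])]; simp
  have c2 : ∫ t in a1..(a2 + Real.pi), ((sgs (a1 - t) * sgs (a2 - t) : ℝ) : ℂ) * g t =
      ∫ t in a1..(a2 + Real.pi), g t := by
    refine intervalIntegral.integral_congr_Ioo_of_le h2 fun t ht => ?_
    rw [sgs_off ht.1 (by linarith [ht.2]), sgs_off (by linarith [ht.1]) ht.2]; simp
  have c3 : ∫ t in (a2 + Real.pi)..(a1 + Real.pi), ((sgs (a1 - t) * sgs (a2 - t) : ℝ) : ℂ) * g t =
      -∫ t in (a2 + Real.pi)..(a1 + Real.pi), g t := by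
    rw [← intervalIntegral.integral_neg]
    refine intervalIntegral.integral_congr_Ioo_of_le (by linarith) fun t ht => ?_
    rw [sgs_off (by linarith [ht.1]) ht.2, sgs_on2 ht.1 (by linarith [ht.2])]; simp
  have c4 : ∫ t in (a1 + Real.pi)..(a2 + 2 * Real.pi), ((sgs (a1 - t) * sgs (a2 - t) : ℝ) : ℂ) * g t =
      ∫ t in (a1 + Real.pi)..(a2 + 2 * Real.pi), g t := by
    refine intervalIntegral.integral_congr_Ioo_of_le (by linarith) fun t ht => ?_
    rw [sgs_on2 ht.1 (by linarith [ht.2]), sgs_on2 (by linarith [ht.1]) ht.2]; simp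
  have d3 : ∫ t in (a2 + Real.pi)..(a1 + Real.pi), g t = ∫ t in a2..a1, g t := by
    rw [← intervalIntegral.integral_comp_add_right (fun t => g t)]
    exact intervalIntegral.integral_congr fun t _ => hg t
  rw [← intervalIntegral.integral_add_adjacent_intervals (hm a2 a1) (hm a1 (a2 + 2 * Real.pi)),
    ← intervalIntegral.integral_add_adjacent_intervals (hm a1 (a2 + Real.pi))
      (hm (a2 + Real.pi) (a2 + 2 * Real.pi)),
    ← intervalIntegral.integral_add_adjacent_intervals (hm (a2 + Real.pi) (a1 + Real.pi))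
      (hm (a1 + Real.pi) (a2 + 2 * Real.pi)), c1, c2, c3, c4, d3]
  rw [← intervalIntegral.integral_add_adjacent_intervals (hi a2 a1) (hi a1 (a2 + 2 * Real.pi)),
    ← intervalIntegral.integral_add_adjacent_intervals (hi a1 (a2 + Real.pi))
      (hi (a2 + Real.pi) (a2 + 2 * Real.pi)),
    ← intervalIntegral.integral_add_adjacent_intervals (hi (a2 + Real.pi) (a1 + Real.pi))
      (hi (a1 + Real.pi) (a2 + 2 * Real.pi)), d3]
  ring

variable {β P : ℝ → ℂ}

theorem vv_per (h : Adm β P) (t : ℝ) : vv P (t + Real.pi) = vv P t := by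
  unfold vv
  rw [h.perp, ee_add, ee_pi]
  ring

theorem E1_per (h : Adm β P) (t : ℝ) : E1 β (t + Real.pi) = -E1 β t := by
  unfold E1
  rw [h.perb, ee_add, ee_pi]
  ring

theorem E2_per (h : Adm β P) (t : ℝ) : E2 β (t + Real.pi) = -E2 β t := by
  unfold E2
  rw [h.perb, ee_add, ee_pi]
  ring

theorem E1_le (h : Adm β P) (t : ℝ) : ‖E1 β t‖ ≤ 6 :=
  f1_le (beta_le h t) (by simp) t

theorem E2_le (h : Adm β P) (t : ℝ) : ‖E2 β t‖ ≤ 6 :=
  f2_le (beta_le h t) (by simp) t

theorem vv_le (h : Adm β P) (t : ℝ) : ‖vv P t‖ ≤ 3 := by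
  unfold vv
  rw [norm_mul, norm_ee, one_mul]
  exact P_le h t

theorem E1_meas (h : Adm β P) : Measurable (E1 β) := m1 h.mb measurable_const

theorem E2_meas (h : Adm β P) : Measurable (E2 β) := m2 h.mb measurable_const

theorem vv_meas (h : Adm β P) : Measurable (vv P) := continuous_ee.measurable.mul h.mp

theorem E1_int (h : Adm β P) (a b : ℝ) : IntervalIntegrable (E1 β) volume a b :=
  intg_of_bddC (E1_meas h) (E1_le h) a b

theorem E2_int (h : Adm β P) (a b : ℝ) : IntervalIntegrable (E2 β) volume a b :=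
  intg_of_bddC (E2_meas h) (E2_le h) a b

theorem vv_int (h : Adm β P) (a b : ℝ) : IntervalIntegrable (vv P) volume a b :=
  intg_of_bddC (vv_meas h) (vv_le h) a b

theorem int_sgn_mul {g : ℝ → ℂ} {σ : ℝ → ℝ} (hσ : Measurable σ) (h1 : ∀ t, |σ t| ≤ 1)
    (hi : ∀ a b : ℝ, IntervalIntegrable g volume a b) (x y : ℝ) :
    IntervalIntegrable (fun t => ((σ t : ℝ) : ℂ) * g t) volume x y := by
  have h2 := hi x y
  rw [intervalIntegrable_iff] at h2 ⊢
  refine Integrable.bdd_mul (c := 1) h2 ?_ ?_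
  · exact (Complex.measurable_ofReal.comp hσ).aestronglyMeasurable
  · refine Filter.Eventually.of_forall fun t => ?_
    rw [Complex.norm_real, Real.norm_eq_abs]
    exact h1 _

/-- Module INT. -/
theorem hINT : StInt := by
  intro β P h s1 s2 hs1 hs2
  have hpi := Real.pi_pos
  set a1 := s1 - Real.pi / 3 with ha1
  set a2 := s2 - 2 * Real.pi / 3 with ha2
  have m1 : Measurable fun t : ℝ => sgs (a1 - t) := sgs_meas.comp (measurable_const.sub measurable_id)
  have m2 : Measurable fun t : ℝ => sgs (a2 - t) := sgs_meas.comp (measurable_const.sub measurable_id)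
  have e : ∀ t, yv (β t) (P t) t (sgs (s1 - t - Real.pi / 3)) (sgs (s2 - t - 2 * Real.pi / 3)) =
      (1 / 2) * (((sgs (a1 - t) : ℝ) : ℂ) * E1 β t) + (1 / 2) * (((sgs (a2 - t) : ℝ) : ℂ) * E2 β t)
        - (1 / 2) * (((sgs (a1 - t) * sgs (a2 - t) : ℝ) : ℂ) * vv P t) := by
    intro t
    have e1 : s1 - t - Real.pi / 3 = a1 - t := by rw [ha1]; ring
    have e2 : s2 - t - 2 * Real.pi / 3 = a2 - t := by rw [ha2]; ring
    rw [e1, e2]
    unfold yv E1 E2 vv
    ring
  simp_rw [e]
  have i1 := (int_sgn_mul m1 (fun t => sgs_abs _) (E1_int h) 0 (2 * Real.pi)).const_mul (1 / 2 : ℂ)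
  have i2 := (int_sgn_mul m2 (fun t => sgs_abs _) (E2_int h) 0 (2 * Real.pi)).const_mul (1 / 2 : ℂ)
  have i3 : IntervalIntegrable (fun t : ℝ =>
      (1 / 2 : ℂ) * (((sgs (a1 - t) * sgs (a2 - t) : ℝ) : ℂ) * vv P t)) volume 0 (2 * Real.pi) :=
    (int_sgn_mul (σ := fun t => sgs (a1 - t) * sgs (a2 - t)) (m1.mul m2) (fun t => by
    show |sgs (a1 - t) * sgs (a2 - t)| ≤ 1
    rw [abs_mul]; exact mul_le_one₀ (sgs_abs _) (abs_nonneg _) (sgs_abs _))
    (vv_int h) 0 (2 * Real.pi)).const_mul (1 / 2 : ℂ)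
  rw [intervalIntegral.integral_sub (i1.add i2) i3, intervalIntegral.integral_add i1 i2,
    intervalIntegral.integral_const_mul, intervalIntegral.integral_const_mul,
    intervalIntegral.integral_const_mul, int_sign (E1_per h) (E1_int h) a1,
    int_sign (E2_per h) (E2_int h) a2]
  have h3 := int_prod (vv_per h) (vv_int h) a1 a2 (by rw [ha1, ha2]; linarith)
    (by rw [ha1, ha2]; linarith)
  rw [h3]
  unfold YY
  have e3 : a1 - Real.pi = s1 - 4 * Real.pi / 3 := by rw [ha1]; ring
  have e4 : a2 - Real.pi = s2 - 5 * Real.pi / 3 := by rw [ha2]; ring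
  rw [e3, e4]
  ring

end Helper87.RC
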