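import Pool.Agent.Helper87.RC.M_WN2

/-!
# Project RC: module INT3, the interleaving bound for `κ = 99/100`
-/

open MeasureTheory Set Filter Metric

namespace Helper87.RC

open Helper49.LT hiding sg gam
open Helper49.RC Helper44.RC
open Helper56.RC (fc RR gam sgm IQ TW b1 uu ww cp cm StInt3)

/-! ### splitting of sums -/

theorem inj_odd : Function.Injective fun j : ℤ => 2 * j + 1 := fun a b h => by
  have : 2 * a + 1 = 2 * b + 1 := h
  omega

theorem inj_even : Function.Injective fun j : ℤ => 2 * j := fun a b h => by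
  have : 2 * a = 2 * b := h
  omega

theorem odd_sum {f : ℤ → ℝ} {S : ℝ} (h : HasSum f S) (h0 : ∀ n, Even n → f n = 0) :
    HasSum (fun j : ℤ => f (2 * j + 1)) S := by
  refine (inj_odd.hasSum_iff fun x hx => ?_).2 h
  apply h0
  rcases Int.even_or_odd x with hn | ⟨m, hm⟩
  · exact hn
  · exact absurd ⟨m, hm.symm⟩ hx

theorem even_sum {f : ℤ → ℝ} {S : ℝ} (h : HasSum f S) (h0 : ∀ n, Odd n → f n = 0) :
    HasSum (fun j : ℤ => f (2 * j)) S := by
  refine (inj_even.hasSum_iff fun x hx => ?_).2 h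
  apply h0
  rcases Int.even_or_odd x with ⟨m, hm⟩ | hn
  · exact absurd ⟨m, by show 2 * m = x; omega⟩ hx
  · exact hn

theorem nat_split {g : ℤ → ℝ} {S : ℝ} (h : HasSum g S) :
    HasSum (fun k : ℕ => g ((k : ℤ) + 1) + g (-((k : ℤ) + 1))) (S - g 0) := by
  have h1 := h.nat_add_neg
  have h2 := (hasSum_nat_add_iff' 1).2 h1
  simp only [Finset.range_one, Finset.sum_singleton, Nat.cast_zero, neg_zero, Nat.cast_add,
    Nat.cast_one] at h2
  have e : S + g 0 - (g 0 + g 0) = S - g 0 := by ring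
  rw [e] at h2
  exact h2

/-! ### coefficients in the gauge -/

theorem fc_one (m : ℤ) : fc (fun _ => (1 : ℂ)) m = if m = 0 then 1 else 0 := by
  have hpi := Real.pi_pos
  have hpc : (Real.pi : ℂ) ≠ 0 := by exact_mod_cast hpi.ne'
  rw [fc_eq]
  by_cases hm : m = 0
  · subst hm
    rw [if_pos rfl]
    simp only [Int.cast_zero, neg_zero, zero_mul, ee_zero, one_mul,
      intervalIntegral.integral_const, sub_zero, Complex.real_smul, mul_one]
    push_cast
    field_simp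
  · rw [if_neg hm]
    have hmr : (m : ℝ) ≠ 0 := by exact_mod_cast hm
    have e : ∀ t : ℝ, (1 : ℂ) * ee (-(m : ℝ) * t) = ee (-(m : ℝ) * t) := fun t => one_mul _
    simp_rw [e]
    rw [int_ee hmr]
    have h1 := ee_int (-m) 0
    push_cast at h1
    rw [zero_add] at h1
    rw [h1, sub_self, zero_div, mul_zero]

variable {β P : ℝ → ℂ}

theorem Adm.Bb (h : Adm β P) : BM β (Real.sqrt 2) :=
  ⟨h.mb, fun t => by
    rw [← Real.sqrt_sq (norm_nonneg (β t))]
    exact Real.sqrt_le_sqrt (h.bdb t)⟩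

theorem fc_E1 (h : Adm β P) (n : ℤ) : fc (E1 β) n = (starRingEnd ℂ) om * fc β (n - 1)
    + (if n = 1 then om else 0) := by
  have e : E1 β = fun t => ee (((1 : ℤ) : ℝ) * t) * ((fun s => om * (fun _ => (1 : ℂ)) s +
      (starRingEnd ℂ) om * β s) t) := by
    funext t
    unfold E1 f1
    push_cast
    rw [one_mul]
    ring
  have c1 : BM (fun s => om * (fun _ => (1 : ℂ)) s) (‖om‖ * 1) :=
    BM.cmul ⟨measurable_const, fun _ => by simp⟩ om
  have h1 := fc_ee (fun s => om * (fun _ => (1 : ℂ)) s + (starRingEnd ℂ) om * β s) 1 n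
  rw [e, h1, fc_add c1 ((Adm.Bb h).cmul _), fc_cmul, fc_cmul, fc_one]
  by_cases hn : n = 1
  · subst hn; simp; ring
  · rw [if_neg hn, if_neg (by omega)]; ring

theorem fc_E2 (h : Adm β P) (n : ℤ) : fc (E2 β) n = (starRingEnd ℂ) om ^ 2 * fc β (n - 1)
    + (if n = 1 then om ^ 2 else 0) := by
  have e : E2 β = fun t => ee (((1 : ℤ) : ℝ) * t) * ((fun s => om ^ 2 * (fun _ => (1 : ℂ)) s +
      (starRingEnd ℂ) om ^ 2 * β s) t) := by
    funext t
    unfold E2 f2
    push_cast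
    rw [one_mul]
    ring
  have c1 : BM (fun s => om ^ 2 * (fun _ => (1 : ℂ)) s) (‖om ^ 2‖ * 1) :=
    BM.cmul ⟨measurable_const, fun _ => by simp⟩ (om ^ 2)
  have h1 := fc_ee (fun s => om ^ 2 * (fun _ => (1 : ℂ)) s + (starRingEnd ℂ) om ^ 2 * β s) 1 n
  rw [e, h1, fc_add c1 ((Adm.Bb h).cmul _), fc_cmul, fc_cmul, fc_one]
  by_cases hn : n = 1
  · subst hn; simp; ring
  · rw [if_neg hn, if_neg (by omega)]; ring

theorem fc_vv (P : ℝ → ℂ) (n : ℤ) : fc (vv P) n = fc P (n - 1) := by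
  have e : vv P = fun t => ee (((1 : ℤ) : ℝ) * t) * P t := by
    funext t
    unfold vv
    push_cast
    rw [one_mul]
  rw [e, fc_ee]

/-! ### trigonometry -/

theorem cos_pair (x : ℝ) : ee x + ee (-x) = ((2 * Real.cos x : ℝ) : ℂ) := by
  rw [ee_eq, ee_eq, Real.cos_neg, Real.sin_neg]
  push_cast
  ring

theorem om_c : (starRingEnd ℂ) om = ee (-(Real.pi / 3)) := by unfold om; rw [conj_ee]

theorem om_2 : om ^ 2 = ee (2 * Real.pi / 3) := by
  unfold om
  rw [sq, ← ee_add]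
  congr 1
  ring

theorem om_c2 : (starRingEnd ℂ) om ^ 2 = ee (-(2 * Real.pi / 3)) := by
  rw [om_c, sq, ← ee_add]
  congr 1
  ring

theorem ee_sub_pi (x : ℝ) : ee (x - Real.pi) = -ee x := by
  have := ee_add_pi' (x - Real.pi)
  rw [sub_add_cancel] at this
  rw [this, neg_neg]

/-- the four brackets -/
theorem br1 (x : ℝ) : ee x * (starRingEnd ℂ) om ^ 2 - ee (-x) * (starRingEnd ℂ) om =
    -((2 * Real.cos (x + Real.pi / 3) : ℝ) : ℂ) := by
  rw [om_c2, om_c, ← ee_add, ← ee_add, ← cos_pair]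
  have e1 : x + -(2 * Real.pi / 3) = (x + Real.pi / 3) - Real.pi := by ring
  have e2 : -x + -(Real.pi / 3) = -(x + Real.pi / 3) := by ring
  rw [e1, e2, ee_sub_pi]
  ring

theorem br2 (x : ℝ) : ee x * om ^ 2 - ee (-x) * om =
    -((2 * Real.cos (x - Real.pi / 3) : ℝ) : ℂ) := by
  rw [om_2]
  unfold om
  rw [← ee_add, ← ee_add, ← cos_pair]
  have e1 : x + 2 * Real.pi / 3 = (x - Real.pi / 3) + Real.pi := by ring
  have e2 : -x + Real.pi / 3 = -(x - Real.pi / 3) := by ring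
  rw [e1, e2, ee_add_pi']
  ring

theorem br3 (x : ℝ) : ee x * om - ee (-x) * om ^ 2 =
    ((2 * Real.cos (x + Real.pi / 3) : ℝ) : ℂ) := by
  rw [om_2]
  unfold om
  rw [← ee_add, ← ee_add, ← cos_pair]
  have e2 : -x + 2 * Real.pi / 3 = -(x + Real.pi / 3) + Real.pi := by ring
  rw [e2, ee_add_pi']
  ring

theorem br4 (x : ℝ) : ee x * (starRingEnd ℂ) om - ee (-x) * (starRingEnd ℂ) om ^ 2 =
    ((2 * Real.cos (x - Real.pi / 3) : ℝ) : ℂ) := by
  rw [om_c2, om_c, ← ee_add, ← ee_add, ← cos_pair]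
  have e1 : x + -(Real.pi / 3) = x - Real.pi / 3 := by ring
  have e2 : -x + -(2 * Real.pi / 3) = -(x - Real.pi / 3) - Real.pi := by ring
  rw [e1, e2, ee_sub_pi]
  ring

/-- the window parameter -/
noncomputable def cd (d : ℝ) : ℝ := -(2 * Real.pi / 3 + 2 * d)

theorem wc_cd {d ρ : ℝ} (h0 : 0 ≤ ρ) (h1 : 2 * |d| + ρ ≤ Real.pi / 3) : WC (cd d) ρ := by
  have hpi := Real.pi_pos
  have a1 := abs_nonneg d
  have a2 := le_abs_self d
  have a3 := neg_abs_le d
  refine ⟨h0, by linarith, ?_, ?_⟩ <;> unfold cd <;> linarith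

/-! ### the diagonal terms -/

theorem om_nc : ‖(starRingEnd ℂ) om‖ = 1 := by rw [om_c, norm_ee]

theorem om_oc : om * (starRingEnd ℂ) om = 1 := by unfold om; exact ee_mul_conj _

theorem om_3 : om ^ 3 = -1 := by
  unfold om
  rw [← ee_pow3]
  have : 3 * (Real.pi / 3) = Real.pi := by ring
  rw [this, ee_pi]

theorem om_c3 : (starRingEnd ℂ) om ^ 3 = -1 := by
  rw [← map_pow, om_3, map_neg, map_one]

/-- the diagonal term -/
noncomputable def fd (β : ℝ → ℂ) (c ρ : ℝ) (n : ℤ) : ℝ :=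
  (‖fc (E1 β) n‖ ^ 2 + ‖fc (E2 β) n‖ ^ 2) / n - 2 * Real.cos (n * ρ) / n *
        (ee ((n : ℝ) * c) * (fc (E1 β) n * (starRingEnd ℂ) (fc (E2 β) n))).re

theorem fd_ne (h : Adm β P) (d ρ : ℝ) {n : ℤ} (hn : n ≠ 1) :
    fd β (cd d) ρ n = 4 * gam d ρ n / n * ‖fc β (n - 1)‖ ^ 2 := by
  unfold fd gam
  rw [fc_E1 h, fc_E2 h, if_neg hn, if_neg hn, add_zero, add_zero, norm_mul, norm_mul, norm_pow, om_nc]
  have e1 : (starRingEnd ℂ) om * fc β (n - 1) * (starRingEnd ℂ) ((starRingEnd ℂ) om ^ 2 * fc β (n - 1)) =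
      om * ((‖fc β (n - 1)‖ ^ 2 : ℝ) : ℂ) := by
    rw [← Complex.normSq_eq_norm_sq, ← Complex.mul_conj, map_mul, map_pow, Complex.conj_conj]
    linear_combination (om * fc β (n - 1) * (starRingEnd ℂ) (fc β (n - 1))) * om_oc
  have e2 : (ee ((n : ℝ) * cd d) * (om * ((‖fc β (n - 1)‖ ^ 2 : ℝ) : ℂ))).re =
      -Real.cos (2 * Real.pi * (n + 1) / 3 + 2 * n * d) * ‖fc β (n - 1)‖ ^ 2 := by
    unfold om
    rw [← mul_assoc, ← ee_add, Complex.re_mul_ofReal, ee_re]
    congr 1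
    unfold cd
    have : (n : ℝ) * -(2 * Real.pi / 3 + 2 * d) + Real.pi / 3 =
      -(2 * Real.pi * (n + 1) / 3 + 2 * n * d) + Real.pi := by ring
    rw [this, Real.cos_add_pi, Real.cos_neg]
  rw [e1, e2]
  ring

theorem fd_one (h : Adm β P) (d ρ : ℝ) :
    fd β (cd d) ρ 1 = 2 + 2 * Real.cos (2 * d) * Real.cos ρ
    + (-2 + 4 * Real.cos (2 * Real.pi / 3 + 2 * d) * Real.cos ρ) * b1 β
    + 4 * gam d ρ 1 * ‖fc β 0‖ ^ 2 := by
  unfold fd gam b1
  rw [fc_E1 h, fc_E2 h, if_pos rfl, if_pos rfl, sub_self]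
  set b := fc β 0
  have hs : Real.sqrt 3 ^ 2 = 3 := Real.sq_sqrt (by norm_num)
  have e0 : ‖(starRingEnd ℂ) om * b + om‖ ^ 2 + ‖(starRingEnd ℂ) om ^ 2 * b + om ^ 2‖ ^ 2 =
      2 * ‖b‖ ^ 2 + 2 - 2 * b.re := by
    have h1 : ((starRingEnd ℂ) om * b + om) = ⟨1 / 2 * b.re + Real.sqrt 3 / 2 * b.im + 1 / 2,
        1 / 2 * b.im - Real.sqrt 3 / 2 * b.re + Real.sqrt 3 / 2⟩ := by
      apply Complex.ext
      · simp only [Complex.add_re, Complex.mul_re, Complex.conj_re, Complex.conj_im, om_re, om_im]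
        ring
      · simp only [Complex.add_im, Complex.mul_im, Complex.conj_re, Complex.conj_im, om_re, om_im]
        ring
    have h2 : ((starRingEnd ℂ) om ^ 2 * b + om ^ 2) = ⟨-(1 / 2) * b.re + Real.sqrt 3 / 2 * b.im - 1 / 2,
        -(1 / 2) * b.im - Real.sqrt 3 / 2 * b.re + Real.sqrt 3 / 2⟩ := by
      rw [← map_pow, om_sq]
      apply Complex.ext
      · simp only [Complex.add_re, Complex.mul_re, Complex.conj_re, Complex.conj_im, Complex.sub_re,
          Complex.sub_im, Complex.one_re, Complex.one_im, om_re, om_im]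
        ring
      · simp only [Complex.add_im, Complex.mul_im, Complex.conj_re, Complex.conj_im, Complex.sub_re,
          Complex.sub_im, Complex.one_re, Complex.one_im, om_re, om_im]
        ring
    rw [Complex.sq_norm, Complex.sq_norm, Complex.sq_norm, h1, h2]
    simp only [Complex.normSq_apply]
    linear_combination (1 / 2 * (b.re ^ 2 + b.im ^ 2 + 1) - b.re) * hs
  have e1 : ((starRingEnd ℂ) om * b + om) * (starRingEnd ℂ) ((starRingEnd ℂ) om ^ 2 * b + om ^ 2) =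
      om * ((‖b‖ ^ 2 : ℝ) : ℂ) - ((2 * b.re : ℝ) : ℂ) + (starRingEnd ℂ) om := by
    have hb : ((2 * b.re : ℝ) : ℂ) = b + (starRingEnd ℂ) b := by
      rw [Complex.add_conj]
    rw [hb, ← Complex.normSq_eq_norm_sq, ← Complex.mul_conj, map_add, map_mul, map_pow, map_pow,
      Complex.conj_conj]
    linear_combination (om * b * (starRingEnd ℂ) b + (starRingEnd ℂ) om) * om_oc +
      b * om_c3 + (starRingEnd ℂ) b * om_3
  have e2 : (ee (((1 : ℤ) : ℝ) * cd d) * (om * ((‖b‖ ^ 2 : ℝ) : ℂ) - ((2 * b.re : ℝ) : ℂ) +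
      (starRingEnd ℂ) om)).re = Real.cos (cd d + Real.pi / 3) * ‖b‖ ^ 2 - Real.cos (cd d) * (2 * b.re)
        + Real.cos (cd d - Real.pi / 3) := by
    have a1 : Real.cos (cd d + Real.pi / 3) = (ee (cd d) * om).re := by
      unfold om; rw [← ee_add, ee_re]
    have a2 : Real.cos (cd d - Real.pi / 3) = (ee (cd d) * (starRingEnd ℂ) om).re := by
      rw [om_c, ← ee_add, ee_re, sub_eq_add_neg]
    have a3 : Real.cos (cd d) = (ee (cd d)).re := (ee_re _).symm
    rw [a1, a2, a3, Int.cast_one, one_mul, ← Complex.re_mul_ofReal, ← Complex.re_mul_ofReal,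
      ← Complex.sub_re, ← Complex.add_re]
    congr 1
    ring
  have c1 : Real.cos (cd d + Real.pi / 3) = -Real.cos (2 * Real.pi * (((1 : ℤ) : ℝ) + 1) / 3 +
      2 * ((1 : ℤ) : ℝ) * d) := by
    have : cd d + Real.pi / 3 = -(2 * Real.pi * (((1 : ℤ) : ℝ) + 1) / 3 +
      2 * ((1 : ℤ) : ℝ) * d) + Real.pi := by unfold cd; push_cast; ring
    rw [this, Real.cos_add_pi, Real.cos_neg]
  have c2 : Real.cos (cd d) = Real.cos (2 * Real.pi / 3 + 2 * d) := by
    unfold cd; rw [Real.cos_neg]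
  have c3 : Real.cos (cd d - Real.pi / 3) = -Real.cos (2 * d) := by
    have : cd d - Real.pi / 3 = -(2 * d + Real.pi) := by unfold cd; ring
    rw [this, Real.cos_neg, Real.cos_add_pi]
  rw [e0, e1, e2, c1, c2, c3]
  simp only [Int.cast_one, one_mul, div_one]
  ring

/-! ### the window terms -/

theorem tP (h : Adm β P) (d ρ a : ℝ) (z : ℂ) (q n : ℤ) :
    RR ρ (2 * n + q) * ((a : ℂ) * (z * ee ((q : ℝ) / 2 * cd d)) *
      (starRingEnd ℂ) (fc (vv P) (n + q)) *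
        (ee (-((n + q : ℤ) : ℝ) * cd d) * fc (E2 β) n - ee ((n : ℝ) * cd d) * fc (E1 β) n)).im =
    -(2 * a) * (Helper56.RC.KK d ρ (2 * n + q) *
        (fc β (n - 1) * (starRingEnd ℂ) (fc P (n - 1 + q)) * z).im)
      + (if n = 1 then -(2 * a) * (Real.cos (Real.pi * (1 + q) / 3 + (2 + q) * d) * RR ρ (2 + q) *
        ((starRingEnd ℂ) (fc P q) * z).im) else 0) := by
  set x : ℝ := (2 * n + q) * (Real.pi / 3 + d) with hx
  have k1 : ee ((q : ℝ) / 2 * cd d) * ee (-((n + q : ℤ) : ℝ) * cd d) = ee x := by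
    rw [← ee_add]; congr 1; rw [hx]; unfold cd; push_cast; ring
  have k2 : ee ((q : ℝ) / 2 * cd d) * ee ((n : ℝ) * cd d) = ee (-x) := by
    rw [← ee_add]; congr 1; rw [hx]; unfold cd; ring
  have hp : fc (vv P) (n + q) = fc P (n - 1 + q) := by rw [fc_vv]; congr 1; ring
  have hE1 := fc_E1 h n
  have hE2 := fc_E2 h n
  have hk : Helper56.RC.KK d ρ (2 * n + q) = Real.cos (x + Real.pi / 3) * RR ρ (2 * n + q) := by
    unfold Helper56.RC.KK
    congr 2
    rw [hx]; push_cast; ring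
  set p := fc P (n - 1 + q) with hpp
  set b := fc β (n - 1) with hbb
  by_cases hn : n = 1
  · rw [if_pos hn]
    rw [if_pos hn] at hE1 hE2
    have e : (a : ℂ) * (z * ee ((q : ℝ) / 2 * cd d)) * (starRingEnd ℂ) p *
        (ee (-((n + q : ℤ) : ℝ) * cd d) * ((starRingEnd ℂ) om ^ 2 * b + om ^ 2)
          - ee ((n : ℝ) * cd d) * ((starRingEnd ℂ) om * b + om)) =
        ((-(2 * a) * Real.cos (x + Real.pi / 3) : ℝ) : ℂ) * (b * (starRingEnd ℂ) p * z) +
        ((-(2 * a) * Real.cos (x - Real.pi / 3) : ℝ) : ℂ) * ((starRingEnd ℂ) p * z) := by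
      have h1 := br1 x
      have h2 := br2 x
      rw [← k1, ← k2] at h1 h2
      push_cast at h1 h2 ⊢
      linear_combination ((a : ℂ) * z * (starRingEnd ℂ) p * b) * h1 +
        ((a : ℂ) * z * (starRingEnd ℂ) p) * h2
    rw [hp, hE1, hE2, e, Complex.add_im, Complex.im_ofReal_mul, Complex.im_ofReal_mul, hk]
    have e3 : x - Real.pi / 3 = Real.pi * (1 + q) / 3 + (2 + q) * d := by
      rw [hx, hn]; push_cast; ring
    have e4 : p = fc P q := by rw [hpp, hn]; congr 1; ring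
    have e5 : 2 * n + q = 2 + q := by rw [hn]; ring
    rw [e3, e4, e5]
    ring
  · rw [if_neg hn]
    rw [if_neg hn, add_zero] at hE1 hE2
    have e : (a : ℂ) * (z * ee ((q : ℝ) / 2 * cd d)) * (starRingEnd ℂ) p *
        (ee (-((n + q : ℤ) : ℝ) * cd d) * ((starRingEnd ℂ) om ^ 2 * b)
          - ee ((n : ℝ) * cd d) * ((starRingEnd ℂ) om * b)) =
        ((-(2 * a) * Real.cos (x + Real.pi / 3) : ℝ) : ℂ) * (b * (starRingEnd ℂ) p * z) := by
      have h1 := br1 x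
      rw [← k1, ← k2] at h1
      push_cast at h1 ⊢
      linear_combination ((a : ℂ) * z * (starRingEnd ℂ) p * b) * h1
    rw [hp, hE1, hE2, e, Complex.im_ofReal_mul, hk]
    ring

theorem tM (h : Adm β P) (d ρ a : ℝ) (z : ℂ) (q n : ℤ) :
    RR ρ (2 * n - q) * ((a : ℂ) * (z * ee ((q : ℝ) / 2 * cd d)) *
      fc (vv P) (n - q) *
        (ee (-(n : ℝ) * cd d) * (starRingEnd ℂ) (fc (E1 β) n)
          - ee (((n - q : ℤ) : ℝ) * cd d) * (starRingEnd ℂ) (fc (E2 β) n))).im =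
    (2 * a) * (Helper56.RC.KK d ρ (2 * n - q) *
        ((starRingEnd ℂ) (fc β (n - 1)) * fc P (n - 1 - q) * z).im)
      + (if n = 1 then (2 * a) * (Real.cos (Real.pi * (1 - q) / 3 + (2 - q) * d) * RR ρ (2 - q) *
        (fc P (-q) * z).im) else 0) := by
  set x : ℝ := (2 * n - q) * (Real.pi / 3 + d) with hx
  have k1 : ee ((q : ℝ) / 2 * cd d) * ee (-(n : ℝ) * cd d) = ee x := by
    rw [← ee_add]; congr 1; rw [hx]; unfold cd; ring
  have k2 : ee ((q : ℝ) / 2 * cd d) * ee (((n - q : ℤ) : ℝ) * cd d) = ee (-x) := by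
    rw [← ee_add]; congr 1; rw [hx]; unfold cd; push_cast; ring
  have hp : fc (vv P) (n - q) = fc P (n - 1 - q) := by rw [fc_vv]; congr 1; ring
  have hE1 := fc_E1 h n
  have hE2 := fc_E2 h n
  have hk : Helper56.RC.KK d ρ (2 * n - q) = Real.cos (x + Real.pi / 3) * RR ρ (2 * n - q) := by
    unfold Helper56.RC.KK
    congr 2
    rw [hx]; push_cast; ring
  set p := fc P (n - 1 - q) with hpp
  set b := fc β (n - 1) with hbb
  by_cases hn : n = 1
  · rw [if_pos hn]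
    rw [if_pos hn] at hE1 hE2
    have e : (a : ℂ) * (z * ee ((q : ℝ) / 2 * cd d)) * p *
        (ee (-(n : ℝ) * cd d) * (starRingEnd ℂ) ((starRingEnd ℂ) om * b + om)
          - ee (((n - q : ℤ) : ℝ) * cd d) *
            (starRingEnd ℂ) ((starRingEnd ℂ) om ^ 2 * b + om ^ 2)) =
        (((2 * a) * Real.cos (x + Real.pi / 3) : ℝ) : ℂ) * ((starRingEnd ℂ) b * p * z) +
        (((2 * a) * Real.cos (x - Real.pi / 3) : ℝ) : ℂ) * (p * z) := by
      have h1 := br3 x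
      have h2 := br4 x
      rw [← k1, ← k2] at h1 h2
      simp only [map_add, map_mul, map_pow, Complex.conj_conj]
      push_cast at h1 h2 ⊢
      linear_combination ((a : ℂ) * z * p * (starRingEnd ℂ) b) * h1 +
        ((a : ℂ) * z * p) * h2
    rw [hp, hE1, hE2, e, Complex.add_im, Complex.im_ofReal_mul, Complex.im_ofReal_mul, hk]
    have e3 : x - Real.pi / 3 = Real.pi * (1 - q) / 3 + (2 - q) * d := by
      rw [hx, hn]; push_cast; ring
    have e4 : p = fc P (-q) := by rw [hpp, hn]; congr 1; ring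
    have e5 : 2 * n - q = 2 - q := by rw [hn]; ring
    rw [e3, e4, e5]
    ring
  · rw [if_neg hn]
    rw [if_neg hn, add_zero] at hE1 hE2
    have e : (a : ℂ) * (z * ee ((q : ℝ) / 2 * cd d)) * p *
        (ee (-(n : ℝ) * cd d) * (starRingEnd ℂ) ((starRingEnd ℂ) om * b)
          - ee (((n - q : ℤ) : ℝ) * cd d) *
            (starRingEnd ℂ) ((starRingEnd ℂ) om ^ 2 * b)) =
        (((2 * a) * Real.cos (x + Real.pi / 3) : ℝ) : ℂ) * ((starRingEnd ℂ) b * p * z) := by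
      have h1 := br3 x
      rw [← k1, ← k2] at h1
      simp only [map_mul, map_pow, Complex.conj_conj]
      push_cast at h1 ⊢
      linear_combination ((a : ℂ) * z * p * (starRingEnd ℂ) b) * h1
    rw [hp, hE1, hE2, e, Complex.im_ofReal_mul, hk]
    ring

/-- the two window sums give `TW` -/
theorem sum_TW (h : Adm β P) (d ρ : ℝ) {a : ℝ} (ha : a ≠ 0) (z : ℂ) (q : ℤ) {SP SM : ℝ}
    (hP : HasSum (fun n : ℤ => RR ρ (2 * n + q) * ((a : ℂ) * (z * ee ((q : ℝ) / 2 * cd d)) *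
      (starRingEnd ℂ) (fc (vv P) (n + q)) *
        (ee (-((n + q : ℤ) : ℝ) * cd d) * fc (E2 β) n - ee ((n : ℝ) * cd d) * fc (E1 β) n)).im) SP)
    (hM : HasSum (fun n : ℤ => RR ρ (2 * n - q) * ((a : ℂ) * (z * ee ((q : ℝ) / 2 * cd d)) *
      fc (vv P) (n - q) *
        (ee (-(n : ℝ) * cd d) * (starRingEnd ℂ) (fc (E1 β) n)
          - ee (((n - q : ℤ) : ℝ) * cd d) * (starRingEnd ℂ) (fc (E2 β) n))).im) SM) :
    1 / 2 * (SP + SM) = a * TW β P d ρ q z := by
  have hf := fam h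
  set L : ℝ := Real.cos (Real.pi * (1 + q) / 3 + (2 + q) * d) * RR ρ (2 + q) *
        ((starRingEnd ℂ) (fc P q) * z).im with hL
  set L' : ℝ := Real.cos (Real.pi * (1 - q) / 3 + (2 - q) * d) * RR ρ (2 - q) *
        (fc P (-q) * z).im with hL'
  have d1 := odd_sum hP fun n hn => by rw [hf.a0 hn, hf.b0 hn]; simp
  have d2 := odd_sum hM fun n hn => by rw [hf.a0 hn, hf.b0 hn]; simp
  have s1 : HasSum (fun j : ℤ => Helper56.RC.KK d ρ (2 * (2 * j + 1) + q) *
      (fc β (2 * j) * (starRingEnd ℂ) (fc P (2 * j + q)) * z).im) ((SP - -(2 * a) * L) * (-(1 / (2 * a)))) := by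
    have h1 := (d1.sub (hasSum_ite_eq (0 : ℤ) (-(2 * a) * L))).mul_right (-(1 / (2 * a)))
    refine hsR_cong h1 fun j => ?_
    rw [tP h]
    have e1 : (2 * j + 1 : ℤ) - 1 = 2 * j := by ring
    rw [e1]
    by_cases hj : j = 0
    · rw [if_pos (by omega), if_pos hj, ← hL]
      field_simp
      ring
    · rw [if_neg (by omega), if_neg hj]
      field_simp
      ring
  have s2 : HasSum (fun j : ℤ => Helper56.RC.KK d ρ (2 * (2 * j + 1) - q) *
      ((starRingEnd ℂ) (fc β (2 * j)) * fc P (2 * j - q) * z).im) ((SM - (2 * a) * L') * (1 / (2 * a))) := by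
    have h1 := (d2.sub (hasSum_ite_eq (0 : ℤ) ((2 * a) * L'))).mul_right (1 / (2 * a))
    refine hsR_cong h1 fun j => ?_
    rw [tM h]
    have e1 : (2 * j + 1 : ℤ) - 1 = 2 * j := by ring
    rw [e1]
    by_cases hj : j = 0
    · rw [if_pos (by omega), if_pos hj, ← hL']
      field_simp
      ring
    · rw [if_neg (by omega), if_neg hj]
      field_simp
      ring
  unfold TW
  rw [s1.tsum_eq, s2.tsum_eq, ← hL, ← hL']
  field_simp
  ring

/-- Module INT3. -/
theorem hINT3 (hQ : StQQ) : StInt3 := by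
  intro β P h hb1 d ρ z h0 h1 hz
  have hq : QQ (E1 β) (E2 β) (vv P) := by
    intro t s e1 e2 h1 h2
    rw [qq_eq, qq_eq]
    simp_rw [yy_eq]
    exact hQ (β t) (P t) (β s) (P s) t s (hb1 t) (h.reg t) e1 e2 h1 h2
  have hw := wc_cd h0 h1
  have hf := fam h
  obtain ⟨S1, S2, P3, M3, P9, M9, i1, i2, i3, i4, i5, i6, i7⟩ := win_gen hf hq hw
    (Et_bd hw.cos0 hz.le) (Es_bd hw.cos0 hz.le)
  -- the diagonal sum
  have o1 := nat_split (odd_sum i1 fun n hn => by rw [hf.a0 hn, hf.b0 hn]; simp)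
  have t1 : HasSum (fun k : ℕ => 4 * gam d ρ (2 * k + 3) / (2 * k + 3) * ‖uu β k‖ ^ 2
        - 4 * gam d ρ (-(2 * k + 1)) / (2 * k + 1) * ‖ww β k‖ ^ 2) (S1 - fd β (cd d) ρ 1) := by
    have o2 : HasSum (fun k : ℕ => fd β (cd d) ρ (2 * ((k : ℤ) + 1) + 1) +
        fd β (cd d) ρ (2 * (-((k : ℤ) + 1)) + 1)) (S1 - fd β (cd d) ρ (2 * 0 + 1)) := o1
    rw [mul_zero, zero_add] at o2
    rw [show (fun k : ℕ => 4 * gam d ρ (2 * k + 3) / (2 * k + 3) * ‖uu β k‖ ^ 2
        - 4 * gam d ρ (-(2 * k + 1)) / (2 * k + 1) * ‖ww β k‖ ^ 2) =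
        (fun k : ℕ => fd β (cd d) ρ (2 * ((k : ℤ) + 1) + 1) +
        fd β (cd d) ρ (2 * (-((k : ℤ) + 1)) + 1)) from ?_]
    · exact o2
    · funext k
      rw [fd_ne h d ρ (by omega), fd_ne h d ρ (by omega)]
      unfold uu ww
      have e1 : (2 * ((k : ℤ) + 1) + 1 : ℤ) = 2 * k + 3 := by ring
      have e2 : (2 * (-((k : ℤ) + 1)) + 1 : ℤ) = -(2 * k + 1) := by ring
      have e3 : (2 * (k : ℤ) + 3 - 1 : ℤ) = 2 * k + 2 := by ring
      have e4 : (-(2 * (k : ℤ) + 1) - 1 : ℤ) = -(2 * k + 2) := by ring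
      rw [e1, e2, e3, e4]
      push_cast
      rw [div_neg, neg_mul, ← sub_eq_add_neg]
  have o3 := nat_split (even_sum i2 fun n hn => by rw [hf.v0 hn]; simp)
  have t2 : HasSum (fun k : ℕ => 4 * sgm d ρ (2 * k + 2) / (2 * k + 2) *
      (‖cp P k‖ ^ 2 - ‖cm P (k + 1)‖ ^ 2)) S2 := by
    simp only [mul_zero, Int.cast_zero, div_zero, zero_mul, sub_zero] at o3
    rw [show (fun k : ℕ => 4 * sgm d ρ (2 * k + 2) / (2 * k + 2) *
      (‖cp P k‖ ^ 2 - ‖cm P (k + 1)‖ ^ 2)) = _ from ?_]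
    · exact o3
    · funext k
      unfold cp cm sgm
      rw [fc_vv, fc_vv]
      have e1 : (2 * ((k : ℤ) + 1) - 1 : ℤ) = 2 * k + 1 := by ring
      have e2 : (2 * (-((k : ℤ) + 1)) - 1 : ℤ) = -(2 * ((k + 1 : ℕ) : ℤ) + 1) := by push_cast; ring
      rw [e1, e2]
      have g1 : Real.cos (((2 * ((k : ℤ) + 1) : ℤ) : ℝ) * cd d) =
          Real.cos (2 * ((2 * (k : ℤ) + 2 : ℤ) : ℝ) * (Real.pi / 3 + d)) := by
        rw [← Real.cos_neg]
        congr 1
        unfold cd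
        push_cast
        ring
      have g2 : Real.cos (((2 * (-((k : ℤ) + 1)) : ℤ) : ℝ) * cd d) =
          Real.cos (2 * ((2 * (k : ℤ) + 2 : ℤ) : ℝ) * (Real.pi / 3 + d)) := by
        congr 1
        unfold cd
        push_cast
        ring
      have g3 : Real.cos (((2 * (-((k : ℤ) + 1)) : ℤ) : ℝ) * ρ) =
          Real.cos (((2 * ((k : ℤ) + 1) : ℤ) : ℝ) * ρ) := by
        rw [← Real.cos_neg]
        congr 1
        push_cast
        ring
      have g4 : ((2 * ((k : ℤ) + 1) : ℤ) : ℝ) = ((2 * (k : ℤ) + 2 : ℤ) : ℝ) := by push_cast; ring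
      rw [g1, g2, g3, g4]
      push_cast
      have hk : (2 * (k : ℝ) + 2) ≠ 0 := by positivity
      have hk' : (2 * -((k : ℝ) + 1)) ≠ 0 := by
        have : (0 : ℝ) ≤ k := Nat.cast_nonneg k
        nlinarith
      field_simp
      ring
  have t3 := sum_TW h d ρ (a := 11 / 10) (by norm_num) z 3 (SP := P3) (SM := M3)
    (hsR_cong i3 fun n => by
      unfold C3
      push_cast
      rfl)
    (hsR_cong i4 fun n => by
      unfold C3
      push_cast
      rfl)
  have e9 : C9 (cd d) z = ((-(1 / 10) : ℝ) : ℂ) * (z ^ 3 * ee (((9 : ℤ) : ℝ) / 2 * cd d)) := by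
    unfold C9
    have : ee (((9 : ℤ) : ℝ) / 2 * cd d) = ee (3 / 2 * cd d) ^ 3 := by
      rw [← ee_pow3]; congr 1; push_cast; ring
    rw [this]
    push_cast
    ring
  have t4 := sum_TW h d ρ (a := -(1 / 10)) (by norm_num) (z ^ 3) 9 (SP := P9) (SM := M9)
    (hsR_cong i5 fun n => by rw [e9])
    (hsR_cong i6 fun n => by rw [e9])
  have hI : IQ β P d ρ = S1 + S2 := by
    unfold IQ
    rw [t1.tsum_eq, t2.tsum_eq, fd_one h]
    ring
  unfold AQQ
  simp_rw [← qq_eq]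
  refine le_trans (le_of_eq ?_) i7
  rw [hI]
  linarith

end Helper87.RC
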