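import Pool.Agent.Helper56.RC.StF
import Pool.Agent.Helper87.RC.M_INT3

/-!
# Project RC: module LBT, the master inequality of the certificate
-/

open MeasureTheory Set Filter Metric

namespace Helper87.RC

open Helper49.LT hiding sg gam
open Helper49.RC Helper44.RC
open Helper56.RC (fc RR gam sgm IQ TW b1 uu ww cp cm HH GG SS sN s0 chu chw FSc F1c gg QB
  StC00 StC0N StDel StCoe2 StS2m StInt3 StLbt)

variable {β P : ℝ → ℂ}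

theorem uw_sum (h : Adm β P) : (Summable fun k : ℕ => ‖uu β k‖ ^ 2) ∧
    Summable fun k : ℕ => ‖ww β k‖ ^ 2 := by
  have hs := (pars (Adm.Bb h)).summable
  constructor
  · have inj : Function.Injective fun k : ℕ => 2 * (k : ℤ) + 2 := fun a b hab => by
      have : 2 * (a : ℤ) + 2 = 2 * (b : ℤ) + 2 := hab
      omega
    exact hs.comp_injective inj
  · have inj : Function.Injective fun k : ℕ => -(2 * (k : ℤ) + 2) := fun a b hab => by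
      have : -(2 * (a : ℤ) + 2) = -(2 * (b : ℤ) + 2) := hab
      omega
    exact hs.comp_injective inj

theorem re_conj_le (c s : ℂ) : |(c * (starRingEnd ℂ) s).re| ≤ ‖c‖ * ‖s‖ := by
  refine (Complex.abs_re_le_norm _).trans ?_
  rw [norm_mul, Complex.norm_conj]

/-- weighted bound of the coefficient -/
theorem cf_le (k : ℕ) (u w : ℂ) {a b A : ℝ} (ha : |a| ≤ A) (hb : |b| ≤ A) :
    ((2 * (k : ℝ) + 2) ^ 2 - 1) * ‖((a / (2 * k + 3) : ℝ) : ℂ) * u -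
      ((b / (2 * k + 1) : ℝ) : ℂ) * (starRingEnd ℂ) w‖ ^ 2 ≤ 6 * A ^ 2 * (‖u‖ ^ 2 + ‖w‖ ^ 2) := by
  have hk : (0 : ℝ) ≤ k := Nat.cast_nonneg k
  have h1 : ‖((a / (2 * k + 3) : ℝ) : ℂ) * u - ((b / (2 * k + 1) : ℝ) : ℂ) * (starRingEnd ℂ) w‖ ≤
      |a| / (2 * k + 3) * ‖u‖ + |b| / (2 * k + 1) * ‖w‖ := by
    refine (norm_sub_le _ _).trans (le_of_eq ?_)
    rw [norm_mul, norm_mul, Complex.norm_real, Complex.norm_real, Complex.norm_conj, Real.norm_eq_abs,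
      Real.norm_eq_abs, abs_div, abs_div, abs_of_pos (by positivity : (0 : ℝ) < 2 * k + 3),
      abs_of_pos (by positivity : (0 : ℝ) < 2 * k + 1)]
  have hA : 0 ≤ A := (abs_nonneg a).trans ha
  have h2 : |a| / (2 * k + 3) * ‖u‖ + |b| / (2 * k + 1) * ‖w‖ ≤
      A / (2 * k + 3) * ‖u‖ + A / (2 * k + 1) * ‖w‖ := by
    gcongr
  have h3 := pow_le_pow_left₀ (norm_nonneg _) (h1.trans h2) 2
  have e1 : (2 * (k : ℝ) + 2) ^ 2 - 1 = (2 * k + 3) * (2 * k + 1) := by ring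
  rw [e1]
  have h4 := mul_le_mul_of_nonneg_left h3 (by positivity : 0 ≤ (2 * (k : ℝ) + 3) * (2 * k + 1))
  refine h4.trans ?_
  have h5 : (A / (2 * k + 3) * ‖u‖ + A / (2 * k + 1) * ‖w‖) ^ 2 ≤
      2 * ((A / (2 * k + 3) * ‖u‖) ^ 2 + (A / (2 * k + 1) * ‖w‖) ^ 2) := by
    nlinarith [sq_nonneg (A / (2 * k + 3) * ‖u‖ - A / (2 * k + 1) * ‖w‖)]
  have h6 := mul_le_mul_of_nonneg_left h5 (by positivity : 0 ≤ (2 * (k : ℝ) + 3) * (2 * k + 1))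
  refine h6.trans ?_
  have e2 : (2 * (k : ℝ) + 3) * (2 * k + 1) * (2 * ((A / (2 * k + 3) * ‖u‖) ^ 2 +
      (A / (2 * k + 1) * ‖w‖) ^ 2)) = 2 * A ^ 2 * ((2 * k + 1) / (2 * k + 3) * ‖u‖ ^ 2 +
      (2 * k + 3) / (2 * k + 1) * ‖w‖ ^ 2) := by
    field_simp
  rw [e2]
  have h7 : (2 * (k : ℝ) + 1) / (2 * k + 3) ≤ 3 := by
    rw [div_le_iff₀ (by positivity)]; linarith
  have h8 : (2 * (k : ℝ) + 3) / (2 * k + 1) ≤ 3 := by
    rw [div_le_iff₀ (by positivity)]; linarith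
  have h9 := mul_le_mul_of_nonneg_right h7 (sq_nonneg ‖u‖)
  have h10 := mul_le_mul_of_nonneg_right h8 (sq_nonneg ‖w‖)
  nlinarith [sq_nonneg A]

/-- summability of the pairings with the moments -/
theorem pr_sum (h : Adm β P) {a b : ℕ → ℝ} {A : ℝ} (ha : ∀ k, |a k| ≤ A) (hb : ∀ k, |b k| ≤ A)
    {s : ℕ → ℂ} (hs : Summable fun k : ℕ => ‖s k‖ ^ 2 / ((2 * (k : ℝ) + 2) ^ 2 - 1)) :
    Summable fun k : ℕ => ((((a k / (2 * k + 3) : ℝ) : ℂ) * uu β k -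
      ((b k / (2 * k + 1) : ℝ) : ℂ) * (starRingEnd ℂ) (ww β k)) * (starRingEnd ℂ) (s k)).re := by
  obtain ⟨h1, h2⟩ := uw_sum h
  have h3 := ((h1.add h2).mul_left (6 * A ^ 2)).add hs
  refine Summable.of_norm_bounded h3 fun k => ?_
  rw [Real.norm_eq_abs]
  refine (re_conj_le _ _).trans ?_
  have h4 := cf_le k (uu β k) (ww β k) (ha k) (hb k)
  set c := ‖((a k / (2 * k + 3) : ℝ) : ℂ) * uu β k -
      ((b k / (2 * k + 1) : ℝ) : ℂ) * (starRingEnd ℂ) (ww β k)‖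
  have hk : (0 : ℝ) ≤ k := Nat.cast_nonneg k
  have hL : (0 : ℝ) < (2 * (k : ℝ) + 2) ^ 2 - 1 := by nlinarith
  set L := (2 * (k : ℝ) + 2) ^ 2 - 1
  have h5 : c * ‖s k‖ ≤ L * c ^ 2 + ‖s k‖ ^ 2 / L := by
    have h6 : 0 ≤ (L * c - ‖s k‖) ^ 2 / L := by positivity
    have h7 : (L * c - ‖s k‖) ^ 2 / L = L * c ^ 2 - 2 * (c * ‖s k‖) + ‖s k‖ ^ 2 / L := by
      field_simp
      ring
    have h8 : 0 ≤ c * ‖s k‖ := by positivity
    linarith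
  exact h5.trans (by linarith)

theorem chu_le (k : ℕ) : |chu k| ≤ 2 := by
  unfold chu
  split_ifs <;> norm_num

theorem chw_le (k : ℕ) : |chw k| ≤ 2 := by
  unfold chw
  split_ifs <;> norm_num

theorem HH_eq (k : ℕ) : HH β k = (((1 : ℝ) / (2 * k + 3) : ℝ) : ℂ) * uu β k -
      (((1 : ℝ) / (2 * k + 1) : ℝ) : ℂ) * (starRingEnd ℂ) (ww β k) := by
  unfold HH
  push_cast
  ring

theorem GG_eq (k : ℕ) : GG β k = (((chu k / 2) / (2 * k + 3) : ℝ) : ℂ) * uu β k -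
      (((chw k / 2) / (2 * k + 1) : ℝ) : ℂ) * (starRingEnd ℂ) (ww β k) := by
  unfold GG
  push_cast
  ring

/-- the coefficient of the moment -/
noncomputable def cc (β : ℝ → ℂ) (μ ν : ℝ) (k : ℕ) : ℂ :=
  (((gg μ k + ν * chu k) / (2 * k + 3) : ℝ) : ℂ) * uu β k
          - (((gg μ k + ν * chw k) / (2 * k + 1) : ℝ) : ℂ) * (starRingEnd ℂ) (ww β k)

theorem cc_eq (μ ν : ℝ) (k : ℕ) : cc β μ ν k = ((gg μ k : ℝ) : ℂ) * HH β k + ((2 * ν : ℝ) : ℂ) * GG β k := by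
  rw [HH_eq, GG_eq]
  unfold cc
  push_cast
  ring

/-- the second part of the block -/
noncomputable def Q2 (β : ℝ → ℂ) (μ ν : ℝ) (k : ℕ) : ℝ :=
  if k = 0 then
      2 / 3 * ‖(3 / 2 : ℂ) * (starRingEnd ℂ) (ww β k) - (1 / 2 : ℂ) * uu β k‖ ^ 2
      - 3 / (8 * (1 + ν)) * ‖(((gg μ 0 - ν - 2) / 3 : ℝ) : ℂ) * uu β k
          + ((2 - gg μ 0 - 2 * ν : ℝ) : ℂ) * (starRingEnd ℂ) (ww β k)‖ ^ 2
    else - (((2 * (k : ℝ) + 2) ^ 2 - 1) / (8 * ν)) * ‖cc β μ ν k‖ ^ 2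

/-- the first part -/
noncomputable def Q1 (β : ℝ → ℂ) (μ d ρ : ℝ) (k : ℕ) : ℝ :=
  (1 / (2 * k + 3) + (1 - μ) * (4 * gam d ρ (2 * k + 3) / (2 * k + 3))) * ‖uu β k‖ ^ 2
  - (1 / (2 * k + 1) + (1 - μ) * (4 * gam d ρ (-(2 * k + 1)) / (2 * k + 1))) * ‖ww β k‖ ^ 2

theorem QB_eq (μ ν d ρ : ℝ) (k : ℕ) : QB μ ν d ρ k (uu β k) (ww β k) = Q1 β μ d ρ k + Q2 β μ ν k := by
  unfold QB Q1 Q2 cc
  rfl

/-- completing the square, `k ≥ 1` -/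
theorem sq1 {A : ℝ} (hA : 0 < A) (c s : ℂ) :
    -(1 / (4 * A)) * ‖c‖ ^ 2 ≤ (c * (starRingEnd ℂ) s).re + A * ‖s‖ ^ 2 := by
  have h1 := re_conj_le c s
  have h2 := neg_le_of_abs_le h1
  have h3 : 0 ≤ (1 / (4 * A)) * (‖c‖ - 2 * A * ‖s‖) ^ 2 := by positivity
  have h4 : (1 / (4 * A)) * (‖c‖ - 2 * A * ‖s‖) ^ 2 =
      (1 / (4 * A)) * ‖c‖ ^ 2 - ‖c‖ * ‖s‖ + A * ‖s‖ ^ 2 := by
    field_simp
    ring
  linarith

theorem nsq (z : ℂ) : ‖z‖ ^ 2 = z.re ^ 2 + z.im ^ 2 := by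
  rw [Complex.sq_norm, Complex.normSq_apply]; ring

/-- completing the square, `k = 0` -/
theorem sq0a {ν : ℝ} (hν : 0 < ν) (c s z : ℂ) :
    2 / 3 * ‖z‖ ^ 2 - 3 / (8 * (1 + ν)) * ‖c + ((4 / 3 : ℝ) : ℂ) * z‖ ^ 2 ≤
      2 / 3 * ‖z + s‖ ^ 2 + (c * (starRingEnd ℂ) s).re + 2 * ν / 3 * ‖s‖ ^ 2 := by
  have h : 0 ≤ 2 / 3 * (1 + ν) * ‖s + ((3 / (4 * (1 + ν)) : ℝ) : ℂ) * (c + ((4 / 3 : ℝ) : ℂ) * z)‖ ^ 2 := by
    positivity
  have hn : (1 + ν) ≠ 0 := by positivity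
  have e : 2 / 3 * (1 + ν) * ‖s + ((3 / (4 * (1 + ν)) : ℝ) : ℂ) * (c + ((4 / 3 : ℝ) : ℂ) * z)‖ ^ 2 =
      2 / 3 * ‖z + s‖ ^ 2 + (c * (starRingEnd ℂ) s).re + 2 * ν / 3 * ‖s‖ ^ 2 -
      (2 / 3 * ‖z‖ ^ 2 - 3 / (8 * (1 + ν)) * ‖c + ((4 / 3 : ℝ) : ℂ) * z‖ ^ 2) := by
    simp only [nsq, Complex.add_re, Complex.add_im, Complex.mul_re, Complex.mul_im, Complex.ofReal_re,
      Complex.ofReal_im, Complex.conj_re, Complex.conj_im, zero_mul, sub_zero, add_zero, zero_add]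
    field_simp
    ring
  linarith

theorem sq0b {ν : ℝ} (hν : 0 < ν) (c z L : ℂ) :
    2 / 3 * ‖L‖ ^ 2 - 3 / (8 * (1 + ν)) * ‖c + ((4 / 3 : ℝ) : ℂ) * L‖ ^ 2
      - 1 / (1 + ν) * (‖c - ((4 * ν / 3 : ℝ) : ℂ) * L‖ * ‖z - L‖) ≤
    2 / 3 * ‖z‖ ^ 2 - 3 / (8 * (1 + ν)) * ‖c + ((4 / 3 : ℝ) : ℂ) * z‖ ^ 2 := by
  have hn : (1 + ν) ≠ 0 := by positivity
  have h1 := re_conj_le (c - ((4 * ν / 3 : ℝ) : ℂ) * L) (z - L)
  have h2 := (le_abs_self _).trans h1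
  have e : 2 / 3 * ‖z‖ ^ 2 - 3 / (8 * (1 + ν)) * ‖c + ((4 / 3 : ℝ) : ℂ) * z‖ ^ 2 =
      2 / 3 * ‖L‖ ^ 2 - 3 / (8 * (1 + ν)) * ‖c + ((4 / 3 : ℝ) : ℂ) * L‖ ^ 2
      - 1 / (1 + ν) * ((c - ((4 * ν / 3 : ℝ) : ℂ) * L) * (starRingEnd ℂ) (z - L)).re
      + 2 * ν / (3 * (1 + ν)) * ‖z - L‖ ^ 2 := by
    simp only [nsq, Complex.add_re, Complex.add_im, Complex.sub_re, Complex.sub_im, Complex.mul_re,
      Complex.mul_im, Complex.ofReal_re, Complex.ofReal_im, map_sub, Complex.conj_re, Complex.conj_im,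
      zero_mul, sub_zero, add_zero, zero_add]
    field_simp
    ring
  rw [e]
  have h3 : 0 ≤ 2 * ν / (3 * (1 + ν)) * ‖z - L‖ ^ 2 := by positivity
  have h4 := mul_le_mul_of_nonneg_left h2 (by positivity : 0 ≤ 1 / (1 + ν))
  linarith

/-- summability of the blocks -/
theorem Q1_sum (h : Adm β P) (μ d ρ : ℝ) : Summable (Q1 β μ d ρ) := by
  obtain ⟨h1, h2⟩ := uw_sum h
  refine Summable.of_norm_bounded ((h1.add h2).mul_left (1 + |1 - μ| * 4)) fun k => ?_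
  have hk : (0 : ℝ) ≤ k := Nat.cast_nonneg k
  have hg : ∀ n : ℤ, |gam d ρ n| ≤ 1 := by
    intro n
    unfold gam
    have a1 := Real.abs_cos_le_one (2 * Real.pi * (n + 1) / 3 + 2 * n * d)
    have a2 := Real.abs_cos_le_one (n * ρ)
    have a3 : |Real.cos (2 * Real.pi * (n + 1) / 3 + 2 * n * d) * Real.cos (n * ρ)| ≤ 1 := by
      rw [abs_mul]; exact mul_le_one₀ a1 (abs_nonneg _) a2
    rw [abs_le] at a3 ⊢
    constructor <;> nlinarith [a3.1, a3.2]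
  have cf : ∀ (n : ℤ) (x : ℝ), 1 ≤ x → |1 / x + (1 - μ) * (4 * gam d ρ n / x)| ≤ 1 + |1 - μ| * 4 := by
    intro n x hx
    have hx0 : 0 < x := by linarith
    refine (abs_add_le _ _).trans ?_
    have b1 : |1 / x| ≤ 1 := by
      rw [abs_of_pos (by positivity), div_le_one hx0]; exact hx
    have b2 : |4 * gam d ρ n / x| ≤ 4 := by
      rw [abs_div, abs_of_pos hx0, div_le_iff₀ hx0, abs_mul, abs_of_pos (by norm_num : (0 : ℝ) < 4)]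
      nlinarith [hg n]
    rw [abs_mul]
    exact add_le_add b1 (mul_le_mul_of_nonneg_left b2 (abs_nonneg _))
  have c1 := cf (2 * (k : ℤ) + 3) (2 * k + 3) (by linarith)
  have c2 := cf (-(2 * (k : ℤ) + 1)) (2 * k + 1) (by linarith)
  unfold Q1
  rw [Real.norm_eq_abs]
  refine (abs_sub _ _).trans ?_
  rw [abs_mul, abs_mul, abs_of_nonneg (sq_nonneg ‖uu β k‖), abs_of_nonneg (sq_nonneg ‖ww β k‖)]
  have d1 := mul_le_mul_of_nonneg_right c1 (sq_nonneg ‖uu β k‖)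
  have d2 := mul_le_mul_of_nonneg_right c2 (sq_nonneg ‖ww β k‖)
  linarith

theorem gg_le {μ : ℝ} (h0 : 0 ≤ μ) (h1 : μ ≤ 1) (k : ℕ) : |gg μ k| ≤ 4 := by
  unfold gg
  have hs : Real.sqrt 3 ≤ 2 := by
    rw [Real.sqrt_le_left (by norm_num)]; norm_num
  have hs0 := Real.sqrt_nonneg 3
  have h2 : |μ * Real.sqrt 3 * (-1) ^ (k + 1)| ≤ 2 := by
    rw [abs_mul, abs_pow, abs_neg, abs_one, one_pow, mul_one, abs_of_nonneg (by positivity)]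
    nlinarith
  rw [abs_le] at h2 ⊢
  constructor <;> linarith [h2.1, h2.2]

theorem cf1_le {μ ν : ℝ} (h0 : 0 ≤ μ) (h1 : μ ≤ 1) (hν : 0 < ν) (k : ℕ) :
    |gg μ k + ν * chu k| ≤ 4 + ν * 2 := by
  refine (abs_add_le _ _).trans (add_le_add (gg_le h0 h1 k) ?_)
  rw [abs_mul, abs_of_pos hν]
  exact mul_le_mul_of_nonneg_left (chu_le k) hν.le

theorem cf2_le {μ ν : ℝ} (h0 : 0 ≤ μ) (h1 : μ ≤ 1) (hν : 0 < ν) (k : ℕ) :
    |gg μ k + ν * chw k| ≤ 4 + ν * 2 := by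
  refine (abs_add_le _ _).trans (add_le_add (gg_le h0 h1 k) ?_)
  rw [abs_mul, abs_of_pos hν]
  exact mul_le_mul_of_nonneg_left (chw_le k) hν.le

theorem Q2_sum (h : Adm β P) {μ ν : ℝ} (h0 : 0 ≤ μ) (h1 : μ ≤ 1) (hν : 0 < ν) :
    Summable (Q2 β μ ν) := by
  obtain ⟨s1, s2⟩ := uw_sum h
  rw [← summable_nat_add_iff 1]
  have s3 := ((summable_nat_add_iff 1).2 s1).add ((summable_nat_add_iff 1).2 s2)
  refine Summable.of_norm_bounded (s3.mul_left (1 / (8 * ν) * (6 * (4 + ν * 2) ^ 2))) fun k => ?_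
  unfold Q2
  rw [if_neg (by omega)]
  have hk : (0 : ℝ) ≤ ((k + 1 : ℕ) : ℝ) := Nat.cast_nonneg _
  have h4 := cf_le (k + 1) (uu β (k + 1)) (ww β (k + 1)) (cf1_le h0 h1 hν (k + 1))
    (cf2_le h0 h1 hν (k + 1))
  have hL : (0 : ℝ) ≤ (2 * ((k + 1 : ℕ) : ℝ) + 2) ^ 2 - 1 := by nlinarith
  rw [Real.norm_eq_abs, abs_mul, abs_neg, abs_of_nonneg (by positivity),
    abs_of_nonneg (sq_nonneg ‖cc β μ ν (k + 1)‖)]
  have e : ((2 * ((k + 1 : ℕ) : ℝ) + 2) ^ 2 - 1) / (8 * ν) * ‖cc β μ ν (k + 1)‖ ^ 2 =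
      1 / (8 * ν) * (((2 * ((k + 1 : ℕ) : ℝ) + 2) ^ 2 - 1) * ‖cc β μ ν (k + 1)‖ ^ 2) := by ring
  rw [e, mul_assoc]
  exact mul_le_mul_of_nonneg_left h4 (by positivity)

theorem hsN_cong {f g : ℕ → ℝ} {a : ℝ} (h : HasSum f a) (e : ∀ n, g n = f n) : HasSum g a := by
  rw [show g = f from funext e]
  exact h

/-- Module LBT. -/
theorem hLBT (h₁ : StSpl) (h₂ : StC00) (h₃ : StC0N) (h₄ : StDel) (h₅ : StCoe2) (h₆ : StS2m)
    (h₇ : StInt3) : StLbt := by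
  intro β P h hb μ ν d ρ z hμ0 hμ1 hν hρ hdρ hz
  have g1 := h₁ β P h
  have g2 := h₂ β P h hb
  obtain ⟨g3s, g3⟩ := h₃ β P h hb
  obtain ⟨g4s, g4⟩ := h₄ β P h hb
  have g5 := h₅ β P h hb
  obtain ⟨g6, g6'⟩ := h₆ β P h hb
  have g7 := h₇ β P h hb d ρ z hρ hdρ hz
  set s : ℕ → ℂ := fun k => sN β P (2 * k + 2) with hs
  -- the summable families
  have q1 := Q1_sum h μ d ρ
  have q2 := Q2_sum h hμ0 hμ1 hν
  have hQB : (fun k : ℕ => QB μ ν d ρ k (uu β k) (ww β k)) = fun k => Q1 β μ d ρ k + Q2 β μ ν k :=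
    funext fun k => QB_eq μ ν d ρ k
  have sH : Summable fun k : ℕ => (HH β k * (starRingEnd ℂ) (s k)).re := by
    have := pr_sum h (a := fun _ => 1) (b := fun _ => 1) (A := 1) (fun _ => by simp) (fun _ => by simp) g4s
    refine this.congr fun k => ?_
    rw [HH_eq]
  have sG : Summable fun k : ℕ => (GG β k * (starRingEnd ℂ) (s k)).re := by
    have := pr_sum h (a := fun k => chu k / 2) (b := fun k => chw k / 2) (A := 1)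
      (fun k => by rw [abs_div, abs_of_pos (by norm_num : (0 : ℝ) < 2)]; linarith [chu_le k])
      (fun k => by rw [abs_div, abs_of_pos (by norm_num : (0 : ℝ) < 2)]; linarith [chw_le k]) g4s
    refine this.congr fun k => ?_
    rw [GG_eq]
  have sHm : Summable fun k : ℕ => (-1 : ℝ) ^ (k + 1) * (HH β k * (starRingEnd ℂ) (s k)).re := by
    refine Summable.of_norm_bounded sH.abs fun k => ?_
    rw [Real.norm_eq_abs, abs_mul, abs_pow, abs_neg, abs_one, one_pow, one_mul]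
  -- the sum of the moment terms
  set t : ℕ → ℝ := fun k => (cc β μ ν k * (starRingEnd ℂ) (s k)).re
    + 2 * ν / ((2 * (k : ℝ) + 2) ^ 2 - 1) * ‖s k‖ ^ 2 with ht
  have tsum : HasSum t (2 * (∑' k : ℕ, (HH β k * (starRingEnd ℂ) (s k)).re)
      - μ * Real.sqrt 3 * (∑' k : ℕ, (-1 : ℝ) ^ (k + 1) * (HH β k * (starRingEnd ℂ) (s k)).re)
      + 2 * ν * (∑' k : ℕ, (GG β k * (starRingEnd ℂ) (s k)).re)
      + 2 * ν * (∑' k : ℕ, ‖s k‖ ^ 2 / ((2 * (k : ℝ) + 2) ^ 2 - 1))) := by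
    have h1 := (((sH.hasSum.mul_left 2).sub (sHm.hasSum.mul_left (μ * Real.sqrt 3))).add
      (sG.hasSum.mul_left (2 * ν))).add (g4s.hasSum.mul_left (2 * ν))
    refine hsN_cong h1 fun k => ?_
    rw [ht]
    show (cc β μ ν k * (starRingEnd ℂ) (s k)).re + 2 * ν / ((2 * (k : ℝ) + 2) ^ 2 - 1) * ‖s k‖ ^ 2 = _
    rw [cc_eq, add_mul, Complex.add_re, mul_assoc, mul_assoc, Complex.re_ofReal_mul,
      Complex.re_ofReal_mul]
    unfold gg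
    ring
  -- lower bound
  have hk1 : ∀ k : ℕ, Q2 β μ ν (k + 1) ≤ t (k + 1) := by
    intro k
    have hk : (0 : ℝ) ≤ ((k + 1 : ℕ) : ℝ) := Nat.cast_nonneg _
    have hL : (0 : ℝ) < (2 * ((k + 1 : ℕ) : ℝ) + 2) ^ 2 - 1 := by nlinarith
    have h1 := sq1 (A := 2 * ν / ((2 * ((k + 1 : ℕ) : ℝ) + 2) ^ 2 - 1)) (by positivity)
      (cc β μ ν (k + 1)) (s (k + 1))
    unfold Q2
    rw [if_neg (by omega)]
    refine le_trans (le_of_eq ?_) h1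
    congr 1
    field_simp
    ring
  set C3 := 3 / (2 * (1 + ν)) * mB β * ‖((gg μ 0 + 4 * ν : ℝ) : ℂ) * (starRingEnd ℂ) (ww β 0)
        - (((gg μ 0 + ν) / 3 : ℝ) : ℂ) * uu β 0‖ with hC3
  have hk0 : Q2 β μ ν 0 - C3 ≤ 2 / 3 * ‖sg β P 2‖ ^ 2 + t 0 := by
    set L : ℂ := (3 / 2 : ℂ) * (starRingEnd ℂ) (ww β 0) - (1 / 2 : ℂ) * uu β 0 with hL
    have a1 := sq0a hν (cc β μ ν 0) (s 0) (s0 β 2)
    have a2 := sq0b hν (cc β μ ν 0) (s0 β 2) L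
    have a3 : s0 β 2 + s 0 = sg β P 2 := by rw [g6']
    have c0 : cc β μ ν 0 = (((gg μ 0 - ν) / 3 : ℝ) : ℂ) * uu β 0 -
        ((gg μ 0 + 2 * ν : ℝ) : ℂ) * (starRingEnd ℂ) (ww β 0) := by
      unfold cc chu chw
      simp only [Nat.cast_zero, mul_zero, zero_add, Nat.zero_mod, if_true]
      norm_num
      ring
    have e1 : cc β μ ν 0 + ((4 / 3 : ℝ) : ℂ) * L = (((gg μ 0 - ν - 2) / 3 : ℝ) : ℂ) * uu β 0
          + ((2 - gg μ 0 - 2 * ν : ℝ) : ℂ) * (starRingEnd ℂ) (ww β 0) := by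
      rw [c0, hL]
      push_cast
      ring
    have e2 : cc β μ ν 0 - ((4 * ν / 3 : ℝ) : ℂ) * L =
        -(((gg μ 0 + 4 * ν : ℝ) : ℂ) * (starRingEnd ℂ) (ww β 0)
        - (((gg μ 0 + ν) / 3 : ℝ) : ℂ) * uu β 0) := by
      rw [c0, hL]
      push_cast
      ring
    rw [e1, e2, norm_neg] at a2
    rw [a3] at a1
    have q20 : Q2 β μ ν 0 = 2 / 3 * ‖L‖ ^ 2 - 3 / (8 * (1 + ν)) * ‖(((gg μ 0 - ν - 2) / 3 : ℝ) : ℂ) * uu β 0
          + ((2 - gg μ 0 - 2 * ν : ℝ) : ℂ) * (starRingEnd ℂ) (ww β 0)‖ ^ 2 := by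
      unfold Q2
      rw [if_pos rfl]
    have t0 : t 0 = (cc β μ ν 0 * (starRingEnd ℂ) (s 0)).re + 2 * ν / 3 * ‖s 0‖ ^ 2 := by
      rw [ht]
      norm_num
    have b1 : 1 / (1 + ν) * (‖((gg μ 0 + 4 * ν : ℝ) : ℂ) * (starRingEnd ℂ) (ww β 0)
        - (((gg μ 0 + ν) / 3 : ℝ) : ℂ) * uu β 0‖ * ‖s0 β 2 - L‖) ≤ C3 := by
      have b2 : ‖((gg μ 0 + 4 * ν : ℝ) : ℂ) * (starRingEnd ℂ) (ww β 0)
        - (((gg μ 0 + ν) / 3 : ℝ) : ℂ) * uu β 0‖ * ‖s0 β 2 - L‖ ≤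
        ‖((gg μ 0 + 4 * ν : ℝ) : ℂ) * (starRingEnd ℂ) (ww β 0)
        - (((gg μ 0 + ν) / 3 : ℝ) : ℂ) * uu β 0‖ * (3 / 2 * mB β) :=
        mul_le_mul_of_nonneg_left g6 (norm_nonneg _)
      refine (mul_le_mul_of_nonneg_left b2 (by positivity)).trans (le_of_eq ?_)
      rw [hC3]
      field_simp
    rw [q20, t0]
    linarith
  have hlow : (∑' k : ℕ, Q2 β μ ν k) - C3 ≤ 2 / 3 * ‖sg β P 2‖ ^ 2 + ∑' k : ℕ, t k := by
    rw [q2.tsum_eq_zero_add, tsum.summable.tsum_eq_zero_add]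
    have := Summable.tsum_le_tsum hk1 ((summable_nat_add_iff 1).2 q2)
      ((summable_nat_add_iff 1).2 tsum.summable)
    linarith
  rw [tsum.tsum_eq] at hlow
  -- the first part
  obtain ⟨u1, w1⟩ := uw_sum h
  have hQ1 : ∑' k : ℕ, Q1 β μ d ρ k = (∑' k : ℕ, (‖uu β k‖ ^ 2 / (2 * k + 3) - ‖ww β k‖ ^ 2 / (2 * k + 1)))
      + (1 - μ) * ∑' k : ℕ, (4 * gam d ρ (2 * k + 3) / (2 * k + 3) * ‖uu β k‖ ^ 2
        - 4 * gam d ρ (-(2 * k + 1)) / (2 * k + 1) * ‖ww β k‖ ^ 2) := by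
    have a1 := Q1_sum h 1 d ρ
    have a2 := (Q1_sum h 0 d ρ).sub a1
    have e1 : (fun k : ℕ => ‖uu β k‖ ^ 2 / (2 * k + 3) - ‖ww β k‖ ^ 2 / (2 * k + 1)) = Q1 β 1 d ρ := by
      funext k
      unfold Q1
      ring
    have e2 : (fun k : ℕ => 4 * gam d ρ (2 * k + 3) / (2 * k + 3) * ‖uu β k‖ ^ 2
        - 4 * gam d ρ (-(2 * k + 1)) / (2 * k + 1) * ‖ww β k‖ ^ 2) =
        fun k : ℕ => Q1 β 0 d ρ k - Q1 β 1 d ρ k := by
      funext k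
      unfold Q1
      ring
    rw [e1, e2]
    have h3 := a1.hasSum.add (a2.hasSum.mul_left (1 - μ))
    rw [← h3.tsum_eq]
    congr 1
    funext k
    unfold Q1
    ring
  refine ⟨by rw [hQB]; exact q1.add q2, ?_⟩
  rw [hQB, q1.tsum_add q2, hQ1]
  have hS : (sN β P 0).re = 2 + SS β P - b1 β := by unfold SS; ring
  rw [hS] at g3 g4 g5
  unfold IQ at g7
  have i7 := mul_le_mul_of_nonneg_left g7 (by linarith : 0 ≤ 1 - μ)
  have i5 := mul_le_mul_of_nonneg_left g5 hμ0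
  have i4 := mul_nonneg hν.le g4
  rw [g1]
  unfold FSc F1c
  simp only [hs] at g3 g4s g5 i5 i4 hlow
  linarith

end Helper87.RC
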