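import Pool.Agent.Helper87.RC.M_KRN

/-!
# Project RC: selection with a window
-/

open MeasureTheory Set Filter Metric

namespace Helper87.RC

open Helper49.LT hiding sg
open Helper56.RC (fc RR)

/-- jointly measurable bounded complex functions of two variables -/
structure JM (F : ℝ → ℝ → ℂ) (C : ℝ) : Prop where
  m : Measurable (Function.uncurry F)
  b : ∀ s t, ‖F s t‖ ≤ C

section

variable {F G : ℝ → ℝ → ℂ} {C D : ℝ}

theorem JM.C0 (h : JM F C) : 0 ≤ C := (norm_nonneg _).trans (h.b 0 0)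

theorem JM.sl (h : JM F C) (s : ℝ) : BM (F s) C :=
  ⟨h.m.comp (measurable_const.prodMk measurable_id), h.b s⟩

theorem JM.inn (h : JM F C) : BM (fun s => ∫ t in (0 : ℝ)..(2 * Real.pi), F s t) (C * (2 * Real.pi)) := by
  have hpi := Real.pi_pos
  constructor
  · have h2 := h.m.stronglyMeasurable.integral_prod_right' (ν := volume.restrict (Ioc 0 (2 * Real.pi)))
    have h3 : (fun s => ∫ t in (0 : ℝ)..(2 * Real.pi), F s t) =
        fun s => ∫ t, F s t ∂(volume.restrict (Ioc 0 (2 * Real.pi))) := by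
      funext s
      rw [intervalIntegral.integral_of_le (by positivity)]
    rw [h3]
    exact h2.measurable
  · intro s
    have h1 := intervalIntegral.norm_integral_le_of_norm_le_const (a := 0) (b := 2 * Real.pi)
      (f := F s) (C := C) (fun t _ => h.b s t)
    rwa [sub_zero, abs_of_pos (by positivity)] at h1

theorem JM.add (h : JM F C) (h' : JM G D) : JM (fun s t => F s t + G s t) (C + D) :=
  ⟨h.m.add h'.m, fun s t => (norm_add_le _ _).trans (add_le_add (h.b s t) (h'.b s t))⟩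

theorem JM.cmul (h : JM F C) (c : ℂ) : JM (fun s t => c * F s t) (‖c‖ * C) :=
  ⟨h.m.const_mul c, fun s t => by
    rw [norm_mul]; exact mul_le_mul_of_nonneg_left (h.b s t) (norm_nonneg _)⟩

theorem JM.mul (h : JM F C) (h' : JM G D) : JM (fun s t => F s t * G s t) (C * D) :=
  ⟨h.m.mul h'.m, fun s t => by
    rw [norm_mul]; exact mul_le_mul (h.b s t) (h'.b s t) (norm_nonneg _) h.C0⟩

theorem JM.conj (h : JM F C) : JM (fun s t => (starRingEnd ℂ) (F s t)) C :=
  ⟨Complex.continuous_conj.measurable.comp h.m, fun s t => by rw [Complex.norm_conj]; exact h.b s t⟩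

theorem BM.l {f : ℝ → ℂ} (h : BM f C) : JM (fun s _ => f s) C :=
  ⟨h.m.comp measurable_fst, fun s _ => h.b s⟩

theorem BM.r {f : ℝ → ℂ} (h : BM f C) : JM (fun _ t => f t) C :=
  ⟨h.m.comp measurable_snd, fun _ t => h.b t⟩

theorem BM.d {k : ℝ → ℂ} (h : BM k C) : JM (fun s t => k (s - t)) C :=
  ⟨h.m.comp (measurable_fst.sub measurable_snd), fun s t => h.b _⟩

theorem dm_add (h : JM F C) (h' : JM G D) : dm (fun s t => F s t + G s t) = dm F + dm G := by
  unfold dm
  rw [← mul_add]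
  congr 1
  rw [← intervalIntegral.integral_add (h.inn.i _ _) (h'.inn.i _ _)]
  refine intervalIntegral.integral_congr fun s _ => ?_
  exact intervalIntegral.integral_add ((h.sl s).i _ _) ((h'.sl s).i _ _)

theorem dm_cmul (c : ℂ) : dm (fun s t => c * F s t) = c * dm F := by
  unfold dm
  have : ∀ s : ℝ, ∫ t in (0 : ℝ)..(2 * Real.pi), c * F s t = c * ∫ t in (0 : ℝ)..(2 * Real.pi), F s t :=
    fun s => intervalIntegral.integral_const_mul _ _
  simp_rw [this]
  rw [intervalIntegral.integral_const_mul]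
  ring

/-- the double mean is invariant under a shift of the first variable -/
theorem dm_shift (hp : ∀ s t, F (s + 2 * Real.pi) t = F s t) (a : ℝ) :
    dm (fun s t => F (s + a) t) = dm F := by
  unfold dm
  congr 1
  rw [intervalIntegral.integral_comp_add_right (fun s => ∫ t in (0 : ℝ)..(2 * Real.pi), F s t)]
  have := shiftC2 (g := fun s => ∫ t in (0 : ℝ)..(2 * Real.pi), F s t)
    (fun s => by simp_rw [hp]) a
  rw [zero_add, add_comm (2 * Real.pi) a]
  exact this

/-- imaginary part of the double mean -/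
theorem dm_im (h : JM F C) : (dm F).im = (1 / (2 * Real.pi)) ^ 2 *
    ∫ s in (0 : ℝ)..(2 * Real.pi), ∫ t in (0 : ℝ)..(2 * Real.pi), (F s t).im := by
  unfold dm
  have e : (1 / (2 * Real.pi) : ℂ) ^ 2 = (((1 / (2 * Real.pi)) ^ 2 : ℝ) : ℂ) := by push_cast; rfl
  rw [e, Complex.im_ofReal_mul]
  congr 1
  have h1 := ContinuousLinearMap.intervalIntegral_comp_comm Complex.imCLM (h.inn.i 0 (2 * Real.pi))
  simp only [Complex.imCLM_apply] at h1
  rw [← h1]
  refine intervalIntegral.integral_congr fun s _ => ?_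
  have h2 := ContinuousLinearMap.intervalIntegral_comp_comm Complex.imCLM ((h.sl s).i 0 (2 * Real.pi))
  simp only [Complex.imCLM_apply] at h2
  exact h2.symm

end

/-- monotonicity of the double integral -/
theorem dbl_mono {f g : ℝ → ℝ → ℝ} {C D : ℝ} (hf : Measurable (Function.uncurry f))
    (hg : Measurable (Function.uncurry g)) (bf : ∀ s t, |f s t| ≤ C) (bg : ∀ s t, |g s t| ≤ D)
    (h : ∀ s t, f s t ≤ g s t) :
    ∫ s in (0 : ℝ)..(2 * Real.pi), ∫ t in (0 : ℝ)..(2 * Real.pi), f s t ≤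
      ∫ s in (0 : ℝ)..(2 * Real.pi), ∫ t in (0 : ℝ)..(2 * Real.pi), g s t := by
  have hpi := Real.pi_pos
  have key : ∀ {u : ℝ → ℝ → ℝ} {K : ℝ}, Measurable (Function.uncurry u) → (∀ s t, |u s t| ≤ K) →
      IntervalIntegrable (fun s => ∫ t in (0 : ℝ)..(2 * Real.pi), u s t) volume 0 (2 * Real.pi) := by
    intro u K hu bu
    have h2 := hu.stronglyMeasurable.integral_prod_right' (ν := volume.restrict (Ioc 0 (2 * Real.pi)))
    have h3 : (fun s => ∫ t in (0 : ℝ)..(2 * Real.pi), u s t) =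
        fun s => ∫ t, u s t ∂(volume.restrict (Ioc 0 (2 * Real.pi))) := by
      funext s
      rw [intervalIntegral.integral_of_le (by positivity)]
    refine intg_of_bdd (C := K * |2 * Real.pi - 0|) (by rw [h3]; exact h2.measurable) ?_ _ _
    intro s
    rw [← Real.norm_eq_abs]
    exact intervalIntegral.norm_integral_le_of_norm_le_const fun t _ => by
      rw [Real.norm_eq_abs]; exact bu s t
  have sl : ∀ {u : ℝ → ℝ → ℝ} {K : ℝ}, Measurable (Function.uncurry u) → (∀ s t, |u s t| ≤ K) →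
      ∀ s, IntervalIntegrable (fun t => u s t) volume 0 (2 * Real.pi) := by
    intro u K hu bu s
    exact intg_of_bdd (hu.comp (measurable_const.prodMk measurable_id)) (bu s) _ _
  refine intervalIntegral.integral_mono_on (by positivity) (key hf bf) (key hg bg) fun s _ => ?_
  exact intervalIntegral.integral_mono_on (by positivity) (sl hf bf s) (sl hg bg s) fun t _ => h s t

section

variable {A B v : ℝ → ℂ} {C : ℝ}

/-- the two integrands -/
noncomputable def Ps0 (A B v : ℝ → ℂ) (E : ℝ → ℝ → ℝ) (s t : ℝ) : ℂ :=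
  (A s + v s) * (starRingEnd ℂ) (yy A B v t (sn (s - t)) (-E s t))

noncomputable def Ps5 (A B v : ℝ → ℂ) (E' : ℝ → ℝ → ℝ) (s t : ℝ) : ℂ :=
  (-B s - v s) * (starRingEnd ℂ) (yy A B v t (-E' s t) (-sn (s - t)))

theorem yy_jm (h : Fam A B v C) {e1 e2 : ℝ → ℝ → ℝ} (m1 : Measurable (Function.uncurry e1))
    (m2 : Measurable (Function.uncurry e2)) (b1 : ∀ s t, |e1 s t| ≤ 1) (b2 : ∀ s t, |e2 s t| ≤ 1) :
    JM (fun s t => yy A B v t (e1 s t) (e2 s t)) (2 * C) := by
  refine ⟨?_, fun s t => yy_le h t (b1 s t) (b2 s t)⟩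
  have c1 : Measurable fun x : ℝ × ℝ => ((e1 x.1 x.2 : ℝ) : ℂ) := Complex.measurable_ofReal.comp m1
  have c2 : Measurable fun x : ℝ × ℝ => ((e2 x.1 x.2 : ℝ) : ℂ) := Complex.measurable_ofReal.comp m2
  have c12 : Measurable fun x : ℝ × ℝ => ((e1 x.1 x.2 * e2 x.1 x.2 : ℝ) : ℂ) :=
    Complex.measurable_ofReal.comp (m1.mul m2)
  have hA : Measurable fun x : ℝ × ℝ => A x.2 := h.mA.comp measurable_snd
  have hB : Measurable fun x : ℝ × ℝ => B x.2 := h.mB.comp measurable_snd
  have hv : Measurable fun x : ℝ × ℝ => v x.2 := h.mv.comp measurable_snd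
  exact (((c1.mul hA).add (c2.mul hB)).const_mul (1 / 2 : ℂ)).sub ((c12.const_mul (1 / 2 : ℂ)).mul hv)

theorem sn_jm : Measurable (Function.uncurry fun s t : ℝ => sn (s - t)) :=
  sn_meas.comp (measurable_fst.sub measurable_snd)

/-- Selection with arbitrary measurable `E`, `E'`. -/
theorem sel_gen (h : Fam A B v C) (hq : QQ A B v) {E E' : ℝ → ℝ → ℝ}
    (mE : Measurable (Function.uncurry E)) (mE' : Measurable (Function.uncurry E'))
    (bE : ∀ s t, |E s t| ≤ 1) (bE' : ∀ s t, |E' s t| ≤ 1)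
    (pE : ∀ s t, E (s + 2 * Real.pi) t = E s t) (pE' : ∀ s t, E' (s + 2 * Real.pi) t = E' s t) :
    Real.pi * (dm (fun s t => Ps0 A B v E s t + Ps5 A B v E' s t)).im ≤
      1 / 4 * (1 / (2 * Real.pi)) ^ 2 * ∫ a in (0 : ℝ)..(2 * Real.pi), ∫ b in (0 : ℝ)..(2 * Real.pi),
        ∑ k, ∑ l, kr (qq A B v a k) (qq A B v b l) := by
  have hpi := Real.pi_pos
  have hC := h.C0
  have hU : BM (fun s => A s + v s) (C + C) := (⟨h.mA, h.bA⟩ : BM A C).add ⟨h.mv, h.bv⟩
  have hV : BM (fun s => -B s - v s) (C + C) :=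
    (⟨h.mB.neg, fun t => by rw [norm_neg]; exact h.bB t⟩ : BM (fun s => -B s) C).sub ⟨h.mv, h.bv⟩
  have j0 : JM (Ps0 A B v E) ((C + C) * (2 * C)) :=
    hU.l.mul (yy_jm h (e1 := fun s t => sn (s - t)) (e2 := fun s t => -E s t) sn_jm mE.neg
      (fun s t => sn_abs _) (fun s t => by
      show |-E s t| ≤ 1
      rw [abs_neg]; exact bE s t)).conj
  have j5 : JM (Ps5 A B v E') ((C + C) * (2 * C)) :=
    hV.l.mul (yy_jm h (e1 := fun s t => -E' s t) (e2 := fun s t => -sn (s - t)) mE'.neg sn_jm.neg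
      (fun s t => by
      show |-E' s t| ≤ 1
      rw [abs_neg]; exact bE' s t) (fun s t => by
      show |-sn (s - t)| ≤ 1
      rw [abs_neg]; exact sn_abs _)).conj
  have j := j0.add j5
  set Φ : ℝ → ℝ → ℂ := fun s t => Ps0 A B v E s t + Ps5 A B v E' s t with hΦ
  have jp : JM (fun s t => Φ (s + Real.pi) t) ((C + C) * (2 * C) + (C + C) * (2 * C)) :=
    ⟨j.m.comp ((measurable_fst.add_const _).prodMk measurable_snd), fun s t => j.b _ _⟩
  have hper : ∀ s t, Φ (s + 2 * Real.pi) t = Φ s t := by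
    intro s t
    have e1 : s + 2 * Real.pi - t = (s - t) + 2 * Real.pi := by ring
    simp only [hΦ, Ps0, Ps5]
    rw [two_per h.pA, two_per' h.pv, two_per h.pB, pE, pE', e1, sn_per]
  -- pointwise inequality
  have hpt : ∀ s t, 2 * Real.pi * ((Φ s t).im + (Φ (s + Real.pi) t).im) ≤
      ∑ k, ∑ l, kr (qq A B v s k) (qq A B v t l) := by
    intro s t
    have hG : ∑ k, ∑ l, kr (qq A B v s k) (qq A B v t l) =
        ∑ k, ∑ l, kr (qq A B v t k) (qq A B v s l) := by
      rw [Finset.sum_comm]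
      exact Finset.sum_congr rfl fun k _ => Finset.sum_congr rfl fun l _ => kr_symm _ _
    rw [hG]
    have h1 := hq t s ![sn (s - t), -E' (s + Real.pi) t, sn (s + Real.pi - t), -E' s t]
      ![-E s t, -sn (s + Real.pi - t), -E (s + Real.pi) t, -sn (s - t)]
      (fun l => by
        fin_cases l
        · exact sn_abs _
        · show |-E' (s + Real.pi) t| ≤ 1
          rw [abs_neg]; exact bE' _ _
        · exact sn_abs _
        · show |-E' s t| ≤ 1
          rw [abs_neg]; exact bE' _ _)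
      (fun l => by
        fin_cases l
        · show |-E s t| ≤ 1
          rw [abs_neg]; exact bE _ _
        · show |-sn (s + Real.pi - t)| ≤ 1
          rw [abs_neg]; exact sn_abs _
        · show |-E (s + Real.pi) t| ≤ 1
          rw [abs_neg]; exact bE _ _
        · show |-sn (s - t)| ≤ 1
          rw [abs_neg]; exact sn_abs _)
    refine le_trans (le_of_eq ?_) h1
    congr 1
    rw [Fin.sum_univ_four]
    simp only [hΦ, Ps0, Ps5]
    rw [h.pA, h.pB, h.pv]
    show _ = ((A s + v s) * (starRingEnd ℂ) (yy A B v t (sn (s - t)) (-E s t))).im +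
      ((B s - v s) * (starRingEnd ℂ) (yy A B v t (-E' (s + Real.pi) t) (-sn (s + Real.pi - t)))).im +
      ((-A s + v s) * (starRingEnd ℂ) (yy A B v t (sn (s + Real.pi - t)) (-E (s + Real.pi) t))).im +
      ((-B s - v s) * (starRingEnd ℂ) (yy A B v t (-E' s t) (-sn (s - t)))).im
    rw [Complex.add_im, Complex.add_im, neg_neg]
    ring
  have hmono := dbl_mono (f := fun s t => 2 * Real.pi * ((Φ s t).im + (Φ (s + Real.pi) t).im))
    (g := fun s t => ∑ k, ∑ l, kr (qq A B v s k) (qq A B v t l))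
    (((Complex.measurable_im.comp j.m).add (Complex.measurable_im.comp jp.m)).const_mul _)
    (KK_meas (e := qq A B v) (qq_meas h))
    (C := 2 * Real.pi * (2 * ((C + C) * (2 * C) + (C + C) * (2 * C))))
    (fun s t => by
      rw [abs_mul, abs_of_pos (by positivity : 0 < 2 * Real.pi)]
      refine mul_le_mul_of_nonneg_left ?_ (by positivity)
      have a1 := (Complex.abs_im_le_norm (Φ s t)).trans (j.b s t)
      have a2 := (Complex.abs_im_le_norm (Φ (s + Real.pi) t)).trans (j.b (s + Real.pi) t)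
      exact (abs_add_le _ _).trans (by linarith))
    (fun s t => KK_le (e := qq A B v) (qq_le h) s t) hpt
  -- the left side
  have e1 : (1 / (2 * Real.pi)) ^ 2 * ∫ s in (0 : ℝ)..(2 * Real.pi), ∫ t in (0 : ℝ)..(2 * Real.pi),
      2 * Real.pi * ((Φ s t).im + (Φ (s + Real.pi) t).im) = 4 * Real.pi * (dm Φ).im := by
    have h1 := dm_im (j.add jp)
    have h2 : (dm (fun s t => Φ s t + Φ (s + Real.pi) t)).im = 2 * (dm Φ).im := by
      rw [dm_add j jp, dm_shift hper, Complex.add_im]; ring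
    have h3 : ∀ s, ∫ t in (0 : ℝ)..(2 * Real.pi), 2 * Real.pi * ((Φ s t).im + (Φ (s + Real.pi) t).im) =
        2 * Real.pi * ∫ t in (0 : ℝ)..(2 * Real.pi), (Φ s t + Φ (s + Real.pi) t).im := by
      intro s
      rw [intervalIntegral.integral_const_mul]
      rfl
    simp_rw [h3]
    rw [intervalIntegral.integral_const_mul]
    rw [h2] at h1
    have : (1 / (2 * Real.pi)) ^ 2 * (2 * Real.pi * ∫ s in (0 : ℝ)..(2 * Real.pi),
        ∫ t in (0 : ℝ)..(2 * Real.pi), (Φ s t + Φ (s + Real.pi) t).im) = 2 * Real.pi *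
        ((1 / (2 * Real.pi)) ^ 2 * ∫ s in (0 : ℝ)..(2 * Real.pi),
        ∫ t in (0 : ℝ)..(2 * Real.pi), (Φ s t + Φ (s + Real.pi) t).im) := by ring
    rw [this, ← h1]
    ring
  have h4 := mul_le_mul_of_nonneg_left hmono (by positivity : 0 ≤ (1 / (2 * Real.pi)) ^ 2)
  rw [e1] at h4
  linarith

end

end Helper87.RC
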