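import Pool.Agent.Helper87.RC.M_DK

/-!
# Project RC: the sums of the window selection
-/

open MeasureTheory Set Filter Metric

namespace Helper87.RC

open Helper49.LT hiding sg
open Helper56.RC (fc RR)

theorem RR_neg (ρ : ℝ) (j : ℤ) : RR ρ (-j) = RR ρ j := by
  unfold RR
  push_cast
  have : -(j : ℝ) * ρ / 2 = -((j : ℝ) * ρ / 2) := by ring
  rw [this, Real.sin_neg, div_neg]
  ring

section coef

variable {c ρ : ℝ} {q : ℕ} {n : ℤ}

theorem conj_ee (x : ℝ) : (starRingEnd ℂ) (ee x) = ee (-x) := (ee_neg x).symm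

theorem cwp (hw : WC c ρ) (hq : Odd q) (hn : Even n) : fc (fun x => wp ρ q (x - c)) n =
    ee (-(n : ℝ) * c) * ((RR ρ ((q : ℤ) - 2 * n) : ℂ) / Real.pi) := by
  rw [fc_shift (wp_per ρ q), fc_wp hw.h0 hw.h1 hq hn]

theorem cwp0 (hw : WC c ρ) (hn : Odd n) : fc (fun x => wp ρ q (x - c)) n = 0 := by
  rw [fc_shift (wp_per ρ q), fc_perpi (wp_BM ρ q) (wp_pi hw.cos0 q) hn, mul_zero]

theorem cwm (hw : WC c ρ) (hq : Odd q) (hn : Odd n) : fc (fun x => wm ρ q (x - c)) n =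
    ee (-(n : ℝ) * c) * ((RR ρ ((q : ℤ) - 2 * n) : ℂ) / Real.pi) := by
  rw [fc_shift (wm_per ρ q), fc_wm hw.h0 hw.h1 hq hn]

theorem cwm0 (hw : WC c ρ) (hn : Even n) : fc (fun x => wm ρ q (x - c)) n = 0 := by
  rw [fc_shift (wm_per ρ q), fc_anti (wm_BM ρ q) (wm_pi hw.cos0 q) hn, mul_zero]

theorem cwp' (hw : WC c ρ) (hq : Odd q) (hn : Even n) : fc (fun x => wp ρ q (-x - c)) n =
    ee ((n : ℝ) * c) * ((RR ρ ((q : ℤ) + 2 * n) : ℂ) / Real.pi) := by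
  rw [fc_rs (wp_per ρ q), fc_wp hw.h0 hw.h1 hq hn.neg]
  congr 4
  ring

theorem cwp'0 (hw : WC c ρ) (hn : Odd n) : fc (fun x => wp ρ q (-x - c)) n = 0 := by
  rw [fc_rs (wp_per ρ q), fc_perpi (wp_BM ρ q) (wp_pi hw.cos0 q) hn.neg, mul_zero]

theorem cwm' (hw : WC c ρ) (hq : Odd q) (hn : Odd n) : fc (fun x => wm ρ q (-x - c)) n =
    ee ((n : ℝ) * c) * ((RR ρ ((q : ℤ) + 2 * n) : ℂ) / Real.pi) := by
  rw [fc_rs (wm_per ρ q), fc_wm hw.h0 hw.h1 hq hn.neg]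
  congr 4
  ring

theorem cwm'0 (hw : WC c ρ) (hn : Even n) : fc (fun x => wm ρ q (-x - c)) n = 0 := by
  rw [fc_rs (wm_per ρ q), fc_anti (wm_BM ρ q) (wm_pi hw.cos0 q) hn.neg, mul_zero]

theorem conj_er (x r : ℝ) : (starRingEnd ℂ) (ee x * ((r : ℂ) / Real.pi)) =
    ee (-x) * ((r : ℂ) / Real.pi) := by
  rw [map_mul, conj_ee, map_div₀, Complex.conj_ofReal, Complex.conj_ofReal]

theorem kwp (hw : WC c ρ) (hq : Odd q) (hn : Even n) :
    fc (fun x => (starRingEnd ℂ) (wp ρ q (x - c))) n =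
    ee (-(n : ℝ) * c) * ((RR ρ ((q : ℤ) + 2 * n) : ℂ) / Real.pi) := by
  rw [fc_conj, cwp hw hq hn.neg, conj_er]
  congr 2
  · push_cast; ring
  · congr 2
    ring

theorem kwp0 (hw : WC c ρ) (hn : Odd n) : fc (fun x => (starRingEnd ℂ) (wp ρ q (x - c))) n = 0 := by
  rw [fc_conj, cwp0 hw hn.neg, map_zero]

theorem kwm (hw : WC c ρ) (hq : Odd q) (hn : Odd n) :
    fc (fun x => (starRingEnd ℂ) (wm ρ q (x - c))) n =
    ee (-(n : ℝ) * c) * ((RR ρ ((q : ℤ) + 2 * n) : ℂ) / Real.pi) := by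
  rw [fc_conj, cwm hw hq hn.neg, conj_er]
  congr 2
  · push_cast; ring
  · congr 2
    ring

theorem kwm0 (hw : WC c ρ) (hn : Even n) : fc (fun x => (starRingEnd ℂ) (wm ρ q (x - c))) n = 0 := by
  rw [fc_conj, cwm0 hw hn.neg, map_zero]

theorem kwp' (hw : WC c ρ) (hq : Odd q) (hn : Even n) :
    fc (fun x => (starRingEnd ℂ) (wp ρ q (-x - c))) n =
    ee ((n : ℝ) * c) * ((RR ρ ((q : ℤ) - 2 * n) : ℂ) / Real.pi) := by
  rw [fc_conj, cwp' hw hq hn.neg, conj_er]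
  congr 2
  · push_cast; ring
  · congr 2
    ring

theorem kwp'0 (hw : WC c ρ) (hn : Odd n) :
    fc (fun x => (starRingEnd ℂ) (wp ρ q (-x - c))) n = 0 := by
  rw [fc_conj, cwp'0 hw hn.neg, map_zero]

theorem kwm' (hw : WC c ρ) (hq : Odd q) (hn : Odd n) :
    fc (fun x => (starRingEnd ℂ) (wm ρ q (-x - c))) n =
    ee ((n : ℝ) * c) * ((RR ρ ((q : ℤ) - 2 * n) : ℂ) / Real.pi) := by
  rw [fc_conj, cwm' hw hq hn.neg, conj_er]
  congr 2
  · push_cast; ring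
  · congr 2
    ring

theorem kwm'0 (hw : WC c ρ) (hn : Even n) :
    fc (fun x => (starRingEnd ℂ) (wm ρ q (-x - c))) n = 0 := by
  rw [fc_conj, cwm'0 hw hn.neg, map_zero]

end coef

section

variable {A B v : ℝ → ℂ} {C : ℝ} {c ρ : ℝ} {q : ℕ}

theorem Fam.a0 (h : Fam A B v C) {n : ℤ} (hn : Even n) : fc A n = 0 :=
  fc_anti ⟨h.mA, h.bA⟩ h.pA hn

theorem Fam.b0 (h : Fam A B v C) {n : ℤ} (hn : Even n) : fc B n = 0 :=
  fc_anti ⟨h.mB, h.bB⟩ h.pB hn

theorem Fam.v0 (h : Fam A B v C) {n : ℤ} (hn : Odd n) : fc v n = 0 :=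
  fc_perpi ⟨h.mv, h.bv⟩ h.pv hn

theorem Fam.BA (h : Fam A B v C) : BM A C := ⟨h.mA, h.bA⟩
theorem Fam.BB (h : Fam A B v C) : BM B C := ⟨h.mB, h.bB⟩
theorem Fam.Bv (h : Fam A B v C) : BM v C := ⟨h.mv, h.bv⟩
theorem Fam.U (h : Fam A B v C) : BM (fun t => A t + v t) (C + C) := h.BA.add h.Bv
theorem Fam.V (h : Fam A B v C) : BM (fun t => B t + v t) (C + C) := h.BB.add h.Bv

theorem Fam.fU (h : Fam A B v C) (n : ℤ) : fc (fun t => A t + v t) n = fc A n + fc v n :=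
  fc_add h.BA h.Bv n

theorem Fam.fV (h : Fam A B v C) (n : ℤ) : fc (fun t => B t + v t) n = fc B n + fc v n :=
  fc_add h.BB h.Bv n

theorem BM.sh {k : ℝ → ℂ} {E : ℝ} (h : BM k E) (c : ℝ) : BM (fun x => k (x - c)) E :=
  ⟨h.m.comp (measurable_id.sub_const _), fun _ => h.b _⟩

theorem BM.rs {k : ℝ → ℂ} {E : ℝ} (h : BM k E) (c : ℝ) : BM (fun x => k (-x - c)) E :=
  ⟨h.m.comp (measurable_neg.sub_const _), fun _ => h.b _⟩

theorem BM.ng {k : ℝ → ℂ} {E : ℝ} (h : BM k E) : BM (fun x => -k x) E :=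
  ⟨h.m.neg, fun _ => by rw [norm_neg]; exact h.b _⟩

theorem per_sh {k : ℝ → ℂ} (h : ∀ x, k (x + 2 * Real.pi) = k x) (c x : ℝ) :
    k (x + 2 * Real.pi - c) = k (x - c) := by
  have : x + 2 * Real.pi - c = (x - c) + 2 * Real.pi := by ring
  rw [this, h]

theorem per_rs {k : ℝ → ℂ} (h : ∀ x, k (x + 2 * Real.pi) = k x) (c x : ℝ) :
    k (-(x + 2 * Real.pi) - c) = k (-x - c) := by
  have : -x - c = -(x + 2 * Real.pi) - c + 2 * Real.pi := by ring
  rw [this, h]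

theorem hs_add {f : ℤ → ℂ} {a : ℂ} (h : HasSum f a) (m : ℤ) : HasSum (fun n => f (n + m)) a :=
  (Equiv.addRight m).hasSum_iff.2 h

theorem hs_sub {f : ℤ → ℂ} {a : ℂ} (h : HasSum f a) (m : ℤ) : HasSum (fun n => f (n - m)) a :=
  (Equiv.subRight m).hasSum_iff.2 h

theorem odd_q (hq : Odd q) : Odd (q : ℤ) := by exact_mod_cast hq

theorem hs_cong {f g : ℤ → ℂ} {a : ℂ} (h : HasSum f a) (e : ∀ n, g n = f n) : HasSum g a := by
  rw [show g = f from funext e]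
  exact h

/-- (b) -/
theorem hs_b (h : Fam A B v C) (hw : WC c ρ) (hq : Odd q) :
    HasSum (fun n : ℤ => ee (((n - q : ℤ) : ℝ) * c) * ((RR ρ (2 * n - q) : ℂ) / Real.pi) *
      (fc v (n - q) * (starRingEnd ℂ) (fc B n)))
      (DT (fun x => wp ρ q (x - c)) (fun t => A t + v t) B q) := by
  refine hs_cong (hs_sub (DT_sum ((wp_BM ρ q).sh c) (per_sh (wp_per ρ q) c) h.U h.BB (q : ℤ))
    (q : ℤ)) fun n => ?_
  simp only [sub_add_cancel, h.fU]
  rcases Int.even_or_odd n with hn | hn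
  · rw [h.b0 hn, map_zero, mul_zero, mul_zero, mul_zero, mul_zero]
  · have ho : Even (n - (q : ℤ)) := hn.sub_odd (odd_q hq)
    rw [h.a0 ho, zero_add, cwp hw hq ho.neg]
    congr 4
    · push_cast; ring
    · ring

/-- (b, conjugate) -/
theorem hs_bk (h : Fam A B v C) (hw : WC c ρ) (hq : Odd q) :
    HasSum (fun n : ℤ => ee (((n + q : ℤ) : ℝ) * c) * ((RR ρ (2 * n + q) : ℂ) / Real.pi) *
      (fc v (n + q) * (starRingEnd ℂ) (fc B n)))
      (DT (fun x => (starRingEnd ℂ) (wp ρ q (x - c))) (fun t => A t + v t) B (-q)) := by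
  refine hs_cong (hs_add (DT_sum ((wp_BM ρ q).sh c).conj (fun x => by rw [per_sh (wp_per ρ q) c x])
    h.U h.BB (-q : ℤ)) (q : ℤ)) fun n => ?_
  simp only [add_neg_cancel_right, h.fU]
  rcases Int.even_or_odd n with hn | hn
  · rw [h.b0 hn, map_zero, mul_zero, mul_zero, mul_zero, mul_zero]
  · have ho : Even (n + (q : ℤ)) := hn.add_odd (odd_q hq)
    rw [h.a0 ho, zero_add, kwp hw hq ho.neg, ← RR_neg ρ (2 * n + q)]
    congr 4
    · push_cast; ring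
    · ring

/-- (c) -/
theorem hs_c (h : Fam A B v C) (hw : WC c ρ) (hq : Odd q) :
    HasSum (fun n : ℤ => -(ee ((n : ℝ) * c) * ((RR ρ (2 * n + q) : ℂ) / Real.pi)) *
      (fc A n * (starRingEnd ℂ) (fc v (n + q))))
      (DT (fun x => -wm ρ q (x - c)) (fun t => A t + v t) v q) := by
  refine hs_cong (DT_sum ((wm_BM ρ q).sh c).ng (fun x => by rw [per_sh (wm_per ρ q) c x])
    h.U h.Bv (q : ℤ)) fun n => ?_
  have e : (fun x => -wm ρ q (x - c)) = fun x => (-1 : ℂ) * wm ρ q (x - c) := by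
    funext x; ring
  rw [e, fc_cmul, h.fU]
  rcases Int.even_or_odd n with hn | hn
  · rw [h.a0 hn, cwm0 hw hn.neg]
    ring
  · rw [h.v0 hn, add_zero, cwm hw hq hn.neg]
    have e1 : (q : ℤ) - 2 * -n = 2 * n + q := by ring
    have e2 : -((-n : ℤ) : ℝ) * c = (n : ℝ) * c := by push_cast; ring
    rw [e1, e2]
    ring

/-- (c, conjugate) -/
theorem hs_ck (h : Fam A B v C) (hw : WC c ρ) (hq : Odd q) :
    HasSum (fun n : ℤ => -(ee ((n : ℝ) * c) * ((RR ρ (2 * n - q) : ℂ) / Real.pi)) *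
      (fc A n * (starRingEnd ℂ) (fc v (n - q))))
      (DT (fun x => (starRingEnd ℂ) (-wm ρ q (x - c))) (fun t => A t + v t) v (-q)) := by
  refine hs_cong (DT_sum ((wm_BM ρ q).sh c).ng.conj (fun x => by rw [per_sh (wm_per ρ q) c x])
    h.U h.Bv (-q : ℤ)) fun n => ?_
  have e : (fun x => (starRingEnd ℂ) (-wm ρ q (x - c))) =
      fun x => (-1 : ℂ) * (starRingEnd ℂ) (wm ρ q (x - c)) := by
    funext x; rw [map_neg]; ring
  rw [e, fc_cmul, h.fU, ← sub_eq_add_neg]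
  rcases Int.even_or_odd n with hn | hn
  · rw [h.a0 hn, kwm0 hw hn.neg]
    ring
  · rw [h.v0 hn, add_zero, kwm hw hq hn.neg, ← RR_neg ρ (2 * n - q)]
    have e1 : (q : ℤ) + 2 * -n = -(2 * n - q) := by ring
    have e2 : -((-n : ℤ) : ℝ) * c = (n : ℝ) * c := by push_cast; ring
    rw [e1, e2]
    ring

/-- (d) -/
theorem hs_d (h : Fam A B v C) (hw : WC c ρ) (hq : Odd q) :
    HasSum (fun n : ℤ => ee (-(n : ℝ) * c) * ((RR ρ (2 * n - q) : ℂ) / Real.pi) *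
      (fc v (n - q) * (starRingEnd ℂ) (fc A n)))
      (DS (fun x => wm ρ q (-x - c)) (fun t => B t + v t) A q) := by
  refine hs_cong (DS_sum ((wm_BM ρ q).rs c) (per_rs (wm_per ρ q) c) h.V h.BA (q : ℤ)) fun n => ?_
  rw [h.fV]
  rcases Int.even_or_odd n with hn | hn
  · rw [h.a0 hn, map_zero, mul_zero, mul_zero, mul_zero, mul_zero]
  · have ho : Even (n - (q : ℤ)) := hn.sub_odd (odd_q hq)
    rw [h.b0 ho, zero_add, cwm' hw hq hn.neg, ← RR_neg ρ (2 * n - q)]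
    have e1 : (q : ℤ) + 2 * -n = -(2 * n - q) := by ring
    have e2 : ((-n : ℤ) : ℝ) * c = -(n : ℝ) * c := by push_cast; ring
    rw [e1, e2]

/-- (d, conjugate) -/
theorem hs_dk (h : Fam A B v C) (hw : WC c ρ) (hq : Odd q) :
    HasSum (fun n : ℤ => ee (-(n : ℝ) * c) * ((RR ρ (2 * n + q) : ℂ) / Real.pi) *
      (fc v (n + q) * (starRingEnd ℂ) (fc A n)))
      (DS (fun x => (starRingEnd ℂ) (wm ρ q (-x - c))) (fun t => B t + v t) A (-q)) := by
  refine hs_cong (DS_sum ((wm_BM ρ q).rs c).conj (fun x => by rw [per_rs (wm_per ρ q) c x])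
    h.V h.BA (-q : ℤ)) fun n => ?_
  rw [h.fV, sub_neg_eq_add]
  rcases Int.even_or_odd n with hn | hn
  · rw [h.a0 hn, map_zero, mul_zero, mul_zero, mul_zero, mul_zero]
  · have ho : Even (n + (q : ℤ)) := hn.add_odd (odd_q hq)
    rw [h.b0 ho, zero_add, kwm' hw hq hn.neg]
    have e1 : (q : ℤ) - 2 * -n = 2 * n + q := by ring
    have e2 : ((-n : ℤ) : ℝ) * c = -(n : ℝ) * c := by push_cast; ring
    rw [e1, e2]

/-- (f) -/
theorem hs_f (h : Fam A B v C) (hw : WC c ρ) (hq : Odd q) :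
    HasSum (fun n : ℤ => ee (-((n + q : ℤ) : ℝ) * c) * ((RR ρ (2 * n + q) : ℂ) / Real.pi) *
      (fc B n * (starRingEnd ℂ) (fc v (n + q))))
      (DS (fun x => wp ρ q (-x - c)) (fun t => B t + v t) v q) := by
  refine hs_cong (hs_add (DS_sum ((wp_BM ρ q).rs c) (per_rs (wp_per ρ q) c) h.V h.Bv (q : ℤ))
    (q : ℤ)) fun n => ?_
  simp only [add_sub_cancel_right, h.fV]
  rcases Int.even_or_odd n with hn | hn
  · have ho : Odd (n + (q : ℤ)) := hn.add_odd (odd_q hq)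
    rw [h.v0 ho, map_zero, mul_zero, mul_zero, mul_zero, mul_zero]
  · have ho : Even (n + (q : ℤ)) := hn.add_odd (odd_q hq)
    rw [h.v0 hn, add_zero, cwp' hw hq ho.neg, ← RR_neg ρ (2 * n + q)]
    congr 4
    · push_cast; ring
    · ring

/-- (f, conjugate) -/
theorem hs_fk (h : Fam A B v C) (hw : WC c ρ) (hq : Odd q) :
    HasSum (fun n : ℤ => ee (-((n - q : ℤ) : ℝ) * c) * ((RR ρ (2 * n - q) : ℂ) / Real.pi) *
      (fc B n * (starRingEnd ℂ) (fc v (n - q))))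
      (DS (fun x => (starRingEnd ℂ) (wp ρ q (-x - c))) (fun t => B t + v t) v (-q)) := by
  refine hs_cong (hs_sub (DS_sum ((wp_BM ρ q).rs c).conj (fun x => by rw [per_rs (wp_per ρ q) c x])
    h.V h.Bv (-q : ℤ)) (q : ℤ)) fun n => ?_
  simp only [sub_neg_eq_add, sub_add_cancel, h.fV]
  rcases Int.even_or_odd n with hn | hn
  · have ho : Odd (n - (q : ℤ)) := hn.sub_odd (odd_q hq)
    rw [h.v0 ho, map_zero, mul_zero, mul_zero, mul_zero, mul_zero]
  · have ho : Even (n - (q : ℤ)) := hn.sub_odd (odd_q hq)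
    rw [h.v0 hn, add_zero, kwp' hw hq ho.neg]
    congr 4
    · push_cast; ring
    · ring

theorem im_half (w : ℂ) (r : ℝ) : (((r : ℝ) : ℂ) * ((w - (starRingEnd ℂ) w) / 2)).im = r * w.im := by
  have e : (w - (starRingEnd ℂ) w) / 2 = ((w.im : ℝ) : ℂ) * Complex.I := by
    apply Complex.ext <;> simp
  rw [e, Complex.im_ofReal_mul, Complex.im_ofReal_mul, Complex.I_im, mul_one]

/-- the window functionals -/
noncomputable def GP (A B v : ℝ → ℂ) (c ρ : ℝ) (q : ℕ) (z : ℂ) : ℂ :=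
  -((starRingEnd ℂ) z / 2 * DT (fun x => (starRingEnd ℂ) (wp ρ q (x - c))) (fun t => A t + v t) B (-q))
  + z / 2 * DT (fun x => -wm ρ q (x - c)) (fun t => A t + v t) v q
  + (starRingEnd ℂ) z / 2 *
      DS (fun x => (starRingEnd ℂ) (wm ρ q (-x - c))) (fun t => B t + v t) A (-q)
  + z / 2 * DS (fun x => wp ρ q (-x - c)) (fun t => B t + v t) v q

noncomputable def GM (A B v : ℝ → ℂ) (c ρ : ℝ) (q : ℕ) (z : ℂ) : ℂ :=
  -(z / 2 * DT (fun x => wp ρ q (x - c)) (fun t => A t + v t) B q)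
  + (starRingEnd ℂ) z / 2 *
      DT (fun x => (starRingEnd ℂ) (-wm ρ q (x - c))) (fun t => A t + v t) v (-q)
  + z / 2 * DS (fun x => wm ρ q (-x - c)) (fun t => B t + v t) A q
  + (starRingEnd ℂ) z / 2 *
      DS (fun x => (starRingEnd ℂ) (wp ρ q (-x - c))) (fun t => B t + v t) v (-q)

theorem hs_P (h : Fam A B v C) (hw : WC c ρ) (hq : Odd q) (z : ℂ) :
    HasSum (fun n : ℤ => RR ρ (2 * n + q) / Real.pi * (z * (starRingEnd ℂ) (fc v (n + q)) *
      (ee (-((n + q : ℤ) : ℝ) * c) * fc B n - ee ((n : ℝ) * c) * fc A n)).im)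
      (GP A B v c ρ q z).im := by
  have h1 := ((((hs_bk h hw hq).mul_left ((starRingEnd ℂ) z / 2)).neg.add
    ((hs_c h hw hq).mul_left (z / 2))).add ((hs_dk h hw hq).mul_left ((starRingEnd ℂ) z / 2))).add
    ((hs_f h hw hq).mul_left (z / 2))
  have h2 := Complex.hasSum_im h1
  refine (show (fun n : ℤ => _) = _ from funext fun n => ?_) ▸ h2
  rw [← im_half]
  congr 1
  simp only [map_mul, map_sub, Complex.conj_conj, conj_ee]
  have e1 : -(-((n + q : ℤ) : ℝ) * c) = ((n + q : ℤ) : ℝ) * c := by ring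
  have e2 : -((n : ℝ) * c) = -(n : ℝ) * c := by ring
  rw [e1, e2]
  push_cast
  ring

theorem hs_M (h : Fam A B v C) (hw : WC c ρ) (hq : Odd q) (z : ℂ) :
    HasSum (fun n : ℤ => RR ρ (2 * n - q) / Real.pi * (z * fc v (n - q) *
      (ee (-(n : ℝ) * c) * (starRingEnd ℂ) (fc A n)
        - ee (((n - q : ℤ) : ℝ) * c) * (starRingEnd ℂ) (fc B n))).im)
      (GM A B v c ρ q z).im := by
  have h1 := ((((hs_b h hw hq).mul_left (z / 2)).neg.add
    ((hs_ck h hw hq).mul_left ((starRingEnd ℂ) z / 2))).add ((hs_d h hw hq).mul_left (z / 2))).add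
    ((hs_fk h hw hq).mul_left ((starRingEnd ℂ) z / 2))
  have h2 := Complex.hasSum_im h1
  refine (show (fun n : ℤ => _) = _ from funext fun n => ?_) ▸ h2
  rw [← im_half]
  congr 1
  simp only [map_mul, map_sub, Complex.conj_conj, conj_ee]
  have e1 : -(-(n : ℝ) * c) = (n : ℝ) * c := by ring
  have e2 : -(((n - q : ℤ) : ℝ) * c) = -((n - q : ℤ) : ℝ) * c := by ring
  rw [e1, e2]
  push_cast
  ring

end

end Helper87.RC
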