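import Pool.Agent.Helper87.RC.M_WN1

/-!
# Project RC: the window selection for abstract families
-/

open MeasureTheory Set Filter Metric

namespace Helper87.RC

open Helper49.LT hiding sg
open Helper56.RC (fc RR)

section

variable {A B v : ℝ → ℂ} {C : ℝ} {c ρ : ℝ}

theorem im_sn (n : ℤ) (a : ℂ) : (-(2 * Complex.I) / (Real.pi * ((-n : ℤ) : ℂ)) *
    (a * (starRingEnd ℂ) a)).im = 2 / (Real.pi * n) * ‖a‖ ^ 2 := by
  have e : -(2 * Complex.I) / (Real.pi * ((-n : ℤ) : ℂ)) * (a * (starRingEnd ℂ) a) =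
      ((2 / (Real.pi * n) * ‖a‖ ^ 2 : ℝ) : ℂ) * Complex.I := by
    rw [Complex.mul_conj, Complex.normSq_eq_norm_sq]
    push_cast
    rw [mul_neg, neg_div_neg_eq]
    ring
  rw [e, Complex.im_ofReal_mul, Complex.I_im, mul_one]

theorem hsR_cong {f g : ℤ → ℝ} {a : ℝ} (h : HasSum f a) (e : ∀ n, g n = f n) : HasSum g a := by
  rw [show g = f from funext e]
  exact h

/-- the first diagonal term -/
theorem hs_1 (h : Fam A B v C) : HasSum (fun n : ℤ => 2 / (Real.pi * n) * ‖fc A n‖ ^ 2)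
    (dm fun s t => ((sn (s - t) : ℝ) : ℂ) * ((A s + v s) * (starRingEnd ℂ) (A t))).im := by
  have h1 := Complex.hasSum_im (bil sn_BM (fun x => by rw [sn_per]) h.U h.BA)
  refine hsR_cong h1 fun n => ?_
  rcases Int.even_or_odd n with hn | hn
  · rw [h.a0 hn]; simp
  · rw [fc_sn hn.neg, h.fU, h.v0 hn, add_zero, im_sn]

/-- the second diagonal term -/
theorem hs_5 (h : Fam A B v C) : HasSum (fun n : ℤ => 2 / (Real.pi * n) * ‖fc B n‖ ^ 2)
    (dm fun s t => ((sn (s - t) : ℝ) : ℂ) * ((B s + v s) * (starRingEnd ℂ) (B t))).im := by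
  have h1 := Complex.hasSum_im (bil sn_BM (fun x => by rw [sn_per]) h.V h.BB)
  refine hsR_cong h1 fun n => ?_
  rcases Int.even_or_odd n with hn | hn
  · rw [h.b0 hn]; simp
  · rw [fc_sn hn.neg, h.fV, h.v0 hn, add_zero, im_sn]

theorem im_sw (n : ℤ) (y : ℝ) (w : ℂ) : (-(2 * Complex.I * (y : ℂ)) / (Real.pi * ((-n : ℤ) : ℂ)) * w).im =
    2 * y / (Real.pi * n) * w.re := by
  have e : -(2 * Complex.I * (y : ℂ)) / (Real.pi * ((-n : ℤ) : ℂ)) * w =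
      ((2 * y / (Real.pi * n) : ℝ) : ℂ) * (Complex.I * w) := by
    push_cast
    rw [mul_neg, neg_div_neg_eq]
    ring
  rw [e, Complex.im_ofReal_mul, Complex.I_mul_im]

theorem cos_nr (n : ℤ) (ρ : ℝ) : Real.cos (((-n : ℤ) : ℝ) * ρ) = Real.cos (n * ρ) := by
  push_cast
  rw [neg_mul, Real.cos_neg]

theorem hs_2 (h : Fam A B v C) (hw : WC c ρ) :
    HasSum (fun n : ℤ => 2 * Real.cos (n * ρ) / (Real.pi * n) *
      (ee ((n : ℝ) * c) * (fc A n * (starRingEnd ℂ) (fc B n))).re)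
    (dm fun s t => ((Sw ρ (s - t - c) : ℝ) : ℂ) * ((A s + v s) * (starRingEnd ℂ) (B t))).im := by
  have hp : ∀ x, (fun x : ℝ => ((Sw ρ x : ℝ) : ℂ)) (x + 2 * Real.pi) =
    (fun x : ℝ => ((Sw ρ x : ℝ) : ℂ)) x := fun x => by
      show ((Sw ρ (x + 2 * Real.pi) : ℝ) : ℂ) = ((Sw ρ x : ℝ) : ℂ)
      rw [Sw_per]
  have h1 := Complex.hasSum_im (bil ((Sw_BM ρ).sh c)
    (per_sh (k := fun x : ℝ => ((Sw ρ x : ℝ) : ℂ)) hp c) h.U h.BB)
  refine hsR_cong h1 fun n => ?_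
  rcases Int.even_or_odd n with hn | hn
  · rw [h.b0 hn]; simp
  · have h2 := fc_shift (k := fun x : ℝ => ((Sw ρ x : ℝ) : ℂ)) hp c (-n)
    rw [h2, fc_Sw hw.h0 hw.h1 hn.neg, h.fU, h.v0 hn, add_zero, cos_nr]
    have e2 : -((-n : ℤ) : ℝ) * c = (n : ℝ) * c := by push_cast; ring
    rw [e2, mul_comm (ee _) (-(2 * Complex.I * _) / _), mul_assoc, im_sw]

theorem hs_4 (h : Fam A B v C) (hw : WC c ρ) :
    HasSum (fun n : ℤ => -(2 * Real.cos (n * ρ) / (Real.pi * n) *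
      (ee ((n : ℝ) * c) * (fc A n * (starRingEnd ℂ) (fc B n))).re))
    (dm fun s t => ((Sw ρ (-(s - t) - c) : ℝ) : ℂ) * ((B s + v s) * (starRingEnd ℂ) (A t))).im := by
  have hp : ∀ x, (fun x : ℝ => ((Sw ρ x : ℝ) : ℂ)) (x + 2 * Real.pi) =
    (fun x : ℝ => ((Sw ρ x : ℝ) : ℂ)) x := fun x => by
      show ((Sw ρ (x + 2 * Real.pi) : ℝ) : ℂ) = ((Sw ρ x : ℝ) : ℂ)
      rw [Sw_per]
  have h1 := Complex.hasSum_im (bil ((Sw_BM ρ).rs c)
    (per_rs (k := fun x : ℝ => ((Sw ρ x : ℝ) : ℂ)) hp c) h.V h.BA)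
  refine hsR_cong h1 fun n => ?_
  rcases Int.even_or_odd n with hn | hn
  · rw [h.a0 hn]; simp
  · have h2 := fc_rs (k := fun x : ℝ => ((Sw ρ x : ℝ) : ℂ)) hp c (-n)
    have e3 : -(2 * Complex.I * (Real.cos (n * ρ) : ℂ)) / (Real.pi * (n : ℂ)) =
        -(2 * Complex.I * (Real.cos (n * ρ) : ℂ)) / (Real.pi * ((-(-n) : ℤ) : ℂ)) := by
      rw [neg_neg]
    rw [h2, neg_neg, fc_Sw hw.h0 hw.h1 hn, h.fV, h.v0 hn, add_zero, e3]
    have e2 : ((-n : ℤ) : ℝ) * c = -((n : ℝ) * c) := by push_cast; ring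
    rw [e2, mul_comm (ee _) (-(2 * Complex.I * _) / _), mul_assoc, im_sw]
    have e4 : (ee (-((n : ℝ) * c)) * (fc B n * (starRingEnd ℂ) (fc A n))).re =
        (ee ((n : ℝ) * c) * (fc A n * (starRingEnd ℂ) (fc B n))).re := by
      rw [← Complex.conj_re (ee ((n : ℝ) * c) * (fc A n * (starRingEnd ℂ) (fc B n)))]
      congr 1
      rw [map_mul, map_mul, Complex.conj_conj, conj_ee]
      ring
    rw [e4]
    push_cast
    rw [mul_neg, div_neg]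
    ring

theorem ee_im_neg (x : ℝ) : (ee (-x)).re = Real.cos x := by rw [ee_re, Real.cos_neg]

theorem hs_D (h : Fam A B v C) (hw : WC c ρ) :
    HasSum (fun n : ℤ => 4 / (Real.pi * n) * (1 - Real.cos (n * c) * Real.cos (n * ρ)) *
      ‖fc v n‖ ^ 2)
    ((dm fun s t => ((Dk c ρ (s - t) : ℝ) : ℂ) * ((A s + v s) * (starRingEnd ℂ) (v t))).im
      + (dm fun s t => ((Dl c ρ (s - t) : ℝ) : ℂ) * ((B s + v s) * (starRingEnd ℂ) (v t))).im) := by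
  have h1 := Complex.hasSum_im (bil (Dk_BM c ρ) (fun x => by rw [Dk_per]) h.U h.Bv)
  have h2 := Complex.hasSum_im (bil (Dl_BM c ρ) (fun x => by rw [Dl_per]) h.V h.Bv)
  refine hsR_cong (h1.add h2) fun n => ?_
  rw [fc_Dl, neg_neg, h.fU, h.fV]
  rcases Int.even_or_odd n with hn | hn
  · rw [h.a0 hn, h.b0 hn, zero_add, ← Complex.add_im, neg_mul, ← sub_eq_add_neg, ← sub_mul,
      Complex.mul_conj, Complex.normSq_eq_norm_sq]
    by_cases h0 : n = 0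
    · subst h0; simp
    · rw [fc_Dk hw hn.neg (neg_ne_zero.2 h0), fc_Dk hw hn h0, cos_nr]
      have e1 : -((-n : ℤ) : ℝ) * c = (n : ℝ) * c := by push_cast; ring
      have e2 : -(n : ℝ) * c = -((n : ℝ) * c) := by ring
      have h4 : ee (-((n : ℝ) * c)) = 2 * (Real.cos (n * c) : ℂ) - ee (n * c) := by
        rw [ee_eq, ee_eq, Real.cos_neg, Real.sin_neg]
        push_cast
        ring
      rw [e1, e2, h4]
      have e3 : (-(2 * Complex.I / (Real.pi * ((-n : ℤ) : ℂ))) *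
            (1 - ee ((n : ℝ) * c) * (Real.cos (n * ρ) : ℂ)) -
          -(2 * Complex.I / (Real.pi * (n : ℂ))) *
            (1 - (2 * (Real.cos (n * c) : ℂ) - ee (n * c)) * (Real.cos (n * ρ) : ℂ))) *
            ((‖fc v n‖ ^ 2 : ℝ) : ℂ) =
          ((4 / (Real.pi * n) * (1 - Real.cos (n * c) * Real.cos (n * ρ)) * ‖fc v n‖ ^ 2 : ℝ) : ℂ) *
            Complex.I := by
        push_cast
        rw [mul_neg, div_neg]
        ring
      rw [e3, Complex.im_ofReal_mul, Complex.I_im, mul_one]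
  · rw [h.v0 hn]; simp

theorem Et_jm {c3 c9 : ℂ} (b : ∀ s t, |Et c ρ c3 c9 s t| ≤ 1) :
    JM (fun s t => ((Et c ρ c3 c9 s t : ℝ) : ℂ)) 1 :=
  ⟨Complex.measurable_ofReal.comp (Et_meas c ρ c3 c9), fun s t => by
    rw [Complex.norm_real, Real.norm_eq_abs]; exact b s t⟩

theorem Es_jm {c3 c9 : ℂ} (b : ∀ s t, |Es c ρ c3 c9 s t| ≤ 1) :
    JM (fun s t => ((Es c ρ c3 c9 s t : ℝ) : ℂ)) 1 :=
  ⟨Complex.measurable_ofReal.comp (Es_meas c ρ c3 c9), fun s t => by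
    rw [Complex.norm_real, Real.norm_eq_abs]; exact b s t⟩

theorem sn_re (y : ℝ) (a w w' : ℂ) (h : ((y : ℝ) : ℂ) * w = w') : y * (a * w).re = (a * w').re := by
  rw [← h, ← Complex.re_ofReal_mul]
  congr 1
  ring

theorem sn_Et (hw : WC c ρ) (c3 c9 : ℂ) (s t : ℝ) : sn (s - t) * Et c ρ c3 c9 s t =
    Dk c ρ (s - t) + (c3 * ee (3 * t) * (fun x => -wm ρ 3 (x - c)) (s - t)).re
      + (c9 * ee (9 * t) * (fun x => -wm ρ 9 (x - c)) (s - t)).re := by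
  unfold Et Dk
  rw [mul_add, mul_add, sn_re _ _ _ _ (sn_wp hw 3 (s - t)), sn_re _ _ _ _ (sn_wp hw 9 (s - t))]

theorem sn_Es (hw : WC c ρ) (c3 c9 : ℂ) (s t : ℝ) : sn (s - t) * Es c ρ c3 c9 s t =
    Dl c ρ (s - t) + (c3 * ee (3 * s) * (fun x => wp ρ 3 (-x - c)) (s - t)).re
      + (c9 * ee (9 * s) * (fun x => wp ρ 9 (-x - c)) (s - t)).re := by
  unfold Es Dl
  rw [mul_add, mul_add, sn_re _ _ _ _ (sn_wm hw 3 (s - t)), sn_re _ _ _ _ (sn_wm hw 9 (s - t))]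

theorem dm6 {F1 F2 F3 F4 F5 F6 : ℝ → ℝ → ℂ} {k1 k2 k3 k4 k5 k6 : ℝ} (h1 : JM F1 k1) (h2 : JM F2 k2)
    (h3 : JM F3 k3) (h4 : JM F4 k4) (h5 : JM F5 k5) (h6 : JM F6 k6) :
    dm (fun s t => (1 / 2 : ℂ) * (F1 s t + (-1 : ℂ) * F2 s t + F3 s t + F4 s t + F5 s t + F6 s t)) =
      1 / 2 * (dm F1 - dm F2 + dm F3 + dm F4 + dm F5 + dm F6) := by
  rw [dm_cmul, dm_add ((((h1.add (h2.cmul (-1))).add h3).add h4).add h5) h6,
    dm_add (((h1.add (h2.cmul (-1))).add h3).add h4) h5,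
    dm_add ((h1.add (h2.cmul (-1))).add h3) h4, dm_add (h1.add (h2.cmul (-1))) h3,
    dm_add h1 (h2.cmul (-1)), dm_cmul]
  ring

/-- The window selection for abstract families. -/
theorem win_gen (h : Fam A B v C) (hq : QQ A B v) (hw : WC c ρ) {c3 c9 : ℂ}
    (b1 : ∀ s t, |Et c ρ c3 c9 s t| ≤ 1) (b2 : ∀ s t, |Es c ρ c3 c9 s t| ≤ 1) :
    ∃ S1 S2 P3 M3 P9 M9 : ℝ,
      HasSum (fun n : ℤ => (‖fc A n‖ ^ 2 + ‖fc B n‖ ^ 2) / n - 2 * Real.cos (n * ρ) / n *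
        (ee ((n : ℝ) * c) * (fc A n * (starRingEnd ℂ) (fc B n))).re) S1 ∧
      HasSum (fun n : ℤ => 2 / (n : ℝ) * (1 - Real.cos (n * c) * Real.cos (n * ρ)) * ‖fc v n‖ ^ 2) S2 ∧
      HasSum (fun n : ℤ => RR ρ (2 * n + 3) * (c3 * (starRingEnd ℂ) (fc v (n + 3)) *
        (ee (-((n + 3 : ℤ) : ℝ) * c) * fc B n - ee ((n : ℝ) * c) * fc A n)).im) P3 ∧
      HasSum (fun n : ℤ => RR ρ (2 * n - 3) * (c3 * fc v (n - 3) *
        (ee (-(n : ℝ) * c) * (starRingEnd ℂ) (fc A n)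
          - ee (((n - 3 : ℤ) : ℝ) * c) * (starRingEnd ℂ) (fc B n))).im) M3 ∧
      HasSum (fun n : ℤ => RR ρ (2 * n + 9) * (c9 * (starRingEnd ℂ) (fc v (n + 9)) *
        (ee (-((n + 9 : ℤ) : ℝ) * c) * fc B n - ee ((n : ℝ) * c) * fc A n)).im) P9 ∧
      HasSum (fun n : ℤ => RR ρ (2 * n - 9) * (c9 * fc v (n - 9) *
        (ee (-(n : ℝ) * c) * (starRingEnd ℂ) (fc A n)
          - ee (((n - 9 : ℤ) : ℝ) * c) * (starRingEnd ℂ) (fc B n))).im) M9 ∧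
      S1 + S2 + 1 / 2 * (P3 + M3 + P9 + M9) ≤
        1 / 4 * (1 / (2 * Real.pi)) ^ 2 * ∫ a in (0 : ℝ)..(2 * Real.pi), ∫ b in (0 : ℝ)..(2 * Real.pi),
          ∑ k, ∑ l, kr (qq A B v a k) (qq A B v b l) := by
  have hpi := Real.pi_pos
  have hsel := sel_gen h hq (Et_meas c ρ c3 c9) (Es_meas c ρ c3 c9) b1 b2 (Et_per c ρ c3 c9)
    (Es_per c ρ c3 c9)
  set X1 := dm fun s t => ((sn (s - t) : ℝ) : ℂ) * ((A s + v s) * (starRingEnd ℂ) (A t)) with hX1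
  set X5 := dm fun s t => ((sn (s - t) : ℝ) : ℂ) * ((B s + v s) * (starRingEnd ℂ) (B t)) with hX5
  set Y2 := dm fun s t => ((Sw ρ (s - t - c) : ℝ) : ℂ) * ((A s + v s) * (starRingEnd ℂ) (B t)) with hY2
  set Y4 := dm fun s t => ((Sw ρ (-(s - t) - c) : ℝ) : ℂ) * ((B s + v s) * (starRingEnd ℂ) (A t))
    with hY4
  set Y3 := dm fun s t => ((Dk c ρ (s - t) : ℝ) : ℂ) * ((A s + v s) * (starRingEnd ℂ) (v t)) with hY3
  set Y6 := dm fun s t => ((Dl c ρ (s - t) : ℝ) : ℂ) * ((B s + v s) * (starRingEnd ℂ) (v t)) with hY6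
  -- the evaluation
  have e2 := evt (k := fun x => Sw ρ (x - c)) (w3 := fun x => wp ρ 3 (x - c))
    (w9 := fun x => wp ρ 9 (x - c)) ((Sw_BM ρ).sh c) ((wp_BM ρ 3).sh c) ((wp_BM ρ 9).sh c) h.U h.BB
    c3 c9
  have e3 := evt (k := Dk c ρ) (w3 := fun x => -wm ρ 3 (x - c))
    (w9 := fun x => -wm ρ 9 (x - c)) (Dk_BM c ρ) ((wm_BM ρ 3).sh c).ng ((wm_BM ρ 9).sh c).ng h.U h.Bv
    c3 c9
  have e4 := evs (k := fun x => Sw ρ (-x - c)) (w3 := fun x => wm ρ 3 (-x - c))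
    (w9 := fun x => wm ρ 9 (-x - c)) ((Sw_BM ρ).rs c) ((wm_BM ρ 3).rs c) ((wm_BM ρ 9).rs c) h.V h.BA
    c3 c9
  have e6 := evs (k := Dl c ρ) (w3 := fun x => wp ρ 3 (-x - c))
    (w9 := fun x => wp ρ 9 (-x - c)) (Dl_BM c ρ) ((wp_BM ρ 3).rs c) ((wp_BM ρ 9).rs c) h.V h.Bv
    c3 c9
  have hΦ : dm (fun s t => Ps0 A B v (Et c ρ c3 c9) s t + Ps5 A B v (Es c ρ c3 c9) s t) =
      1 / 2 * ((X1 - Y2 + Y3 + Y4 + X5 + Y6) + GP A B v c ρ 3 c3 + GM A B v c ρ 3 c3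
        + GP A B v c ρ 9 c9 + GM A B v c ρ 9 c9) := by
    have j1 : JM (fun s t => ((sn (s - t) : ℝ) : ℂ) * ((A s + v s) * (starRingEnd ℂ) (A t)))
        (1 * ((C + C) * C)) := sn_BM.d.mul (h.U.l.mul h.BA.conj.r)
    have j5 : JM (fun s t => ((sn (s - t) : ℝ) : ℂ) * ((B s + v s) * (starRingEnd ℂ) (B t)))
        (1 * ((C + C) * C)) := sn_BM.d.mul (h.V.l.mul h.BB.conj.r)
    have j2 : JM (fun s t => ((Et c ρ c3 c9 s t : ℝ) : ℂ) * ((A s + v s) * (starRingEnd ℂ) (B t)))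
        (1 * ((C + C) * C)) := (Et_jm b1).mul (h.U.l.mul h.BB.conj.r)
    have j4 : JM (fun s t => ((Es c ρ c3 c9 s t : ℝ) : ℂ) * ((B s + v s) * (starRingEnd ℂ) (A t)))
        (1 * ((C + C) * C)) := (Es_jm b2).mul (h.V.l.mul h.BA.conj.r)
    have j3 : JM (fun s t => ((sn (s - t) * Et c ρ c3 c9 s t : ℝ) : ℂ) *
        ((A s + v s) * (starRingEnd ℂ) (v t))) (1 * 1 * ((C + C) * C)) := by
      have := (sn_BM.d.mul (Et_jm b1)).mul (h.U.l.mul h.Bv.conj.r)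
      simpa only [Complex.ofReal_mul] using this
    have j6 : JM (fun s t => ((sn (s - t) * Es c ρ c3 c9 s t : ℝ) : ℂ) *
        ((B s + v s) * (starRingEnd ℂ) (v t))) (1 * 1 * ((C + C) * C)) := by
      have := (sn_BM.d.mul (Es_jm b2)).mul (h.V.l.mul h.Bv.conj.r)
      simpa only [Complex.ofReal_mul] using this
    have h6 := dm6 j1 j2 j3 j4 j5 j6
    have ep : (fun s t => Ps0 A B v (Et c ρ c3 c9) s t + Ps5 A B v (Es c ρ c3 c9) s t) =
        fun s t => (1 / 2 : ℂ) * (((sn (s - t) : ℝ) : ℂ) * ((A s + v s) * (starRingEnd ℂ) (A t))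
          + (-1 : ℂ) * (((Et c ρ c3 c9 s t : ℝ) : ℂ) * ((A s + v s) * (starRingEnd ℂ) (B t)))
          + ((sn (s - t) * Et c ρ c3 c9 s t : ℝ) : ℂ) * ((A s + v s) * (starRingEnd ℂ) (v t))
          + ((Es c ρ c3 c9 s t : ℝ) : ℂ) * ((B s + v s) * (starRingEnd ℂ) (A t))
          + ((sn (s - t) : ℝ) : ℂ) * ((B s + v s) * (starRingEnd ℂ) (B t))
          + ((sn (s - t) * Es c ρ c3 c9 s t : ℝ) : ℂ) * ((B s + v s) * (starRingEnd ℂ) (v t))) := by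
      funext s t
      unfold Ps0 Ps5 yy
      simp only [map_sub, map_add, map_mul, Complex.conj_ofReal, map_div₀, map_one, map_ofNat]
      push_cast
      ring
    rw [ep, h6]
    have k3 : (fun s t => ((sn (s - t) * Et c ρ c3 c9 s t : ℝ) : ℂ) *
        ((A s + v s) * (starRingEnd ℂ) (v t))) = fun s t =>
        ((Dk c ρ (s - t) + (c3 * ee (3 * t) * (fun x => -wm ρ 3 (x - c)) (s - t)).re
      + (c9 * ee (9 * t) * (fun x => -wm ρ 9 (x - c)) (s - t)).re : ℝ) : ℂ) *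
        ((fun t => A t + v t) s * (starRingEnd ℂ) (v t)) := by
      funext s t
      rw [sn_Et hw]
    have k6 : (fun s t => ((sn (s - t) * Es c ρ c3 c9 s t : ℝ) : ℂ) *
        ((B s + v s) * (starRingEnd ℂ) (v t))) = fun s t =>
        ((Dl c ρ (s - t) + (c3 * ee (3 * s) * (fun x => wp ρ 3 (-x - c)) (s - t)).re
      + (c9 * ee (9 * s) * (fun x => wp ρ 9 (-x - c)) (s - t)).re : ℝ) : ℂ) *
        ((fun t => B t + v t) s * (starRingEnd ℂ) (v t)) := by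
      funext s t
      rw [sn_Es hw]
    have k2 : (fun s t => ((Et c ρ c3 c9 s t : ℝ) : ℂ) *
        ((A s + v s) * (starRingEnd ℂ) (B t))) = fun s t =>
        (((fun x => Sw ρ (x - c)) (s - t) + (c3 * ee (3 * t) * (fun x => wp ρ 3 (x - c)) (s - t)).re
      + (c9 * ee (9 * t) * (fun x => wp ρ 9 (x - c)) (s - t)).re : ℝ) : ℂ) *
        ((fun t => A t + v t) s * (starRingEnd ℂ) (B t)) := rfl
    have k4 : (fun s t => ((Es c ρ c3 c9 s t : ℝ) : ℂ) *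
        ((B s + v s) * (starRingEnd ℂ) (A t))) = fun s t =>
        (((fun x => Sw ρ (-x - c)) (s - t) + (c3 * ee (3 * s) * (fun x => wm ρ 3 (-x - c)) (s - t)).re
      + (c9 * ee (9 * s) * (fun x => wm ρ 9 (-x - c)) (s - t)).re : ℝ) : ℂ) *
        ((fun t => B t + v t) s * (starRingEnd ℂ) (A t)) := rfl
    rw [k2, k3, k4, k6, e2, e3, e4, e6]
    unfold GP GM
    simp only [Nat.cast_ofNat]
    ring
  have hP3 := (hs_P h hw (q := 3) (by decide) c3).mul_left Real.pi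
  have hM3 := (hs_M h hw (q := 3) (by decide) c3).mul_left Real.pi
  have hP9 := (hs_P h hw (q := 9) (by decide) c9).mul_left Real.pi
  have hM9 := (hs_M h hw (q := 9) (by decide) c9).mul_left Real.pi
  have hS1 := (((hs_1 h).add (hs_5 h)).add ((hs_4 h hw).sub (hs_2 h hw))).mul_left (Real.pi / 2)
  have hS2 := (hs_D h hw).mul_left (Real.pi / 2)
  simp only [Nat.cast_ofNat] at hP3 hM3 hP9 hM9
  refine ⟨_, _, _, _, _, _, hsR_cong hS1 fun n => ?_, hsR_cong hS2 fun n => ?_,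
    hsR_cong hP3 fun n => ?_, hsR_cong hM3 fun n => ?_, hsR_cong hP9 fun n => ?_,
    hsR_cong hM9 fun n => ?_, ?_⟩
  · by_cases hn : (n : ℝ) = 0
    · simp [hn]
    · field_simp
      ring
  · by_cases hn : (n : ℝ) = 0
    · simp [hn]
    · field_simp
      ring
  · field_simp
  · field_simp
  · field_simp
  · field_simp
  · refine le_trans (le_of_eq ?_) hsel
    rw [hΦ]
    have e5 : (1 / 2 : ℂ) * ((X1 - Y2 + Y3 + Y4 + X5 + Y6) + GP A B v c ρ 3 c3 + GM A B v c ρ 3 c3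
        + GP A B v c ρ 9 c9 + GM A B v c ρ 9 c9) = ((1 / 2 : ℝ) : ℂ) *
        ((X1 - Y2 + Y3 + Y4 + X5 + Y6) + GP A B v c ρ 3 c3 + GM A B v c ρ 3 c3
        + GP A B v c ρ 9 c9 + GM A B v c ρ 9 c9) := by push_cast; ring
    rw [e5, Complex.im_ofReal_mul]
    simp only [Complex.add_im, Complex.sub_im]
    ring

end

end Helper87.RC
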