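import Pool.Agent.Helper49.RC.Defs

/-!
# Project RC: the Fourier form `FM` as a double mean of an explicit kernel (modules SAW, KER)

`kr z z' = (π - {Φ}) |z| |z'| sin Φ`, where `Φ` is the angle from `z` to `z'`.
-/

open MeasureTheory Set Filter Metric

namespace Helper87.RC

open Helper49.LT Helper49.RC

/-- the kernel: with `w = z' conj z`, `(π - |arg w|) |Im w|` -/
noncomputable def kr (z z' : ℂ) : ℝ :=
  (Real.pi - |(z' * (starRingEnd ℂ) z).arg|) * |(z' * (starRingEnd ℂ) z).im|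

/-- the argument normalized to `[0, 2π)` -/
noncomputable def an (z : ℂ) : ℝ := if 0 ≤ z.arg then z.arg else z.arg + 2 * Real.pi

/-- the three edges -/
noncomputable def e3 (β P : ℝ → ℂ) (t : ℝ) : Fin 3 → ℂ :=
  ![ee t * f0 (β t), ee t * f1 (β t) (P t), ee t * f2 (β t) (P t)]

/-- the six edges of the closed hexagon of the direction `t` (the arguments in `Psi`) -/
noncomputable def e6 (β P : ℝ → ℂ) (t : ℝ) : Fin 6 → ℂ :=
  ![ee t * f0 (β t), ee t * f1 (β t) (P t), ee t * f2 (β t) (P t),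
    -(ee t * f0 (β t)), -(ee t * f1 (β t) (-P t)), -(ee t * f2 (β t) (-P t))]

/-- MODULE SAW. -/
def StSaw : Prop := ∀ x : ℝ, |x| ≤ Real.pi →
  HasSum (fun n : ℕ => 2 * Real.cos (((n : ℝ) + 2) * x) / (((n : ℝ) + 2) ^ 2 - 1))
    (1 + Real.cos x / 2 - (Real.pi - |x|) * Real.sin |x|)

/-- MODULE KER. The moment of order one vanishes, and `FM` is the double mean of the kernel over the
three edges plus the second harmonic. -/
def StKer : Prop := ∀ β P : ℝ → ℂ, Adm β P →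
  sg β P 1 = 0 ∧
  Measurable (fun q : ℝ × ℝ => ∑ k, ∑ l, kr (e3 β P q.1 k) (e3 β P q.2 l)) ∧
  (∃ C : ℝ, ∀ t s, |∑ k, ∑ l, kr (e3 β P t k) (e3 β P s l)| ≤ C) ∧
  FM β P = 2 / 3 * ‖sg β P 2‖ ^ 2 + (1 / (2 * Real.pi)) ^ 2 *
    ∫ t in (0 : ℝ)..(2 * Real.pi), ∫ s in (0 : ℝ)..(2 * Real.pi),
      ∑ k, ∑ l, kr (e3 β P t k) (e3 β P s l)

/-- MODULE KR6. The same with six edges. -/
def StKr6 : Prop := ∀ β P : ℝ → ℂ, Adm β P →
  Measurable (fun q : ℝ × ℝ => ∑ k, ∑ l, kr (e6 β P q.1 k) (e6 β P q.2 l)) ∧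
  (∃ C : ℝ, ∀ t s, |∑ k, ∑ l, kr (e6 β P t k) (e6 β P s l)| ≤ C) ∧
  FM β P = 2 / 3 * ‖sg β P 2‖ ^ 2 + 1 / 4 * (1 / (2 * Real.pi)) ^ 2 *
    ∫ t in (0 : ℝ)..(2 * Real.pi), ∫ s in (0 : ℝ)..(2 * Real.pi),
      ∑ k, ∑ l, kr (e6 β P t k) (e6 β P s l)

/-- MODULE CLS (closure). For closed families `p` and `p'` the kernel sum is `2π` times the sum over `l`
of the value of `p' l` at a vertex of the polygon with the edges `p`. -/
def StCls : Prop := ∀ (n m : ℕ) (p : Fin n → ℂ) (p' : Fin m → ℂ), ∑ k, p k = 0 → ∑ l, p' l = 0 →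
  ∑ k, ∑ l, kr (p k) (p' l) = 2 * Real.pi * ∑ l, ∑ k,
    (if an (p k) ≤ an (p' l) then (p' l * (starRingEnd ℂ) (p k)).im else 0)

/-- MODULE BAS. The same with an arbitrary base direction `a` for the order of the edges. -/
def StBas : Prop := ∀ (n m : ℕ) (p : Fin n → ℂ) (p' : Fin m → ℂ) (a : ℝ),
  ∑ k, p k = 0 → ∑ l, p' l = 0 →
  ∑ k, ∑ l, kr (p k) (p' l) = 2 * Real.pi * ∑ l, ∑ k,
    (if an (p k * ee (-a)) ≤ an (p' l * ee (-a)) then (p' l * (starRingEnd ℂ) (p k)).im else 0)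

end Helper87.RC
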